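import Pool.Agent.Poonen.Defs

/-!
# Statements of the packages (MP_7564fc_nt)
-/

namespace Poonen

open Finset

/-! ### Part A : basics -/

/-- A1. A point of exact period `N > 0` gives a `Cyc`. -/
def S_A1 : Prop := ∀ (c x : ℚ) (N : ℕ), 0 < N →
  Function.minimalPeriod (fun y : ℚ => y ^ 2 + c) x = N →
  Cyc c N (fun i => (fun y : ℚ => y ^ 2 + c)^[i] x)

/-- A2. In a domain, `x_i + x_j ≠ 0` and the product of the sums over the cycle is `1`. -/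
def S_A2 : Prop := ∀ (R : Type) [CommRing R] [IsDomain R] (C : R) (N : ℕ) (X : ℕ → R),
  Cyc C N X → ∀ i j, i % N ≠ j % N →
    X i + X j ≠ 0 ∧ ∏ t ∈ range N, (X (i + t) + X (j + t)) = 1

/-! ### Part B : good primes -/

/-- B1. At a good prime the cycle is integral. -/
def S_B1 : Prop := ∀ (c : ℚ) (N : ℕ) (X : ℕ → ℚ), Cyc c N X → ∀ (p : ℕ) [Fact p.Prime],
  ¬ p ∣ c.den → ∃ (C : ℤ_[p]) (a : ℕ → ℤ_[p]),
    Cyc C N a ∧ (C : ℚ_[p]) = (c : ℚ_[p]) ∧ ∀ i, (a i : ℚ_[p]) = (X i : ℚ_[p])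

/-- B2. Step lemma (all primes `p`): for a proper divisor `M` of `N` with `a_M ≡ a_0 (mod p)`,
the geometric sum of the multiplier of `M` steps vanishes modulo `p`. -/
def S_B2 : Prop := ∀ (p : ℕ) [Fact p.Prime] (C : ℤ_[p]) (N : ℕ) (a : ℕ → ℤ_[p]), Cyc C N a →
  ∀ M m : ℕ, N = M * m → 0 < M → 1 < m →
    PadicInt.toZMod (a M) = PadicInt.toZMod (a 0) →
    ∑ k ∈ range m, (∏ i ∈ range M, 2 * (PadicInt.toZMod (a i) : ZMod p)) ^ k = 0

/-- B3. No step of index `p` with multiplier `1` for `p ≥ 5`. -/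
def S_B3 : Prop := ∀ (p : ℕ) [Fact p.Prime] (C : ℤ_[p]) (N : ℕ) (a : ℕ → ℤ_[p]), Cyc C N a →
  5 ≤ p → ∀ M : ℕ, N = M * p →
    PadicInt.toZMod (a M) = PadicInt.toZMod (a 0) →
    ∏ i ∈ range M, 2 * (PadicInt.toZMod (a i) : ZMod p) ≠ 1

/-- B4. The exact period over `ℤ_[p]`, `p ≥ 5`, in terms of the reduction. -/
def S_B4 : Prop := ∀ (p : ℕ) [Fact p.Prime] (C : ℤ_[p]) (N : ℕ) (a : ℕ → ℤ_[p]), Cyc C N a →
  5 ≤ p → ∀ l : ℕ,
    Function.minimalPeriod (fun y : ZMod p => y ^ 2 + PadicInt.toZMod C) (PadicInt.toZMod (a 0)) = l →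
    N = l ∨ ((∏ i ∈ range l, 2 * (PadicInt.toZMod (a i) : ZMod p)) ≠ 1 ∧
      N = l * orderOf (∏ i ∈ range l, 2 * (PadicInt.toZMod (a i) : ZMod p)))

/-- B5. `p = 2` good. -/
def S_B5 : Prop := ∀ (C : ℤ_[2]) (N : ℕ) (a : ℕ → ℤ_[2]), Cyc C N a → N ≤ 2

/-- B6. `p = 3` good. -/
def S_B6 : Prop := ∀ (C : ℤ_[3]) (N : ℕ) (a : ℕ → ℤ_[3]), Cyc C N a → N ≤ 3

/-- B7. Correctness of the computable function `periods`. -/
def S_B7 : Prop := ∀ (p : ℕ) [Fact p.Prime] (C x : ZMod p) (l : ℕ), 0 < l →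
  Function.minimalPeriod (fun y : ZMod p => y ^ 2 + C) x = l →
  l ∈ periods p C.val x.val ∧
  ((∏ i ∈ range l, 2 * ((fun y : ZMod p => y ^ 2 + C)^[i] x)) ≠ 1 →
    0 < orderOf (∏ i ∈ range l, 2 * ((fun y : ZMod p => y ^ 2 + C)^[i] x)) →
    l * orderOf (∏ i ∈ range l, 2 * ((fun y : ZMod p => y ^ 2 + C)^[i] x)) ∈
      periods p C.val x.val)

/-- B8. Conclusion of part B for `p ≥ 5`. -/
def S_B8 : Prop := ∀ (p : ℕ) [Fact p.Prime] (C : ℤ_[p]) (N : ℕ) (a : ℕ → ℤ_[p]), Cyc C N a →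
  5 ≤ p → N ∈ periods p (PadicInt.toZMod C : ZMod p).val (PadicInt.toZMod (a 0) : ZMod p).val

/-! ### Part C : bad primes -/

/-- C1. At a bad prime all points of the cycle have the same valuation `v(c) / 2`. -/
def S_C1 : Prop := ∀ (c : ℚ) (N : ℕ) (X : ℕ → ℚ), Cyc c N X → ∀ t : ℕ, t.Prime → t ∣ c.den →
  ∀ i, X i ≠ 0 ∧ 2 * padicValRat t (X i) = padicValRat t c ∧ padicValRat t (X i) < 0

/-- C2. The valuations of the sums at a bad prime are given by a word. -/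
def S_C2 : Prop := ∀ (c : ℚ) (N : ℕ) (X : ℕ → ℚ), Cyc c N X → ∀ t : ℕ, t.Prime → t ∣ c.den →
  ∃ (K : ℤ) (w : ℕ → Bool), IsWord N w ∧
    ∀ i j, i % N ≠ j % N → padicValRat t (X i + X j) = K * ew N w i j

/-! ### Part D : combination at a good prime -/

/-- D1. If all bad primes are harmless for `y`, then the product is `1`. -/
def S_D1 : Prop := ∀ (c : ℚ) (N : ℕ) (X : ℕ → ℚ), Cyc c N X → ∀ (p : ℕ) [Fact p.Prime],
  ¬ p ∣ c.den → ∀ (C : ℤ_[p]) (a : ℕ → ℤ_[p]), Cyc C N a →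
  (∀ i, (a i : ℚ_[p]) = (X i : ℚ_[p])) →
  ∀ (q m : ℕ), Even m → m * q = p - 1 → ∀ y : ℕ → ℕ → ℕ,
  (∀ t ∈ c.den.primeFactors, ((t : ZMod p) ^ m = 1) ∨
    (q : ℤ) ∣ ∑ i ∈ range N, ∑ j ∈ range i, (y j i : ℤ) * padicValRat t (X j + X i)) →
  ∏ i ∈ range N, ∏ j ∈ range i,
    ((PadicInt.toZMod (a j) : ZMod p) + PadicInt.toZMod (a i)) ^ (m * y j i) = 1

/-! ### Part E : the computable checks -/

/-- E1. Every word is in the table. -/
def S_E1 : Prop := ∀ (q N : ℕ), 0 < q → 0 < N → ∀ w : ℕ → Bool, IsWord N w →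
  ∃ W : ℕ, (∀ i, w i = wd N W i) ∧ (W / 2, expsq q N W) ∈ wtable q N

/-- E2. Soundness of the covering check. -/
def S_E2 : Prop := ∀ (masks els : List ℕ) (k : ℕ), cover masks els k 0 0 = true →
  ∀ L : List ℕ, L.length ≤ k → (∀ e ∈ L, e ∈ els) →
    ∃ m ∈ masks, ∀ e ∈ L, m.testBit e = true

/-- E3. Meaning of the bits of `maskOf` (the indices in the table are distinct). -/
def S_E3 : Prop := ∀ (q : ℕ) (tab : List (ℕ × List ℕ)) (y : List ℕ) (e : ℕ × List ℕ), e ∈ tab →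
  (tab.map Prod.fst).Nodup → (maskOf q tab y).testBit e.1 = true → dotL e.2 y % q = 0

/-- E4. Meaning of `prodPow`. -/
def S_E4 : Prop := ∀ (p : ℕ) [Fact p.Prime] (m N : ℕ) (C x : ZMod p) (b : ℕ → ZMod p),
  b 0 = x → (∀ i, b (i + 1) = b i ^ 2 + C) → ∀ y : List ℕ, y.length = (pairs N).length →
  ((prodPow p m (orbL p C.val N x.val) (pairs N) y : ℕ) : ZMod p) =
    ∏ i ∈ range N, ∏ j ∈ range i, (b j + b i) ^ (m * y.getD (i * (i - 1) / 2 + j) 0)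

/-- E5. Meaning of the dot product with the exponent vectors. -/
def S_E5 : Prop := ∀ (q N : ℕ) (W : ℕ), 0 < q → ∀ y : List ℕ, y.length = (pairs N).length →
  (q : ℤ) ∣ (dotL (expsq q N W) y : ℤ) -
    ∑ i ∈ range N, ∑ j ∈ range i, (y.getD (i * (i - 1) / 2 + j) 0 : ℤ) * ew N (wd N W) j i

/-- E6. Completeness of the list of local types. -/
def S_E6 : Prop := ∀ (N p : ℕ) [Fact p.Prime] (cert : List (ℕ × ℕ)), 5 ≤ p →
  chkTypes N p cert = true → ∀ (C : ℤ_[p]) (a : ℕ → ℤ_[p]), Cyc C N a →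
  ∃ s < N, ((PadicInt.toZMod C : ZMod p).val, (PadicInt.toZMod (a s) : ZMod p).val) ∈ cert

/-! ### Part F : exact period 4 (all `c`), N = 4 -/

/-- F1. Morton: no rational point of exact period `4`. -/
def S_F1 : Prop := ∀ c x : ℚ, Function.minimalPeriod (fun y : ℚ => y ^ 2 + c) x ≠ 4

end Poonen
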