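import Mathlib
import Pool.Agent.Poonen.Stmts

/-!
# Part A : basics
-/

namespace Poonen

open Finset Function

/-- A1 -/
theorem pf_A1 : S_A1 := by
  intro c x N hN hper
  refine ⟨hN, ?_, ?_⟩
  · intro i
    rw [iterate_succ_apply']
  · intro i j
    have key : ∀ i, (fun y : ℚ => y ^ 2 + c)^[i] x = (fun y : ℚ => y ^ 2 + c)^[i % N] x := by
      intro i
      rw [← hper]
      exact (iterate_mod_minimalPeriod_eq).symm
    constructor
    · intro h
      rw [key i, key j] at h
      exact (iterate_eq_iterate_iff_of_lt_minimalPeriod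
        (by rw [hper]; exact Nat.mod_lt _ hN) (by rw [hper]; exact Nat.mod_lt _ hN)).1 h
    · intro h
      rw [key i, key j, h]

/-- A2 -/
theorem pf_A2 : S_A2 := by
  intro R _ _ C N X h i j hij
  have hmod : ∀ t, (i + t) % N ≠ (j + t) % N := by
    intro t ht
    exact hij (Nat.ModEq.add_right_cancel' t ht)
  have hne : ∀ t, X (i + t) - X (j + t) ≠ 0 := by
    intro t ht
    exact hmod t ((h.eq_iff _ _).1 (sub_eq_zero.1 ht))
  have hstep : ∀ t, (X (i + t) - X (j + t)) * (X (i + t) + X (j + t)) =
      X (i + (t + 1)) - X (j + (t + 1)) := by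
    intro t
    rw [← add_assoc, ← add_assoc, h.step, h.step]
    ring
  have hprod : ∀ n, (X i - X j) * ∏ t ∈ range n, (X (i + t) + X (j + t)) =
      X (i + n) - X (j + n) := by
    intro n
    induction n with
    | zero => simp
    | succ n ih => rw [prod_range_succ, ← mul_assoc, ih, hstep]
  constructor
  · intro h0
    have h1 := hstep 0
    simp only [add_zero, zero_add] at h1
    rw [h0, mul_zero] at h1
    exact hne 1 h1.symm
  · have h1 := hprod N
    have h2 : X (i + N) = X i := (h.eq_iff _ _).2 (by simp)
    have h3 : X (j + N) = X j := (h.eq_iff _ _).2 (by simp)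
    rw [h2, h3] at h1
    have h4 : (X i - X j) * ∏ t ∈ range N, (X (i + t) + X (j + t)) = (X i - X j) * 1 := by
      rw [h1, mul_one]
    have h5 := hne 0
    simp only [add_zero] at h5
    exact mul_left_cancel₀ h5 h4

end Poonen
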