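import Pool.Agent.Poonen.Stmts

/-!
# Assembly (MP_7564fc_nt) : the finite check excludes a period
-/

namespace Poonen

open Finset

theorem Cyc.shift {R : Type*} [CommRing R] {C : R} {N : ℕ} {X : ℕ → R} (h : Cyc C N X) (s : ℕ) :
    Cyc C N (fun i => X (i + s)) where
  pos := h.pos
  step i := by
    have := h.step (i + s)
    rw [← this]
    congr 1
    omega
  eq_iff i j := by
    rw [h.eq_iff]
    constructor
    · intro e
      exact Nat.ModEq.add_right_cancel' s e
    · intro e
      exact Nat.ModEq.add_right s e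

/-- The finite check for `(N, p, q, m, k)` excludes period `N` when `p` is good and at most `k` bad
primes are not `q`-th powers modulo `p`. -/
theorem type_contra (hB1 : S_B1) (hC2 : S_C2) (hD1 : S_D1) (hE1 : S_E1) (hE2 : S_E2)
    (hE3 : S_E3) (hE4 : S_E4) (hE5 : S_E5) (hE6 : S_E6)
    (N p q m k : ℕ) [hp : Fact p.Prime] (hp5 : 5 ≤ p) (hq : 0 < q) (hm : Even m)
    (hmq : m * q = p - 1) (cert : List (ℕ × ℕ × List (List ℕ)))
    (hchk : (cert.all fun e => chkType N p q m k (wtable q N) e.1 e.2.1 e.2.2) = true)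
    (hlen : (cert.all fun e => e.2.2.all fun y => y.length == (pairs N).length) = true)
    (hnd : ((wtable q N).map Prod.fst).Nodup)
    (htyp : chkTypes N p (cert.map fun e => (e.1, e.2.1)) = true)
    (c : ℚ) (X : ℕ → ℚ) (hX : Cyc c N X) (hgood : ¬ p ∣ c.den)
    (hk : (c.den.primeFactors.filter fun t : ℕ => ((t : ZMod p) ^ m ≠ 1)).card ≤ k) : False := by
  classical
  obtain ⟨C, a, ha, hCc, haX⟩ := hB1 c N X hX p hgood
  obtain ⟨s, hs, hmem⟩ := hE6 N p _ hp5 htyp C a ha
  rw [List.mem_map] at hmem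
  obtain ⟨⟨C0, x0, ys⟩, hecert, heq⟩ := hmem
  simp only [Prod.mk.injEq] at heq
  obtain ⟨hC0, hx0⟩ := heq
  have hX' := hX.shift s
  have ha' := ha.shift s
  rw [List.all_eq_true] at hchk hlen
  have h1 := hchk _ hecert
  have h2 := hlen _ hecert
  simp only [chkType, Bool.and_eq_true, List.all_eq_true] at h1 h2
  obtain ⟨h1a, h1b⟩ := h1
  -- the words
  set F := c.den.primeFactors.filter fun t : ℕ => ((t : ZMod p) ^ m ≠ 1) with hF
  have hw : ∀ t : F, ∃ (K : ℤ) (W : ℕ), (W / 2, expsq q N W) ∈ wtable q N ∧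
      ∀ i j, i % N ≠ j % N →
        padicValRat t.1 (X (i + s) + X (j + s)) = K * ew N (wd N W) i j := by
    rintro ⟨t, ht⟩
    rw [hF, Finset.mem_filter] at ht
    have htp := Nat.prime_of_mem_primeFactors ht.1
    have htd := Nat.dvd_of_mem_primeFactors ht.1
    obtain ⟨K, w, hw, hval⟩ := hC2 c N _ hX' t htp htd
    obtain ⟨W, hW, hmem⟩ := hE1 q N hq hX.pos w hw
    refine ⟨K, W, hmem, ?_⟩
    intro i j hij
    have hww : w = wd N W := funext hW
    rw [← hww]
    exact hval i j hij
  choose K W hWmem hWval using hw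
  have hL := hE2 _ _ k h1b ((F.attach.toList).map fun t => W t / 2) (by
      rw [List.length_map, Finset.length_toList, Finset.card_attach]
      exact hk) (by
      intro e he
      rw [List.mem_map] at he
      obtain ⟨t, -, rfl⟩ := he
      rw [List.mem_map]
      exact ⟨_, hWmem t, rfl⟩)
  obtain ⟨m0, hm0, hbits⟩ := hL
  rw [List.mem_map] at hm0
  obtain ⟨y, hy, rfl⟩ := hm0
  have hylen : y.length = (pairs N).length := by
    have := h2 y hy
    simpa using this
  have hprod := hD1 c N _ hX' p hgood C _ ha' (fun i => haX (i + s)) q m hm hmq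
    (fun j i => y.getD (i * (i - 1) / 2 + j) 0) (by
      intro t ht
      by_cases h : (t : ZMod p) ^ m = 1
      · exact Or.inl h
      · right
        have htF : t ∈ F := by
          rw [hF, Finset.mem_filter]
          exact ⟨ht, h⟩
        have hb := hbits (W ⟨t, htF⟩ / 2) (by
          rw [List.mem_map]
          exact ⟨⟨t, htF⟩, by simp, rfl⟩)
        have h3 := hE3 q (wtable q N) y _ (hWmem ⟨t, htF⟩) hnd hb
        have h5 := hE5 q N (W ⟨t, htF⟩) hq y hylen
        have h6 : (q : ℤ) ∣ (dotL (expsq q N (W ⟨t, htF⟩)) y : ℤ) := by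
          exact_mod_cast Nat.dvd_of_mod_eq_zero h3
        have h7 := (Int.dvd_iff_dvd_of_dvd_sub h5).mp h6
        have h8 : ∑ i ∈ range N, ∑ j ∈ range i,
            ((y.getD (i * (i - 1) / 2 + j) 0 : ℕ) : ℤ) * padicValRat t (X (j + s) + X (i + s)) =
            K ⟨t, htF⟩ * ∑ i ∈ range N, ∑ j ∈ range i,
              ((y.getD (i * (i - 1) / 2 + j) 0 : ℕ) : ℤ) * ew N (wd N (W ⟨t, htF⟩)) j i := by
          rw [Finset.mul_sum]
          refine Finset.sum_congr rfl fun i hi => ?_
          rw [Finset.mul_sum]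
          refine Finset.sum_congr rfl fun j hj => ?_
          rw [Finset.mem_range] at hi hj
          have hne : j % N ≠ i % N := by
            rw [Nat.mod_eq_of_lt hi, Nat.mod_eq_of_lt (hj.trans hi)]
            omega
          rw [hWval ⟨t, htF⟩ j i hne]
          ring
        rw [h8]
        exact Dvd.dvd.mul_left h7 _)
  have h4 := hE4 p m N (PadicInt.toZMod C) (PadicInt.toZMod (a s))
    (fun i => PadicInt.toZMod (a (i + s))) (by simp) (by
      intro i
      have := ha'.step i
      rw [this, map_add, map_pow]) y hylen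
  rw [hprod] at h4
  have hne := h1a y hy
  rw [← hC0, ← hx0] at h4
  simp only [bne_iff_ne, ne_eq] at hne
  apply hne
  have hlt : prodPow p m (orbL p (C0, x0, ys).1 N (C0, x0, ys).2.1) (pairs N) y < p ∨
      prodPow p m (orbL p (C0, x0, ys).1 N (C0, x0, ys).2.1) (pairs N) y = 1 := by
    cases hps : pairs N with
    | nil => right; simp [prodPow]
    | cons ji ps =>
      cases hys : y with
      | nil => right; simp [prodPow]
      | cons y0 yt => left; exact Nat.mod_lt _ hp.out.pos
  rcases hlt with h | h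
  · have h9 : ((prodPow p m (orbL p C0 N x0) (pairs N) y : ℕ) : ZMod p) = ((1 : ℕ) : ZMod p) := by
      rw [h4]; simp
    rw [ZMod.natCast_eq_natCast_iff'] at h9
    rwa [Nat.mod_eq_of_lt h, Nat.mod_eq_of_lt (by omega)] at h9
  · exact h

end Poonen
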