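import Mathlib
import Pool.Agent.Poonen.Stmts
import Pool.Agent.FPS4.Local
import Pool.Agent.FPS4.Good
import Pool.Agent.FPS4.Small

/-!
# Part B : good primes (packages B1, B2, B3, B4, B5, B6)

The statements follow from the files `Pool/Agent/FPS4/{Local,Good,Small}.lean`.
-/

namespace Poonen

open Finset Function Pool.Agent.FPS

theorem Cyc.iter {R : Type*} [CommRing R] {C : R} {N : ℕ} {a : ℕ → R} (h : Cyc C N a) (i : ℕ) :
    a i = (F C)^[i] (a 0) := by
  induction i with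
  | zero => rfl
  | succ i ih => rw [iterate_succ_apply', ← ih, h.step]; rfl

theorem Cyc.minPer {R : Type*} [CommRing R] {C : R} {N : ℕ} {a : ℕ → R} (h : Cyc C N a) :
    minimalPeriod (F C) (a 0) = N := by
  have key : ∀ n, IsPeriodicPt (F C) n (a 0) ↔ N ∣ n := by
    intro n
    rw [IsPeriodicPt, IsFixedPt, ← h.iter, h.eq_iff, Nat.zero_mod, Nat.dvd_iff_mod_eq_zero]
  apply Nat.dvd_antisymm
  · exact ((key N).2 dvd_rfl).minimalPeriod_dvd
  · exact (key _).1 (isPeriodicPt_minimalPeriod _ _)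

theorem Cyc.toZMod_iter {p : ℕ} [Fact p.Prime] {C : ℤ_[p]} {N : ℕ} {a : ℕ → ℤ_[p]}
    (h : Cyc C N a) (i : ℕ) :
    PadicInt.toZMod (a i) = (F (PadicInt.toZMod C))^[i] (PadicInt.toZMod (a 0)) := by
  rw [← iter_map, ← h.iter]

theorem Cyc.mult_eq {p : ℕ} [Fact p.Prime] {C : ℤ_[p]} {N : ℕ} {a : ℕ → ℤ_[p]}
    (h : Cyc C N a) (M : ℕ) :
    mult (PadicInt.toZMod C) (PadicInt.toZMod (a 0)) M =
      ∏ i ∈ range M, 2 * (PadicInt.toZMod (a i) : ZMod p) := by
  unfold mult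
  apply prod_congr rfl
  intro i _
  rw [h.toZMod_iter i]

/-- B1 -/
theorem pf_B1 : S_B1 := by
  intro c N X h p _ hc
  have hcn : ‖(c : ℚ_[p])‖ ≤ 1 := Padic.norm_rat_le_one hc
  have hstep : ∀ i n, (F (c : ℚ_[p]))^[n] (X i : ℚ_[p]) = ((X (i + n) : ℚ) : ℚ_[p]) := by
    intro i n
    induction n with
    | zero => rfl
    | succ n ih =>
      rw [iterate_succ_apply', ih, ← add_assoc, h.step]
      simp [F]
  have hX : ∀ i, ‖(X i : ℚ_[p])‖ ≤ 1 := by
    intro i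
    by_contra hlt
    push Not at hlt
    have h1 := (norm_iter_of_one_lt hcn hlt N).2 h.pos
    rw [hstep, (h.eq_iff (i + N) i).2 (by simp)] at h1
    exact lt_irrefl _ h1
  refine ⟨⟨(c : ℚ_[p]), hcn⟩, fun i => ⟨(X i : ℚ_[p]), hX i⟩, ?_, rfl, fun i => rfl⟩
  refine ⟨h.pos, ?_, ?_⟩
  · intro i
    apply Subtype.ext
    change ((X (i + 1) : ℚ) : ℚ_[p]) = ((X i : ℚ) : ℚ_[p]) ^ 2 + (c : ℚ_[p])
    rw [h.step]
    push_cast
    rfl
  · intro i j
    rw [← h.eq_iff]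
    constructor
    · intro e
      have e1 : ((X i : ℚ) : ℚ_[p]) = ((X j : ℚ) : ℚ_[p]) := congrArg (fun z : ℤ_[p] => (z : ℚ_[p])) e
      exact_mod_cast e1
    · intro e
      apply Subtype.ext
      change ((X i : ℚ) : ℚ_[p]) = ((X j : ℚ) : ℚ_[p])
      rw [e]

/-- B2 -/
theorem pf_B2 : S_B2 := by
  intro p _ C N a h M m hN hM hm hred
  rw [← h.mult_eq]
  apply first_order PadicInt.toZMod
  · rw [← h.iter, (h.eq_iff _ 0).2 (by rw [hN, mul_comm M m]; simp)]
  · rw [← h.iter]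
    intro h1
    have h2 := (h.eq_iff _ _).1 h1
    rw [Nat.zero_mod, Nat.mod_eq_of_lt (by rw [hN]; nlinarith)] at h2
    omega
  · rw [← h.toZMod_iter, hred]

/-- B3 -/
theorem pf_B3 : S_B3 := by
  intro p _ C N a h h5 M hN hred hmu
  rw [← h.mult_eq] at hmu
  have hM : 0 < M := by
    rcases Nat.eq_zero_or_pos M with h0 | h0
    · have := h.pos
      rw [hN, h0, zero_mul] at this
      exact absurd this (lt_irrefl 0)
    · exact h0
  obtain ⟨d, b, h1, -⟩ := second_cases (C := C) (X := a 0) (M := M) hM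
    (by rw [h.minPer, hN, mul_comm])
    (by rw [← h.toZMod_iter, hred]) hmu
  obtain ⟨⟨s1, hs1⟩, ⟨s2, hs2⟩⟩ := p_dvd_sums (p := p) h5
  rw [hs1, hs2] at h1
  apply not_sq_dvd_p (p := p) (z := s1 * b + s2 * coefB C (a 0) d M)
  convert h1 using 1
  push_cast
  ring

/-- B4 -/
theorem pf_B4 (_hB2 : S_B2) (_hB3 : S_B3) : S_B4 := by
  intro p _ C N a h h5 l hl
  have hN : 0 < minimalPeriod (F C) (a 0) := by rw [h.minPer]; exact h.pos
  have hl' : minimalPeriod (F (PadicInt.toZMod C)) (PadicInt.toZMod (a 0)) = l := hl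
  have h1 := local_period h5 hN
  rw [h.minPer, hl', h.mult_eq] at h1
  rcases h1 with h2 | ⟨h2, h3⟩
  · left; exact h2
  · by_cases h4 : (∏ i ∈ range l, 2 * (PadicInt.toZMod (a i) : ZMod p)) = 1
    · left
      rw [h4, orderOf_one, mul_one] at h3
      exact h3
    · right
      exact ⟨h4, h3⟩

/-- B5 -/
theorem pf_B5' : S_B5 := by
  intro C N a h
  have h1 := period_two (C := C) (X := a 0) (by rw [h.minPer]; exact h.pos)
  rwa [h.minPer] at h1

/-- B6 -/
theorem pf_B6' : S_B6 := by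
  intro C N a h
  have h1 := period_three (C := C) (X := a 0) (by rw [h.minPer]; exact h.pos)
  rwa [h.minPer] at h1

theorem pf_B5 (_hA2 : S_A2) : S_B5 := pf_B5'

theorem pf_B6 (_hA2 : S_A2) (_hB2 : S_B2) : S_B6 := pf_B6'

end Poonen
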