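import Mathlib
import Pool.Agent.Poonen.Stmts

/-!
# B7 : correctness of the computable function `periods`
-/

namespace Poonen

open Finset Function

section

variable {p : ℕ} [hp : Fact p.Prime]

theorem G_iter_succ_val (C x : ZMod p) (k : ℕ) :
    (((fun y : ZMod p => y ^ 2 + C)^[k + 1] x)).val =
      (((fun y : ZMod p => y ^ 2 + C)^[k] x).val * ((fun y : ZMod p => y ^ 2 + C)^[k] x).val +
        C.val) % p := by
  rw [iterate_succ_apply', ← ZMod.val_natCast]
  congr 1
  push_cast
  rw [ZMod.natCast_zmod_val, ZMod.natCast_zmod_val]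
  ring

theorem mu_succ_val (C x : ZMod p) (k : ℕ) :
    (∏ i ∈ range (k + 1), 2 * ((fun y : ZMod p => y ^ 2 + C)^[i] x)).val =
      ((∏ i ∈ range k, 2 * ((fun y : ZMod p => y ^ 2 + C)^[i] x)).val *
        (2 * ((fun y : ZMod p => y ^ 2 + C)^[k] x).val)) % p := by
  rw [prod_range_succ, ← ZMod.val_natCast]
  congr 1
  push_cast
  rw [ZMod.natCast_zmod_val, ZMod.natCast_zmod_val]

theorem ret_spec (C x : ZMod p) {l : ℕ}
    (hl : minimalPeriod (fun y : ZMod p => y ^ 2 + C) x = l) :
    ∀ fuel k : ℕ, k < l → l ≤ k + fuel →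
      ret p C.val x.val fuel k ((fun y : ZMod p => y ^ 2 + C)^[k] x).val
        (∏ i ∈ range k, 2 * ((fun y : ZMod p => y ^ 2 + C)^[i] x)).val =
      some (l, (∏ i ∈ range l, 2 * ((fun y : ZMod p => y ^ 2 + C)^[i] x)).val) := by
  intro fuel
  induction fuel with
  | zero => intro k h1 h2; omega
  | succ fuel ih =>
    intro k h1 h2
    unfold ret
    rw [← G_iter_succ_val, ← mu_succ_val]
    by_cases h3 : k + 1 = l
    · have h4 : ((fun y : ZMod p => y ^ 2 + C)^[k + 1] x) = x := by
        rw [h3, ← hl]
        exact isPeriodicPt_minimalPeriod _ _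
      rw [if_pos (by rw [h4]), h3]
    · rw [if_neg]
      · exact ih (k + 1) (by omega) (by omega)
      · intro h4
        have h5 : ((fun y : ZMod p => y ^ 2 + C)^[k + 1] x) = x := ZMod.val_injective p h4
        have h6 : k + 1 < minimalPeriod (fun y : ZMod p => y ^ 2 + C) x := by omega
        exact not_isPeriodicPt_of_pos_of_lt_minimalPeriod (by omega) h6 h5

theorem ordl_spec (μ : ZMod p) :
    ∀ fuel k : ℕ, k < orderOf μ → orderOf μ ≤ k + fuel →
      ordl p μ.val fuel k (μ ^ k).val = some (orderOf μ) := by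
  intro fuel
  induction fuel with
  | zero => intro k h1 h2; omega
  | succ fuel ih =>
    intro k h1 h2
    unfold ordl
    have h3 : ((μ ^ k).val * μ.val) % p = (μ ^ (k + 1)).val := by
      rw [← ZMod.val_natCast]
      congr 1
      push_cast
      rw [ZMod.natCast_zmod_val, ZMod.natCast_zmod_val, pow_succ]
    rw [h3]
    have h1p : (1 : ZMod p).val = 1 := by
      have : Fact (1 < p) := ⟨hp.out.one_lt⟩
      exact ZMod.val_one p
    by_cases h4 : k + 1 = orderOf μ
    · rw [if_pos (by rw [h4, pow_orderOf_eq_one, h1p]), h4]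
    · rw [if_neg]
      · exact ih (k + 1) (by omega) (by omega)
      · intro h5
        have h6 : μ ^ (k + 1) = 1 := ZMod.val_injective p (by rw [h5, h1p])
        have h7 := Nat.le_of_dvd (by omega) (orderOf_dvd_of_pow_eq_one h6)
        omega

theorem minimalPeriod_le_p (f : ZMod p → ZMod p) (x : ZMod p) : minimalPeriod f x ≤ p := by
  have hinj : Function.Injective (fun i : Fin (minimalPeriod f x) => f^[(i : ℕ)] x) := by
    intro i j hij
    apply Fin.ext
    exact (iterate_eq_iterate_iff_of_lt_minimalPeriod i.2 j.2).1 hij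
  have h1 := Fintype.card_le_of_injective _ hinj
  rwa [Fintype.card_fin, ZMod.card] at h1

end

/-- B7 -/
theorem pf_B7 : S_B7 := by
  intro p hp C x l hl0 hl
  have h1p : (1 : ZMod p).val = 1 := by
    have : Fact (1 < p) := ⟨hp.out.one_lt⟩
    exact ZMod.val_one p
  have hret := ret_spec C x hl p 0 hl0 (by
    rw [zero_add, ← hl]
    exact minimalPeriod_le_p _ _)
  rw [range_zero, prod_empty, iterate_zero, id, h1p] at hret
  set μ := ∏ i ∈ range l, 2 * ((fun y : ZMod p => y ^ 2 + C)^[i] x) with hμ
  unfold periods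
  rw [hret]
  constructor
  · dsimp only
    split_ifs
    · simp
    · split <;> simp
  · intro h1 h2
    dsimp only
    rw [if_neg]
    · have h3 : μ ≠ 0 := by
        intro h0
        rw [h0] at h2
        have h4 := pow_orderOf_eq_one (0 : ZMod p)
        rw [zero_pow h2.ne'] at h4
        exact zero_ne_one h4
      have h4 : orderOf μ ≤ 0 + p := by
        have h5 := Nat.le_of_dvd (Nat.sub_pos_of_lt hp.out.one_lt)
          (ZMod.orderOf_dvd_card_sub_one h3)
        omega
      have h5 := ordl_spec μ p 0 h2 h4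
      rw [pow_zero, h1p] at h5
      rw [h5]
      simp
    · intro h3
      exact h1 (ZMod.val_injective p (by rw [h3, h1p]))

end Poonen
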