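import Mathlib
import Pool.Agent.Poonen.Stmts
import Pool.Agent.Poonen.B7

/-!
# B8 : `N ∈ periods`, E6 : completeness of the list of local types
-/

namespace Poonen

open Finset Function

theorem red_iter {p : ℕ} [Fact p.Prime] {C : ℤ_[p]} {N : ℕ} {a : ℕ → ℤ_[p]}
    (h : Cyc C N a) (i : ℕ) :
    (PadicInt.toZMod (a i) : ZMod p) =
      (fun y : ZMod p => y ^ 2 + PadicInt.toZMod C)^[i] (PadicInt.toZMod (a 0)) := by
  induction i with
  | zero => rfl
  | succ i ih =>
    rw [iterate_succ_apply', ← ih, h.step]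
    simp

/-- B8 -/
theorem pf_B8 (hB4 : S_B4) (hB7 : S_B7) : S_B8 := by
  intro p _ C N a h h5
  set l := minimalPeriod (fun y : ZMod p => y ^ 2 + PadicInt.toZMod C)
    (PadicInt.toZMod (a 0)) with hl
  have h4 := hB4 p C N a h h5 l hl.symm
  have hl0 : 0 < l := by
    rcases Nat.eq_zero_or_pos l with h0 | h0
    · exfalso
      have := h.pos
      rcases h4 with h1 | ⟨-, h1⟩
      · omega
      · rw [h0, zero_mul] at h1
        omega
    · exact h0
  have h7 := hB7 p (PadicInt.toZMod C) (PadicInt.toZMod (a 0)) l hl0 hl.symm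
  have hμ : (∏ i ∈ range l, 2 * (PadicInt.toZMod (a i) : ZMod p)) =
      ∏ i ∈ range l, 2 * ((fun y : ZMod p => y ^ 2 + PadicInt.toZMod C)^[i]
        (PadicInt.toZMod (a 0))) := by
    apply prod_congr rfl
    intro i _
    rw [red_iter h i]
  rcases h4 with h1 | ⟨h1, h2⟩
  · rw [h1]; exact h7.1
  · rw [hμ] at h1 h2
    rw [h2]
    apply h7.2 h1
    rcases Nat.eq_zero_or_pos (orderOf (∏ i ∈ range l, 2 *
      ((fun y : ZMod p => y ^ 2 + PadicInt.toZMod C)^[i] (PadicInt.toZMod (a 0))))) with h0 | h0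
    · exfalso
      have := h.pos
      rw [h0, mul_zero] at h2
      omega
    · exact h0

theorem orbL_length (p C : ℕ) : ∀ n x, (orbL p C n x).length = n := by
  intro n
  induction n with
  | zero => intro x; rfl
  | succ n ih => intro x; simp [orbL, ih]

theorem orbL_getD {p : ℕ} [Fact p.Prime] (C : ZMod p) :
    ∀ (n i : ℕ) (x : ZMod p), i < n →
      (orbL p C.val n x.val).getD i 0 = ((fun y : ZMod p => y ^ 2 + C)^[i] x).val := by
  intro n
  induction n with
  | zero => intro i x hi; omega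
  | succ n ih =>
    intro i x hi
    have h1 : (x.val * x.val + C.val) % p = (x ^ 2 + C).val := by
      rw [← ZMod.val_natCast]
      congr 1
      push_cast
      rw [ZMod.natCast_zmod_val, ZMod.natCast_zmod_val]
      ring
    unfold orbL
    rw [h1]
    cases i with
    | zero => simp
    | succ i =>
      rw [List.getD_cons_succ, ih i _ (by omega), iterate_succ_apply]

/-- E6 -/
theorem pf_E6 (hA2 : S_A2) (hB8 : S_B8) : S_E6 := by
  intro N p _ cert h5 hchk C a h
  set c : ZMod p := PadicInt.toZMod C with hc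
  set x : ZMod p := PadicInt.toZMod (a 0) with hx
  unfold chkTypes at hchk
  rw [List.all_eq_true] at hchk
  have h1 := hchk c.val (List.mem_range.2 (ZMod.val_lt c))
  rw [List.all_eq_true] at h1
  have h2 := h1 x.val (List.mem_range.2 (ZMod.val_lt x))
  clear hchk h1
  have hN := h.pos
  have hfix : (fun y : ZMod p => y ^ 2 + c)^[N] x = x := by
    rw [hx, hc, ← red_iter h, (h.eq_iff N 0).2 (by simp)]
  rw [Bool.or_eq_true, Bool.or_eq_true, Bool.or_eq_true] at h2
  rcases h2 with ((h2 | h2) | h2) | h2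
  · exfalso
    rw [orbL_getD c (N + 1) N x (by omega), hfix] at h2
    simp at h2
  · exfalso
    unfold badSum at h2
    rw [List.any_eq_true] at h2
    obtain ⟨⟨j, i⟩, hji, hs⟩ := h2
    unfold pairs at hji
    rw [List.mem_flatMap] at hji
    obtain ⟨i', hi', hji'⟩ := hji
    rw [List.mem_map] at hji'
    obtain ⟨j', hj', hjj⟩ := hji'
    rw [List.mem_range] at hi' hj'
    obtain ⟨rfl, rfl⟩ := Prod.mk.inj hjj
    dsimp only at hs
    rw [orbL_getD c N j' x (by omega), orbL_getD c N i' x hi', beq_iff_eq, ← ZMod.val_natCast,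
      ZMod.val_eq_zero] at hs
    push_cast at hs
    rw [ZMod.natCast_zmod_val, ZMod.natCast_zmod_val, hx, hc, ← red_iter h, ← red_iter h,
      ← map_add] at hs
    have h6 := (hA2 ℤ_[p] C N a h j' i' (by
      rw [Nat.mod_eq_of_lt (hj'.trans hi'), Nat.mod_eq_of_lt hi']; omega)).2
    have h7 : IsUnit (a j' + a i') := by
      have h8 : (a (j' + 0) + a (i' + 0)) ∣ ∏ t ∈ range N, (a (j' + t) + a (i' + t)) :=
        dvd_prod_of_mem _ (mem_range.2 hN)
      rw [h6] at h8
      simpa using isUnit_of_dvd_one h8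
    have h8 := h7.map (PadicInt.toZMod (p := p))
    rw [hs] at h8
    exact not_isUnit_zero h8
  · exfalso
    have h6 := hB8 p C N a h h5
    rw [← hc, ← hx] at h6
    simp only [Bool.not_eq_true'] at h2
    have h7 : (periods p c.val x.val).contains N = true := List.contains_iff_mem.2 h6
    rw [h2] at h7
    exact Bool.false_ne_true h7
  · rw [List.any_eq_true] at h2
    obtain ⟨z, hz, hcz⟩ := h2
    rw [List.contains_iff_mem] at hcz
    obtain ⟨s, hs, hzs⟩ := List.getElem_of_mem hz
    rw [orbL_length] at hs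
    refine ⟨s, hs, ?_⟩
    have h6 : z = ((fun y : ZMod p => y ^ 2 + c)^[s] x).val := by
      rw [← orbL_getD c N s x hs, ← hzs, List.getD_eq_getElem]
    rw [red_iter h s, ← hc, ← hx, ← h6]
    exact hcz

end Poonen
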