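import Pool.Agent.Poonen.Stmts
import Pool.Agent.FPS4.Places

/-!
# Package C1: at a bad prime all points of the cycle have valuation `v(c) / 2`
-/

namespace Poonen

theorem Cyc.toFPS {c : ℚ} {N : ℕ} {X : ℕ → ℚ} (h : Cyc c N X) : Pool.Agent.FPS.Cyc c N X where
  pos := h.pos
  step := h.step
  per i := (h.eq_iff _ _).2 (by simp)
  inj i j hi hj hij := by
    have := (h.eq_iff i j).1 hij
    rwa [Nat.mod_eq_of_lt hi, Nat.mod_eq_of_lt hj] at this

theorem norm_gt_one_of_dvd_den {t : ℕ} [Fact t.Prime] {c : ℚ} (ht : t ∣ c.den) :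
    1 < padicNorm t c := by
  have h1 : padicNorm t (c.den : ℚ) < 1 := (padicNorm.nat_lt_one_iff _).2 ht
  have hnum : padicNorm t (c.num : ℚ) = 1 := by
    rw [padicNorm.int_eq_one_iff]
    intro hd
    have h2 : t ∣ c.num.natAbs := Int.natCast_dvd.1 hd
    have h3 : t ∣ Nat.gcd c.num.natAbs c.den := Nat.dvd_gcd h2 ht
    rw [c.reduced] at h3
    exact (Fact.out : t.Prime).one_lt.ne' (Nat.dvd_one.1 h3)
  have h4 : padicNorm t c * padicNorm t (c.den : ℚ) = 1 := by
    rw [← padicNorm.mul, Rat.mul_den_eq_num, hnum]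
  have h5 : 0 < padicNorm t (c.den : ℚ) :=
    lt_of_le_of_ne (padicNorm.nonneg _) (fun e => by rw [← e, mul_zero] at h4; norm_num at h4)
  have h6 : 0 ≤ padicNorm t c := padicNorm.nonneg _
  nlinarith

theorem zpow_neg_inj {t : ℕ} (ht : 1 < t) {a b : ℤ} (h : (t : ℚ) ^ (-a) = (t : ℚ) ^ (-b)) : a = b := by
  have h1 : (1 : ℚ) < t := by exact_mod_cast ht
  have := (zpow_right_inj₀ (by linarith) (ne_of_gt h1)).1 h
  omega

theorem pkgC1 : S_C1 := by
  intro c N X h t ht htd i
  haveI : Fact t.Prime := ⟨ht⟩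
  have hc1 : 1 < padicNorm t c := norm_gt_one_of_dvd_den htd
  have h' := h.toFPS
  -- some point has norm `> 1`
  have hex : ∃ j, 1 < padicNorm t (X j) := by
    by_contra hcon
    push Not at hcon
    have h1 : c = X 1 - X 0 ^ 2 := by rw [show (1 : ℕ) = 0 + 1 from rfl, h.step]; ring
    have h2 : padicNorm t c ≤ 1 := by
      rw [h1]
      refine le_trans padicNorm.sub (max_le (hcon 1) ?_)
      rw [Pool.Agent.FPS.norm_sq]
      exact pow_le_one₀ (padicNorm.nonneg _) (hcon 0)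
    exact absurd hc1 (not_lt.2 h2)
  obtain ⟨j, hj⟩ := hex
  have hsq := Pool.Agent.FPS.sq_eq h' hj i
  have hc0 : c ≠ 0 := by
    intro e
    rw [e, padicNorm.zero] at hc1
    norm_num at hc1
  have hX : X i ≠ 0 := by
    intro e
    rw [e, padicNorm.zero] at hsq
    rw [← hsq] at hc1
    norm_num at hc1
  have h1 : 2 * padicValRat t (X i) = padicValRat t c := by
    rw [padicNorm.eq_zpow_of_nonzero hX, padicNorm.eq_zpow_of_nonzero hc0, ← zpow_natCast,
      ← zpow_mul] at hsq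
    have h2 : (t : ℚ) ^ (-(padicValRat t (X i) * 2)) = (t : ℚ) ^ (-padicValRat t c) := by
      rw [← hsq]; congr 1; push_cast; ring
    have := zpow_neg_inj ht.one_lt h2
    omega
  refine ⟨hX, h1, ?_⟩
  rw [padicNorm.eq_zpow_of_nonzero hc0] at hc1
  have h3 : (1 : ℚ) < t := by exact_mod_cast ht.one_lt
  have h4 : 0 < -padicValRat t c := by
    by_contra hcon
    push Not at hcon
    exact absurd hc1 (not_lt.2 (zpow_le_one_of_nonpos₀ h3.le hcon))
  omega

end Poonen
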