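import Pool.Agent.Poonen.C1

/-!
# Package C2: the valuations of the sums at a bad prime are given by a word
-/

namespace Poonen

open Pool.Agent.FPS

/-- a word of length `N` for the degenerate case -/
def w0 (N : ℕ) (i : ℕ) : Bool := decide (i % N = 0)

theorem isWord_w0 {N : ℕ} (hN : 0 < N) : IsWord N (w0 N) where
  zero := by simp [w0]
  per i := by simp [w0]
  prim i j hij := by
    refine ⟨(N - i % N) % N, Nat.mod_lt _ hN, ?_⟩
    have h1 : (i + (N - i % N) % N) % N = 0 := by
      rw [Nat.add_mod, Nat.mod_mod, ← Nat.add_mod]
      have : i + (N - i % N) = N * (i / N) + N := by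
        have := Nat.mod_add_div i N
        have := Nat.mod_lt i hN
        omega
      rw [this]; simp
    have h2 : (j + (N - i % N) % N) % N ≠ 0 := by
      intro e
      rw [← h1] at e
      exact hij (Nat.ModEq.add_right_cancel' _ e).symm
    have e1 : w0 N (i + (N - i % N) % N) = true := by unfold w0; exact decide_eq_true h1
    have e2 : w0 N (j + (N - i % N) % N) = false := by unfold w0; exact decide_eq_false h2
    rw [e1, e2]; decide

theorem preLen_spec {w : ℕ → Bool} : ∀ (n i j : ℕ),
    (∃ k < n, w (i + k) ≠ w (j + k)) →
    ∃ k, preLen w n i j = k ∧ k < n ∧ w (i + k) ≠ w (j + k) ∧ ∀ l < k, w (i + l) = w (j + l) := by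
  intro n
  induction n with
  | zero => rintro i j ⟨k, hk, -⟩; omega
  | succ n ih =>
    rintro i j ⟨k, hk, hne⟩
    unfold preLen
    by_cases hw : w i = w j
    · rw [if_pos hw]
      cases k with
      | zero => exact absurd hw hne
      | succ k =>
        obtain ⟨l, h1, h2, h3, h4⟩ := ih (i + 1) (j + 1) ⟨k, by omega, by
          rw [show i + 1 + k = i + (k + 1) by ring, show j + 1 + k = j + (k + 1) by ring]
          exact hne⟩
        refine ⟨l + 1, by rw [h1], by omega, ?_, ?_⟩
        · rw [show i + (l + 1) = i + 1 + l by ring, show j + (l + 1) = j + 1 + l by ring]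
          exact h3
        · intro m hm
          cases m with
          | zero => exact hw
          | succ m =>
            rw [show i + (m + 1) = i + 1 + m by ring, show j + (m + 1) = j + 1 + m by ring]
            exact h4 m (by omega)
    · rw [if_neg hw]
      exact ⟨0, rfl, by omega, by simpa using hw, fun l hl => by omega⟩

theorem valRat_of_norm {t : ℕ} [ht : Fact t.Prime] {z : ℚ} (hz : z ≠ 0) {k : ℤ}
    (h : padicNorm t z = (t : ℚ) ^ (-k)) : padicValRat t z = k := by
  rw [padicNorm.eq_zpow_of_nonzero hz] at h
  exact zpow_neg_inj ht.out.one_lt h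

theorem pkgC2 : S_C2 := by
  intro c N X h t ht htd
  have hF : Fact t.Prime := ⟨ht⟩
  have h' := h.toFPS
  have ht1 : (1 : ℚ) < t := by exact_mod_cast ht.one_lt
  by_cases hM : 1 < padicNorm t (2 * X 0)
  · have h20 : 2 * X 0 ≠ 0 := by
      intro e
      rw [e, padicNorm.zero] at hM
      norm_num at hM
    set K : ℤ := -padicValRat t (2 * X 0) with hK
    have hMK : padicNorm t (2 * X 0) = (t : ℚ) ^ K := by
      rw [padicNorm.eq_zpow_of_nonzero h20]
    refine ⟨K, fun i => !(cls t X i), ⟨?_, ?_, ?_⟩, ?_⟩
    · simp [cls_zero hM]
    · intro i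
      change (!cls t X (i + N)) = !cls t X i
      rw [← cls_mod h' (i + N), Nat.add_mod_right, cls_mod h']
    · intro i j hij
      obtain ⟨k, hk, hne⟩ := exists_sep h' hM hij
      refine ⟨k, hk, ?_⟩
      intro e
      exact hne (by simpa using e)
    · intro i j hij
      have hadd := add_ne_zero' h' hij
      have hMpos : 0 < padicNorm t (2 * X 0) := lt_trans zero_lt_one hM
      unfold ew
      by_cases hc : cls t X i = cls t X j
      · rw [if_pos (by simp [hc])]
        have := (place_same h' hM hc).1
        apply valRat_of_norm hadd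
        rw [this, hMK]; congr 1; ring
      · rw [if_neg (by simpa using hc)]
        have h1 := (place_diff h' hM hc).2
        have hij1 : (i + 1) % N ≠ (j + 1) % N := fun e => hij (mod_add_congr.1 e)
        obtain ⟨T, hT, hTN, hTne, hTlt⟩ := preLen_spec (w := fun i => !(cls t X i)) N (i + 1) (j + 1)
          (by
            obtain ⟨k, hk, hne⟩ := exists_sep h' hM hij1
            exact ⟨k, hk, fun e => hne (by simpa using e)⟩)
        rw [hT]
        have h2 : ∀ l, l ≤ T → padicNorm t (X (i + 1 + l) - X (j + 1 + l)) =
            padicNorm t (X (i + 1) - X (j + 1)) * padicNorm t (2 * X 0) ^ l := by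
          intro l
          induction l with
          | zero => intro _; simp
          | succ l ih =>
            intro hl
            have h3 : cls t X (i + 1 + l) = cls t X (j + 1 + l) := by
              have := hTlt l (by omega)
              simpa using this
            have h4 := (place_same h' hM h3).2
            rw [ih (by omega)] at h4
            rw [← add_assoc, ← add_assoc, ← h4, pow_succ, mul_assoc]
        have h3 := h2 T le_rfl
        have h4 : padicNorm t (X (i + 1 + T) - X (j + 1 + T)) = padicNorm t (2 * X 0) :=
          (place_diff h' hM (by simpa using hTne)).1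
        rw [h4, ← h1] at h3
        -- M = a * M * M ^ T
        have h5 : padicNorm t (X i + X j) * padicNorm t (2 * X 0) ^ T = 1 := by
          have h6 : padicNorm t (2 * X 0) * (padicNorm t (X i + X j) * padicNorm t (2 * X 0) ^ T) =
              padicNorm t (2 * X 0) * 1 := by
            rw [mul_one]; conv_rhs => rw [h3]
            ring
          exact mul_left_cancel₀ hMpos.ne' h6
        apply valRat_of_norm hadd
        rw [hMK] at h5
        have h7 : ((t : ℚ) ^ K) ^ T = (t : ℚ) ^ (K * T) := by
          rw [zpow_mul, zpow_natCast]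
        rw [h7] at h5
        have h8 : (t : ℚ) ^ (K * (T : ℤ)) ≠ 0 := zpow_ne_zero _ (by linarith)
        rw [zpow_neg]
        exact eq_inv_of_mul_eq_one_left h5
  · push Not at hM
    refine ⟨0, w0 N, isWord_w0 h.pos, ?_⟩
    intro i j hij
    rw [zero_mul]
    apply valRat_of_norm (add_ne_zero' h' hij)
    rw [good_add h' hM hij]; simp

end Poonen
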