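import Pool.Agent.Poonen.Data

/-!
# Kernel check for `N = 5`, `p = 13`, `q = 3` (MP_7564fc_nt)
-/

namespace Poonen

theorem chk5_13_a : (cert5_13.all fun e => chkType 5 13 3 4 4 (wtable 3 5) e.1 e.2.1 e.2.2) = true := by
  decide +kernel

theorem chk5_13_b : (cert5_13.all fun e => e.2.2.all fun y => y.length == (pairs 5).length) = true := by
  decide +kernel

theorem chk5_13_c : ((wtable 3 5).map Prod.fst).Nodup := by
  decide +kernel

theorem chk5_13_d : chkTypes 5 13 (cert5_13.map fun e => (e.1, e.2.1)) = true := by
  decide +kernel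

end Poonen
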