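import Pool.Agent.Poonen.Data

/-!
# Kernel check for `N = 6`, `p = 67`, `q = 3` (MP_7564fc_nt)
-/

namespace Poonen

theorem chk6_67_a : (cert6_67.all fun e => chkType 6 67 3 22 3 (wtable 3 6) e.1 e.2.1 e.2.2) = true := by
  decide +kernel

theorem chk6_67_b : (cert6_67.all fun e => e.2.2.all fun y => y.length == (pairs 6).length) = true := by
  decide +kernel

theorem chk6_67_c : ((wtable 3 6).map Prod.fst).Nodup := by
  decide +kernel

theorem chk6_67_d : chkTypes 6 67 (cert6_67.map fun e => (e.1, e.2.1)) = true := by
  decide +kernel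

end Poonen
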