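import Pool.Agent.Poonen.Stmts

/-!
# The covering check with exceptional sets (MP_7564fc_nt)
-/

namespace Poonen

/-- Covering check with exceptions: every list of at most `k` elements of `els` outside `X` is,
together with `P`, contained in one of the masks or contains one of the exceptional sets. -/
def coverB (masks bads els : List ℕ) : ℕ → ℕ → ℕ → Bool
  | 0, P, _ => (masks.any fun m => P &&& m == P) || bads.any fun b => b &&& P == b
  | k + 1, P, X =>
    (bads.any fun b => b &&& P == b) ||
    match masks.find? fun m => P &&& m == P with
    | none => false
    | some m => coverStep (coverB masks bads els k) m P X els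

theorem sub_of_and_eq {a b : ℕ} (h : a &&& b = a) (i : ℕ) (hi : a.testBit i = true) :
    b.testBit i = true := by
  have := congrArg (fun n => n.testBit i) h
  simp only [Nat.testBit_and, hi, Bool.true_and] at this
  exact this

theorem testBit_or_shift (a e i : ℕ) :
    (a ||| (1 <<< e)).testBit i = (a.testBit i || decide (i = e)) := by
  rw [Nat.testBit_or, Nat.testBit_shiftLeft]
  congr 1
  by_cases h : i = e
  · subst h; simp
  · by_cases h' : e ≤ i
    · have h2 : i - e ≠ 0 := by omega
      have h3 : Nat.testBit 1 (i - e) = false := by
        obtain ⟨n, hn⟩ : ∃ n, i - e = n + 1 := ⟨i - e - 1, by omega⟩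
        rw [hn, Nat.testBit_succ]
        simp
      simp [h', h, h3]
    · simp [h', h]

/-- The conclusion of the covering check. -/
def CovConc (masks bads : List ℕ) (P : ℕ) (L : List ℕ) : Prop :=
  (∃ m ∈ masks, (∀ i, P.testBit i = true → m.testBit i = true) ∧ ∀ e ∈ L, m.testBit e = true) ∨
  (∃ b ∈ bads, ∀ i, b.testBit i = true → P.testBit i = true ∨ i ∈ L)

theorem coverStep_sound (masks bads els : List ℕ) (k : ℕ)
    (rec : ℕ → ℕ → Bool)
    (hrec : ∀ P X, rec P X = true → ∀ L : List ℕ, L.length ≤ k →
      (∀ e ∈ L, e ∈ els ∧ X.testBit e = false) → CovConc masks bads P L)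
    (m P : ℕ) (L : List ℕ) (hL : L.length ≤ k + 1) (hels : ∀ e ∈ L, e ∈ els) :
    ∀ (es : List ℕ) (X : ℕ), coverStep rec m P X es = true →
      (∀ e ∈ L, X.testBit e = false) → (∃ e ∈ L, e ∈ es ∧ m.testBit e = false) →
      CovConc masks bads P L := by
  intro es
  induction es with
  | nil =>
    rintro X - - ⟨e, -, he, -⟩
    simp at he
  | cons e es ih =>
    intro X hstep hX hex
    rw [coverStep] at hstep
    by_cases hc : (m.testBit e || X.testBit e) = true
    · rw [if_pos hc] at hstep
      refine ih X hstep hX ?_
      obtain ⟨e', he'L, he', hm⟩ := hex
      rcases List.mem_cons.mp he' with rfl | h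
      · rw [hm, hX e' he'L] at hc
        simp at hc
      · exact ⟨e', he'L, h, hm⟩
    · rw [if_neg hc, Bool.and_eq_true] at hstep
      obtain ⟨h1, h2⟩ := hstep
      by_cases heL : e ∈ L
      · have hlen : (L.erase e).length ≤ k := by
          rw [List.length_erase_of_mem heL]
          omega
        have := hrec _ _ h1 (L.erase e) hlen (fun e' he' =>
          ⟨hels e' (List.mem_of_mem_erase he'), hX e' (List.mem_of_mem_erase he')⟩)
        rcases this with ⟨m', hm', hPm, hLm⟩ | ⟨b, hb, hbP⟩
        · left
          refine ⟨m', hm', ?_, ?_⟩
          · intro i hi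
            apply hPm
            rw [testBit_or_shift, hi, Bool.true_or]
          · intro e' he'
            by_cases hee : e' = e
            · subst hee
              apply hPm
              rw [testBit_or_shift]
              simp
            · exact hLm e' ((List.mem_erase_of_ne hee).mpr he')
        · right
          refine ⟨b, hb, ?_⟩
          intro i hi
          rcases hbP i hi with h | h
          · rw [testBit_or_shift, Bool.or_eq_true, decide_eq_true_eq] at h
            rcases h with h | h
            · exact Or.inl h
            · right
              rw [h]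
              exact heL
          · exact Or.inr (List.mem_of_mem_erase h)
      · refine ih _ h2 ?_ ?_
        · intro e' he'
          rw [testBit_or_shift, hX e' he', Bool.false_or, decide_eq_false_iff_not]
          rintro rfl
          exact heL he'
        · obtain ⟨e', he'L, he', hm⟩ := hex
          rcases List.mem_cons.mp he' with rfl | h
          · exact absurd he'L heL
          · exact ⟨e', he'L, h, hm⟩

theorem coverB_sound (masks bads els : List ℕ) : ∀ (k P X : ℕ),
    coverB masks bads els k P X = true → ∀ L : List ℕ, L.length ≤ k →
      (∀ e ∈ L, e ∈ els ∧ X.testBit e = false) → CovConc masks bads P L := by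
  intro k
  induction k with
  | zero =>
    intro P X h L hL _
    have hL0 : L = [] := List.length_eq_zero_iff.mp (Nat.le_zero.mp hL)
    subst hL0
    rw [coverB, Bool.or_eq_true, List.any_eq_true, List.any_eq_true] at h
    rcases h with ⟨m, hm, hPm⟩ | ⟨b, hb, hbP⟩
    · exact Or.inl ⟨m, hm, sub_of_and_eq (by simpa using hPm), by simp⟩
    · exact Or.inr ⟨b, hb, fun i hi => Or.inl (sub_of_and_eq (by simpa using hbP) i hi)⟩
  | succ k ih =>
    intro P X h L hL hels
    rw [coverB, Bool.or_eq_true, List.any_eq_true] at h
    rcases h with ⟨b, hb, hbP⟩ | h
    · exact Or.inr ⟨b, hb, fun i hi => Or.inl (sub_of_and_eq (by simpa using hbP) i hi)⟩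
    · cases hf : masks.find? (fun m => P &&& m == P) with
      | none => rw [hf] at h; simp at h
      | some m =>
        rw [hf] at h
        simp only at h
        have hm := List.mem_of_find?_eq_some hf
        have hPm := List.find?_some hf
        by_cases hall : ∀ e ∈ L, m.testBit e = true
        · exact Or.inl ⟨m, hm, sub_of_and_eq (by simpa using hPm), hall⟩
        · push Not at hall
          obtain ⟨e, heL, hem⟩ := hall
          refine coverStep_sound masks bads els k _ (fun P X => ih P X) m P L hL
            (fun e he => (hels e he).1) els X h (fun e he => (hels e he).2)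
            ⟨e, heL, (hels e heL).1, by simpa using hem⟩

theorem coverB_nil (masks els : List ℕ) : ∀ (k P X : ℕ),
    cover masks els k P X = true → coverB masks [] els k P X = true := by
  intro k
  induction k with
  | zero =>
    intro P X h
    rw [cover] at h
    rw [coverB]
    simp only [List.any_nil, Bool.or_false]
    rw [List.any_eq_true]
    rw [List.find?_isSome] at h
    exact h
  | succ k ih =>
    intro P X h
    rw [cover] at h
    rw [coverB]
    simp only [List.any_nil, Bool.false_or]
    cases hf : masks.find? (fun m => P &&& m == P) with
    | none => rw [hf] at h; simp at h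
    | some m =>
      rw [hf] at h
      simp only at h ⊢
      have key : ∀ (es : List ℕ) (X : ℕ), coverStep (cover masks els k) m P X es = true →
          coverStep (coverB masks [] els k) m P X es = true := by
        intro es
        induction es with
        | nil => intro X _; rfl
        | cons e es ihe =>
          intro X hs
          rw [coverStep] at hs ⊢
          split_ifs at hs ⊢ with hc
          · exact ihe X hs
          · rw [Bool.and_eq_true] at hs ⊢
            exact ⟨ih _ _ hs.1, ihe _ hs.2⟩
      exact key els X h

/-- E2 -/
theorem pf_E2' : S_E2 := by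
  intro masks els k h L hL hels
  have := coverB_sound masks [] els k 0 0 (coverB_nil masks els k 0 0 h) L hL
    (fun e he => ⟨hels e he, by simp⟩)
  rcases this with ⟨m, hm, -, h⟩ | ⟨b, hb, -⟩
  · exact ⟨m, hm, h⟩
  · simp at hb

end Poonen
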