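import Pool.Agent.Poonen.Stmts

/-! D1: the combination at a good prime (MP_7564fc_nt). -/

namespace Poonen

open Finset

private theorem nat_eq_prod (n : ℕ) (hn : n ≠ 0) (T : Finset ℕ) (hT : n.primeFactors ⊆ T)
    (hp : ∀ t ∈ T, t.Prime) : (n : ℚ) = ∏ t ∈ T, (t : ℚ) ^ (padicValNat t n) := by
  have h1 : ∏ t ∈ n.primeFactors, t ^ (padicValNat t n) = n := by
    have h2 := Nat.prod_factorization_pow_eq_self hn
    rw [Finsupp.prod, Nat.support_factorization] at h2
    conv_rhs => rw [← h2]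
    refine Finset.prod_congr rfl fun t ht => ?_
    rw [Nat.factorization_def n (Nat.prime_of_mem_primeFactors ht)]
  have h3 : ∏ t ∈ n.primeFactors, t ^ (padicValNat t n) = ∏ t ∈ T, t ^ (padicValNat t n) := by
    refine Finset.prod_subset hT fun t ht ht2 => ?_
    have : ¬ t ∣ n := fun hd => ht2 (Nat.mem_primeFactors.2 ⟨hp t ht, hd, hn⟩)
    rw [padicValNat.eq_zero_of_not_dvd this, pow_zero]
  rw [h3] at h1
  conv_lhs => rw [← h1]
  push_cast
  rfl

private theorem abs_eq_prod (r : ℚ) (hr : r ≠ 0) (S : Finset ℕ) (hS : ∀ t ∈ S, t.Prime)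
    (h : ∀ l : ℕ, l.Prime → l ∉ S → padicValRat l r = 0) :
    |r| = ∏ t ∈ S, (t : ℚ) ^ (padicValRat t r) := by
  classical
  set n := r.num.natAbs with hn
  set d := r.den with hd
  have hn0 : n ≠ 0 := by rw [hn]; simpa using hr
  have hd0 : d ≠ 0 := r.den_nz
  set T := S ∪ n.primeFactors ∪ d.primeFactors with hT
  have hTp : ∀ t ∈ T, t.Prime := by
    intro t ht
    rw [hT, Finset.mem_union, Finset.mem_union] at ht
    rcases ht with (ht | ht) | ht
    · exact hS t ht
    · exact Nat.prime_of_mem_primeFactors ht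
    · exact Nat.prime_of_mem_primeFactors ht
  have h1 := nat_eq_prod n hn0 T (fun t ht => by simp [hT, Finset.mem_union, ht]) hTp
  have h2 := nat_eq_prod d hd0 T (fun t ht => by simp [hT, Finset.mem_union, ht]) hTp
  have h3 : |r| = (n : ℚ) / d := by
    conv_lhs => rw [← Rat.num_div_den r]
    rw [abs_div, Nat.abs_cast, hn, Nat.cast_natAbs]
    simp [hd]
  have h4 : ∏ t ∈ T, (t : ℚ) ^ (padicValRat t r) = |r| := by
    rw [h3, h1, h2, ← Finset.prod_div_distrib]
    refine Finset.prod_congr rfl fun t ht => ?_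
    have ht0 : (t : ℚ) ≠ 0 := by exact_mod_cast (hTp t ht).ne_zero
    rw [padicValRat_def, zpow_sub₀ ht0, padicValInt, zpow_natCast, zpow_natCast]
  rw [← h4]
  symm
  refine Finset.prod_subset ?_ fun t ht ht2 => ?_
  · intro t ht
    simp [hT, ht]
  · rw [h t (hTp t ht) ht2, zpow_zero]

/-- the finite-set identity, in the form without negative exponents -/
private theorem sq_mul_prod (r : ℚ) (S : Finset ℕ) (hS : ∀ t ∈ S, t.Prime)
    (h : |r| = ∏ t ∈ S, (t : ℚ) ^ (padicValRat t r)) :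
    r ^ 2 * ∏ t ∈ S, (t : ℚ) ^ (2 * (-padicValRat t r).toNat) =
      ∏ t ∈ S, (t : ℚ) ^ (2 * (padicValRat t r).toNat) := by
  rw [← sq_abs, h, ← Finset.prod_pow, ← Finset.prod_mul_distrib]
  refine Finset.prod_congr rfl fun t ht => ?_
  have ht0 : (t : ℚ) ≠ 0 := by exact_mod_cast (hS t ht).ne_zero
  rw [← zpow_natCast, ← zpow_natCast, ← zpow_natCast, ← zpow_mul, ← zpow_add₀ ht0]
  congr 1
  push_cast
  have := Int.toNat_sub_toNat_neg (padicValRat t r)
  have e : ((-padicValRat t r).toNat : ℤ) = (padicValRat t r).toNat - padicValRat t r := by omega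
  omega

theorem pf_D1 (hA2 : S_A2) (hB1 : S_B1) : S_D1 := by
  intro c N X hX p hp hpc C a ha hax q m hm hmq y hy
  have hN := hX.pos
  have hmod : ∀ i j, i < N → j < i → j % N ≠ i % N := by
    intro i j hi hj
    rw [Nat.mod_eq_of_lt hi, Nat.mod_eq_of_lt (hj.trans hi)]
    exact hj.ne
  have unitL : ∀ (l : ℕ) [Fact l.Prime] (C' : ℤ_[l]) (a' : ℕ → ℤ_[l]), Cyc C' N a' →
      ∀ i j, j % N ≠ i % N → IsUnit (a' j + a' i) := by
    intro l _ C' a' hc i j hij
    have h1 := (hA2 ℤ_[l] C' N a' hc j i hij).2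
    rw [← Finset.mul_prod_erase (range N) _ (Finset.mem_range.2 hN)] at h1
    simp only [add_zero] at h1
    exact IsUnit.of_mul_eq_one _ h1
  have val0 : ∀ i j, i < N → j < i → ∀ l : ℕ, l.Prime → l ∉ c.den.primeFactors →
      padicValRat l (X j + X i) = 0 := by
    intro i j hi hj l hl hls
    have : Fact l.Prime := ⟨hl⟩
    have hld : ¬ l ∣ c.den := fun h => hls (Nat.mem_primeFactors.2 ⟨hl, h, c.den_nz⟩)
    obtain ⟨C', a', hc, -, hax'⟩ := hB1 c N X hX l hld
    have hu := unitL l C' a' hc i j (hmod i j hi hj)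
    rw [PadicInt.isUnit_iff] at hu
    have hr : X j + X i ≠ 0 := (hA2 ℚ c N X hX j i (hmod i j hi hj)).1
    have h1 : ‖((X j + X i : ℚ) : ℚ_[l])‖ = 1 := by
      rw [← hu, PadicInt.norm_def]
      push_cast
      rw [hax', hax']
    rw [Padic.eq_padicNorm, padicNorm.eq_zpow_of_nonzero hr] at h1
    push_cast at h1
    have h2 : ((l : ℝ)) ^ (-padicValRat l (X j + X i)) = (l : ℝ) ^ (0 : ℤ) := by
      rw [zpow_zero]; exact h1
    have hl1 : (1 : ℝ) < l := by exact_mod_cast hl.one_lt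
    have := zpow_right_injective₀ (by linarith) (by linarith) h2
    omega
  set S := c.den.primeFactors with hS
  have hSp : ∀ t ∈ S, t.Prime := fun t ht => Nat.prime_of_mem_primeFactors ht
  have ht0 : ∀ t ∈ S, (t : ZMod p) ≠ 0 := by
    intro t ht h0
    rw [ZMod.natCast_eq_zero_iff] at h0
    have h1 := (Nat.prime_dvd_prime_iff_eq hp.out (hSp t ht)).1 h0
    exact hpc (h1 ▸ Nat.dvd_of_mem_primeFactors ht)
  -- the square of a sum in `ZMod p`
  have key : ∀ i j, i < N → j < i →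
      ((PadicInt.toZMod (a j) : ZMod p) + PadicInt.toZMod (a i)) ^ 2 =
        ∏ t ∈ S, (t : ZMod p) ^ (2 * padicValRat t (X j + X i)) := by
    intro i j hi hj
    have hr : X j + X i ≠ 0 := (hA2 ℚ c N X hX j i (hmod i j hi hj)).1
    have e1 := sq_mul_prod (X j + X i) S hSp (abs_eq_prod _ hr S hSp (val0 i j hi hj))
    have e2 : (a j + a i) ^ 2 * ∏ t ∈ S, (t : ℤ_[p]) ^ (2 * (-padicValRat t (X j + X i)).toNat) =
        ∏ t ∈ S, (t : ℤ_[p]) ^ (2 * (padicValRat t (X j + X i)).toNat) := by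
      have e3 := congrArg (fun z : ℚ => (z : ℚ_[p])) e1
      push_cast at e3
      rw [← hax, ← hax] at e3
      have e6 : ((((a j + a i) ^ 2 *
          ∏ t ∈ S, (t : ℤ_[p]) ^ (2 * (-padicValRat t (X j + X i)).toNat) : ℤ_[p])) : ℚ_[p]) =
          ((∏ t ∈ S, (t : ℤ_[p]) ^ (2 * (padicValRat t (X j + X i)).toNat) : ℤ_[p]) : ℚ_[p]) := by
        have cp : ∀ f : ℕ → ℤ_[p], ((∏ t ∈ S, f t : ℤ_[p]) : ℚ_[p]) = ∏ t ∈ S, (f t : ℚ_[p]) :=
          fun f => map_prod (PadicInt.Coe.ringHom (p := p)) f S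
        rw [PadicInt.coe_mul, cp, cp]
        push_cast
        exact e3
      exact PadicInt.ext e6
    have e4 := congrArg (PadicInt.toZMod : ℤ_[p] →+* ZMod p) e2
    simp only [map_mul, map_pow, map_add, map_prod, map_natCast] at e4
    have hne : ∏ t ∈ S, (t : ZMod p) ^ (2 * (-padicValRat t (X j + X i)).toNat) ≠ 0 :=
      Finset.prod_ne_zero_iff.2 fun t ht => pow_ne_zero _ (ht0 t ht)
    rw [← mul_left_inj' hne, e4, ← Finset.prod_mul_distrib]
    refine Finset.prod_congr rfl fun t ht => ?_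
    rw [← zpow_natCast, ← zpow_natCast, ← zpow_add₀ (ht0 t ht)]
    congr 1
    push_cast
    have := Int.toNat_sub_toNat_neg (padicValRat t (X j + X i))
    omega
  obtain ⟨m', rfl⟩ := hm
  have key2 : ∀ i ∈ range N, ∀ j ∈ range i,
      ((PadicInt.toZMod (a j) : ZMod p) + PadicInt.toZMod (a i)) ^ ((m' + m') * y j i) =
        ∏ t ∈ S, ((t : ZMod p) ^ (m' + m')) ^ ((y j i : ℤ) * padicValRat t (X j + X i)) := by
    intro i hi j hj
    have e : (m' + m') * y j i = 2 * (m' * y j i) := by ring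
    rw [e, pow_mul, key i j (Finset.mem_range.1 hi) (Finset.mem_range.1 hj), ← Finset.prod_pow]
    refine Finset.prod_congr rfl fun t ht => ?_
    rw [← zpow_natCast, ← zpow_mul, ← zpow_natCast, ← zpow_mul]
    congr 1
    push_cast
    ring
  have e5 : ∏ i ∈ range N, ∏ j ∈ range i,
      ((PadicInt.toZMod (a j) : ZMod p) + PadicInt.toZMod (a i)) ^ ((m' + m') * y j i) =
      ∏ t ∈ S, ((t : ZMod p) ^ (m' + m')) ^
        (∑ i ∈ range N, ∑ j ∈ range i, (y j i : ℤ) * padicValRat t (X j + X i)) := by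
    have zsum : ∀ (s : Finset ℕ) (f : ℕ → ℤ) (z : ZMod p), z ≠ 0 →
        z ^ (∑ k ∈ s, f k) = ∏ k ∈ s, z ^ f k := by
      intro s f z hz
      classical
      induction s using Finset.induction_on with
      | empty => simp
      | insert k s hk ih => rw [Finset.sum_insert hk, Finset.prod_insert hk, zpow_add₀ hz, ih]
    calc ∏ i ∈ range N, ∏ j ∈ range i,
        ((PadicInt.toZMod (a j) : ZMod p) + PadicInt.toZMod (a i)) ^ ((m' + m') * y j i)
        = ∏ i ∈ range N, ∏ j ∈ range i, ∏ t ∈ S,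
          ((t : ZMod p) ^ (m' + m')) ^ ((y j i : ℤ) * padicValRat t (X j + X i)) :=
          Finset.prod_congr rfl fun i hi => Finset.prod_congr rfl fun j hj => key2 i hi j hj
      _ = ∏ i ∈ range N, ∏ t ∈ S, ∏ j ∈ range i,
          ((t : ZMod p) ^ (m' + m')) ^ ((y j i : ℤ) * padicValRat t (X j + X i)) :=
          Finset.prod_congr rfl fun i _ => Finset.prod_comm
      _ = ∏ t ∈ S, ∏ i ∈ range N, ∏ j ∈ range i,
          ((t : ZMod p) ^ (m' + m')) ^ ((y j i : ℤ) * padicValRat t (X j + X i)) :=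
          Finset.prod_comm
      _ = _ := by
          refine Finset.prod_congr rfl fun t ht => ?_
          have hz : ((t : ZMod p) ^ (m' + m')) ≠ 0 := pow_ne_zero _ (ht0 t ht)
          rw [zsum _ _ _ hz]
          refine Finset.prod_congr rfl fun i _ => ?_
          rw [zsum _ _ _ hz]
  rw [e5]
  refine Finset.prod_eq_one fun t ht => ?_
  rcases hy t ht with h1 | ⟨s, hs⟩
  · rw [h1, one_zpow]
  · rw [hs, zpow_mul, zpow_natCast, ← pow_mul, hmq, ZMod.pow_card_sub_one_eq_one (ht0 t ht),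
      one_zpow]

end Poonen
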