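import Pool.Agent.Poonen.Defs

/-!
# Certificates (MP_7564fc_nt) : for every local type `(C, x)` a list of dual vectors
-/

namespace Poonen

/-- Certificate for `N = 5`, `p = 13`, `q = 3`. -/
def cert5_13 : List (ℕ × ℕ × List (List ℕ)) := [
  (3, 0, [
    [2, 2, 0, 1, 2, 2, 2, 1, 0, 0],
    [1, 1, 0, 0, 2, 1, 0, 1, 0, 0],
    [1, 0, 0, 1, 2, 2, 1, 0, 0, 0],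
    [0, 2, 2, 1, 0, 2, 1, 0, 0, 0],
    [1, 2, 2, 1, 1, 1, 0, 1, 0, 0],
    [0, 2, 0, 0, 2, 1, 2, 1, 0, 0],
    [1, 2, 0, 1, 2, 2, 0, 1, 0, 0],
    [1, 2, 2, 1, 0, 2, 2, 1, 0, 0]])]

/-- Certificate for `N = 5`, `p = 19`, `q = 3`. -/
def cert5_19 : List (ℕ × ℕ × List (List ℕ)) := [
  (13, 0, [
    [1, 1, 0, 0, 2, 1, 0, 1, 0, 0],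
    [2, 2, 0, 1, 2, 2, 2, 1, 0, 0],
    [0, 1, 0, 2, 0, 2, 2, 1, 0, 0],
    [1, 0, 0, 1, 2, 2, 1, 0, 0, 0],
    [0, 1, 2, 0, 2, 0, 1, 1, 0, 0],
    [2, 1, 1, 2, 0, 2, 2, 1, 0, 0],
    [2, 2, 2, 2, 0, 1, 1, 0, 0, 0]])]

/-- Certificate for `N = 6`, `p = 41`, `q = 5`. -/
def cert6_41 : List (ℕ × ℕ × List (List ℕ)) := [
  (5, 30, [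
    [1, 2, 0, 0, 2, 4, 0, 0, 1, 4, 1, 1, 0, 0, 0],
    [2, 4, 4, 4, 1, 0, 0, 2, 3, 2, 1, 1, 0, 0, 0],
    [0, 1, 4, 2, 0, 3, 3, 4, 2, 1, 3, 1, 0, 0, 0],
    [3, 0, 0, 4, 0, 1, 0, 2, 1, 3, 1, 1, 0, 0, 0],
    [4, 1, 0, 4, 2, 4, 4, 1, 2, 2, 1, 0, 0, 0, 0],
    [2, 4, 0, 4, 3, 1, 1, 1, 4, 4, 4, 1, 0, 0, 0],
    [3, 0, 3, 0, 4, 4, 1, 0, 4, 0, 4, 1, 0, 0, 0],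
    [2, 1, 4, 0, 3, 4, 3, 0, 0, 2, 0, 1, 0, 0, 0],
    [3, 3, 0, 0, 1, 2, 2, 0, 2, 2, 3, 1, 0, 0, 0],
    [2, 4, 3, 4, 4, 4, 4, 3, 2, 0, 3, 1, 0, 0, 0],
    [4, 2, 1, 1, 1, 4, 4, 3, 1, 2, 0, 1, 0, 0, 0],
    [3, 0, 3, 3, 1, 3, 0, 0, 4, 1, 0, 1, 0, 0, 0],
    [0, 4, 4, 0, 2, 1, 2, 4, 2, 1, 0, 0, 0, 0, 0],
    [3, 3, 2, 2, 4, 0, 1, 3, 4, 3, 3, 1, 0, 0, 0],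
    [1, 2, 0, 4, 1, 3, 4, 2, 1, 4, 0, 1, 0, 0, 0],
    [3, 3, 3, 0, 2, 0, 0, 2, 0, 3, 2, 1, 0, 0, 0],
    [1, 2, 2, 1, 1, 3, 0, 2, 1, 2, 2, 1, 0, 0, 0],
    [0, 1, 3, 2, 4, 0, 1, 2, 1, 2, 2, 1, 0, 0, 0],
    [1, 0, 3, 2, 4, 0, 0, 2, 4, 4, 3, 1, 0, 0, 0]]),
  (21, 0, [
    [3, 0, 3, 0, 4, 4, 1, 0, 4, 0, 4, 1, 0, 0, 0],
    [2, 4, 1, 2, 2, 4, 4, 4, 0, 1, 4, 1, 0, 0, 0],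
    [2, 0, 0, 2, 1, 3, 1, 3, 1, 2, 3, 1, 0, 0, 0],
    [2, 4, 4, 1, 4, 3, 3, 3, 3, 2, 4, 1, 0, 0, 0],
    [3, 3, 0, 0, 1, 2, 2, 0, 2, 2, 3, 1, 0, 0, 0],
    [2, 1, 4, 0, 3, 4, 3, 0, 0, 2, 0, 1, 0, 0, 0],
    [0, 1, 4, 2, 0, 3, 3, 4, 2, 1, 3, 1, 0, 0, 0],
    [2, 4, 4, 4, 1, 0, 0, 2, 3, 2, 1, 1, 0, 0, 0],
    [1, 2, 0, 0, 2, 4, 0, 0, 1, 4, 1, 1, 0, 0, 0],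
    [4, 1, 0, 4, 2, 4, 4, 1, 2, 2, 1, 0, 0, 0, 0],
    [2, 0, 0, 4, 3, 1, 3, 3, 0, 2, 1, 0, 0, 0, 0],
    [2, 4, 4, 0, 0, 4, 4, 0, 3, 2, 0, 1, 0, 0, 0],
    [1, 0, 4, 4, 2, 3, 3, 1, 0, 4, 1, 1, 0, 0, 0],
    [3, 3, 2, 1, 3, 1, 2, 0, 3, 1, 1, 0, 0, 0, 0],
    [3, 1, 3, 1, 3, 2, 3, 3, 3, 4, 4, 1, 0, 0, 0],
    [2, 0, 0, 0, 0, 4, 0, 0, 1, 2, 4, 1, 0, 0, 0],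
    [4, 0, 1, 0, 2, 4, 1, 2, 3, 4, 1, 1, 0, 0, 0],
    [2, 1, 2, 0, 4, 2, 2, 2, 0, 3, 1, 0, 0, 0, 0]]),
  (25, 0, [
    [2, 1, 4, 0, 3, 4, 3, 0, 0, 2, 0, 1, 0, 0, 0],
    [2, 4, 4, 4, 1, 0, 0, 2, 3, 2, 1, 1, 0, 0, 0],
    [3, 0, 3, 0, 4, 4, 1, 0, 4, 0, 4, 1, 0, 0, 0],
    [1, 2, 0, 0, 2, 4, 0, 0, 1, 4, 1, 1, 0, 0, 0],
    [3, 3, 0, 0, 1, 2, 2, 0, 2, 2, 3, 1, 0, 0, 0],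
    [4, 1, 0, 4, 2, 4, 4, 1, 2, 2, 1, 0, 0, 0, 0],
    [2, 3, 2, 0, 2, 1, 1, 0, 3, 0, 1, 0, 0, 0, 0],
    [2, 4, 4, 1, 4, 3, 3, 3, 3, 2, 4, 1, 0, 0, 0],
    [2, 4, 1, 2, 2, 4, 4, 4, 0, 1, 4, 1, 0, 0, 0],
    [1, 3, 1, 0, 2, 0, 0, 4, 4, 2, 1, 1, 0, 0, 0],
    [1, 2, 0, 3, 0, 1, 2, 0, 0, 1, 3, 1, 0, 0, 0],
    [4, 2, 1, 4, 3, 1, 1, 2, 1, 2, 2, 1, 0, 0, 0],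
    [2, 3, 1, 2, 2, 4, 2, 4, 3, 4, 1, 1, 0, 0, 0],
    [3, 1, 0, 3, 2, 2, 4, 4, 1, 0, 4, 1, 0, 0, 0],
    [4, 2, 0, 3, 1, 4, 0, 1, 0, 1, 2, 1, 0, 0, 0],
    [2, 0, 3, 2, 0, 3, 4, 0, 4, 0, 0, 1, 0, 0, 0],
    [3, 0, 1, 3, 4, 3, 1, 2, 4, 4, 1, 1, 0, 0, 0],
    [4, 0, 4, 1, 1, 3, 4, 3, 1, 0, 1, 0, 0, 0, 0],
    [2, 3, 4, 4, 0, 4, 0, 1, 2, 4, 1, 1, 0, 0, 0],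
    [4, 0, 1, 4, 3, 0, 3, 3, 4, 1, 3, 1, 0, 0, 0],
    [0, 3, 4, 4, 1, 0, 1, 2, 4, 1, 3, 1, 0, 0, 0],
    [2, 2, 0, 2, 3, 2, 4, 1, 0, 0, 2, 1, 0, 0, 0],
    [1, 0, 2, 0, 2, 0, 2, 2, 0, 4, 3, 1, 0, 0, 0]]),
  (26, 10, [
    [1, 2, 0, 0, 2, 4, 0, 0, 1, 4, 1, 1, 0, 0, 0],
    [2, 1, 4, 0, 3, 4, 3, 0, 0, 2, 0, 1, 0, 0, 0],
    [3, 0, 3, 0, 4, 4, 1, 0, 4, 0, 4, 1, 0, 0, 0],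
    [3, 3, 0, 0, 1, 2, 2, 0, 2, 2, 3, 1, 0, 0, 0],
    [4, 1, 0, 4, 2, 4, 4, 1, 2, 2, 1, 0, 0, 0, 0],
    [3, 0, 0, 4, 0, 1, 0, 2, 1, 3, 1, 1, 0, 0, 0],
    [2, 3, 2, 0, 2, 1, 1, 0, 3, 0, 1, 0, 0, 0, 0],
    [2, 4, 4, 4, 1, 0, 0, 2, 3, 2, 1, 1, 0, 0, 0],
    [2, 0, 0, 4, 3, 1, 3, 3, 0, 2, 1, 0, 0, 0, 0],
    [2, 4, 0, 4, 3, 1, 1, 1, 4, 4, 4, 1, 0, 0, 0],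
    [0, 0, 4, 1, 2, 3, 3, 4, 4, 3, 1, 0, 0, 0, 0],
    [1, 0, 4, 4, 2, 3, 3, 1, 0, 4, 1, 1, 0, 0, 0],
    [1, 2, 0, 3, 0, 1, 2, 0, 0, 1, 3, 1, 0, 0, 0],
    [1, 2, 1, 4, 3, 2, 2, 4, 0, 0, 1, 0, 0, 0, 0],
    [0, 0, 0, 1, 2, 0, 3, 3, 1, 1, 2, 1, 0, 0, 0],
    [1, 1, 2, 2, 2, 3, 4, 2, 1, 4, 0, 1, 0, 0, 0],
    [1, 2, 0, 4, 1, 0, 1, 4, 3, 0, 2, 1, 0, 0, 0],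
    [0, 3, 3, 0, 4, 1, 1, 2, 0, 4, 0, 1, 0, 0, 0],
    [0, 3, 4, 1, 3, 1, 2, 0, 1, 3, 0, 1, 0, 0, 0],
    [0, 2, 1, 3, 3, 0, 0, 0, 1, 0, 3, 1, 0, 0, 0],
    [4, 1, 2, 2, 4, 3, 3, 0, 3, 4, 0, 1, 0, 0, 0]]),
  (37, 1, [
    [3, 3, 0, 0, 1, 2, 2, 0, 2, 2, 3, 1, 0, 0, 0],
    [3, 0, 3, 0, 4, 4, 1, 0, 4, 0, 4, 1, 0, 0, 0],
    [2, 4, 4, 0, 0, 4, 4, 0, 3, 2, 0, 1, 0, 0, 0],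
    [2, 3, 2, 0, 2, 1, 1, 0, 3, 0, 1, 0, 0, 0, 0],
    [2, 4, 4, 4, 1, 0, 0, 2, 3, 2, 1, 1, 0, 0, 0],
    [2, 1, 4, 0, 3, 4, 3, 0, 0, 2, 0, 1, 0, 0, 0],
    [2, 4, 4, 1, 4, 3, 3, 3, 3, 2, 4, 1, 0, 0, 0],
    [0, 1, 4, 2, 0, 3, 3, 4, 2, 1, 3, 1, 0, 0, 0],
    [4, 2, 1, 4, 3, 1, 1, 2, 1, 2, 2, 1, 0, 0, 0],
    [1, 2, 0, 3, 0, 1, 2, 0, 0, 1, 3, 1, 0, 0, 0],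
    [4, 1, 1, 4, 1, 1, 3, 4, 1, 4, 1, 0, 0, 0, 0],
    [3, 2, 0, 3, 4, 4, 2, 0, 1, 1, 1, 1, 0, 0, 0],
    [0, 0, 2, 0, 1, 4, 4, 3, 3, 3, 4, 1, 0, 0, 0],
    [1, 3, 0, 1, 2, 4, 4, 3, 1, 3, 2, 1, 0, 0, 0],
    [0, 2, 3, 1, 2, 2, 0, 3, 1, 3, 1, 1, 0, 0, 0],
    [3, 2, 3, 2, 0, 2, 0, 4, 4, 3, 4, 1, 0, 0, 0],
    [0, 4, 1, 1, 4, 3, 4, 2, 2, 0, 2, 1, 0, 0, 0],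
    [1, 2, 0, 1, 3, 0, 1, 3, 1, 4, 2, 1, 0, 0, 0],
    [1, 1, 4, 1, 1, 4, 0, 3, 2, 1, 1, 0, 0, 0, 0],
    [3, 4, 0, 0, 4, 3, 1, 3, 2, 4, 1, 1, 0, 0, 0],
    [4, 1, 0, 4, 1, 1, 0, 3, 2, 2, 1, 1, 0, 0, 0],
    [1, 3, 0, 4, 1, 3, 0, 1, 4, 1, 3, 1, 0, 0, 0],
    [3, 0, 1, 3, 1, 4, 2, 4, 0, 3, 4, 1, 0, 0, 0]]),
  (39, 8, [
    [2, 1, 4, 0, 3, 4, 3, 0, 0, 2, 0, 1, 0, 0, 0],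
    [3, 3, 0, 0, 1, 2, 2, 0, 2, 2, 3, 1, 0, 0, 0],
    [3, 0, 3, 0, 4, 4, 1, 0, 4, 0, 4, 1, 0, 0, 0],
    [1, 2, 0, 0, 2, 4, 0, 0, 1, 4, 1, 1, 0, 0, 0],
    [4, 1, 0, 4, 2, 4, 4, 1, 2, 2, 1, 0, 0, 0, 0],
    [2, 4, 4, 0, 0, 4, 4, 0, 3, 2, 0, 1, 0, 0, 0],
    [2, 0, 0, 4, 3, 1, 3, 3, 0, 2, 1, 0, 0, 0, 0],
    [2, 0, 0, 2, 1, 3, 1, 3, 1, 2, 3, 1, 0, 0, 0],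
    [0, 1, 4, 2, 0, 3, 3, 4, 2, 1, 3, 1, 0, 0, 0],
    [2, 4, 1, 2, 2, 4, 4, 4, 0, 1, 4, 1, 0, 0, 0],
    [4, 2, 4, 3, 0, 0, 0, 1, 4, 3, 2, 1, 0, 0, 0],
    [4, 2, 1, 1, 1, 4, 4, 3, 1, 2, 0, 1, 0, 0, 0],
    [4, 2, 2, 0, 1, 2, 1, 3, 2, 2, 4, 1, 0, 0, 0],
    [4, 0, 2, 1, 4, 2, 0, 4, 3, 1, 2, 1, 0, 0, 0],
    [3, 3, 3, 4, 4, 4, 4, 2, 0, 4, 2, 1, 0, 0, 0],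
    [2, 1, 3, 4, 3, 1, 3, 1, 0, 4, 1, 1, 0, 0, 0],
    [3, 0, 1, 3, 4, 3, 1, 2, 4, 4, 1, 1, 0, 0, 0],
    [0, 2, 3, 1, 2, 3, 0, 3, 4, 2, 3, 1, 0, 0, 0],
    [2, 0, 3, 2, 0, 3, 4, 0, 4, 0, 0, 1, 0, 0, 0],
    [3, 0, 0, 2, 2, 1, 3, 1, 4, 3, 1, 1, 0, 0, 0],
    [3, 2, 2, 2, 2, 4, 1, 4, 1, 4, 3, 1, 0, 0, 0],
    [1, 3, 3, 3, 3, 0, 1, 4, 0, 1, 2, 1, 0, 0, 0],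
    [1, 2, 0, 3, 0, 0, 2, 0, 0, 2, 3, 1, 0, 0, 0],
    [2, 0, 4, 4, 3, 3, 4, 0, 3, 1, 1, 1, 0, 0, 0],
    [0, 3, 3, 4, 1, 0, 1, 4, 0, 3, 4, 1, 0, 0, 0]])]

/-- Certificate for `N = 6`, `p = 67`, `q = 3`. -/
def cert6_67 : List (ℕ × ℕ × List (List ℕ)) := [
  (9, 31, [
    [1, 0, 2, 0, 2, 1, 1, 0, 2, 1, 1, 1, 0, 0, 0],
    [2, 0, 1, 0, 0, 2, 0, 0, 2, 2, 2, 1, 0, 0, 0],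
    [0, 2, 0, 0, 1, 2, 1, 0, 1, 0, 1, 1, 0, 0, 0],
    [2, 0, 0, 0, 2, 0, 1, 0, 0, 1, 0, 0, 0, 0, 0],
    [2, 1, 0, 1, 2, 1, 0, 2, 2, 2, 1, 1, 0, 0, 0],
    [2, 2, 0, 1, 2, 1, 1, 2, 0, 2, 1, 1, 0, 0, 0],
    [1, 1, 0, 0, 2, 1, 0, 1, 2, 0, 2, 1, 0, 0, 0]]),
  (23, 10, [
    [0, 2, 0, 0, 1, 2, 1, 0, 1, 0, 1, 1, 0, 0, 0],
    [2, 0, 1, 0, 0, 2, 0, 0, 2, 2, 2, 1, 0, 0, 0],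
    [2, 0, 0, 0, 2, 0, 1, 0, 0, 1, 0, 0, 0, 0, 0],
    [2, 0, 0, 2, 0, 1, 0, 2, 2, 0, 0, 1, 0, 0, 0],
    [0, 0, 0, 1, 0, 0, 0, 1, 2, 1, 2, 1, 0, 0, 0],
    [0, 0, 0, 2, 1, 2, 1, 2, 1, 0, 2, 1, 0, 0, 0],
    [2, 0, 2, 2, 2, 1, 1, 0, 1, 0, 2, 1, 0, 0, 0],
    [2, 0, 1, 2, 2, 2, 1, 0, 0, 1, 2, 1, 0, 0, 0]]),
  (39, 19, [
    [1, 0, 2, 0, 2, 1, 1, 0, 2, 1, 1, 1, 0, 0, 0],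
    [0, 1, 0, 0, 2, 2, 2, 0, 0, 0, 1, 1, 0, 0, 0],
    [2, 2, 0, 0, 2, 0, 0, 0, 1, 1, 0, 1, 0, 0, 0],
    [2, 0, 1, 0, 0, 2, 0, 0, 2, 2, 2, 1, 0, 0, 0],
    [1, 2, 2, 2, 1, 2, 1, 0, 1, 2, 2, 1, 0, 0, 0],
    [1, 0, 1, 0, 0, 0, 2, 2, 1, 1, 2, 1, 0, 0, 0],
    [1, 0, 1, 2, 0, 1, 2, 2, 2, 1, 0, 0, 0, 0, 0],
    [2, 2, 0, 0, 1, 1, 2, 0, 1, 0, 0, 1, 0, 0, 0]]),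
  (39, 7, [
    [0, 1, 0, 0, 2, 2, 2, 0, 0, 0, 1, 1, 0, 0, 0],
    [1, 0, 2, 0, 2, 1, 1, 0, 2, 1, 1, 1, 0, 0, 0],
    [2, 0, 1, 0, 0, 2, 0, 0, 2, 2, 2, 1, 0, 0, 0],
    [2, 1, 1, 0, 1, 2, 1, 0, 0, 2, 1, 0, 0, 0, 0],
    [2, 1, 0, 1, 2, 1, 0, 2, 2, 2, 1, 1, 0, 0, 0],
    [2, 2, 0, 1, 2, 1, 1, 2, 0, 2, 1, 1, 0, 0, 0],
    [0, 0, 0, 1, 1, 1, 2, 2, 1, 1, 1, 1, 0, 0, 0],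
    [0, 0, 2, 0, 2, 1, 0, 2, 1, 0, 2, 1, 0, 0, 0],
    [0, 1, 2, 1, 0, 0, 1, 1, 2, 0, 0, 1, 0, 0, 0]]),
  (42, 66, [
    [0, 2, 2, 1, 1, 0, 1, 0, 1, 1, 0, 1, 0, 0, 0],
    [1, 2, 2, 2, 1, 2, 1, 0, 1, 2, 2, 1, 0, 0, 0],
    [2, 0, 0, 2, 0, 1, 0, 2, 2, 0, 0, 1, 0, 0, 0],
    [0, 0, 2, 0, 1, 0, 2, 2, 0, 0, 1, 0, 0, 0, 0],
    [1, 1, 2, 2, 2, 1, 1, 0, 1, 1, 0, 1, 0, 0, 0],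
    [1, 1, 2, 1, 0, 2, 2, 0, 0, 1, 1, 0, 0, 0, 0],
    [1, 1, 1, 0, 2, 0, 0, 2, 2, 0, 0, 1, 0, 0, 0],
    [2, 2, 2, 2, 2, 2, 1, 2, 1, 0, 2, 1, 0, 0, 0],
    [2, 0, 1, 1, 0, 0, 0, 0, 0, 0, 0, 0, 0, 0, 0],
    [2, 2, 0, 0, 1, 0, 1, 1, 1, 2, 2, 1, 0, 0, 0],
    [0, 1, 1, 0, 2, 2, 2, 1, 2, 0, 0, 1, 0, 0, 0],
    [1, 1, 0, 2, 2, 2, 1, 2, 1, 0, 0, 1, 0, 0, 0]]),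
  (45, 27, [
    [0, 0, 0, 0, 0, 1, 1, 0, 1, 2, 2, 1, 0, 0, 0],
    [0, 0, 1, 0, 2, 1, 2, 0, 2, 2, 1, 0, 0, 0, 0],
    [0, 2, 0, 0, 2, 2, 1, 1, 0, 1, 1, 1, 0, 0, 0],
    [0, 1, 1, 2, 0, 1, 0, 1, 1, 2, 0, 1, 0, 0, 0],
    [1, 1, 0, 0, 2, 1, 0, 1, 2, 0, 2, 1, 0, 0, 0],
    [0, 1, 0, 0, 1, 1, 1, 0, 2, 1, 0, 1, 0, 0, 0],
    [2, 0, 0, 2, 1, 1, 1, 0, 1, 0, 1, 0, 0, 0, 0],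
    [0, 2, 0, 0, 0, 0, 1, 0, 1, 1, 2, 1, 0, 0, 0],
    [0, 1, 0, 2, 0, 2, 2, 1, 2, 0, 0, 1, 0, 0, 0],
    [2, 0, 0, 1, 0, 2, 1, 1, 1, 0, 2, 1, 0, 0, 0],
    [0, 2, 1, 2, 0, 2, 0, 2, 1, 2, 0, 1, 0, 0, 0]]),
  (46, 0, [
    [2, 0, 0, 0, 2, 0, 1, 0, 0, 1, 0, 0, 0, 0, 0],
    [2, 0, 1, 0, 0, 2, 0, 0, 2, 2, 2, 1, 0, 0, 0],
    [0, 2, 0, 0, 1, 2, 1, 0, 1, 0, 1, 1, 0, 0, 0],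
    [0, 0, 2, 0, 1, 0, 2, 2, 0, 0, 1, 0, 0, 0, 0],
    [0, 1, 2, 0, 1, 1, 0, 0, 1, 0, 0, 1, 0, 0, 0],
    [1, 1, 2, 1, 1, 0, 2, 0, 0, 0, 2, 1, 0, 0, 0],
    [0, 0, 1, 2, 1, 2, 0, 1, 2, 0, 1, 0, 0, 0, 0]]),
  (58, 15, [
    [0, 1, 1, 0, 2, 2, 1, 0, 1, 1, 0, 1, 0, 0, 0],
    [0, 0, 2, 0, 1, 0, 2, 2, 0, 0, 1, 0, 0, 0, 0],
    [1, 0, 1, 0, 2, 2, 1, 2, 0, 1, 1, 0, 0, 0, 0],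
    [1, 1, 0, 0, 2, 1, 0, 1, 2, 0, 2, 1, 0, 0, 0],
    [0, 1, 2, 0, 1, 1, 2, 0, 1, 2, 2, 1, 0, 0, 0],
    [0, 2, 0, 0, 2, 2, 1, 1, 0, 1, 1, 1, 0, 0, 0],
    [2, 0, 1, 0, 1, 2, 1, 2, 2, 2, 2, 1, 0, 0, 0],
    [1, 0, 0, 1, 2, 0, 0, 0, 1, 2, 0, 1, 0, 0, 0],
    [2, 0, 2, 2, 1, 0, 1, 2, 0, 1, 2, 1, 0, 0, 0],
    [0, 1, 0, 1, 2, 2, 0, 2, 2, 1, 2, 1, 0, 0, 0],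
    [0, 2, 2, 1, 2, 0, 0, 0, 2, 2, 2, 1, 0, 0, 0]]),
  (60, 19, [
    [1, 2, 1, 0, 2, 1, 2, 0, 2, 2, 2, 1, 0, 0, 0],
    [0, 0, 0, 1, 0, 0, 0, 1, 2, 1, 2, 1, 0, 0, 0],
    [1, 0, 1, 0, 0, 0, 1, 0, 2, 2, 1, 0, 0, 0, 0],
    [1, 2, 2, 2, 1, 2, 1, 0, 1, 2, 2, 1, 0, 0, 0],
    [2, 1, 1, 1, 0, 1, 0, 1, 2, 0, 1, 0, 0, 0, 0],
    [2, 0, 1, 1, 1, 0, 0, 2, 1, 0, 2, 1, 0, 0, 0],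
    [0, 2, 0, 0, 2, 2, 1, 1, 0, 1, 1, 1, 0, 0, 0],
    [2, 1, 2, 0, 2, 0, 1, 1, 0, 0, 0, 1, 0, 0, 0],
    [2, 2, 0, 0, 1, 1, 2, 0, 1, 0, 0, 1, 0, 0, 0],
    [0, 1, 2, 0, 2, 2, 0, 0, 2, 2, 2, 1, 0, 0, 0]])]

/-- Certificate for `N = 6`, `p = 71`, `q = 7`. -/
def cert6_71 : List (ℕ × ℕ × List (List ℕ)) := [
  (5, 15, [
    [5, 0, 0, 5, 1, 2, 1, 6, 1, 5, 2, 1, 0, 0, 0],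
    [2, 0, 0, 6, 0, 4, 0, 5, 1, 2, 4, 1, 0, 0, 0],
    [2, 0, 0, 4, 3, 1, 3, 3, 0, 2, 1, 0, 0, 0, 0],
    [2, 0, 0, 4, 3, 6, 3, 6, 1, 2, 6, 1, 0, 0, 0],
    [0, 3, 0, 1, 5, 0, 4, 3, 6, 0, 0, 1, 0, 0, 0],
    [0, 6, 0, 5, 5, 0, 3, 1, 4, 0, 0, 1, 0, 0, 0],
    [1, 3, 6, 1, 5, 3, 4, 4, 1, 0, 1, 1, 0, 0, 0],
    [2, 0, 6, 0, 1, 6, 0, 5, 6, 5, 1, 0, 0, 0, 0],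
    [4, 5, 4, 1, 0, 6, 4, 0, 3, 2, 3, 1, 0, 0, 0],
    [5, 6, 6, 2, 5, 4, 1, 2, 4, 4, 1, 0, 0, 0, 0],
    [1, 6, 2, 3, 4, 4, 6, 0, 2, 0, 6, 1, 0, 0, 0],
    [0, 4, 0, 4, 0, 5, 3, 3, 3, 4, 4, 1, 0, 0, 0],
    [3, 6, 2, 6, 5, 1, 4, 4, 0, 5, 3, 1, 0, 0, 0],
    [5, 5, 5, 5, 0, 6, 3, 2, 4, 1, 3, 1, 0, 0, 0],
    [6, 6, 0, 5, 1, 5, 1, 4, 6, 5, 0, 1, 0, 0, 0],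
    [3, 4, 1, 1, 5, 0, 0, 2, 3, 1, 6, 1, 0, 0, 0],
    [0, 6, 6, 6, 0, 1, 5, 6, 5, 2, 5, 1, 0, 0, 0],
    [3, 3, 1, 2, 0, 0, 4, 0, 6, 2, 1, 1, 0, 0, 0],
    [2, 3, 4, 5, 2, 0, 6, 3, 6, 3, 6, 1, 0, 0, 0],
    [5, 0, 1, 5, 5, 1, 2, 5, 5, 0, 3, 1, 0, 0, 0],
    [4, 6, 1, 3, 5, 3, 3, 2, 4, 1, 4, 1, 0, 0, 0],
    [0, 5, 2, 0, 3, 6, 0, 0, 0, 3, 4, 1, 0, 0, 0],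
    [3, 3, 5, 5, 3, 4, 2, 0, 4, 3, 1, 0, 0, 0, 0],
    [2, 5, 5, 2, 4, 2, 1, 4, 1, 4, 5, 1, 0, 0, 0],
    [4, 4, 5, 2, 0, 0, 2, 1, 2, 5, 1, 0, 0, 0, 0],
    [1, 3, 4, 5, 3, 1, 5, 2, 5, 5, 6, 1, 0, 0, 0],
    [3, 4, 4, 0, 3, 5, 2, 5, 2, 4, 5, 1, 0, 0, 0],
    [2, 6, 3, 1, 2, 3, 5, 4, 4, 2, 1, 1, 0, 0, 0],
    [2, 1, 1, 2, 1, 2, 1, 1, 6, 4, 1, 1, 0, 0, 0],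
    [1, 1, 5, 3, 1, 1, 0, 6, 2, 6, 1, 0, 0, 0, 0],
    [3, 3, 2, 4, 4, 5, 4, 1, 2, 6, 6, 1, 0, 0, 0],
    [2, 2, 5, 0, 6, 3, 5, 0, 3, 1, 6, 1, 0, 0, 0],
    [6, 1, 3, 5, 2, 0, 4, 6, 4, 4, 6, 1, 0, 0, 0]]),
  (10, 50, [
    [5, 0, 0, 5, 1, 2, 1, 6, 1, 5, 2, 1, 0, 0, 0],
    [2, 0, 0, 4, 3, 1, 3, 3, 0, 2, 1, 0, 0, 0, 0],
    [2, 0, 0, 6, 0, 4, 0, 5, 1, 2, 4, 1, 0, 0, 0],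
    [2, 0, 0, 4, 3, 6, 3, 6, 1, 2, 6, 1, 0, 0, 0],
    [0, 3, 0, 1, 5, 0, 4, 3, 6, 0, 0, 1, 0, 0, 0],
    [0, 6, 0, 5, 5, 0, 3, 1, 4, 0, 0, 1, 0, 0, 0],
    [3, 5, 4, 6, 5, 1, 3, 4, 6, 0, 5, 1, 0, 0, 0],
    [5, 6, 6, 2, 5, 4, 1, 2, 4, 4, 1, 0, 0, 0, 0],
    [2, 4, 1, 5, 5, 5, 6, 3, 0, 0, 5, 1, 0, 0, 0],
    [3, 5, 3, 3, 3, 6, 6, 5, 1, 6, 5, 1, 0, 0, 0],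
    [1, 3, 6, 1, 5, 3, 4, 4, 1, 0, 1, 1, 0, 0, 0],
    [1, 1, 4, 5, 0, 1, 4, 4, 1, 0, 1, 1, 0, 0, 0],
    [3, 2, 1, 3, 0, 2, 6, 3, 2, 0, 3, 1, 0, 0, 0],
    [6, 3, 0, 6, 0, 4, 3, 2, 4, 4, 2, 1, 0, 0, 0],
    [1, 2, 5, 2, 4, 6, 6, 1, 2, 2, 1, 1, 0, 0, 0],
    [5, 1, 6, 5, 0, 1, 3, 0, 0, 0, 1, 1, 0, 0, 0],
    [2, 1, 2, 1, 4, 5, 6, 6, 3, 5, 5, 1, 0, 0, 0],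
    [4, 1, 5, 0, 1, 5, 0, 2, 5, 4, 6, 1, 0, 0, 0],
    [5, 6, 0, 0, 0, 6, 1, 4, 3, 4, 3, 1, 0, 0, 0],
    [5, 0, 1, 5, 5, 1, 2, 5, 5, 0, 3, 1, 0, 0, 0],
    [4, 6, 6, 1, 1, 1, 6, 1, 5, 6, 5, 1, 0, 0, 0],
    [2, 5, 5, 2, 4, 2, 1, 4, 1, 4, 5, 1, 0, 0, 0],
    [1, 1, 0, 5, 6, 2, 0, 4, 6, 5, 5, 1, 0, 0, 0],
    [4, 0, 4, 1, 6, 6, 1, 1, 3, 5, 0, 1, 0, 0, 0],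
    [2, 1, 2, 0, 4, 1, 4, 0, 0, 0, 1, 1, 0, 0, 0],
    [6, 5, 5, 4, 2, 2, 3, 1, 2, 2, 2, 1, 0, 0, 0],
    [5, 0, 6, 6, 3, 1, 3, 0, 6, 5, 0, 1, 0, 0, 0],
    [2, 3, 1, 4, 3, 3, 0, 1, 0, 2, 4, 1, 0, 0, 0],
    [3, 2, 2, 0, 1, 1, 1, 0, 2, 6, 1, 0, 0, 0, 0],
    [0, 1, 6, 4, 3, 3, 6, 6, 1, 4, 6, 1, 0, 0, 0],
    [3, 1, 3, 4, 6, 4, 1, 2, 0, 1, 6, 1, 0, 0, 0],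
    [6, 2, 1, 4, 1, 6, 6, 0, 5, 0, 6, 1, 0, 0, 0]]),
  (15, 58, [
    [2, 0, 0, 4, 3, 1, 3, 3, 0, 2, 1, 0, 0, 0, 0],
    [5, 0, 0, 5, 1, 2, 1, 6, 1, 5, 2, 1, 0, 0, 0],
    [2, 0, 0, 6, 0, 4, 0, 5, 1, 2, 4, 1, 0, 0, 0],
    [2, 0, 0, 4, 3, 6, 3, 6, 1, 2, 6, 1, 0, 0, 0],
    [0, 3, 0, 1, 5, 0, 4, 3, 6, 0, 0, 1, 0, 0, 0],
    [0, 6, 0, 5, 5, 0, 3, 1, 4, 0, 0, 1, 0, 0, 0],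
    [1, 6, 2, 3, 4, 4, 6, 0, 2, 0, 6, 1, 0, 0, 0],
    [1, 3, 3, 6, 6, 6, 4, 6, 3, 4, 1, 1, 0, 0, 0],
    [5, 0, 5, 1, 3, 2, 2, 6, 6, 1, 0, 1, 0, 0, 0],
    [5, 6, 6, 2, 5, 4, 1, 2, 4, 4, 1, 0, 0, 0, 0],
    [3, 6, 2, 6, 5, 1, 4, 4, 0, 5, 3, 1, 0, 0, 0],
    [5, 3, 5, 5, 2, 1, 5, 3, 6, 4, 1, 0, 0, 0, 0],
    [0, 6, 6, 6, 0, 1, 5, 6, 5, 2, 5, 1, 0, 0, 0],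
    [2, 6, 3, 4, 3, 1, 2, 1, 6, 0, 1, 1, 0, 0, 0],
    [3, 6, 5, 5, 3, 2, 4, 5, 4, 3, 4, 1, 0, 0, 0],
    [1, 1, 6, 0, 5, 5, 4, 5, 2, 5, 5, 1, 0, 0, 0],
    [0, 1, 3, 4, 5, 5, 6, 3, 3, 4, 4, 1, 0, 0, 0],
    [5, 5, 0, 1, 3, 2, 6, 6, 6, 4, 5, 1, 0, 0, 0],
    [6, 1, 6, 2, 5, 5, 1, 0, 0, 1, 5, 1, 0, 0, 0],
    [6, 2, 1, 2, 0, 4, 6, 0, 4, 2, 6, 1, 0, 0, 0],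
    [3, 1, 5, 2, 4, 4, 0, 3, 4, 5, 4, 1, 0, 0, 0],
    [1, 0, 6, 2, 6, 0, 2, 0, 1, 5, 5, 1, 0, 0, 0],
    [4, 1, 5, 0, 1, 5, 0, 2, 5, 4, 6, 1, 0, 0, 0],
    [5, 0, 1, 5, 5, 1, 2, 5, 5, 0, 3, 1, 0, 0, 0],
    [2, 4, 4, 0, 1, 6, 6, 5, 2, 0, 5, 1, 0, 0, 0],
    [5, 0, 5, 1, 1, 5, 1, 6, 6, 6, 3, 1, 0, 0, 0],
    [0, 5, 5, 5, 2, 3, 5, 1, 1, 6, 4, 1, 0, 0, 0],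
    [0, 6, 6, 3, 3, 5, 5, 3, 6, 5, 3, 1, 0, 0, 0],
    [3, 6, 3, 4, 0, 6, 1, 4, 5, 6, 0, 1, 0, 0, 0],
    [3, 3, 6, 3, 4, 3, 4, 1, 5, 4, 3, 1, 0, 0, 0],
    [3, 5, 0, 4, 1, 2, 5, 3, 0, 5, 5, 1, 0, 0, 0],
    [2, 6, 3, 6, 6, 4, 2, 4, 6, 2, 6, 1, 0, 0, 0]]),
  (31, 0, [
    [2, 0, 0, 4, 3, 1, 3, 3, 0, 2, 1, 0, 0, 0, 0],
    [5, 0, 0, 5, 1, 2, 1, 6, 1, 5, 2, 1, 0, 0, 0],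
    [2, 0, 0, 6, 0, 4, 0, 5, 1, 2, 4, 1, 0, 0, 0],
    [2, 0, 0, 4, 3, 6, 3, 6, 1, 2, 6, 1, 0, 0, 0],
    [0, 6, 0, 5, 5, 0, 3, 1, 4, 0, 0, 1, 0, 0, 0],
    [0, 3, 0, 1, 5, 0, 4, 3, 6, 0, 0, 1, 0, 0, 0],
    [1, 5, 2, 0, 2, 2, 4, 1, 4, 4, 5, 1, 0, 0, 0],
    [2, 3, 6, 5, 5, 6, 5, 3, 6, 5, 2, 1, 0, 0, 0],
    [5, 0, 5, 1, 3, 2, 2, 6, 6, 1, 0, 1, 0, 0, 0],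
    [5, 5, 2, 0, 1, 4, 3, 6, 4, 1, 0, 1, 0, 0, 0],
    [1, 6, 2, 3, 4, 4, 6, 0, 2, 0, 6, 1, 0, 0, 0],
    [3, 3, 1, 6, 5, 1, 1, 4, 4, 4, 2, 1, 0, 0, 0],
    [2, 5, 5, 2, 4, 2, 1, 4, 1, 4, 5, 1, 0, 0, 0],
    [6, 3, 1, 1, 4, 2, 3, 3, 0, 3, 4, 1, 0, 0, 0],
    [2, 4, 6, 1, 3, 6, 5, 1, 6, 5, 1, 0, 0, 0, 0],
    [4, 6, 6, 1, 1, 1, 6, 1, 5, 6, 5, 1, 0, 0, 0],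
    [1, 5, 0, 6, 5, 4, 1, 6, 5, 4, 5, 1, 0, 0, 0],
    [6, 2, 1, 2, 0, 4, 6, 0, 4, 2, 6, 1, 0, 0, 0],
    [1, 2, 0, 2, 1, 0, 1, 6, 0, 2, 2, 1, 0, 0, 0],
    [5, 2, 5, 3, 0, 0, 1, 6, 3, 0, 2, 1, 0, 0, 0],
    [1, 1, 4, 2, 3, 0, 2, 3, 6, 6, 6, 1, 0, 0, 0],
    [3, 5, 4, 4, 2, 1, 3, 2, 4, 3, 0, 1, 0, 0, 0],
    [5, 0, 2, 2, 0, 0, 2, 1, 1, 0, 6, 1, 0, 0, 0],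
    [2, 4, 1, 3, 2, 6, 6, 6, 3, 2, 0, 1, 0, 0, 0],
    [4, 5, 5, 6, 6, 3, 1, 5, 6, 5, 1, 0, 0, 0, 0],
    [3, 1, 6, 5, 3, 4, 1, 2, 5, 5, 5, 1, 0, 0, 0],
    [6, 0, 6, 0, 5, 3, 6, 5, 6, 5, 2, 1, 0, 0, 0],
    [6, 0, 0, 4, 6, 0, 5, 6, 2, 1, 5, 1, 0, 0, 0],
    [4, 2, 0, 3, 6, 0, 6, 5, 4, 4, 6, 1, 0, 0, 0],
    [0, 2, 1, 5, 0, 6, 1, 6, 0, 3, 0, 1, 0, 0, 0],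
    [1, 0, 4, 2, 2, 3, 6, 6, 2, 3, 5, 1, 0, 0, 0],
    [5, 5, 3, 2, 4, 0, 1, 3, 4, 5, 1, 0, 0, 0, 0],
    [4, 3, 2, 5, 2, 6, 4, 1, 1, 6, 6, 1, 0, 0, 0]]),
  (58, 5, [
    [5, 0, 0, 5, 1, 2, 1, 6, 1, 5, 2, 1, 0, 0, 0],
    [2, 0, 0, 4, 3, 1, 3, 3, 0, 2, 1, 0, 0, 0, 0],
    [2, 0, 0, 6, 0, 4, 0, 5, 1, 2, 4, 1, 0, 0, 0],
    [2, 0, 0, 4, 3, 6, 3, 6, 1, 2, 6, 1, 0, 0, 0],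
    [0, 3, 0, 1, 5, 0, 4, 3, 6, 0, 0, 1, 0, 0, 0],
    [3, 1, 5, 6, 5, 1, 6, 4, 2, 1, 6, 1, 0, 0, 0],
    [1, 5, 2, 0, 2, 2, 4, 1, 4, 4, 5, 1, 0, 0, 0],
    [4, 5, 4, 1, 0, 6, 4, 0, 3, 2, 3, 1, 0, 0, 0],
    [1, 3, 6, 1, 5, 3, 4, 4, 1, 0, 1, 1, 0, 0, 0],
    [1, 3, 3, 6, 6, 6, 4, 6, 3, 4, 1, 1, 0, 0, 0],
    [2, 1, 1, 2, 3, 0, 1, 4, 2, 5, 3, 1, 0, 0, 0],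
    [0, 6, 6, 6, 0, 1, 5, 6, 5, 2, 5, 1, 0, 0, 0],
    [5, 1, 3, 3, 6, 4, 4, 1, 2, 3, 1, 0, 0, 0, 0],
    [3, 5, 3, 1, 3, 0, 4, 0, 4, 2, 1, 0, 0, 0, 0],
    [0, 4, 1, 2, 5, 6, 3, 2, 4, 1, 5, 1, 0, 0, 0],
    [4, 5, 2, 2, 4, 3, 2, 1, 6, 3, 1, 0, 0, 0, 0],
    [1, 3, 1, 5, 2, 4, 0, 3, 4, 1, 0, 1, 0, 0, 0],
    [0, 3, 5, 1, 3, 1, 2, 1, 4, 5, 2, 1, 0, 0, 0],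
    [1, 4, 2, 4, 6, 5, 5, 1, 4, 3, 1, 1, 0, 0, 0],
    [6, 2, 1, 2, 0, 4, 6, 0, 4, 2, 6, 1, 0, 0, 0],
    [5, 0, 1, 5, 5, 1, 2, 5, 5, 0, 3, 1, 0, 0, 0],
    [1, 1, 2, 6, 1, 0, 3, 2, 3, 2, 1, 1, 0, 0, 0],
    [2, 4, 3, 6, 3, 2, 1, 5, 1, 4, 0, 1, 0, 0, 0],
    [1, 3, 1, 5, 2, 4, 4, 4, 0, 1, 2, 1, 0, 0, 0],
    [0, 5, 4, 1, 4, 6, 5, 6, 3, 5, 2, 1, 0, 0, 0],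
    [3, 6, 0, 3, 6, 6, 2, 1, 3, 1, 0, 1, 0, 0, 0],
    [0, 6, 0, 3, 5, 4, 3, 4, 4, 5, 6, 1, 0, 0, 0],
    [3, 4, 0, 2, 3, 3, 6, 5, 4, 0, 5, 1, 0, 0, 0],
    [4, 2, 0, 4, 3, 6, 4, 1, 2, 5, 3, 1, 0, 0, 0],
    [4, 1, 1, 2, 2, 3, 4, 3, 0, 5, 2, 1, 0, 0, 0],
    [4, 4, 0, 1, 5, 3, 2, 0, 1, 0, 5, 1, 0, 0, 0],
    [6, 6, 5, 5, 6, 6, 6, 6, 6, 0, 6, 1, 0, 0, 0],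
    [4, 0, 5, 2, 1, 6, 5, 4, 3, 5, 4, 1, 0, 0, 0],
    [4, 2, 6, 0, 4, 4, 1, 5, 2, 1, 1, 1, 0, 0, 0],
    [1, 5, 1, 4, 4, 6, 4, 4, 4, 4, 5, 1, 0, 0, 0]]),
  (67, 11, [
    [2, 0, 0, 4, 3, 1, 3, 3, 0, 2, 1, 0, 0, 0, 0],
    [5, 0, 0, 5, 1, 2, 1, 6, 1, 5, 2, 1, 0, 0, 0],
    [2, 0, 0, 6, 0, 4, 0, 5, 1, 2, 4, 1, 0, 0, 0],
    [2, 0, 0, 4, 3, 6, 3, 6, 1, 2, 6, 1, 0, 0, 0],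
    [0, 3, 0, 1, 5, 0, 4, 3, 6, 0, 0, 1, 0, 0, 0],
    [0, 6, 0, 5, 5, 0, 3, 1, 4, 0, 0, 1, 0, 0, 0],
    [3, 5, 4, 6, 5, 1, 3, 4, 6, 0, 5, 1, 0, 0, 0],
    [2, 3, 6, 5, 5, 6, 5, 3, 6, 5, 2, 1, 0, 0, 0],
    [4, 6, 3, 2, 0, 5, 0, 2, 0, 6, 4, 1, 0, 0, 0],
    [1, 6, 2, 3, 4, 4, 6, 0, 2, 0, 6, 1, 0, 0, 0],
    [1, 3, 6, 1, 5, 3, 4, 4, 1, 0, 1, 1, 0, 0, 0],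
    [1, 5, 2, 0, 2, 2, 4, 1, 4, 4, 5, 1, 0, 0, 0],
    [5, 5, 2, 0, 1, 4, 3, 6, 4, 1, 0, 1, 0, 0, 0],
    [5, 6, 6, 2, 5, 4, 1, 2, 4, 4, 1, 0, 0, 0, 0],
    [3, 5, 6, 1, 4, 0, 4, 1, 1, 6, 2, 1, 0, 0, 0],
    [6, 6, 3, 4, 4, 2, 4, 0, 0, 2, 0, 1, 0, 0, 0],
    [3, 3, 3, 5, 3, 0, 3, 2, 2, 2, 4, 1, 0, 0, 0],
    [1, 4, 3, 6, 5, 0, 6, 1, 2, 1, 3, 1, 0, 0, 0],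
    [4, 1, 5, 2, 0, 6, 2, 6, 3, 3, 2, 1, 0, 0, 0],
    [3, 4, 0, 0, 5, 4, 1, 3, 4, 5, 3, 1, 0, 0, 0],
    [1, 5, 2, 1, 0, 5, 6, 5, 3, 4, 2, 1, 0, 0, 0],
    [0, 0, 1, 1, 3, 6, 5, 4, 0, 6, 4, 1, 0, 0, 0],
    [5, 3, 3, 2, 0, 1, 5, 1, 6, 5, 0, 1, 0, 0, 0],
    [2, 4, 6, 1, 3, 6, 5, 1, 6, 5, 1, 0, 0, 0, 0],
    [1, 3, 6, 4, 5, 5, 4, 5, 6, 4, 3, 1, 0, 0, 0],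
    [3, 0, 2, 1, 5, 4, 5, 2, 3, 2, 6, 1, 0, 0, 0],
    [1, 1, 2, 4, 3, 2, 2, 0, 1, 1, 0, 1, 0, 0, 0],
    [1, 1, 0, 0, 1, 5, 2, 3, 1, 0, 2, 1, 0, 0, 0],
    [2, 3, 3, 3, 0, 1, 2, 0, 0, 1, 3, 1, 0, 0, 0],
    [3, 4, 0, 0, 6, 1, 6, 2, 5, 2, 1, 0, 0, 0, 0],
    [1, 1, 1, 3, 4, 5, 0, 4, 1, 5, 1, 0, 0, 0, 0],
    [2, 4, 3, 0, 0, 4, 1, 3, 4, 0, 6, 1, 0, 0, 0],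
    [1, 1, 2, 6, 4, 3, 0, 3, 5, 1, 0, 1, 0, 0, 0]])]

end Poonen
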