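import Mathlib

/-!
# Rational cycles of `y ↦ y ^ 2 + c` : definitions (MP_7564fc_nt)

* `Cyc C N X` : the sequence `X : ℕ → R` is the orbit of a point of exact period `N` under
  `y ↦ y ^ 2 + C` (over any commutative ring `R`).
* `IsWord N w` : a primitive `0/1` word on the cycle with `w 0 = true`.
* `ew N w i j` : the exponent attached to a word.
* the computable functions used by the finite checks.
-/

namespace Poonen

/-- `X` is the orbit of a point of exact period `N` under `y ↦ y ^ 2 + C`. -/
structure Cyc {R : Type*} [CommRing R] (C : R) (N : ℕ) (X : ℕ → R) : Prop where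
  pos : 0 < N
  step : ∀ i, X (i + 1) = X i ^ 2 + C
  eq_iff : ∀ i j, X i = X j ↔ i % N = j % N

/-- Length (at most `n`) of the common prefix of the words read from positions `i` and `j`. -/
def preLen (w : ℕ → Bool) : ℕ → ℕ → ℕ → ℕ
  | 0, _, _ => 0
  | n + 1, i, j => if w i = w j then preLen w n (i + 1) (j + 1) + 1 else 0

/-- The exponent of the word `w` at the pair `(i, j)`. -/
def ew (N : ℕ) (w : ℕ → Bool) (i j : ℕ) : ℤ :=
  if w i = w j then -1 else (preLen w N (i + 1) (j + 1) : ℤ)

/-- A primitive word of length `N` (extended periodically), normalised by `w 0 = true`. -/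
structure IsWord (N : ℕ) (w : ℕ → Bool) : Prop where
  zero : w 0 = true
  per : ∀ i, w (i + N) = w i
  prim : ∀ i j, i % N ≠ j % N → ∃ k < N, w (i + k) ≠ w (j + k)

/-! ### Computable functions (natural number arithmetic only) -/

/-- First return of `x` under `y ↦ y ^ 2 + C` modulo `p`, together with the multiplier.
Called with `k = 0`, `y = x`, `lam = 1`; `fuel` bounds the number of steps. -/
def ret (p C x : ℕ) : ℕ → ℕ → ℕ → ℕ → Option (ℕ × ℕ)
  | 0, _, _, _ => none
  | fuel + 1, k, y, lam =>
    if (y * y + C) % p = x then some (k + 1, (lam * (2 * y)) % p)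
    else ret p C x fuel (k + 1) ((y * y + C) % p) ((lam * (2 * y)) % p)

/-- Order of `lam` modulo `p` (first `k ≥ 1` with `lam ^ k = 1`), called with `k = 0`, `cur = 1`. -/
def ordl (p lam : ℕ) : ℕ → ℕ → ℕ → Option ℕ
  | 0, _, _ => none
  | fuel + 1, k, cur =>
    if (cur * lam) % p = 1 then some (k + 1) else ordl p lam fuel (k + 1) ((cur * lam) % p)

/-- The possible exact periods over `ℤ_[p]` of a cycle reducing to `(C, x)` modulo `p`. -/
def periods (p C x : ℕ) : List ℕ :=
  match ret p C x p 0 x 1 with
  | none => []
  | some (l, lam) =>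
    if lam = 1 then [l]
    else match ordl p lam p 0 1 with
      | none => [l]
      | some r => [l, l * r]

/-- The first `n` points of the orbit of `x` modulo `p`. -/
def orbL (p C : ℕ) : ℕ → ℕ → List ℕ
  | 0, _ => []
  | n + 1, x => x :: orbL p C n ((x * x + C) % p)

/-- The pairs `(j, i)` with `j < i < N`, in a fixed order. -/
def pairs (N : ℕ) : List (ℕ × ℕ) :=
  (List.range N).flatMap fun i => (List.range i).map fun j => (j, i)

/-- The word attached to a natural number. -/
def wd (N W : ℕ) : ℕ → Bool := fun i => W.testBit (i % N)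

/-- The exponent modulo `q` as a natural number. -/
def ewq (q N : ℕ) (w : ℕ → Bool) (i j : ℕ) : ℕ :=
  if w i = w j then q - 1 else preLen w N (i + 1) (j + 1)

/-- The exponent vector modulo `q` of the word `W`. -/
def expsq (q N W : ℕ) : List ℕ := (pairs N).map fun ji => ewq q N (wd N W) ji.1 ji.2

/-- Is the word attached to `W` primitive with `w 0 = true`? -/
def isPrimW (N W : ℕ) : Bool :=
  W.testBit 0 && (List.range N).all fun d =>
    d == 0 || (List.range N).any fun k => W.testBit k != W.testBit ((k + d) % N)

/-- The table of all words: (index `W / 2`, exponent vector modulo `q`). -/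
def wtable (q N : ℕ) : List (ℕ × List ℕ) :=
  ((List.range (2 ^ N)).filter (isPrimW N)).map fun W => (W / 2, expsq q N W)

/-- Dot product of two lists. -/
def dotL (u v : List ℕ) : ℕ := (List.zipWith (· * ·) u v).sum

/-- Bit mask of the words orthogonal to `y` modulo `q`. -/
def maskOf (q : ℕ) (tab : List (ℕ × List ℕ)) (y : List ℕ) : ℕ :=
  tab.foldl (fun acc e => if dotL e.2 y % q = 0 then acc ||| (1 <<< e.1) else acc) 0

/-- Loop of the covering check over the candidate elements outside the mask `m`. -/
def coverStep (rec : ℕ → ℕ → Bool) (m P : ℕ) : ℕ → List ℕ → Bool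
  | _, [] => true
  | X, e :: es =>
    if m.testBit e || X.testBit e then coverStep rec m P X es
    else rec (P ||| (1 <<< e)) X && coverStep rec m P (X ||| (1 <<< e)) es

/-- Covering check: every list of at most `k` elements of `els` outside `X` is, together with
`P`, contained in one of the masks. -/
def cover (masks els : List ℕ) : ℕ → ℕ → ℕ → Bool
  | 0, P, _ => (masks.find? fun m => P &&& m == P).isSome
  | k + 1, P, X =>
    match masks.find? fun m => P &&& m == P with
    | none => false
    | some m => coverStep (cover masks els k) m P X els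

/-- The product `∏ (x_j + x_i) ^ (m * y_ji)` modulo `p`, over the list `pairs N`. -/
def prodPow (p m : ℕ) (orb : List ℕ) : List (ℕ × ℕ) → List ℕ → ℕ
  | ji :: ps, y :: ys =>
    ((orb.getD ji.1 0 + orb.getD ji.2 0) ^ (m * y) % p * prodPow p m orb ps ys) % p
  | _, _ => 1

/-- The check of one local type `(C, x)` modulo `p`. -/
def chkType (N p q m k : ℕ) (tab : List (ℕ × List ℕ)) (C x : ℕ) (ys : List (List ℕ)) : Bool :=
  (ys.all fun y => prodPow p m (orbL p C N x) (pairs N) y != 1) &&
    cover (ys.map (maskOf q tab)) (tab.map Prod.fst) k 0 0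

/-- Does the orbit have two points (at distinct indices `< N`) with sum `0` modulo `p`? -/
def badSum (p N : ℕ) (orb : List ℕ) : Bool :=
  (pairs N).any fun ji => (orb.getD ji.1 0 + orb.getD ji.2 0) % p == 0

/-- Every possible local type `(C, x)` is, up to a shift, in the list `cert`. -/
def chkTypes (N p : ℕ) (cert : List (ℕ × ℕ)) : Bool :=
  (List.range p).all fun C => (List.range p).all fun x =>
    (orbL p C (N + 1) x).getD N 0 != x || badSum p N (orbL p C N x) ||
      !(periods p C x).contains N ||
      (orbL p C N x).any fun z => cert.contains (C, z)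

end Poonen
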