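import Pool.Agent.Poonen.Stmts

/-!
# Every word is in the table (MP_7564fc_nt, E1)
-/

namespace Poonen

open Finset

theorem pf_E1 : S_E1 := by
  intro q N _ hN w hw
  set W : ℕ := Nat.ofBits (fun i : Fin N => w i) with hWdef
  have hlt : W < 2 ^ N := Nat.ofBits_lt_two_pow _
  have hbit : ∀ i, i < N → W.testBit i = w i := fun i hi => Nat.testBit_ofBits_lt _ i hi
  have hmul : ∀ m i, w (i + m * N) = w i := by
    intro m
    induction m with
    | zero => intro i; simp
    | succ m ih =>
      intro i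
      have h : i + (m + 1) * N = (i + m * N) + N := by ring
      rw [h, hw.per, ih]
  have hmod : ∀ i, w i = w (i % N) := by
    intro i
    conv_lhs => rw [← Nat.mod_add_div' i N]
    exact hmul _ _
  have hwd : ∀ i, w i = wd N W i := by
    intro i
    unfold wd
    rw [hbit _ (Nat.mod_lt _ hN)]
    exact hmod i
  refine ⟨W, hwd, ?_⟩
  unfold wtable
  refine List.mem_map.2 ⟨W, List.mem_filter.2 ⟨List.mem_range.2 hlt, ?_⟩, rfl⟩
  unfold isPrimW
  rw [Bool.and_eq_true]
  refine ⟨by rw [hbit 0 hN]; exact hw.zero, ?_⟩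
  rw [List.all_eq_true]
  intro d hd
  rw [List.mem_range] at hd
  rw [Bool.or_eq_true]
  by_cases hd0 : d = 0
  · left
    simp [hd0]
  · right
    rw [List.any_eq_true]
    obtain ⟨k, hk, hne⟩ := hw.prim 0 d (by
      rw [Nat.zero_mod, Nat.mod_eq_of_lt hd]
      exact fun h => hd0 h.symm)
    refine ⟨k, List.mem_range.2 hk, ?_⟩
    rw [bne_iff_ne, hbit k hk, hbit _ (Nat.mod_lt _ hN), ← hmod, add_comm k d]
    rwa [zero_add] at hne

end Poonen
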