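import Pool.Agent.Poonen.Stmts

/-!
# E2: soundness of the covering check
-/

namespace Poonen

private theorem e2_sub {P m : ℕ} (h : (P &&& m == P) = true) :
    ∀ i, P.testBit i = true → m.testBit i = true := by
  intro i hi
  have h1 : P &&& m = P := by simpa using h
  rw [← h1, Nat.testBit_and, Bool.and_eq_true] at hi
  exact hi.2

private theorem e2_bit (P e i : ℕ) :
    (P ||| (1 <<< e)).testBit i = (P.testBit i || decide (e = i)) := by
  rw [Nat.testBit_or, Nat.shiftLeft_eq, one_mul, Nat.testBit_two_pow]

private theorem e2_step {masks els : List ℕ} {k : ℕ}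
    (ih : ∀ P X : ℕ, cover masks els k P X = true → ∀ L : List ℕ, L.length ≤ k →
      (∀ e ∈ L, e ∈ els) → (∀ e ∈ L, X.testBit e = false) →
      ∃ m ∈ masks, (∀ i, P.testBit i = true → m.testBit i = true) ∧
        ∀ e ∈ L, m.testBit e = true) (m P : ℕ) (L : List ℕ) (hL : L.length ≤ k + 1)
    (hels : ∀ e ∈ L, e ∈ els) :
    ∀ (es : List ℕ) (X : ℕ), coverStep (cover masks els k) m P X es = true →
      (∀ e ∈ L, X.testBit e = false) → (∃ e ∈ L, e ∈ es ∧ m.testBit e = false) →
      ∃ m ∈ masks, (∀ i, P.testBit i = true → m.testBit i = true) ∧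
        ∀ e ∈ L, m.testBit e = true := by
  intro es
  induction es with
  | nil =>
    rintro X _ _ ⟨e, _, he, _⟩
    simp at he
  | cons a es ihes =>
    rintro X hX hLX ⟨e0, he0L, he0, hm0⟩
    rw [coverStep] at hX
    split_ifs at hX with hc
    · refine ihes X hX hLX ⟨e0, he0L, ?_, hm0⟩
      rcases List.mem_cons.1 he0 with h | h
      · exfalso
        subst h
        rw [hm0, hLX e0 he0L] at hc
        simp at hc
      · exact h
    · rw [Bool.and_eq_true] at hX
      by_cases haL : a ∈ L
      · obtain ⟨m', hm', hP, hL'⟩ := ih _ X hX.1 (L.erase a)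
          (by have := List.length_erase_of_mem haL; omega)
          (fun e he => hels e (List.mem_of_mem_erase he))
          (fun e he => hLX e (List.mem_of_mem_erase he))
        refine ⟨m', hm', fun i hi => hP i ?_, fun e he => ?_⟩
        · rw [e2_bit, hi, Bool.true_or]
        · by_cases hea : e = a
          · subst hea
            apply hP
            rw [e2_bit]
            simp
          · exact hL' e ((List.mem_erase_of_ne hea).2 he)
      · refine ihes _ hX.2 ?_ ⟨e0, he0L, ?_, hm0⟩
        · intro e he
          have hne : a ≠ e := by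
            rintro rfl
            exact haL he
          rw [e2_bit, hLX e he, decide_eq_false hne]
          rfl
        · rcases List.mem_cons.1 he0 with h | h
          · exact absurd (h ▸ he0L) haL
          · exact h

private theorem e2_gen (masks els : List ℕ) : ∀ (k P X : ℕ), cover masks els k P X = true →
    ∀ L : List ℕ, L.length ≤ k → (∀ e ∈ L, e ∈ els) → (∀ e ∈ L, X.testBit e = false) →
      ∃ m ∈ masks, (∀ i, P.testBit i = true → m.testBit i = true) ∧
        ∀ e ∈ L, m.testBit e = true := by
  intro k
  induction k with
  | zero =>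
    intro P X h L hL _ _
    rw [cover, Option.isSome_iff_exists] at h
    obtain ⟨m, hm⟩ := h
    have h1 := List.find?_some hm
    have h2 := List.mem_of_find?_eq_some hm
    refine ⟨m, h2, e2_sub h1, ?_⟩
    have : L = [] := List.length_eq_zero_iff.1 (by omega)
    subst this
    simp
  | succ k ih =>
    intro P X h L hL hels hLX
    rw [cover] at h
    split at h
    · exact absurd h (by simp)
    · rename_i m hm
      have h1 := List.find?_some hm
      have h2 := List.mem_of_find?_eq_some hm
      by_cases hall : ∀ e ∈ L, m.testBit e = true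
      · exact ⟨m, h2, e2_sub h1, hall⟩
      · push Not at hall
        obtain ⟨e, heL, hem⟩ := hall
        have hem' : m.testBit e = false := by simpa using hem
        exact e2_step ih m P L hL hels els X h hLX ⟨e, heL, hels e heL, hem'⟩

theorem pf_E2 : S_E2 := by
  intro masks els k h L hL hels
  obtain ⟨m, hm, _, h2⟩ := e2_gen masks els k 0 0 h L hL hels (fun e _ => Nat.zero_testBit e)
  exact ⟨m, hm, h2⟩

end Poonen
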