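import Pool.Agent.Poonen.Stmts

/-! Packages E3, E4, E5: meaning of `maskOf`, `prodPow`, `dotL`. -/

namespace Poonen

open Finset

private lemma e3_foldl (q : ℕ) (y : List ℕ) (n : ℕ) (tab : List (ℕ × List ℕ)) : ∀ acc : ℕ,
    (tab.foldl (fun acc e => if dotL e.2 y % q = 0 then acc ||| (1 <<< e.1) else acc) acc).testBit n
      = true → acc.testBit n = true ∨ ∃ e ∈ tab, e.1 = n ∧ dotL e.2 y % q = 0 := by
  induction tab with
  | nil => intro acc h; exact Or.inl h
  | cons a t ih =>
    intro acc h
    rw [List.foldl_cons] at h
    rcases ih _ h with h1 | ⟨e, he, h2⟩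
    · by_cases hd : dotL a.2 y % q = 0
      · rw [if_pos hd, Nat.testBit_or, Bool.or_eq_true] at h1
        rcases h1 with h1 | h1
        · exact Or.inl h1
        · right
          refine ⟨a, List.mem_cons_self, ?_, hd⟩
          rw [Nat.one_shiftLeft, Nat.testBit_two_pow] at h1
          simpa using h1
      · rw [if_neg hd] at h1
        exact Or.inl h1
    · exact Or.inr ⟨e, List.mem_cons_of_mem _ he, h2⟩

theorem pf_E3 : S_E3 := by
  intro q tab y e he hnd h
  rcases e3_foldl q y e.1 tab 0 h with h1 | ⟨e', he', h1, h2⟩
  · simp at h1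
  · have : e' = e := List.inj_on_of_nodup_map hnd he' he h1
    rwa [← this]

private lemma pairs_succ (N : ℕ) :
    pairs (N + 1) = pairs N ++ (List.range N).map fun j => (j, N) := by
  simp [pairs, List.range_succ, List.flatMap_append]

private lemma pairs_length (N : ℕ) : (pairs N).length = N * (N - 1) / 2 := by
  induction N with
  | zero => rfl
  | succ n ih =>
    rw [pairs_succ, List.length_append, ih, List.length_map, List.length_range]
    exact (Nat.triangle_succ n).symm

private lemma zip_pairs {α : Type*} (g : ℕ × ℕ → ℕ → α) (Y : ℕ → ℕ) (N : ℕ) :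
    List.zipWith g (pairs N) ((List.range (pairs N).length).map Y) =
      (List.range N).flatMap fun i => (List.range i).map fun j => g (j, i) (Y (i * (i - 1) / 2 + j)) := by
  induction N with
  | zero => rfl
  | succ n ih =>
    rw [List.range_succ, List.flatMap_append, ← ih, pairs_succ, List.length_append,
      List.range_add, List.map_append, List.zipWith_append (by simp)]
    congr 1
    simp only [List.flatMap_singleton, List.length_map, List.length_range, List.map_map]
    rw [List.zipWith_map, List.zipWith_self, pairs_length]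
    rfl

private lemma list_eq_map (y : List ℕ) : y = (List.range y.length).map fun k => y.getD k 0 := by
  apply List.ext_getElem
  · simp
  · intro i h1 h2
    simp [List.getD_eq_getElem?_getD, h1]

private lemma prod_range {M : Type*} [CommMonoid M] (f : ℕ → M) (n : ℕ) :
    ((List.range n).map f).prod = ∏ i ∈ range n, f i := by
  induction n with
  | zero => simp
  | succ n ih => rw [List.range_succ, List.map_append, List.prod_append, ih, prod_range_succ]; simp

private lemma sum_range' {M : Type*} [AddCommMonoid M] (f : ℕ → M) (n : ℕ) :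
    ((List.range n).map f).sum = ∑ i ∈ range n, f i := by
  induction n with
  | zero => simp
  | succ n ih => rw [List.range_succ, List.map_append, List.sum_append, ih, sum_range_succ]; simp

private lemma prod_flat {M : Type*} [CommMonoid M] (f : ℕ → ℕ → M) (n : ℕ) :
    ((List.range n).flatMap fun i => (List.range i).map fun j => f i j).prod =
      ∏ i ∈ range n, ∏ j ∈ range i, f i j := by
  induction n with
  | zero => simp
  | succ n ih =>
    rw [List.range_succ, List.flatMap_append, List.prod_append, ih, prod_range_succ,
      List.flatMap_singleton, prod_range]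

private lemma sum_flat {M : Type*} [AddCommMonoid M] (f : ℕ → ℕ → M) (n : ℕ) :
    ((List.range n).flatMap fun i => (List.range i).map fun j => f i j).sum =
      ∑ i ∈ range n, ∑ j ∈ range i, f i j := by
  induction n with
  | zero => simp
  | succ n ih =>
    rw [List.range_succ, List.flatMap_append, List.sum_append, ih, sum_range_succ,
      List.flatMap_singleton, sum_range']

private lemma prodPow_eq (p m : ℕ) (orb : List ℕ) (ps : List (ℕ × ℕ)) : ∀ ys : List ℕ,
    ((prodPow p m orb ps ys : ℕ) : ZMod p) = (List.zipWith (fun (ji : ℕ × ℕ) y =>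
      ((orb.getD ji.1 0 + orb.getD ji.2 0 : ℕ) : ZMod p) ^ (m * y)) ps ys).prod := by
  induction ps with
  | nil => intro ys; simp [prodPow]
  | cons a t ih =>
    intro ys
    cases ys with
    | nil => simp [prodPow]
    | cons y ys =>
      rw [prodPow, ZMod.natCast_mod, Nat.cast_mul, ZMod.natCast_mod, ih ys, List.zipWith_cons_cons,
        List.prod_cons, Nat.cast_pow]

private lemma orbL_getD (p : ℕ) [Fact p.Prime] (C : ZMod p) (N : ℕ) : ∀ (x : ZMod p)
    (b : ℕ → ZMod p), b 0 = x → (∀ i, b (i + 1) = b i ^ 2 + C) → ∀ i < N,
    (orbL p C.val N x.val).getD i 0 = (b i).val := by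
  induction N with
  | zero => intro x b _ _ i hi; omega
  | succ n ih =>
    intro x b h0 hb i hi
    have hx : (x.val * x.val + C.val) % p = (x ^ 2 + C).val := by
      rw [sq, ZMod.val_add, ZMod.val_mul, Nat.mod_add_mod]
    cases i with
    | zero => simp [orbL, h0]
    | succ i =>
      rw [orbL, List.getD_cons_succ, hx]
      exact ih (x ^ 2 + C) (fun i => b (i + 1)) (by simp only [zero_add]; rw [← h0]; exact hb 0)
        (fun i => hb (i + 1)) i (by omega)

theorem pf_E4 : S_E4 := by
  intro p _ m N C x b h0 hb y hy
  rw [prodPow_eq]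
  have hy' : y = (List.range (pairs N).length).map fun k => y.getD k 0 := by
    rw [← hy]; exact list_eq_map y
  conv_lhs => rw [hy']
  rw [zip_pairs, prod_flat]
  refine prod_congr rfl fun i hi => prod_congr rfl fun j hj => ?_
  have hi' := mem_range.1 hi
  have hj' := mem_range.1 hj
  simp only
  rw [orbL_getD p C N x b h0 hb i hi', orbL_getD p C N x b h0 hb j (by omega), Nat.cast_add,
    ZMod.natCast_zmod_val, ZMod.natCast_zmod_val]

theorem pf_E5 : S_E5 := by
  intro q N W hq y hy
  have hy' : y = (List.range (pairs N).length).map fun k => y.getD k 0 := by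
    rw [← hy]; exact list_eq_map y
  have h1 : dotL (expsq q N W) y =
      ∑ i ∈ range N, ∑ j ∈ range i, ewq q N (wd N W) j i * y.getD (i * (i - 1) / 2 + j) 0 := by
    rw [dotL, expsq, List.zipWith_map_left]
    conv_lhs => rw [hy']
    rw [zip_pairs (fun ji k => ewq q N (wd N W) ji.1 ji.2 * k), sum_flat]
  rw [h1]
  push_cast
  rw [← sum_sub_distrib]
  refine dvd_sum fun i _ => ?_
  rw [← sum_sub_distrib]
  refine dvd_sum fun j _ => ?_
  unfold ewq ew
  split_ifs with h
  · rw [Nat.cast_sub hq]
    refine ⟨(y.getD (i * (i - 1) / 2 + j) 0 : ℤ), ?_⟩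
    push_cast
    ring
  · refine ⟨0, ?_⟩
    ring

end Poonen
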