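import Pool.Agent.Poonen.Main
import Pool.Agent.Poonen.A
import Pool.Agent.Poonen.B
import Pool.Agent.Poonen.B7
import Pool.Agent.Poonen.B8
import Pool.Agent.Poonen.C1
import Pool.Agent.Poonen.C2
import Pool.Agent.Poonen.D1
import Pool.Agent.Poonen.E1
import Pool.Agent.Poonen.CoverB
import Pool.Agent.Poonen.E3
import Pool.Agent.FPS4.Four

/-!
# Poonen's conjecture for `y ↦ y ^ 2 + c` when `den c` has at most five prime factors
-/

namespace Poonen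

theorem pf_F1 : S_F1 := Pool.Agent.FPS.no_four

theorem final : ∀ c : ℚ, c.den.primeFactors.card ≤ 5 → ∀ x : ℚ, ∀ n : ℕ, 0 < n →
    Function.IsPeriodicPt (fun y : ℚ => y ^ 2 + c) n x →
    Function.minimalPeriod (fun y : ℚ => y ^ 2 + c) x ≤ 3 :=
  main pf_A1 pf_A2 pf_B1 pf_B5' pf_B6' (pf_B8 (pf_B4 pf_B2 pf_B3) pf_B7) pkgC2
    (pf_D1 pf_A2 pf_B1) pf_E1 pf_E2' pf_E3 pf_E4 pf_E5
    (pf_E6 pf_A2 (pf_B8 (pf_B4 pf_B2 pf_B3) pf_B7)) pf_F1

end Poonen
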