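import Pool.Agent.Poonen.Leaf5

/-!
# No exact period 5 with at most six bad primes (MP_7564fc_nt)
-/

namespace Poonen

open Finset

theorem no_five_six (c : ℚ) (X : ℕ → ℚ) (hX : Cyc c 5 X) (hS : c.den.primeFactors.card ≤ 6) :
    False := by
  have hB8 := pf_B8 (pf_B4 pf_B2 pf_B3) pf_B7
  have hbad := mem_bad pf_A2 pf_B1 pf_B5' pf_B6' hB8 c 5 X hX
  have h2 : 2 ∈ c.den.primeFactors := hbad 2 (by decide)
  have h3 : 3 ∈ c.den.primeFactors := hbad 3 (by decide)
  have h5 : 5 ∈ c.den.primeFactors := hbad 5 (by decide)
  have h7 : 7 ∈ c.den.primeFactors := hbad 7 (by decide)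
  have mem : ∀ p : ℕ, p.Prime → p ∣ c.den → p ∈ c.den.primeFactors := fun p hp hd =>
    Nat.mem_primeFactors.mpr ⟨hp, hd, c.den_nz⟩
  -- seven distinct bad primes are too many
  have full : ∀ T : Finset ℕ, T.card = 7 → (∀ t ∈ T, t ∈ c.den.primeFactors) → False := by
    intro T hT hsub
    have := Finset.card_le_card (s := T) (t := c.den.primeFactors) hsub
    omega
  have L1 : ∀ {a : ℕ}, a ∈ c.den.primeFactors → ∀ t ∈ [a], t ∈ c.den.primeFactors := by
    intro a ha t ht
    rw [List.mem_singleton] at ht
    rw [ht]; exact ha
  have L2 : ∀ {a b : ℕ}, a ∈ c.den.primeFactors → b ∈ c.den.primeFactors →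
      ∀ t ∈ [a, b], t ∈ c.den.primeFactors := by
    intro a b ha hb t ht
    rw [List.mem_cons] at ht
    rcases ht with ht | ht
    · rw [ht]; exact ha
    · exact L1 hb t ht
  have L3 : ∀ {a b d : ℕ}, a ∈ c.den.primeFactors → b ∈ c.den.primeFactors →
      d ∈ c.den.primeFactors → ∀ t ∈ [a, b, d], t ∈ c.den.primeFactors := by
    intro a b d ha hb hd t ht
    rw [List.mem_cons] at ht
    rcases ht with ht | ht
    · rw [ht]; exact ha
    · exact L2 hb hd t ht
  have F : ∀ (E : List ℕ) (p m k : ℕ), (∀ t ∈ E, (t : ZMod p) ^ m = 1) →
      (∀ t ∈ E, t ∈ c.den.primeFactors) → E.Nodup → 6 ≤ k + E.length →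
      (c.den.primeFactors.filter fun t : ℕ => ((t : ZMod p) ^ m ≠ 1)).card ≤ k :=
    fun E p m k => filter_card_le' c 6 hS E p m k
  by_cases g19 : 19 ∣ c.den
  · have h19 := mem 19 (by norm_num) g19
    by_cases g13 : 13 ∣ c.den
    · have h13 := mem 13 (by norm_num) g13
      have g47 : ¬ 47 ∣ c.den := fun h => full {2, 3, 5, 7, 13, 19, 47} (by decide) (by
        have h47 := mem 47 (by norm_num) h
        intro t ht
        simp only [Finset.mem_insert, Finset.mem_singleton] at ht
        rcases ht with rfl | rfl | rfl | rfl | rfl | rfl | rfl <;> assumption)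
      have g17 : ¬ 17 ∣ c.den := fun h => full {2, 3, 5, 7, 13, 19, 17} (by decide) (by
        have h17 := mem 17 (by norm_num) h
        intro t ht
        simp only [Finset.mem_insert, Finset.mem_singleton] at ht
        rcases ht with rfl | rfl | rfl | rfl | rfl | rfl | rfl <;> assumption)
      have g59 : ¬ 59 ∣ c.den := fun h => full {2, 3, 5, 7, 13, 19, 59} (by decide) (by
        have h59 := mem 59 (by norm_num) h
        intro t ht
        simp only [Finset.mem_insert, Finset.mem_singleton] at ht
        rcases ht with rfl | rfl | rfl | rfl | rfl | rfl | rfl <;> assumption)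
      refine leaf_contra rotOK_5 c 6 hS X hX _ _ (localOK_5_59_29 c g59 6 (by norm_num)
        (F [] 59 2 6 (by simp) (by simp) (by decide) (by decide))).1 ?_ leaf5_7
      intro L hL
      simp only [List.mem_cons, List.not_mem_nil, or_false] at hL
      rcases hL with rfl | rfl
      · exact (localOK_5_47_23 c g47 6 (by norm_num)
          (F [] 47 2 6 (by simp) (by simp) (by decide) (by decide))).2
      · exact (localOK_5_17_2 c g17 3 (by norm_num)
          (F [2, 13, 19] 17 8 3 (by decide) (L3 h2 h13 h19) (by decide)
            (by decide))).2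
    · by_cases g17 : 17 ∣ c.den
      · have h17 := mem 17 (by norm_num) g17
        have g47 : ¬ 47 ∣ c.den := fun h => full {2, 3, 5, 7, 17, 19, 47} (by decide) (by
          have h47 := mem 47 (by norm_num) h
          intro t ht
          simp only [Finset.mem_insert, Finset.mem_singleton] at ht
          rcases ht with rfl | rfl | rfl | rfl | rfl | rfl | rfl <;> assumption)
        have g59 : ¬ 59 ∣ c.den := fun h => full {2, 3, 5, 7, 17, 19, 59} (by decide) (by
          have h59 := mem 59 (by norm_num) h
          intro t ht
          simp only [Finset.mem_insert, Finset.mem_singleton] at ht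
          rcases ht with rfl | rfl | rfl | rfl | rfl | rfl | rfl <;> assumption)
        refine leaf_contra rotOK_5 c 6 hS X hX _ _ (localOK_5_13_3 c g13 5 (by norm_num)
          (F [5] 13 4 5 (by decide) (L1 h5) (by decide) (by decide))).1 ?_ leaf5_6
        intro L hL
        simp only [List.mem_cons, List.not_mem_nil, or_false] at hL
        rcases hL with rfl | rfl
        · exact (localOK_5_59_29 c g59 6 (by norm_num)
            (F [] 59 2 6 (by simp) (by simp) (by decide) (by decide))).2
        · exact (localOK_5_47_23 c g47 6 (by norm_num)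
            (F [] 47 2 6 (by simp) (by simp) (by decide) (by decide))).2
      · by_cases g47 : 47 ∣ c.den
        · have h47 := mem 47 (by norm_num) g47
          refine leaf_contra rotOK_5 c 6 hS X hX _ _ (localOK_5_13_3 c g13 4 (by norm_num)
            (F [5, 47] 13 4 4 (by decide) (L2 h5 h47) (by decide) (by decide))).1 ?_
            leaf5_5
          intro L hL
          simp only [List.mem_cons, List.not_mem_nil, or_false] at hL
          subst hL
          exact (localOK_5_17_2 c g17 3 (by norm_num)
            (F [2, 19, 47] 17 8 3 (by decide) (L3 h2 h19 h47) (by decide)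
              (by decide))).2
        · refine leaf_contra rotOK_5 c 6 hS X hX _ _ (localOK_5_13_3 c g13 5 (by norm_num)
            (F [5] 13 4 5 (by decide) (L1 h5) (by decide) (by decide))).1 ?_ leaf5_4
          intro L hL
          simp only [List.mem_cons, List.not_mem_nil, or_false] at hL
          rcases hL with rfl | rfl
          · exact (localOK_5_47_23 c g47 6 (by norm_num)
              (F [] 47 2 6 (by simp) (by simp) (by decide) (by decide))).2
          · exact (localOK_5_17_2 c g17 4 (by norm_num)
              (F [2, 19] 17 8 4 (by decide) (L2 h2 h19) (by decide) (by decide))).2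
  · have hR19 := (localOK_5_19_3 c g19 5 (by norm_num)
      (F [7] 19 6 5 (by decide) (L1 h7) (by decide) (by decide))).1
    by_cases g13 : 13 ∣ c.den
    · have h13 := mem 13 (by norm_num) g13
      by_cases g59 : 59 ∣ c.den
      · have h59 := mem 59 (by norm_num) g59
        have g47 : ¬ 47 ∣ c.den := fun h => full {2, 3, 5, 7, 13, 59, 47} (by decide) (by
          have h47 := mem 47 (by norm_num) h
          intro t ht
          simp only [Finset.mem_insert, Finset.mem_singleton] at ht
          rcases ht with rfl | rfl | rfl | rfl | rfl | rfl | rfl <;> assumption)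
        have g41 : ¬ 41 ∣ c.den := fun h => full {2, 3, 5, 7, 13, 59, 41} (by decide) (by
          have h41 := mem 41 (by norm_num) h
          intro t ht
          simp only [Finset.mem_insert, Finset.mem_singleton] at ht
          rcases ht with rfl | rfl | rfl | rfl | rfl | rfl | rfl <;> assumption)
        refine leaf_contra rotOK_5 c 6 hS X hX _ _ hR19 ?_ leaf5_3
        intro L hL
        simp only [List.mem_cons, List.not_mem_nil, or_false] at hL
        rcases hL with rfl | rfl
        · exact (localOK_5_47_23 c g47 6 (by norm_num)
            (F [] 47 2 6 (by simp) (by simp) (by decide) (by decide))).2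
        · exact (localOK_5_41_5 c g41 5 (by norm_num)
            (F [3] 41 8 5 (by decide) (L1 h3) (by decide) (by decide))).2
      · refine leaf_contra rotOK_5 c 6 hS X hX _ _ hR19 ?_ leaf5_2
        intro L hL
        simp only [List.mem_cons, List.not_mem_nil, or_false] at hL
        subst hL
        exact (localOK_5_59_29 c g59 6 (by norm_num)
          (F [] 59 2 6 (by simp) (by simp) (by decide) (by decide))).2
    · refine leaf_contra rotOK_5 c 6 hS X hX _ _ hR19 ?_ leaf5_1
      intro L hL
      simp only [List.mem_cons, List.not_mem_nil, or_false] at hL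
      rcases hL with rfl | rfl
      · exact (localOK_5_13_3 c g13 5 (by norm_num)
          (F [5] 13 4 5 (by decide) (L1 h5) (by decide) (by decide))).2
      · exact (localOK_5_13_2 c g13 5 (by norm_num)
          (F [3] 13 6 5 (by decide) (L1 h3) (by decide) (by decide))).2

end Poonen
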