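import Pool.Agent.Poonen.LocalSets
import Pool.Agent.Poonen.Assembly
import Pool.Agent.Poonen.A
import Pool.Agent.Poonen.B
import Pool.Agent.Poonen.B8
import Pool.Agent.Poonen.C2
import Pool.Agent.Poonen.D1
import Pool.Agent.Poonen.E1
import Pool.Agent.Poonen.E3

/-!
# Local constraints on the words of the bad primes (MP_7564fc_nt)
-/

namespace Poonen

open Finset

/-- The list of all normalised primitive words of length `N`. -/
def wordsN (N : ℕ) : List ℕ := (List.range (2 ^ N)).filter (isPrimW N)

/-- The word read from position `s`, normalised. -/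
def rotN (N W s : ℕ) : ℕ :=
  (List.range N).foldl (fun acc i =>
    if (W.testBit ((i + s) % N)) = (W.testBit (s % N)) then acc ||| (1 <<< i) else acc) 0

/-- The facts on rotated words that are needed (checked by computation for each `N`). -/
def RotOK (N : ℕ) : Prop := ∀ W ∈ wordsN N, ∀ s < N,
  rotN N W s ∈ wordsN N ∧ rotN N (rotN N W s) (N - s) = W ∧
    ∀ ji ∈ pairs N, ew N (wd N (rotN N W s)) ji.1 ji.2 = ew N (wd N W) (ji.1 + s) (ji.2 + s)

instance (N : ℕ) : Decidable (RotOK N) := by unfold RotOK; infer_instance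

/-- Words and exponents of the bad primes. -/
structure Words (c : ℚ) (N : ℕ) (X : ℕ → ℚ) (K : ℕ → ℤ) (W : ℕ → ℕ) : Prop where
  mem : ∀ t ∈ c.den.primeFactors, W t ∈ wordsN N
  val : ∀ t ∈ c.den.primeFactors, ∀ i j, i % N ≠ j % N →
    padicValRat t (X i + X j) = K t * ew N (wd N (W t)) i j

theorem mod_add_right' {N : ℕ} (i s : ℕ) : (i % N + s) % N = (i + s) % N := by
  rw [Nat.add_mod, Nat.mod_mod, ← Nat.add_mod]

theorem word_mem {N : ℕ} (hN : 0 < N) {w : ℕ → Bool} (hw : IsWord N w) :
    ∃ W, (∀ i, w i = wd N W i) ∧ W ∈ wordsN N := by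
  obtain ⟨W, hW, hmem⟩ := pf_E1 1 N (by norm_num) hN w hw
  unfold wtable at hmem
  rw [List.mem_map] at hmem
  obtain ⟨W', hW', heq⟩ := hmem
  simp only [Prod.mk.injEq] at heq
  refine ⟨W, hW, ?_⟩
  have h0 : W.testBit 0 = true := by
    have := hW 0
    rw [hw.zero] at this
    rw [wd, Nat.zero_mod] at this
    exact this.symm
  have h0' : W'.testBit 0 = true := by
    have := (List.mem_filter.mp hW').2
    rw [isPrimW, Bool.and_eq_true] at this
    exact this.1
  have hWW : W' = W := by
    rw [Nat.testBit_zero, decide_eq_true_eq] at h0 h0'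
    have := heq.1
    omega
  rw [← hWW]
  exact hW'

theorem exists_words {c : ℚ} {N : ℕ} {X : ℕ → ℚ} (hX : Cyc c N X) :
    ∃ (K : ℕ → ℤ) (W : ℕ → ℕ), Words c N X K W := by
  classical
  have h : ∀ t : ℕ, ∃ (K : ℤ) (W : ℕ), t ∈ c.den.primeFactors → W ∈ wordsN N ∧
      ∀ i j, i % N ≠ j % N → padicValRat t (X i + X j) = K * ew N (wd N W) i j := by
    intro t
    by_cases ht : t ∈ c.den.primeFactors
    · obtain ⟨K, w, hw, hval⟩ := pkgC2 c N X hX t (Nat.prime_of_mem_primeFactors ht)
        (Nat.dvd_of_mem_primeFactors ht)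
      obtain ⟨W, hW, hmem⟩ := word_mem hX.pos hw
      have hww : w = wd N W := funext hW
      refine ⟨K, W, fun _ => ⟨hmem, ?_⟩⟩
      rw [← hww]
      exact hval
    · exact ⟨0, 0, fun h => absurd h ht⟩
  choose K W hKW using h
  exact ⟨K, W, ⟨fun t ht => (hKW t ht).1, fun t ht => (hKW t ht).2⟩⟩

theorem mem_pairs {N i j : ℕ} (hi : i < N) (hj : j < i) : (j, i) ∈ pairs N := by
  unfold pairs
  rw [List.mem_flatMap]
  exact ⟨i, List.mem_range.mpr hi, List.mem_map.mpr ⟨j, List.mem_range.mpr hj, rfl⟩⟩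

theorem preLen_comm (w : ℕ → Bool) : ∀ n i j, preLen w n i j = preLen w n j i := by
  intro n
  induction n with
  | zero => intro i j; rfl
  | succ n ih =>
    intro i j
    unfold preLen
    rw [ih (i + 1) (j + 1)]
    by_cases h : w i = w j
    · rw [if_pos h, if_pos h.symm]
    · rw [if_neg h, if_neg (fun h' => h h'.symm)]

theorem ew_comm (N : ℕ) (w : ℕ → Bool) (i j : ℕ) : ew N w i j = ew N w j i := by
  unfold ew
  rw [preLen_comm]
  by_cases h : w i = w j
  · rw [if_pos h, if_pos h.symm]
  · rw [if_neg h, if_neg (fun h' => h h'.symm)]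

theorem wd_mod (N W i : ℕ) : wd N W (i % N) = wd N W i := by
  unfold wd
  rw [Nat.mod_mod]

theorem preLen_mod (N W : ℕ) : ∀ n i j,
    preLen (wd N W) n (i % N) (j % N) = preLen (wd N W) n i j := by
  have key : ∀ n i j i' j', i % N = i' % N → j % N = j' % N →
      preLen (wd N W) n i j = preLen (wd N W) n i' j' := by
    intro n
    induction n with
    | zero => intro i j i' j' _ _; rfl
    | succ n ih =>
      intro i j i' j' hi hj
      unfold preLen
      have h1 : wd N W i = wd N W i' := by unfold wd; rw [hi]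
      have h2 : wd N W j = wd N W j' := by unfold wd; rw [hj]
      rw [h1, h2, ih (i + 1) (j + 1) (i' + 1) (j' + 1)
        (Nat.ModEq.add_right 1 hi) (Nat.ModEq.add_right 1 hj)]
  intro n i j
  exact key n _ _ _ _ (Nat.mod_mod _ _) (Nat.mod_mod _ _)

theorem ew_congr {N W i j i' j' : ℕ} (hi : i % N = i' % N) (hj : j % N = j' % N) :
    ew N (wd N W) i j = ew N (wd N W) i' j' := by
  unfold ew
  have h1 : wd N W i = wd N W i' := by unfold wd; rw [hi]
  have h2 : wd N W j = wd N W j' := by unfold wd; rw [hj]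
  have h3 : preLen (wd N W) N (i + 1) (j + 1) = preLen (wd N W) N (i' + 1) (j' + 1) := by
    rw [← preLen_mod N W N (i + 1) (j + 1), ← preLen_mod N W N (i' + 1) (j' + 1)]
    rw [show (i + 1) % N = (i' + 1) % N from Nat.ModEq.add_right 1 hi,
      show (j + 1) % N = (j' + 1) % N from Nat.ModEq.add_right 1 hj]
  rw [h1, h2, h3]

theorem ew_rot {N : ℕ} (hN : 0 < N) (hrot : RotOK N) {W : ℕ} (hW : W ∈ wordsN N) {s : ℕ}
    (hs : s < N) (i j : ℕ) (hij : i % N ≠ j % N) :
    ew N (wd N (rotN N W s)) i j = ew N (wd N W) (i + s) (j + s) := by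
  obtain ⟨-, -, h⟩ := hrot W hW s hs
  rw [ew_congr (i := i) (j := j) (i' := i % N) (j' := j % N) (Nat.mod_mod _ _).symm
    (Nat.mod_mod _ _).symm]
  rw [ew_congr (W := W) (i := i + s) (j := j + s) (i' := i % N + s) (j' := j % N + s)
    (mod_add_right' i s).symm (mod_add_right' j s).symm]
  rcases lt_or_gt_of_ne hij with h1 | h1
  · exact h _ (mem_pairs (Nat.mod_lt _ hN) h1)
  · rw [ew_comm, ew_comm N (wd N W)]
    exact h _ (mem_pairs (Nat.mod_lt _ hN) h1)

theorem Words.shift {c : ℚ} {N : ℕ} {X : ℕ → ℚ} {K : ℕ → ℤ} {W : ℕ → ℕ} (hX : Cyc c N X)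
    (hrot : RotOK N) (hW : Words c N X K W) {s : ℕ} (hs : s < N) :
    Words c N (fun i => X (i + s)) K (fun t => rotN N (W t) s) where
  mem t ht := (hrot (W t) (hW.mem t ht) s hs).1
  val t ht i j hij := by
    rw [ew_rot hX.pos hrot (hW.mem t ht) hs i j hij]
    exact hW.val t ht (i + s) (j + s) (by
      intro e
      exact hij (Nat.ModEq.add_right_cancel' s e))

theorem odd_of_mem {N W : ℕ} (h : W ∈ wordsN N) : 2 * (W / 2) + 1 = W := by
  have := (List.mem_filter.mp h).2
  rw [isPrimW, Bool.and_eq_true] at this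
  have h0 := this.1
  rw [Nat.testBit_zero, decide_eq_true_eq] at h0
  omega

/-- The main local statement: the words of the bad primes that are not `q`-th powers modulo the
good prime `p`, read from a suitable point of the cycle, contain one of the exceptional sets. -/
theorem local_shift (N p q m k : ℕ) [hp : Fact p.Prime] (hp5 : 5 ≤ p) (hq : 0 < q) (hm : Even m)
    (hmq : m * q = p - 1) (tab : List (ℕ × List ℕ)) (htab : tab = wtable q N)
    (cert : List (ℕ × ℕ × List ℕ))
    (hcert : ∀ e ∈ cert, ∃ ys els, chkTypeG N p q m k tab e.1 e.2.1 ys els e.2.2 = true)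
    (htyp : chkTypes N p (cert.map fun e => (e.1, e.2.1)) = true)
    (c : ℚ) (X : ℕ → ℚ) (hX : Cyc c N X) (hgood : ¬ p ∣ c.den)
    (hk : (c.den.primeFactors.filter fun t : ℕ => ((t : ZMod p) ^ m ≠ 1)).card ≤ k) :
    ∃ s < N, ∃ e ∈ cert, ∀ (K : ℕ → ℤ) (W : ℕ → ℕ), Words c N (fun i => X (i + s)) K W →
      ∃ b ∈ e.2.2, ∀ i, b.testBit i = true →
      ∃ t ∈ c.den.primeFactors.filter (fun t : ℕ => ((t : ZMod p) ^ m ≠ 1)), W t / 2 = i := by
  classical
  obtain ⟨C, a, ha, hCc, haX⟩ := pf_B1 c N X hX p hgood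
  have hE6 := pf_E6 pf_A2 (pf_B8 (pf_B4 pf_B2 pf_B3) pf_B7)
  obtain ⟨s, hs, hmem⟩ := hE6 N p _ hp5 htyp C a ha
  rw [List.mem_map] at hmem
  obtain ⟨⟨C0, x0, bads⟩, hecert, heq⟩ := hmem
  simp only [Prod.mk.injEq] at heq
  obtain ⟨hC0, hx0⟩ := heq
  have hX' := hX.shift s
  have ha' := ha.shift s
  refine ⟨s, hs, _, hecert, ?_⟩
  intro K W hW'
  obtain ⟨ys, els, hchk⟩ := hcert _ hecert
  simp only [chkTypeG, Bool.and_eq_true, List.all_eq_true] at hchk
  obtain ⟨h1a, h1l, h1m, h1b⟩ := hchk
  set F := c.den.primeFactors.filter fun t : ℕ => ((t : ZMod p) ^ m ≠ 1) with hF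
  have hFS : ∀ t ∈ F, t ∈ c.den.primeFactors := fun t ht => (Finset.mem_filter.mp ht).1
  have hels := matchTab_sound q ys tab els h1m
  have hcol : ∀ x ∈ els, x.2 = (fun e => colOf q (expsq q N (2 * e + 1)) ys) x.1 := by
    intro x hx
    rw [hels, htab, List.mem_map] at hx
    obtain ⟨y, hy, rfl⟩ := hx
    unfold wtable at hy
    rw [List.mem_map] at hy
    obtain ⟨V, hV, rfl⟩ := hy
    have : 2 * (V / 2) + 1 = V := odd_of_mem hV
    simp only [this]
  have hsound := covG_sound bads els (fun e => colOf q (expsq q N (2 * e + 1)) ys) hcol k _ 0 0 h1b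
    ((F.attach.toList).map fun t => W t.1 / 2) (by
      rw [List.length_map, Finset.length_toList, Finset.card_attach]
      exact hk) (by
      intro e he
      rw [List.mem_map] at he
      obtain ⟨t, -, rfl⟩ := he
      refine ⟨?_, by simp⟩
      rw [hels, htab, List.map_map, List.mem_map]
      refine ⟨(W t.1 / 2, expsq q N (W t.1)), ?_, rfl⟩
      unfold wtable
      rw [List.mem_map]
      exact ⟨W t.1, hW'.mem t.1 (hFS t.1 t.2), rfl⟩)
  rcases hsound with ⟨j, hA, hj⟩ | ⟨b, hb, hbL⟩
  · exfalso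
    -- the dual vector
    have hcolj : ∀ t ∈ F, ∃ y, ys[j]? = some y ∧
        dotL (expsq q N (W t)) y % q = 0 := by
      intro t ht
      have h := hj (W t / 2) (by
        rw [List.mem_map]
        exact ⟨⟨t, ht⟩, by simp, rfl⟩)
      simp only at h
      rw [odd_of_mem (hW'.mem t (hFS t ht))] at h
      exact colOf_sound q _ ys j h
    -- there is a vector in any case
    have hAj : ∃ y, ys[j]? = some y := by
      by_cases hFe : F.Nonempty
      · obtain ⟨t, ht⟩ := hFe
        obtain ⟨y, hy, -⟩ := hcolj t ht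
        exact ⟨y, hy⟩
      · by_contra hcon
        -- use the soundness with the index below the length
        have hne : ys[j]? = none := by
          cases h : ys[j]? with
          | none => rfl
          | some y => exact absurd ⟨y, h⟩ hcon
        have hlt : j < ys.length := by
          by_contra hge
          have hA' : (Nat.sub (Nat.shiftLeft 1 ys.length) 1).testBit j = false := by
            change (1 <<< ys.length - 1).testBit j = false
            rw [Nat.one_shiftLeft, Nat.testBit_two_pow_sub_one]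
            simpa using hge
          rw [hA'] at hA
          exact absurd hA (by decide)
        rw [List.getElem?_eq_getElem hlt] at hne
        exact absurd hne (by simp)
    obtain ⟨y, hyj⟩ := hAj
    have hy : y ∈ ys := List.mem_of_getElem? hyj
    have hdot : ∀ t ∈ F, dotL (expsq q N (W t)) y % q = 0 := by
      intro t ht
      obtain ⟨y', hy', h⟩ := hcolj t ht
      rw [hyj] at hy'
      rw [Option.some.injEq] at hy'
      rwa [← hy'] at h
    have hylen : y.length = (pairs N).length := by
      have := h1l y hy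
      simpa using this
    have hprod := pf_D1 pf_A2 pf_B1 c N _ hX' p hgood C _ ha' (fun i => haX (i + s)) q m hm hmq
      (fun j i => y.getD (i * (i - 1) / 2 + j) 0) (by
        intro t ht
        by_cases h : (t : ZMod p) ^ m = 1
        · exact Or.inl h
        · right
          have htF : t ∈ F := by
            rw [hF, Finset.mem_filter]
            exact ⟨ht, h⟩
          have h3 := hdot t htF
          have h5 := pf_E5 q N (W t) hq y hylen
          have h6 : (q : ℤ) ∣ (dotL (expsq q N (W t)) y : ℤ) := by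
            exact_mod_cast Nat.dvd_of_mod_eq_zero h3
          have h7 := (Int.dvd_iff_dvd_of_dvd_sub h5).mp h6
          have h8 : ∑ i ∈ range N, ∑ j ∈ range i,
              ((y.getD (i * (i - 1) / 2 + j) 0 : ℕ) : ℤ) *
                padicValRat t (X (j + s) + X (i + s)) =
              K t * ∑ i ∈ range N, ∑ j ∈ range i,
                ((y.getD (i * (i - 1) / 2 + j) 0 : ℕ) : ℤ) *
                  ew N (wd N (W t)) j i := by
            rw [Finset.mul_sum]
            refine Finset.sum_congr rfl fun i hi => ?_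
            rw [Finset.mul_sum]
            refine Finset.sum_congr rfl fun j hj => ?_
            rw [Finset.mem_range] at hi hj
            have hne : j % N ≠ i % N := by
              rw [Nat.mod_eq_of_lt hi, Nat.mod_eq_of_lt (hj.trans hi)]
              omega
            rw [hW'.val t ht j i hne]
            ring
          rw [h8]
          exact Dvd.dvd.mul_left h7 _)
    have h4 := pf_E4 p m N (PadicInt.toZMod C) (PadicInt.toZMod (a s))
      (fun i => PadicInt.toZMod (a (i + s))) (by simp) (by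
        intro i
        have := ha'.step i
        rw [this, map_add, map_pow]) y hylen
    rw [hprod] at h4
    have hne := h1a y hy
    rw [← hC0, ← hx0] at h4
    simp only [bne_iff_ne, ne_eq] at hne
    apply hne
    have hlt : prodPow p m (orbL p C0 N x0) (pairs N) y < p ∨
        prodPow p m (orbL p C0 N x0) (pairs N) y = 1 := by
      cases hps : pairs N with
      | nil => right; simp [prodPow]
      | cons ji ps =>
        cases hys : y with
        | nil => right; simp [prodPow]
        | cons y0 yt => left; exact Nat.mod_lt _ hp.out.pos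
    rcases hlt with h | h
    · have h9 : ((prodPow p m (orbL p C0 N x0) (pairs N) y : ℕ) : ZMod p) = ((1 : ℕ) : ZMod p) := by
        rw [h4]; simp
      rw [ZMod.natCast_eq_natCast_iff'] at h9
      rwa [Nat.mod_eq_of_lt h, Nat.mod_eq_of_lt (by omega)] at h9
    · exact h
  · refine ⟨b, hb, ?_⟩
    intro i hi
    rcases hbL i hi with h | h
    · simp at h
    · rw [List.mem_map] at h
      obtain ⟨t, -, ht⟩ := h
      exact ⟨t.1, t.2, ht⟩

/-- The local statement in terms of the words read from the point `0`. -/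
theorem local_sets (N p q m k : ℕ) [hp : Fact p.Prime] (hp5 : 5 ≤ p) (hq : 0 < q) (hm : Even m)
    (hmq : m * q = p - 1) (tab : List (ℕ × List ℕ)) (htab : tab = wtable q N)
    (hrot : RotOK N)
    (cert : List (ℕ × ℕ × List ℕ))
    (hcert : ∀ e ∈ cert, ∃ ys els, chkTypeG N p q m k tab e.1 e.2.1 ys els e.2.2 = true)
    (htyp : chkTypes N p (cert.map fun e => (e.1, e.2.1)) = true)
    (c : ℚ) (X : ℕ → ℚ) (hX : Cyc c N X) (hgood : ¬ p ∣ c.den)
    (K : ℕ → ℤ) (W : ℕ → ℕ) (hW : Words c N X K W)
    (hk : (c.den.primeFactors.filter fun t : ℕ => ((t : ZMod p) ^ m ≠ 1)).card ≤ k) :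
    ∃ s < N, ∃ e ∈ cert, ∃ b ∈ e.2.2, ∀ i, b.testBit i = true →
      ∃ t ∈ c.den.primeFactors.filter (fun t : ℕ => ((t : ZMod p) ^ m ≠ 1)),
        rotN N (W t) s / 2 = i := by
  obtain ⟨s, hs, e, he, h⟩ := local_shift N p q m k hp5 hq hm hmq tab htab cert hcert htyp c X hX
    hgood hk
  exact ⟨s, hs, e, he, h K _ (hW.shift hX hrot hs)⟩

/-- The local statement without exceptional sets. -/
theorem local_empty (N p q m k : ℕ) [hp : Fact p.Prime] (hp5 : 5 ≤ p) (hq : 0 < q) (hm : Even m)
    (hmq : m * q = p - 1) (tab : List (ℕ × List ℕ)) (htab : tab = wtable q N)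
    (cert : List (ℕ × ℕ))
    (hcert : ∀ e ∈ cert, ∃ ys els, chkTypeG N p q m k tab e.1 e.2 ys els [] = true)
    (htyp : chkTypes N p cert = true)
    (c : ℚ) (X : ℕ → ℚ) (hX : Cyc c N X) (hgood : ¬ p ∣ c.den)
    (hk : (c.den.primeFactors.filter fun t : ℕ => ((t : ZMod p) ^ m ≠ 1)).card ≤ k) : False := by
  have htyp' : chkTypes N p ((cert.map fun e => ((e.1, e.2, []) : ℕ × ℕ × List ℕ)).map
      fun e => (e.1, e.2.1)) = true := by
    rw [List.map_map]
    have : ((fun e : ℕ × ℕ × List ℕ => (e.1, e.2.1)) ∘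
        fun e : ℕ × ℕ => ((e.1, e.2, []) : ℕ × ℕ × List ℕ)) = id := rfl
    rw [this, List.map_id]
    exact htyp
  obtain ⟨s, hs, e, he, h⟩ := local_shift N p q m k hp5 hq hm hmq tab htab
    (cert.map fun e => (e.1, e.2, [])) (by
      intro e he
      rw [List.mem_map] at he
      obtain ⟨e', he', rfl⟩ := he
      exact hcert e' he') htyp' c X hX hgood hk
  obtain ⟨K, W, hW⟩ := exists_words (hX.shift s)
  obtain ⟨b, hb, -⟩ := h K W hW
  rw [List.mem_map] at he
  obtain ⟨e', he', rfl⟩ := he
  simp at hb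

end Poonen
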