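import Pool.Agent.Poonen.Tabs8
import Pool.Agent.Poonen.Local2

/-!
# Local constraint for `N = 8`, `p = 73`, `q = 2` (MP_7564fc_nt)
-/

namespace Poonen

def ys8_73_2_0 : List (List ℕ) := [[0, 0, 1, 0, 1, 1, 0, 1, 0, 1, 1, 1, 0, 0, 1, 0, 1, 0, 0, 1, 1, 1, 0, 1, 1, 0, 0, 1],
   [0, 0, 0, 0, 0, 0, 0, 0, 0, 1, 0, 1, 1, 0, 0, 1, 1, 0, 0, 1, 0, 1, 1, 0, 0, 0, 1, 0],
   [0, 0, 0, 0, 1, 0, 0, 1, 1, 1, 0, 0, 0, 0, 0, 1, 1, 0, 1, 0, 0, 0, 1, 0, 1, 0, 1, 0],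
   [0, 0, 0, 0, 0, 0, 0, 0, 0, 0, 0, 1, 0, 0, 0, 0, 0, 1, 0, 0, 0, 0, 0, 0, 0, 0, 0, 0],
   [0, 0, 1, 0, 1, 0, 0, 0, 0, 0, 0, 0, 1, 1, 1, 1, 1, 0, 1, 1, 0, 1, 0, 1, 0, 0, 0, 1],
   [0, 0, 0, 0, 1, 1, 0, 0, 1, 0, 0, 0, 1, 0, 1, 0, 1, 0, 1, 1, 1, 1, 1, 1, 0, 0, 0, 0],
   [0, 0, 0, 0, 1, 0, 0, 1, 0, 1, 0, 0, 1, 0, 0, 0, 0, 0, 0, 0, 0, 1, 0, 1, 1, 1, 1, 0]]

def els8_73_2_0 : List (ℕ × ℕ) := [(0, 78), (1, 115), (2, 124), (3, 118), (4, 59), (5, 95), (6, 86), (7, 127), (9, 78), (10, 125), (11, 127), (12, 75), (13, 90), (14, 103), (15, 58), (16, 51), (17, 47), (18, 119), (19, 124), (20, 93), (21, 125), (22, 126), (23, 86), (24, 75), (26, 123), (27, 91), (28, 45), (29, 15), (30, 46), (31, 55), (32, 126), (33, 102), (34, 122), (35, 85), (36, 53), (37, 127), (38, 125), (39, 95), (40, 124), (41, 123), (43, 95), (44, 113), (45, 108), (46, 108), (47, 127), (48, 118), (49, 58),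 (50, 119), (51, 93), (52, 126), (53, 53), (54, 92), (55, 58), (56, 123), (57, 91), (58, 91), (60, 56), (61, 115), (62, 61), (63, 111), (64, 62), (65, 125), (66, 115), (67, 127), (68, 88), (69, 85), (70, 125), (71, 118), (72, 79), (73, 45), (74, 117), (75, 60), (77, 75), (78, 105), (79, 63), (80, 120), (81, 122), (82, 127), (83, 115), (84, 115), (85, 126), (86, 119), (87, 121), (88, 95), (89, 11), (90, 109), (91, 119), (92, 78), (94, 125), (95, 15), (96, 118), (97, 127), (98, 122), (99, 125), (100, 62), (101, 103), (102, 46), (103, 115), (104, 99), (105, 47), (106, 109), (107, 57), (108, 109), (109, 125), (111, 95), (112, 127), (113, 115), (114, 125), (115, 63), (116, 119), (117, 127), (118, 54), (119, 79), (120, 63), (121, 51), (122, 127), (123, 110), (124, 58), (125, 15), (126, 95)]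

theorem loc8_73_2_0 : chkTypeG 8 73 2 36 2 tab_2_8 14 37 ys8_73_2_0 els8_73_2_0
    [] = true :=
  chkTypeG_of (by decide +kernel) (by decide +kernel) (by decide +kernel) (by decide +kernel)

def ys8_73_2_1 : List (List ℕ) := [[0, 0, 1, 0, 1, 0, 0, 1, 1, 0, 1, 1, 1, 1, 0, 0, 0, 1, 1, 1, 1, 0, 0, 0, 0, 1, 1, 1],
   [0, 0, 1, 0, 1, 1, 0, 1, 1, 0, 1, 0, 0, 0, 1, 0, 1, 0, 0, 0, 0, 0, 1, 1, 0, 0, 1, 0],
   [0, 0, 1, 0, 1, 0, 0, 0, 0, 1, 0, 1, 1, 0, 1, 0, 1, 0, 1, 1, 1, 1, 1, 1, 0, 0, 0, 0],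
   [0, 0, 1, 0, 0, 1, 0, 1, 0, 0, 0, 0, 0, 1, 1, 0, 0, 0, 1, 1, 0, 1, 0, 1, 0, 1, 1, 0],
   [0, 0, 1, 0, 1, 1, 0, 1, 0, 0, 1, 1, 0, 1, 0, 1, 0, 1, 1, 1, 1, 0, 0, 1, 1, 0, 0, 1],
   [0, 0, 1, 0, 1, 0, 0, 0, 0, 0, 0, 0, 1, 1, 0, 1, 0, 0, 1, 1, 0, 0, 0, 1, 0, 0, 1, 0],
   [0, 0, 1, 0, 0, 0, 0, 1, 1, 0, 1, 0, 1, 1, 0, 0, 1, 0, 1, 1, 1, 0, 0, 1, 1, 0, 1, 0],
   [0, 0, 0, 0, 1, 0, 0, 1, 0, 1, 0, 0, 1, 0, 0, 0, 0, 0, 0, 0, 0, 1, 0, 1, 1, 1, 1, 0]]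

def els8_73_2_1 : List (ℕ × ℕ) := [(0, 223), (1, 199), (2, 242), (3, 209), (4, 63), (5, 239), (6, 235), (7, 243), (9, 209), (10, 207), (11, 253), (12, 251), (13, 156), (14, 191), (15, 53), (16, 124), (17, 119), (18, 190), (19, 206), (20, 191), (21, 231), (22, 253), (23, 238), (24, 251), (26, 158), (27, 241), (28, 125), (29, 93), (30, 109), (31, 90), (32, 155), (33, 206), (34, 163), (35, 205), (36, 127), (37, 247), (38, 230), (39, 235), (40, 229), (41, 159), (43, 183), (44, 205), (45, 174), (46, 254), (47, 177), (48, 255), (49, 47), (50, 158), (51, 147), (52, 246), (53, 116), (54, 187), (55, 62), (56, 246), (57, 255), (58, 185), (60, 27), (61, 234), (62, 127), (63, 234), (64, 122), (65, 236), (66, 250), (67, 250), (68, 183), (69, 239), (70, 233), (71, 247), (72, 218), (73, 95), (74, 237), (75, 61), (77, 215), (78, 158), (79, 109), (80, 179), (81, 255), (82, 252), (83,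 252), (84, 190), (85, 174), (86, 185), (87, 245), (88, 153), (89, 113), (90, 166), (91, 199), (92, 240), (94, 214), (95, 127), (96, 240), (97, 255), (98, 217), (99, 204), (100, 47), (101, 205), (102, 127), (103, 235), (104, 176), (105, 111), (106, 215), (107, 115), (108, 188), (109, 221), (111, 237), (112, 246), (113, 253), (114, 147), (115, 93), (116, 255), (117, 189), (118, 91), (119, 216), (120, 62), (121, 87), (122, 156), (123, 227), (124, 107), (125, 126), (126, 226)]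

theorem loc8_73_2_1 : chkTypeG 8 73 2 36 2 tab_2_8 14 62 ys8_73_2_1 els8_73_2_1
    [] = true :=
  chkTypeG_of (by decide +kernel) (by decide +kernel) (by decide +kernel) (by decide +kernel)

def ys8_73_2_2 : List (List ℕ) := [[0, 0, 0, 0, 0, 0, 0, 1, 0, 1, 1, 1, 0, 0, 0, 1, 0, 0, 1, 0, 0, 0, 0, 0, 0, 0, 0, 0],
   [0, 0, 0, 0, 1, 0, 0, 0, 1, 0, 1, 0, 0, 0, 1, 0, 0, 1, 0, 1, 1, 0, 0, 0, 1, 1, 1, 0],
   [0, 0, 1, 0, 0, 0, 0, 0, 1, 0, 1, 1, 0, 1, 1, 1, 1, 0, 0, 1, 1, 1, 1, 1, 1, 0, 0, 0],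
   [0, 0, 0, 0, 1, 1, 0, 0, 0, 1, 0, 0, 0, 0, 0, 1, 0, 1, 1, 0, 1, 1, 0, 0, 1, 1, 0, 1],
   [0, 0, 0, 0, 1, 1, 0, 1, 0, 0, 0, 1, 0, 1, 1, 0, 0, 1, 0, 1, 0, 1, 1, 0, 0, 0, 0, 1],
   [0, 0, 1, 0, 1, 1, 0, 0, 0, 0, 1, 1, 0, 0, 0, 0, 0, 0, 1, 0, 0, 0, 1, 0, 0, 1, 1, 0],
   [0, 0, 0, 0, 1, 0, 0, 0, 0, 0, 0, 1, 0, 0, 0, 1, 0, 1, 0, 1, 0, 0, 1, 0, 0, 0, 0, 0],
   [0, 0, 1, 0, 0, 0, 0, 0, 0, 0, 0, 0, 1, 1, 1, 0, 1, 0, 1, 0, 0, 1, 1, 1, 0, 0, 0, 1]]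

def els8_73_2_2 : List (ℕ × ℕ) := [(0, 124), (1, 86), (2, 195), (3, 151), (4, 249), (5, 219), (6, 174), (7, 255), (9, 150), (10, 231), (11, 233), (12, 166), (13, 254), (14, 246), (15, 31), (16, 154), (17, 127), (18, 188), (19, 207), (20, 249), (21, 237), (22, 246), (23, 188), (24, 172), (26, 250), (27, 206), (28, 127), (29, 191), (30, 180), (31, 115), (32, 234), (33, 219), (34, 246), (35, 185), (36, 150), (37, 218), (38, 218), (39, 254), (40, 246), (41, 205), (43, 237), (44, 127), (45, 179), (46, 103), (47, 245), (48, 127), (49, 245), (50, 93), (51, 249), (52, 221), (53, 173), (54, 232), (55, 250), (56, 249), (57, 247), (58, 255), (60, 39), (61, 93), (62, 242), (63, 109), (64, 252), (65, 203), (66, 167), (67, 233), (68, 238), (69, 189), (70, 249), (71, 182), (72, 135), (73, 127), (74, 125), (75, 61), (77, 190), (78, 95), (79, 226), (80, 210), (81, 232), (82, 241),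 (83, 191), (84, 95), (85, 238), (86, 151), (87, 227), (88, 247), (89, 185), (90, 178), (91, 124), (92, 163), (94, 209), (95, 124), (96, 155), (97, 239), (98, 221), (99, 230), (100, 202), (101, 245), (102, 122), (103, 111), (104, 215), (105, 173), (106, 124), (107, 201), (108, 116), (109, 254), (111, 248), (112, 249), (113, 163), (114, 244), (115, 222), (116, 91), (117, 255), (118, 151), (119, 99), (120, 43), (121, 127), (122, 251), (123, 95), (124, 245), (125, 95), (126, 246)]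

theorem loc8_73_2_2 : chkTypeG 8 73 2 36 2 tab_2_8 17 1 ys8_73_2_2 els8_73_2_2
    [] = true :=
  chkTypeG_of (by decide +kernel) (by decide +kernel) (by decide +kernel) (by decide +kernel)

def ys8_73_2_3 : List (List ℕ) := [[0, 0, 0, 0, 0, 1, 0, 0, 1, 1, 0, 1, 0, 0, 1, 1, 1, 1, 1, 0, 0, 1, 1, 0, 1, 1, 1, 1],
   [0, 0, 0, 0, 1, 1, 0, 0, 0, 0, 0, 1, 1, 0, 1, 1, 0, 1, 1, 1, 0, 0, 1, 0, 1, 0, 1, 0],
   [0, 0, 0, 0, 0, 1, 0, 1, 0, 0, 1, 0, 1, 0, 0, 1, 1, 0, 1, 1, 0, 0, 1, 1, 1, 0, 1, 1],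
   [0, 0, 1, 0, 0, 1, 0, 1, 1, 0, 0, 1, 1, 1, 1, 1, 1, 1, 0, 0, 1, 1, 0, 0, 0, 1, 0, 1],
   [0, 0, 0, 0, 1, 1, 0, 0, 1, 1, 1, 1, 0, 1, 0, 0, 0, 1, 0, 1, 1, 1, 0, 1, 1, 0, 0, 1],
   [0, 0, 0, 0, 1, 0, 0, 0, 0, 0, 1, 0, 0, 1, 0, 1, 0, 1, 1, 1, 0, 1, 0, 1, 1, 1, 0, 0],
   [0, 0, 0, 0, 1, 1, 0, 0, 0, 0, 0, 0, 1, 0, 1, 0, 1, 0, 1, 0, 1, 1, 0, 1, 0, 0, 1, 0],
   [0, 0, 1, 0, 0, 1, 0, 1, 1, 0, 1, 0, 1, 0, 1, 1, 1, 0, 0, 0, 0, 1, 0, 0, 0, 0, 0, 0]]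

def els8_73_2_3 : List (ℕ × ℕ) := [(0, 159), (1, 167), (2, 198), (3, 125), (4, 251), (5, 91), (6, 225), (7, 247), (9, 79), (10, 119), (11, 247), (12, 125), (13, 175), (14, 255), (15, 218), (16, 188), (17, 242), (18, 217), (19, 214), (20, 247), (21, 111), (22, 229), (23, 216), (24, 119), (26, 107), (27, 171), (28, 251), (29, 245), (30, 233), (31, 173), (32, 218), (33, 123), (34, 250), (35, 216), (36, 252), (37, 222), (38, 127), (39, 114), (40, 78), (41, 123), (43, 159), (44, 166), (45, 247), (46, 241), (47, 248), (48, 205), (49, 107), (50, 171), (51, 167), (52, 236), (53, 246), (54, 237), (55, 216), (56, 252), (57, 155), (58, 174), (60, 251), (61, 213), (62, 255), (63, 107), (64, 87), (65, 159), (66, 189), (67, 215), (68, 189), (69, 226), (70, 244), (71, 110), (72, 110), (73, 208), (74, 183), (75, 234), (77, 238), (78, 254), (79, 110), (80, 187), (81, 238), (82, 215),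 (83, 189), (84, 186), (85, 242), (86, 216), (87, 231), (88, 181), (89, 253), (90, 230), (91, 206), (92, 205), (94, 119), (95, 61), (96, 244), (97, 252), (98, 239), (99, 158), (100, 120), (101, 114), (102, 242), (103, 188), (104, 207), (105, 240), (106, 241), (107, 245), (108, 212), (109, 111), (111, 59), (112, 220), (113, 221), (114, 154), (115, 103), (116, 253), (117, 250), (118, 156), (119, 173), (120, 225), (121, 183), (122, 243), (123, 123), (124, 95), (125, 63), (126, 27)]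

theorem loc8_73_2_3 : chkTypeG 8 73 2 36 2 tab_2_8 21 25 ys8_73_2_3 els8_73_2_3
    [] = true :=
  chkTypeG_of (by decide +kernel) (by decide +kernel) (by decide +kernel) (by decide +kernel)

def ys8_73_2_4 : List (List ℕ) := [[0, 0, 1, 0, 0, 1, 0, 1, 1, 1, 0, 0, 0, 1, 0, 0, 0, 0, 0, 0, 0, 1, 0, 1, 1, 1, 0, 0],
   [0, 0, 1, 0, 0, 1, 0, 1, 0, 0, 0, 1, 1, 1, 1, 0, 0, 1, 0, 0, 0, 0, 1, 1, 0, 0, 0, 0],
   [0, 0, 1, 0, 1, 1, 0, 1, 0, 1, 0, 1, 0, 0, 1, 1, 1, 0, 0, 1, 0, 1, 0, 1, 1, 0, 0, 0],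
   [0, 0, 0, 0, 0, 0, 0, 0, 0, 0, 0, 1, 0, 1, 1, 0, 1, 0, 0, 1, 1, 0, 1, 0, 1, 1, 0, 1],
   [0, 0, 0, 0, 1, 0, 0, 1, 0, 0, 1, 1, 1, 1, 0, 0, 1, 1, 0, 0, 0, 0, 1, 0, 0, 0, 1, 0],
   [0, 0, 1, 0, 1, 1, 0, 1, 0, 0, 1, 1, 1, 1, 1, 1, 1, 0, 0, 1, 0, 1, 0, 0, 1, 0, 0, 0],
   [0, 0, 0, 0, 1, 1, 0, 1, 0, 1, 1, 0, 1, 1, 0, 0, 1, 1, 0, 0, 0, 0, 0, 0, 0, 1, 1, 1],
   [0, 0, 0, 0, 1, 0, 0, 0, 0, 0, 0, 1, 0, 1, 0, 0, 0, 1, 0, 0, 0, 0, 1, 0, 0, 0, 1, 0]]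

def els8_73_2_4 : List (ℕ × ℕ) := [(0, 174), (1, 127), (2, 235), (3, 217), (4, 111), (5, 223), (6, 126), (7, 247), (9, 227), (10, 204), (11, 44), (12, 183), (13, 243), (14, 187), (15, 115), (16, 158), (17, 235), (18, 191), (19, 253), (20, 93), (21, 234), (22, 245), (23, 124), (24, 175), (26, 232), (27, 225), (28, 253), (29, 139), (30, 215), (31, 58), (32, 238), (33, 55), (34, 167), (35, 157), (36, 241), (37, 247), (38, 232), (39, 223), (40, 204), (41, 234), (43, 174), (44, 115), (45, 124), (46, 165), (47, 254), (48, 93), (49, 220), (50, 114), (51, 179), (52, 253), (53, 250), (54, 93), (55, 109), (56, 107), (57, 235), (58, 232), (60, 212), (61, 240), (62, 186), (63, 216), (64, 246), (65, 92), (66, 117), (67, 245), (68, 254), (69, 157), (70, 244), (71, 217), (72, 251), (73, 245), (74, 54), (75, 155), (77, 158), (78, 250), (79, 182), (80, 251), (81, 104), (82, 255),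 (83, 127), (84, 55), (85, 233), (86, 191), (87, 172), (88, 181), (89, 206), (90, 119), (91, 180), (92, 219), (94, 79), (95, 199), (96, 248), (97, 252), (98, 99), (99, 93), (100, 155), (101, 60), (102, 232), (103, 125), (104, 247), (105, 222), (106, 173), (107, 253), (108, 190), (109, 79), (111, 223), (112, 254), (113, 189), (114, 189), (115, 244), (116, 94), (117, 238), (118, 216), (119, 174), (120, 55), (121, 127), (122, 254), (123, 217), (124, 243), (125, 206), (126, 215)]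

theorem loc8_73_2_4 : chkTypeG 8 73 2 36 2 tab_2_8 31 55 ys8_73_2_4 els8_73_2_4
    [] = true :=
  chkTypeG_of (by decide +kernel) (by decide +kernel) (by decide +kernel) (by decide +kernel)

def ys8_73_2_5 : List (List ℕ) := [[0, 0, 0, 0, 0, 1, 0, 0, 0, 0, 0, 1, 0, 1, 1, 1, 1, 0, 1, 1, 1, 0, 0, 0, 1, 0, 1, 0],
   [0, 0, 1, 0, 0, 0, 0, 1, 0, 0, 0, 0, 0, 1, 1, 1, 0, 0, 0, 1, 0, 1, 0, 0, 0, 1, 1, 0],
   [0, 0, 0, 0, 0, 1, 0, 1, 0, 1, 0, 1, 0, 0, 1, 1, 0, 0, 1, 1, 1, 1, 1, 0, 1, 1, 1, 1],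
   [0, 0, 1, 0, 0, 0, 0, 1, 1, 0, 1, 1, 1, 0, 1, 0, 1, 0, 1, 1, 0, 1, 1, 1, 0, 0, 1, 1],
   [0, 0, 0, 0, 0, 1, 0, 1, 1, 0, 1, 0, 1, 0, 0, 1, 1, 0, 0, 1, 0, 0, 1, 1, 0, 0, 1, 0],
   [0, 0, 0, 0, 1, 1, 0, 1, 0, 0, 0, 0, 0, 0, 1, 1, 0, 1, 0, 0, 0, 1, 0, 1, 0, 0, 1, 0],
   [0, 0, 1, 0, 1, 0, 0, 1, 0, 0, 1, 0, 1, 1, 0, 0, 1, 1, 1, 0, 1, 0, 1, 1, 0, 0, 1, 0],
   [0, 0, 1, 0, 1, 1, 0, 1, 0, 1, 1, 1, 0, 0, 0, 0, 1, 1, 1, 0, 0, 0, 0, 1, 1, 1, 0, 0]]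

def els8_73_2_5 : List (ℕ × ℕ) := [(0, 246), (1, 222), (2, 241), (3, 158), (4, 93), (5, 211), (6, 103), (7, 127), (9, 126), (10, 122), (11, 245), (12, 241), (13, 159), (14, 55), (15, 242), (16, 243), (17, 15), (18, 217), (19, 110), (20, 95), (21, 247), (22, 221), (23, 214), (24, 235), (26, 168), (27, 174), (28, 246), (29, 225), (30, 191), (31, 122), (32, 191), (33, 191), (34, 185), (35, 254), (36, 245), (37, 222), (38, 231), (39, 114), (40, 95), (41, 184), (43, 146), (44, 239), (45, 219), (46, 251), (47, 54), (48, 25), (49, 173), (50, 178), (51, 126), (52, 123), (53, 119), (54, 253), (55, 78), (56, 199), (57, 185), (58, 53), (60, 239), (61, 231), (62, 207), (63, 92), (64, 239), (65, 189), (66, 253), (67, 248), (68, 110), (69, 79), (70, 255), (71, 142), (72, 119), (73, 241), (74, 235), (75, 107), (77, 252), (78, 120), (79, 249), (80, 185), (81, 181), (82, 120), (83,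 125), (84, 182), (85, 47), (86, 255), (87, 246), (88, 43), (89, 211), (90, 221), (91, 225), (92, 221), (94, 255), (95, 93), (96, 209), (97, 219), (98, 55), (99, 191), (100, 143), (101, 169), (102, 191), (103, 206), (104, 54), (105, 185), (106, 239), (107, 219), (108, 207), (109, 239), (111, 234), (112, 92), (113, 214), (114, 154), (115, 236), (116, 62), (117, 172), (118, 246), (119, 211), (120, 231), (121, 126), (122, 54), (123, 252), (124, 238), (125, 223), (126, 237)]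

theorem loc8_73_2_5 : chkTypeG 8 73 2 36 2 tab_2_8 36 11 ys8_73_2_5 els8_73_2_5
    [] = true :=
  chkTypeG_of (by decide +kernel) (by decide +kernel) (by decide +kernel) (by decide +kernel)

def ys8_73_2_6 : List (List ℕ) := [[0, 0, 1, 0, 1, 0, 0, 0, 0, 0, 0, 0, 1, 1, 1, 0, 1, 1, 1, 1, 1, 0, 1, 0, 0, 0, 1, 0],
   [0, 0, 0, 0, 1, 1, 0, 1, 1, 0, 1, 0, 1, 0, 0, 1, 0, 0, 0, 0, 0, 1, 0, 0, 1, 1, 0, 1],
   [0, 0, 1, 0, 0, 0, 0, 0, 0, 1, 0, 0, 0, 0, 0, 0, 0, 1, 0, 0, 1, 1, 0, 0, 0, 0, 0, 0],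
   [0, 0, 0, 0, 0, 1, 0, 1, 0, 0, 0, 0, 0, 0, 0, 1, 1, 1, 1, 0, 0, 0, 0, 0, 1, 0, 1, 0],
   [0, 0, 0, 0, 0, 0, 0, 0, 0, 0, 0, 1, 0, 1, 1, 0, 1, 0, 0, 1, 1, 0, 1, 0, 1, 1, 0, 1],
   [0, 0, 1, 0, 1, 1, 0, 0, 1, 0, 1, 0, 0, 0, 1, 0, 0, 1, 1, 0, 1, 1, 0, 0, 0, 0, 1, 0],
   [0, 0, 1, 0, 0, 0, 0, 1, 1, 1, 1, 0, 1, 0, 1, 0, 1, 0, 0, 1, 0, 0, 1, 0, 0, 0, 1, 1],
   [0, 0, 1, 0, 0, 1, 0, 1, 1, 0, 1, 0, 1, 0, 1, 1, 1, 0, 0, 0, 0, 1, 0, 0, 0, 0, 0, 0]]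

def els8_73_2_6 : List (ℕ × ℕ) := [(0, 157), (1, 211), (2, 243), (3, 94), (4, 222), (5, 125), (6, 209), (7, 228), (9, 100), (10, 93), (11, 221), (12, 101), (13, 229), (14, 245), (15, 235), (16, 247), (17, 181), (18, 240), (19, 191), (20, 249), (21, 114), (22, 207), (23, 251), (24, 126), (26, 118), (27, 175), (28, 252), (29, 159), (30, 232), (31, 253), (32, 250), (33, 111), (34, 175), (35, 217), (36, 175), (37, 199), (38, 123), (39, 94), (40, 116), (41, 127), (43, 255), (44, 237), (45, 212), (46, 239), (47, 251), (48, 254), (49, 95), (50, 227), (51, 172), (52, 255), (53, 190), (54, 216), (55, 213), (56, 255), (57, 181), (58, 214), (60, 171), (61, 234), (62, 219), (63, 63), (64, 99), (65, 254), (66, 171), (67, 230), (68, 190), (69, 249), (70, 165), (71, 93), (72, 126), (73, 239), (74, 237), (75, 186), (77, 158), (78, 150), (79, 102), (80, 223), (81, 178), (82, 247),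 (83, 186), (84, 227), (85, 189), (86, 219), (87, 251), (88, 205), (89, 183), (90, 207), (91, 234), (92, 183), (94, 120), (95, 78), (96, 219), (97, 222), (98, 163), (99, 254), (100, 126), (101, 119), (102, 157), (103, 218), (104, 230), (105, 249), (106, 253), (107, 210), (108, 182), (109, 123), (111, 60), (112, 220), (113, 217), (114, 252), (115, 107), (116, 221), (117, 251), (118, 255), (119, 180), (120, 234), (121, 253), (122, 251), (123, 30), (124, 103), (125, 85), (126, 47)]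

theorem loc8_73_2_6 : chkTypeG 8 73 2 36 2 tab_2_8 38 0 ys8_73_2_6 els8_73_2_6
    [] = true :=
  chkTypeG_of (by decide +kernel) (by decide +kernel) (by decide +kernel) (by decide +kernel)

def ys8_73_2_7 : List (List ℕ) := [[0, 0, 0, 0, 1, 0, 0, 0, 0, 0, 0, 1, 0, 0, 0, 0, 0, 0, 1, 1, 1, 0, 0, 1, 1, 0, 1, 1],
   [0, 0, 1, 0, 1, 1, 0, 1, 0, 0, 0, 0, 0, 1, 0, 0, 1, 1, 0, 0, 1, 0, 0, 1, 1, 0, 1, 0],
   [0, 0, 0, 0, 1, 0, 0, 1, 1, 1, 0, 0, 0, 1, 0, 0, 0, 0, 0, 1, 1, 1, 0, 1, 0, 1, 1, 0],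
   [0, 0, 0, 0, 1, 0, 0, 0, 0, 1, 1, 1, 0, 0, 0, 1, 0, 0, 1, 1, 1, 1, 1, 0, 0, 0, 1, 0],
   [0, 0, 1, 0, 1, 0, 0, 0, 0, 0, 0, 1, 0, 1, 0, 0, 0, 1, 0, 0, 1, 0, 1, 0, 0, 0, 0, 0],
   [0, 0, 0, 0, 1, 0, 0, 0, 1, 0, 1, 0, 0, 1, 0, 1, 1, 1, 0, 0, 0, 0, 1, 1, 0, 1, 1, 0],
   [0, 0, 0, 0, 1, 1, 0, 0, 1, 1, 0, 1, 1, 1, 1, 0, 0, 1, 1, 0, 1, 1, 1, 0, 1, 1, 1, 1],
   [0, 0, 0, 0, 1, 0, 0, 1, 0, 1, 0, 0, 1, 0, 0, 0, 0, 0, 0, 0, 0, 1, 0, 1, 1, 1, 1, 0]]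

def els8_73_2_7 : List (ℕ × ℕ) := [(0, 228), (1, 222), (2, 251), (3, 235), (4, 59), (5, 191), (6, 223), (7, 230), (9, 239), (10, 213), (11, 183), (12, 204), (13, 183), (14, 154), (15, 57), (16, 58), (17, 107), (18, 235), (19, 211), (20, 167), (21, 141), (22, 244), (23, 141), (24, 186), (26, 206), (27, 183), (28, 120), (29, 107), (30, 127), (31, 104), (32, 250), (33, 229), (34, 239), (35, 218), (36, 93), (37, 165), (38, 156), (39, 252), (40, 219), (41, 223), (43, 214), (44, 166), (45, 183), (46, 232), (47, 209), (48, 201), (49, 95), (50, 250), (51, 202), (52, 246), (53, 95), (54, 245), (55, 59), (56, 238), (57, 231), (58, 221), (60, 118), (61, 254), (62, 59), (63, 206), (64, 63), (65, 176), (66, 180), (67, 254), (68, 156), (69, 204), (70, 213), (71, 190), (72, 217), (73, 61), (74, 241), (75, 120), (77, 169), (78, 232), (79, 127), (80, 185), (81, 250), (82, 167), (83,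 237), (84, 173), (85, 239), (86, 240), (87, 249), (88, 252), (89, 118), (90, 252), (91, 242), (92, 244), (94, 163), (95, 117), (96, 155), (97, 255), (98, 252), (99, 239), (100, 87), (101, 255), (102, 115), (103, 203), (104, 211), (105, 116), (106, 237), (107, 121), (108, 246), (109, 242), (111, 247), (112, 231), (113, 217), (114, 255), (115, 106), (116, 216), (117, 190), (118, 103), (119, 238), (120, 113), (121, 59), (122, 213), (123, 199), (124, 108), (125, 55), (126, 182)]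

theorem loc8_73_2_7 : chkTypeG 8 73 2 36 2 tab_2_8 43 68 ys8_73_2_7 els8_73_2_7
    [] = true :=
  chkTypeG_of (by decide +kernel) (by decide +kernel) (by decide +kernel) (by decide +kernel)

def ys8_73_2_8 : List (List ℕ) := [[0, 0, 0, 0, 1, 0, 0, 1, 0, 1, 0, 0, 0, 0, 1, 1, 1, 0, 0, 1, 1, 0, 0, 0, 1, 1, 1, 1],
   [0, 0, 0, 0, 0, 0, 0, 1, 1, 1, 0, 1, 1, 0, 1, 1, 1, 0, 1, 1, 0, 0, 0, 1, 0, 1, 0, 0],
   [0, 0, 1, 0, 0, 0, 0, 0, 1, 1, 1, 0, 0, 1, 0, 0, 0, 0, 0, 0, 0, 0, 1, 0, 1, 0, 1, 1],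
   [0, 0, 0, 0, 1, 0, 0, 0, 1, 0, 0, 0, 0, 1, 1, 1, 0, 1, 0, 1, 1, 1, 0, 0, 0, 1, 0, 0],
   [0, 0, 1, 0, 0, 1, 0, 0, 1, 0, 0, 0, 0, 1, 0, 0, 0, 1, 0, 1, 1, 0, 0, 0, 1, 0, 1, 1],
   [0, 0, 0, 0, 0, 1, 0, 1, 0, 1, 0, 1, 0, 0, 0, 0, 1, 1, 0, 0, 0, 1, 0, 1, 0, 1, 0, 1],
   [0, 0, 1, 0, 0, 1, 0, 1, 1, 0, 1, 0, 1, 0, 1, 1, 1, 0, 0, 0, 0, 1, 0, 0, 0, 0, 0, 0]]

def els8_73_2_8 : List (ℕ × ℕ) := [(0, 87), (1, 91), (2, 87), (3, 39), (4, 106), (5, 62), (6, 94), (7, 127), (9, 62), (10, 49), (11, 121), (12, 58), (13, 103), (14, 126), (15, 123), (16, 111), (17, 93), (18, 71), (19, 115), (20, 79), (21, 60), (22, 121), (23, 95), (24, 60), (26, 30), (27, 123), (28, 108), (29, 94), (30, 108), (31, 118), (32, 123), (33, 39), (34, 92), (35, 124), (36, 89), (37, 127), (38, 61), (39, 62), (40, 62), (41, 31), (43, 106), (44, 125), (45, 103), (46, 79), (47, 125), (48, 86), (49, 58), (50,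 95), (51, 84), (52, 121), (53, 94), (54, 71), (55, 99), (56, 115), (57, 122), (58, 102), (60, 126), (61, 109), (62, 114), (63, 47), (64, 61), (65, 87), (66, 105), (67, 113), (68, 95), (69, 116), (70, 122), (71, 47), (72, 63), (73, 107), (74, 113), (75, 124), (77, 113), (78, 87), (79, 62), (80, 102), (81, 99), (82, 127), (83, 103), (84, 83), (85, 95), (86, 71), (87, 90), (88, 108), (89, 93), (90, 104), (91, 104), (92, 117), (94, 58), (95, 54), (96, 124), (97, 120), (98, 99), (99, 89), (100, 63), (101, 39), (102, 93), (103, 93), (104, 124), (105, 109), (106, 79), (107, 120), (108, 93), (109, 53), (111, 47), (112, 118), (113, 127), (114, 101), (115, 60), (116, 89), (117, 123), (118, 108), (119, 95), (120, 126), (121, 125), (122, 122), (123, 46), (124, 50), (125, 63), (126, 47)]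

theorem loc8_73_2_8 : chkTypeG 8 73 2 36 2 tab_2_8 47 1 ys8_73_2_8 els8_73_2_8
    [] = true :=
  chkTypeG_of (by decide +kernel) (by decide +kernel) (by decide +kernel) (by decide +kernel)

def ys8_73_2_9 : List (List ℕ) := [[0, 0, 1, 0, 0, 0, 0, 1, 1, 0, 1, 0, 0, 0, 1, 1, 0, 1, 1, 0, 1, 0, 0, 1, 1, 0, 1, 1],
   [0, 0, 0, 0, 1, 0, 0, 1, 0, 0, 1, 1, 1, 1, 1, 0, 1, 1, 1, 0, 0, 0, 0, 1, 0, 0, 0, 0],
   [0, 0, 0, 0, 1, 1, 0, 0, 0, 0, 1, 1, 1, 1, 0, 1, 1, 0, 1, 0, 0, 1, 1, 1, 1, 1, 0, 1],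
   [0, 0, 0, 0, 0, 0, 0, 1, 1, 0, 0, 1, 1, 0, 1, 1, 0, 0, 1, 0, 1, 1, 0, 0, 0, 1, 0, 1],
   [0, 0, 0, 0, 0, 0, 0, 0, 0, 0, 1, 0, 0, 0, 1, 0, 0, 0, 1, 1, 1, 0, 0, 0, 1, 0, 0, 1],
   [0, 0, 0, 0, 1, 0, 0, 1, 0, 0, 1, 1, 1, 1, 1, 1, 0, 1, 1, 0, 1, 0, 1, 0, 1, 1, 1, 0],
   [0, 0, 0, 0, 1, 0, 0, 0, 1, 0, 1, 0, 0, 1, 0, 1, 1, 1, 0, 0, 0, 0, 1, 1, 0, 1, 1, 0],
   [0, 0, 0, 0, 1, 1, 0, 0, 0, 1, 1, 0, 0, 1, 0, 0, 1, 1, 0, 1, 0, 0, 1, 0, 0, 1, 1, 0]]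

def els8_73_2_9 : List (ℕ × ℕ) := [(0, 251), (1, 182), (2, 224), (3, 94), (4, 91), (5, 238), (6, 151), (7, 234), (9, 207), (10, 178), (11, 239), (12, 173), (13, 254), (14, 189), (15, 250), (16, 248), (17, 121), (18, 247), (19, 190), (20, 246), (21, 159), (22, 108), (23, 181), (24, 249), (26, 62), (27, 243), (28, 201), (29, 108), (30, 232), (31, 215), (32, 223), (33, 111), (34, 245), (35, 182), (36, 173), (37, 203), (38, 156), (39, 207), (40, 183), (41, 61), (43, 173), (44, 122), (45, 101), (46, 228), (47, 184), (48, 185), (49, 180), (50, 94), (51, 143), (52, 122), (53, 191), (54, 83), (55, 220), (56, 206), (57, 199), (58, 170), (60, 127), (61, 103), (62, 253), (63, 186), (64, 246), (65, 121), (66, 237), (67, 235), (68, 191), (69, 53), (70, 169), (71, 252), (72, 63), (73, 124), (74, 217), (75, 234), (77, 243), (78, 254), (79, 238), (80, 243), (81, 103), (82, 221),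 (83, 219), (84, 253), (85, 230), (86, 244), (87, 102), (88, 93), (89, 236), (90, 209), (91, 224), (92, 215), (94, 127), (95, 221), (96, 62), (97, 251), (98, 247), (99, 223), (100, 181), (101, 251), (102, 251), (103, 55), (104, 143), (105, 127), (106, 245), (107, 223), (108, 120), (109, 95), (111, 219), (112, 250), (113, 155), (114, 208), (115, 211), (116, 57), (117, 249), (118, 216), (119, 124), (120, 91), (121, 246), (122, 58), (123, 59), (124, 107), (125, 236), (126, 236)]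

theorem loc8_73_2_9 : chkTypeG 8 73 2 36 2 tab_2_8 53 5 ys8_73_2_9 els8_73_2_9
    [] = true :=
  chkTypeG_of (by decide +kernel) (by decide +kernel) (by decide +kernel) (by decide +kernel)

/-- The local types modulo `73`. -/
def lcert8_73_2 : List (ℕ × ℕ) := [(14, 37), (14, 62), (17, 1), (21, 25), (31, 55), (36, 11), (38, 0), (43, 68), (47, 1), (53, 5)]

theorem lcert8_73_2_ok : ∀ e ∈ lcert8_73_2, ∃ ys els,
    chkTypeG 8 73 2 36 2 tab_2_8 e.1 e.2 ys els [] = true := by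
  intro e he
  simp only [lcert8_73_2, List.mem_cons, List.not_mem_nil, or_false] at he
  rcases he with rfl | rfl | rfl | rfl | rfl | rfl | rfl | rfl | rfl | rfl
  · exact ⟨_, _, loc8_73_2_0⟩
  · exact ⟨_, _, loc8_73_2_1⟩
  · exact ⟨_, _, loc8_73_2_2⟩
  · exact ⟨_, _, loc8_73_2_3⟩
  · exact ⟨_, _, loc8_73_2_4⟩
  · exact ⟨_, _, loc8_73_2_5⟩
  · exact ⟨_, _, loc8_73_2_6⟩
  · exact ⟨_, _, loc8_73_2_7⟩
  · exact ⟨_, _, loc8_73_2_8⟩
  · exact ⟨_, _, loc8_73_2_9⟩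

theorem lcert8_73_2_types : chkTypes 8 73 lcert8_73_2 = true := by
  decide +kernel

theorem local_8_73 (c : ℚ) (X : ℕ → ℚ) (hX : Cyc c 8 X) (hgood : ¬ 73 ∣ c.den)
    (hk : (c.den.primeFactors.filter fun t : ℕ => ((t : ZMod 73) ^ 36 ≠ 1)).card ≤ 2) : False := by
  have hp : Fact (Nat.Prime 73) := ⟨by norm_num⟩
  exact local_empty 8 73 2 36 2 (by norm_num) (by norm_num) (by decide) (by norm_num) _
    tab_2_8_eq lcert8_73_2 lcert8_73_2_ok lcert8_73_2_types c X hX hgood hk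

end Poonen
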