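import Pool.Agent.Poonen.Final
import Pool.Agent.Poonen.Five6
import Pool.Agent.Poonen.Loc8_73_2
import Pool.Agent.FPS4.Final6

/-!
# Poonen's conjecture for `y ↦ y ^ 2 + c` when `den c` has at most six prime factors
-/

namespace Poonen

open Finset

/-- At least seven bad primes are forced by an exact period `N ≥ 7`, `N ≠ 8`. -/
theorem forced_small7 : ∀ N < 111, 7 ≤ N → N ≠ 8 → 7 ≤ (forced N).length := by decide +kernel

theorem forced_large7 (N : ℕ) (hN : 7 ≤ N) (h8 : N ≠ 8) : 7 ≤ (forced N).length := by
  by_cases h : N < 111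
  · exact forced_small7 N h hN h8
  · have : forced N = [2, 3, 5, 7, 11, 13, 17, 19, 23] := by
      unfold forced
      rw [List.filter_eq_self]
      intro p hp
      simp only [List.mem_cons, List.not_mem_nil, or_false] at hp
      simp only [Bool.not_eq_true', List.contains_eq_mem, decide_eq_false_iff_not]
      rcases hp with rfl | rfl | rfl | rfl | rfl | rfl | rfl | rfl | rfl <;>
        simp only [perTab, List.mem_cons, List.not_mem_nil, or_false] <;> omega
    rw [this]
    decide

/-- No exact period `8` with at most six bad primes. -/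
theorem no_eight_six (c : ℚ) (X : ℕ → ℚ) (hX : Cyc c 8 X) (hS : c.den.primeFactors.card ≤ 6) :
    False := by
  classical
  have hB8 := pf_B8 (pf_B4 pf_B2 pf_B3) pf_B7
  have hbad := mem_bad pf_A2 pf_B1 pf_B5' pf_B6' hB8 c 8 X hX
  have hsub : ({2, 3, 7, 11, 19, 23} : Finset ℕ) ⊆ c.den.primeFactors := by
    intro t ht
    simp only [Finset.mem_insert, Finset.mem_singleton] at ht
    rcases ht with rfl | rfl | rfl | rfl | rfl | rfl
    · exact hbad 2 (by decide)
    · exact hbad 3 (by decide)
    · exact hbad 7 (by decide)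
    · exact hbad 11 (by decide)
    · exact hbad 19 (by decide)
    · exact hbad 23 (by decide)
  have hcard : ({2, 3, 7, 11, 19, 23} : Finset ℕ).card = 6 := by decide
  have heq : ({2, 3, 7, 11, 19, 23} : Finset ℕ) = c.den.primeFactors :=
    Finset.eq_of_subset_of_card_le hsub (by omega)
  have hgood : ¬ 73 ∣ c.den := by
    intro h
    have : 73 ∈ c.den.primeFactors := Nat.mem_primeFactors.mpr ⟨by norm_num, h, c.den_nz⟩
    rw [← heq] at this
    revert this
    decide
  refine local_8_73 c X hX hgood ?_
  have := filter_card_le c.den.primeFactors {2, 3, 19, 23} 73 36 2 (by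
    intro t ht
    simp only [Finset.mem_insert, Finset.mem_singleton] at ht
    rcases ht with rfl | rfl | rfl | rfl <;> decide) (by
    intro t ht
    simp only [Finset.mem_insert, Finset.mem_singleton] at ht
    rw [← heq]
    rcases ht with rfl | rfl | rfl | rfl <;> decide) (by
    have : ({2, 3, 19, 23} : Finset ℕ).card = 4 := by decide
    omega)
  exact this

theorem final_six : ∀ c : ℚ, c.den.primeFactors.card ≤ 6 → ∀ x : ℚ, ∀ n : ℕ, 0 < n →
    Function.IsPeriodicPt (fun y : ℚ => y ^ 2 + c) n x →
    Function.minimalPeriod (fun y : ℚ => y ^ 2 + c) x ≤ 3 := by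
  intro c hc x n hn hper
  by_contra hlt
  push Not at hlt
  obtain ⟨N, hN⟩ : ∃ N, N = Function.minimalPeriod (fun y : ℚ => y ^ 2 + c) x := ⟨_, rfl⟩
  rw [← hN] at hlt
  have hX := pf_A1 c x N (by omega) hN.symm
  have hB8 := pf_B8 (pf_B4 pf_B2 pf_B3) pf_B7
  have hcard := forced_card pf_A2 pf_B1 pf_B5' pf_B6' hB8 c N _ hX
  rcases Nat.lt_or_ge N 7 with h7 | h7
  · have hcases : N = 4 ∨ N = 5 ∨ N = 6 := by omega
    rcases hcases with rfl | rfl | rfl
    · exact pf_F1 c x hN.symm
    · exact no_five_six c _ hX hc
    · have h6 := Pool.Agent.FPS.cyc_of_minimalPeriod (c := c) (a := x) (by rw [← hN]; norm_num)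
      rw [← hN] at h6
      have := Pool.Agent.FPS.seven_primes h6
      omega
  · by_cases h8 : N = 8
    · subst h8
      exact no_eight_six c _ hX hc
    · have := forced_large7 N h7 h8
      omega

end Poonen
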