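import Pool.Agent.Poonen.CoverB

/-!
# Fast covering check with exceptional sets (MP_7564fc_nt)
-/

namespace Poonen

/-- Bit test by kernel-accelerated operations. -/
def hasB (m e : ℕ) : Bool := Nat.beq (Nat.land (Nat.shiftRight m e) 1) 1

/-- Does `P` contain one of the sets? -/
def anySub (P : ℕ) : List ℕ → Bool
  | [] => false
  | b :: bs => bif Nat.beq (Nat.land b P) b then true else anySub P bs

/-- Loop over the elements `(e, col)`; `j` is the index of the current mask. -/
def stepG (rec : ℕ → ℕ → ℕ → Bool) (j A P : ℕ) : ℕ → List (ℕ × ℕ) → Bool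
  | _, [] => true
  | X, (e, c) :: es =>
    bif hasB c j then stepG rec j A P X es
    else bif hasB X e then stepG rec j A P X es
    else bif rec (Nat.land A c) (Nat.lor P (Nat.shiftLeft 1 e)) X then
      stepG rec j A P (Nat.lor X (Nat.shiftLeft 1 e)) es
    else false

/-- One step of the binary search for the top bit. -/
def tbS (A s acc : ℕ) : ℕ :=
  bif Nat.beq (Nat.shiftRight A (Nat.add acc s)) 0 then acc else Nat.add acc s

/-- The top bit (at most 1023) by binary search. -/
def topB (A : ℕ) : ℕ :=
  tbS A 1 (tbS A 2 (tbS A 4 (tbS A 8 (tbS A 16 (tbS A 32 (tbS A 64 (tbS A 128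
    (tbS A 256 (tbS A 512 0)))))))))

/-- Covering check; `A` is the set of (indices of) masks containing `P`. -/
def covG (bads : List ℕ) (els : List (ℕ × ℕ)) : ℕ → ℕ → ℕ → ℕ → Bool
  | 0, A, P, _ => bif Nat.beq A 0 then anySub P bads else true
  | k + 1, A, P, X =>
    bif Nat.beq A 0 then anySub P bads
    else bif hasB A (topB A) then stepG (covG bads els k) (topB A) A P X els
    else false

/-- Dot product with accumulator. -/
def dotR (acc : ℕ) : List ℕ → List ℕ → ℕ
  | a :: u, b :: v => dotR (Nat.add acc (Nat.mul a b)) u v
  | _, _ => acc

/-- The column of a word: bit `j` says that the `j`-th dual vector is orthogonal to it. -/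
def colOf (q : ℕ) (es : List ℕ) : List (List ℕ) → ℕ
  | [] => 0
  | y :: ys =>
    bif Nat.beq (Nat.mod (dotR 0 es y) q) 0 then Nat.add (Nat.mul 2 (colOf q es ys)) 1
    else Nat.mul 2 (colOf q es ys)

/-- The literal list of columns agrees with the table of words. -/
def matchTab (q : ℕ) (ys : List (List ℕ)) : List (ℕ × List ℕ) → List (ℕ × ℕ) → Bool
  | [], [] => true
  | (i, es) :: t, (e, c) :: l =>
    bif Nat.beq i e then bif Nat.beq (colOf q es ys) c then matchTab q ys t l else false
    else false
  | _, _ => false

/-- The check of one local type `(C, x)` modulo `p`, with exceptional sets `bads`. -/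
def chkTypeG (N p q m k : ℕ) (tab : List (ℕ × List ℕ)) (C x : ℕ) (ys : List (List ℕ))
    (els : List (ℕ × ℕ)) (bads : List ℕ) : Bool :=
  (ys.all fun y => prodPow p m (orbL p C N x) (pairs N) y != 1) &&
    ((ys.all fun y => y.length == (pairs N).length) &&
    (matchTab q ys tab els && covG bads els k (Nat.sub (Nat.shiftLeft 1 ys.length) 1) 0 0))

theorem chkTypeG_of {N p q m k : ℕ} {tab : List (ℕ × List ℕ)} {C x : ℕ} {ys : List (List ℕ)}
    {els : List (ℕ × ℕ)} {bads : List ℕ}
    (h1 : (ys.all fun y => prodPow p m (orbL p C N x) (pairs N) y != 1) = true)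
    (h2 : (ys.all fun y => y.length == (pairs N).length) = true)
    (h3 : matchTab q ys tab els = true)
    (h4 : covG bads els k (Nat.sub (Nat.shiftLeft 1 ys.length) 1) 0 0 = true) :
    chkTypeG N p q m k tab C x ys els bads = true := by
  unfold chkTypeG
  rw [h1, h2, h3, h4]
  rfl

/-! ### Soundness -/

theorem hasB_eq (m e : ℕ) : hasB m e = m.testBit e := by
  unfold hasB
  rw [Nat.testBit, Bool.eq_iff_iff]
  simp only [Nat.beq_eq, bne_iff_ne, ne_eq]
  have h1 : Nat.land (Nat.shiftRight m e) 1 = 1 &&& (m >>> e) := by
    rw [Nat.and_comm]; rfl
  rw [h1]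
  have h2 : (1 &&& (m >>> e)) = (m >>> e) % 2 := by
    rw [Nat.and_comm, Nat.and_one_is_mod]
  rw [h2]
  omega

theorem anySub_sound (P : ℕ) : ∀ bs : List ℕ, anySub P bs = true →
    ∃ b ∈ bs, ∀ i, b.testBit i = true → P.testBit i = true := by
  intro bs
  induction bs with
  | nil => intro h; simp [anySub] at h
  | cons b bs ih =>
    intro h
    rw [anySub] at h
    cases hb : Nat.beq (Nat.land b P) b with
    | true =>
      rw [Nat.beq_eq] at hb
      exact ⟨b, List.mem_cons_self, fun i hi => sub_of_and_eq hb i hi⟩
    | false =>
      rw [hb, cond_false] at h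
      obtain ⟨b', hb', h'⟩ := ih h
      exact ⟨b', List.mem_cons_of_mem _ hb', h'⟩

/-- The conclusion of the fast covering check. -/
def ConcG (bads : List ℕ) (colf : ℕ → ℕ) (A P : ℕ) (L : List ℕ) : Prop :=
  (∃ j, A.testBit j = true ∧ ∀ e ∈ L, (colf e).testBit j = true) ∨
  (∃ b ∈ bads, ∀ i, b.testBit i = true → P.testBit i = true ∨ i ∈ L)

theorem stepG_sound (bads : List ℕ) (colf : ℕ → ℕ) (ids : List ℕ) (k : ℕ)
    (rec : ℕ → ℕ → ℕ → Bool)
    (hrec : ∀ A P X, rec A P X = true → ∀ L : List ℕ, L.length ≤ k →
      (∀ e ∈ L, e ∈ ids ∧ X.testBit e = false) → ConcG bads colf A P L)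
    (j A P : ℕ) (L : List ℕ) (hL : L.length ≤ k + 1) (hids : ∀ e ∈ L, e ∈ ids) :
    ∀ (es : List (ℕ × ℕ)) (X : ℕ), stepG rec j A P X es = true →
      (∀ x ∈ es, x.2 = colf x.1) →
      (∀ e ∈ L, X.testBit e = false) →
      (∃ e ∈ L, e ∈ es.map Prod.fst ∧ (colf e).testBit j = false) →
      ConcG bads colf A P L := by
  intro es
  induction es with
  | nil =>
    rintro X - - - ⟨e, -, he, -⟩
    simp at he
  | cons ec es ih =>
    obtain ⟨e, c⟩ := ec
    intro X hstep hcol hX hex
    have hc : c = colf e := hcol (e, c) List.mem_cons_self
    have hcol' : ∀ x ∈ es, x.2 = colf x.1 := fun x hx => hcol x (List.mem_cons_of_mem _ hx)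
    rw [stepG, hasB_eq, hasB_eq] at hstep
    cases h1 : c.testBit j with
    | true =>
      rw [h1, cond_true] at hstep
      refine ih X hstep hcol' hX ?_
      obtain ⟨e', he'L, he', hm⟩ := hex
      rw [List.map_cons, List.mem_cons] at he'
      rcases he' with rfl | h
      · rw [← hc, h1] at hm
        exact absurd hm (by decide)
      · exact ⟨e', he'L, h, hm⟩
    | false =>
      rw [h1, cond_false] at hstep
      cases h2 : X.testBit e with
      | true =>
        rw [h2, cond_true] at hstep
        refine ih X hstep hcol' hX ?_
        obtain ⟨e', he'L, he', hm⟩ := hex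
        rw [List.map_cons, List.mem_cons] at he'
        rcases he' with rfl | h
        · rw [hX _ he'L] at h2
          exact absurd h2 (by decide)
        · exact ⟨e', he'L, h, hm⟩
      | false =>
        rw [h2, cond_false] at hstep
        cases h3 : rec (Nat.land A c) (Nat.lor P (Nat.shiftLeft 1 e)) X with
        | false =>
          rw [h3, cond_false] at hstep
          exact absurd hstep (by decide)
        | true =>
          rw [h3, cond_true] at hstep
          by_cases heL : e ∈ L
          · have hlen : (L.erase e).length ≤ k := by
              rw [List.length_erase_of_mem heL]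
              omega
            have := hrec _ _ _ h3 (L.erase e) hlen (fun e' he' =>
              ⟨hids e' (List.mem_of_mem_erase he'), hX e' (List.mem_of_mem_erase he')⟩)
            rcases this with ⟨j', hj', hLm⟩ | ⟨b, hb, hbP⟩
            · left
              have hj2 : (A &&& c).testBit j' = true := hj'
              rw [Nat.testBit_and, Bool.and_eq_true] at hj2
              refine ⟨j', hj2.1, ?_⟩
              intro e' he'
              by_cases hee : e' = e
              · rw [hee, ← hc]
                exact hj2.2
              · exact hLm e' ((List.mem_erase_of_ne hee).mpr he')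
            · right
              refine ⟨b, hb, ?_⟩
              intro i hi
              rcases hbP i hi with h | h
              · have h' : (P ||| (1 <<< e)).testBit i = true := h
                rw [testBit_or_shift, Bool.or_eq_true, decide_eq_true_eq] at h'
                rcases h' with h' | h'
                · exact Or.inl h'
                · right
                  rw [h']
                  exact heL
              · exact Or.inr (List.mem_of_mem_erase h)
          · refine ih _ hstep hcol' ?_ ?_
            · intro e' he'
              change (X ||| (1 <<< e)).testBit e' = false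
              rw [testBit_or_shift, hX e' he', Bool.false_or, decide_eq_false_iff_not]
              rintro rfl
              exact heL he'
            · obtain ⟨e', he'L, he', hm⟩ := hex
              rw [List.map_cons, List.mem_cons] at he'
              rcases he' with rfl | h
              · exact absurd he'L heL
              · exact ⟨e', he'L, h, hm⟩

theorem covG_sound (bads : List ℕ) (els : List (ℕ × ℕ)) (colf : ℕ → ℕ)
    (hcol : ∀ x ∈ els, x.2 = colf x.1) : ∀ (k A P X : ℕ),
    covG bads els k A P X = true → ∀ L : List ℕ, L.length ≤ k →
      (∀ e ∈ L, e ∈ els.map Prod.fst ∧ X.testBit e = false) → ConcG bads colf A P L := by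
  intro k
  induction k with
  | zero =>
    intro A P X h L hL _
    have hL0 : L = [] := List.length_eq_zero_iff.mp (Nat.le_zero.mp hL)
    subst hL0
    rw [covG] at h
    cases hA : Nat.beq A 0 with
    | true =>
      rw [hA, cond_true] at h
      obtain ⟨b, hb, hbP⟩ := anySub_sound P bads h
      exact Or.inr ⟨b, hb, fun i hi => Or.inl (hbP i hi)⟩
    | false =>
      have hA' : A ≠ 0 := by
        rintro rfl
        simp at hA
      exact Or.inl ⟨Nat.log2 A, Nat.testBit_log2 hA', by simp⟩
  | succ k ih =>
    intro A P X h L hL hels
    rw [covG] at h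
    cases hA : Nat.beq A 0 with
    | true =>
      rw [hA, cond_true] at h
      obtain ⟨b, hb, hbP⟩ := anySub_sound P bads h
      exact Or.inr ⟨b, hb, fun i hi => Or.inl (hbP i hi)⟩
    | false =>
      have hA' : A ≠ 0 := by
        rintro rfl
        simp at hA
      rw [hA, cond_false] at h
      cases hB : hasB A (topB A) with
      | false => rw [hB, cond_false] at h; exact absurd h (by decide)
      | true =>
      rw [hB, cond_true] at h
      rw [hasB_eq] at hB
      by_cases hall : ∀ e ∈ L, (colf e).testBit (topB A) = true
      · exact Or.inl ⟨topB A, hB, hall⟩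
      · push Not at hall
        obtain ⟨e, heL, hem⟩ := hall
        exact stepG_sound bads colf (els.map Prod.fst) k _ (fun A P X => ih A P X) _ A P L hL
          (fun e he => (hels e he).1) els X h hcol (fun e he => (hels e he).2)
          ⟨e, heL, (hels e heL).1, by simpa using hem⟩

theorem dotR_eq : ∀ (u v : List ℕ) (acc : ℕ), dotR acc u v = acc + dotL u v := by
  intro u
  induction u with
  | nil => intro v acc; simp [dotR, dotL]
  | cons a u ih =>
    intro v acc
    cases v with
    | nil => simp [dotR, dotL]
    | cons b v =>
      rw [dotR, ih]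
      change acc + a * b + _ = _
      simp [dotL]
      ring

theorem colOf_sound (q : ℕ) (es : List ℕ) : ∀ (ys : List (List ℕ)) (j : ℕ),
    (colOf q es ys).testBit j = true → ∃ y, ys[j]? = some y ∧ dotL es y % q = 0 := by
  intro ys
  induction ys with
  | nil => intro j h; simp [colOf] at h
  | cons y ys ih =>
    intro j h
    rw [colOf] at h
    cases hd : Nat.beq (Nat.mod (dotR 0 es y) q) 0 with
    | true =>
      rw [hd, cond_true] at h
      change (2 * colOf q es ys + 1).testBit j = true at h
      cases j with
      | zero =>
        refine ⟨y, rfl, ?_⟩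
        rw [Nat.beq_eq] at hd
        have : dotR 0 es y % q = 0 := hd
        rwa [dotR_eq, zero_add] at this
      | succ j =>
        rw [Nat.testBit_succ] at h
        have h2 : (2 * colOf q es ys + 1) / 2 = colOf q es ys := by omega
        rw [h2] at h
        exact ih j h
    | false =>
      rw [hd, cond_false] at h
      change (2 * colOf q es ys).testBit j = true at h
      cases j with
      | zero => simp at h
      | succ j =>
        rw [Nat.testBit_succ] at h
        have h2 : (2 * colOf q es ys) / 2 = colOf q es ys := by omega
        rw [h2] at h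
        exact ih j h

theorem matchTab_sound (q : ℕ) (ys : List (List ℕ)) : ∀ (tab : List (ℕ × List ℕ))
    (els : List (ℕ × ℕ)), matchTab q ys tab els = true →
    els = tab.map (fun e => (e.1, colOf q e.2 ys)) := by
  intro tab
  induction tab with
  | nil =>
    intro els h
    cases els with
    | nil => rfl
    | cons a l => simp [matchTab] at h
  | cons t tab ih =>
    obtain ⟨i, es⟩ := t
    intro els h
    cases els with
    | nil => simp [matchTab] at h
    | cons a l =>
      obtain ⟨e, c⟩ := a
      rw [matchTab] at h
      cases h1 : Nat.beq i e with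
      | false => rw [h1, cond_false] at h; exact absurd h (by decide)
      | true =>
        rw [h1, cond_true] at h
        cases h2 : Nat.beq (colOf q es ys) c with
        | false => rw [h2, cond_false] at h; exact absurd h (by decide)
        | true =>
          rw [h2, cond_true] at h
          rw [Nat.beq_eq] at h1 h2
          rw [ih l h, List.map_cons, h1, h2]

end Poonen
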