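import Pool.Agent.Poonen.Tabs
import Pool.Agent.Poonen.LocalSets

/-!
# Local checks for `N = 5`, `p = 13`, `q = 2` (MP_7564fc_nt)
-/

namespace Poonen

def ys5_13_2_0 : List (List ℕ) := [[1, 0, 1, 1, 0, 1, 0, 0, 0, 0],
   [1, 0, 0, 0, 0, 0, 1, 1, 0, 0],
   [1, 1, 1, 1, 1, 0, 1, 1, 0, 0],
   [1, 1, 1, 0, 0, 0, 0, 0, 0, 0],
   [1, 1, 1, 0, 1, 1, 1, 1, 0, 0],
   [0, 0, 1, 0, 0, 0, 0, 1, 0, 0],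
   [0, 1, 0, 1, 1, 1, 0, 0, 0, 0],
   [0, 1, 0, 0, 0, 0, 1, 0, 0, 0],
   [0, 0, 0, 1, 0, 0, 1, 1, 0, 0],
   [1, 0, 0, 1, 1, 0, 0, 1, 0, 0],
   [1, 0, 0, 0, 0, 1, 1, 1, 0, 0],
   [0, 1, 0, 0, 1, 0, 0, 1, 0, 0],
   [0, 1, 0, 0, 1, 0, 0, 0, 0, 0],
   [0, 1, 1, 1, 1, 0, 1, 1, 0, 0],
   [0, 1, 0, 1, 0, 1, 1, 0, 0, 0],
   [1, 0, 1, 0, 1, 1, 1, 0, 0, 0],
   [0, 0, 1, 0, 1, 1, 1, 1, 0, 0],
   [1, 0, 1, 1, 0, 1, 0, 1, 0, 0],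
   [1, 1, 1, 0, 0, 1, 0, 1, 0, 0],
   [1, 1, 0, 1, 0, 0, 1, 0, 0, 0],
   [0, 0, 0, 0, 1, 1, 0, 1, 0, 0],
   [0, 1, 1, 1, 0, 0, 0, 0, 0, 0],
   [1, 1, 1, 1, 0, 0, 0, 1, 0, 0],
   [1, 0, 1, 1, 1, 0, 1, 0, 0, 0],
   [1, 1, 0, 1, 1, 0, 0, 0, 0, 0],
   [0, 1, 1, 0, 1, 0, 1, 0, 0, 0],
   [0, 0, 0, 1, 0, 1, 1, 1, 0, 0],
   [1, 0, 1, 1, 1, 1, 1, 1, 0, 0]]

def els5_13_2_0 : List (ℕ × ℕ) := [(0, 183364523), (1, 255779443), (2, 178828629), (3, 268061286), (4, 117059578), (5, 229588411), (6, 199143228), (7, 190798295), (8, 259767437), (9, 267760745), (10, 98367447), (11, 116773365), (12, 263544590), (13, 233821916), (14, 89606826)]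

theorem loc5_13_2_0 : chkTypeG 5 13 2 6 5 tab_2_5 3 0 ys5_13_2_0 els5_13_2_0
    [16388, 688, 2216, 2400, 5126, 5377, 12432, 16643, 1547, 1732, 1804, 3091, 3348, 4210, 8786, 10314, 10373, 10626, 17520, 21001, 22545, 24617] = true :=
  chkTypeG_of (by decide +kernel) (by decide +kernel) (by decide +kernel) (by decide +kernel)

end Poonen
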