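import Pool.Agent.Poonen.Stmts

/-!
# The possible periods at the good primes `5 ≤ p ≤ 23` (MP_7564fc_nt)
-/

namespace Poonen

/-- Table of the possible exact periods of a cycle with good reduction at `p`. -/
def perTab : ℕ → List ℕ
  | 2 => [1, 2]
  | 3 => [1, 2, 3]
  | 5 => [1, 2, 3, 4, 8]
  | 7 => [1, 2, 3, 4, 6]
  | 11 => [1, 2, 3, 4, 5, 6, 10, 15, 20]
  | 13 => [1, 2, 3, 4, 5, 6, 8, 12, 24, 36]
  | 17 => [1, 2, 3, 4, 5, 6, 8, 16, 24, 32, 48, 64, 80, 96]
  | 19 => [1, 2, 3, 4, 5, 6, 7, 9, 12, 18, 36, 54, 72, 108]
  | 23 => [1, 2, 3, 4, 5, 6, 10, 11, 22, 33, 44, 55, 66, 110]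
  | _ => []

/-- All possible periods modulo `p` are in the table. -/
def chkPer (p : ℕ) : Bool :=
  (List.range p).all fun C => (List.range p).all fun x =>
    (periods p C x).all fun n => (perTab p).contains n

theorem chkPer_5 : chkPer 5 = true := by decide +kernel
theorem chkPer_7 : chkPer 7 = true := by decide +kernel
theorem chkPer_11 : chkPer 11 = true := by decide +kernel
theorem chkPer_13 : chkPer 13 = true := by decide +kernel
theorem chkPer_17 : chkPer 17 = true := by decide +kernel
theorem chkPer_19 : chkPer 19 = true := by decide +kernel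
theorem chkPer_23 : chkPer 23 = true := by decide +kernel

theorem mem_perTab (p N C x : ℕ) (h : chkPer p = true) (hC : C < p) (hx : x < p)
    (hN : N ∈ periods p C x) : N ∈ perTab p := by
  simp only [chkPer, List.all_eq_true, List.mem_range, List.contains_iff_mem] at h
  exact h C hC x hx N hN

/-- The bad primes forced by the period `N`, among the primes up to `23`. -/
def forced (N : ℕ) : List ℕ :=
  [2, 3, 5, 7, 11, 13, 17, 19, 23].filter fun p => !(perTab p).contains N

theorem forced_small : ∀ N < 111, 7 ≤ N → 6 ≤ (forced N).length := by decide +kernel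

theorem forced_large (N : ℕ) (hN : 7 ≤ N) : 6 ≤ (forced N).length := by
  by_cases h : N < 111
  · exact forced_small N h hN
  · have : forced N = [2, 3, 5, 7, 11, 13, 17, 19, 23] := by
      unfold forced
      rw [List.filter_eq_self]
      intro p hp
      simp only [List.mem_cons, List.not_mem_nil, or_false] at hp
      simp only [Bool.not_eq_true', List.contains_eq_mem, decide_eq_false_iff_not]
      rcases hp with rfl | rfl | rfl | rfl | rfl | rfl | rfl | rfl | rfl <;>
        simp only [perTab, List.mem_cons, List.not_mem_nil, or_false] <;> omega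
    rw [this]
    decide

end Poonen
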