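import Pool.Agent.Poonen.Assembly
import Pool.Agent.Poonen.Small
import Pool.Agent.Poonen.Chk5_13
import Pool.Agent.Poonen.Chk5_19
import Pool.Agent.Poonen.Chk6_41
import Pool.Agent.Poonen.Chk6_67
import Pool.Agent.Poonen.Chk6_71

/-!
# Main theorem (MP_7564fc_nt), conditional on the package statements
-/

namespace Poonen

open Finset

/-- The set of primes forced to divide the denominator by an exact period `N`. -/
theorem forced_dvd (hA2 : S_A2) (hB1 : S_B1) (hB5 : S_B5) (hB6 : S_B6) (hB8 : S_B8)
    (c : ℚ) (N : ℕ) (X : ℕ → ℚ) (hX : Cyc c N X) (p : ℕ) (hp : p ∈ forced N) : p ∣ c.den := by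
  by_contra hgood
  simp only [forced, List.mem_filter, List.mem_cons, List.not_mem_nil, or_false,
    Bool.not_eq_true', List.contains_eq_mem, decide_eq_false_iff_not] at hp
  obtain ⟨hmem, hN⟩ := hp
  rcases hmem with rfl | rfl | rfl | rfl | rfl | rfl | rfl | rfl | rfl
  · obtain ⟨C, a, ha, -, -⟩ := hB1 c N X hX 2 hgood
    have h1 := hB5 C N a ha
    have h2 := hX.pos
    apply hN
    interval_cases N <;> simp [perTab]
  · obtain ⟨C, a, ha, -, -⟩ := hB1 c N X hX 3 hgood
    have h1 := hB6 C N a ha
    have h2 := hX.pos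
    apply hN
    interval_cases N <;> simp [perTab]
  · haveI : Fact (Nat.Prime 5) := ⟨by norm_num⟩
    obtain ⟨C, a, ha, -, -⟩ := hB1 c N X hX 5 hgood
    exact hN (mem_perTab _ _ _ _ chkPer_5 (ZMod.val_lt _) (ZMod.val_lt _)
      (hB8 5 C N a ha (by norm_num)))
  · haveI : Fact (Nat.Prime 7) := ⟨by norm_num⟩
    obtain ⟨C, a, ha, -, -⟩ := hB1 c N X hX 7 hgood
    exact hN (mem_perTab _ _ _ _ chkPer_7 (ZMod.val_lt _) (ZMod.val_lt _)
      (hB8 7 C N a ha (by norm_num)))
  · haveI : Fact (Nat.Prime 11) := ⟨by norm_num⟩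
    obtain ⟨C, a, ha, -, -⟩ := hB1 c N X hX 11 hgood
    exact hN (mem_perTab _ _ _ _ chkPer_11 (ZMod.val_lt _) (ZMod.val_lt _)
      (hB8 11 C N a ha (by norm_num)))
  · haveI : Fact (Nat.Prime 13) := ⟨by norm_num⟩
    obtain ⟨C, a, ha, -, -⟩ := hB1 c N X hX 13 hgood
    exact hN (mem_perTab _ _ _ _ chkPer_13 (ZMod.val_lt _) (ZMod.val_lt _)
      (hB8 13 C N a ha (by norm_num)))
  · haveI : Fact (Nat.Prime 17) := ⟨by norm_num⟩
    obtain ⟨C, a, ha, -, -⟩ := hB1 c N X hX 17 hgood
    exact hN (mem_perTab _ _ _ _ chkPer_17 (ZMod.val_lt _) (ZMod.val_lt _)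
      (hB8 17 C N a ha (by norm_num)))
  · haveI : Fact (Nat.Prime 19) := ⟨by norm_num⟩
    obtain ⟨C, a, ha, -, -⟩ := hB1 c N X hX 19 hgood
    exact hN (mem_perTab _ _ _ _ chkPer_19 (ZMod.val_lt _) (ZMod.val_lt _)
      (hB8 19 C N a ha (by norm_num)))
  · haveI : Fact (Nat.Prime 23) := ⟨by norm_num⟩
    obtain ⟨C, a, ha, -, -⟩ := hB1 c N X hX 23 hgood
    exact hN (mem_perTab _ _ _ _ chkPer_23 (ZMod.val_lt _) (ZMod.val_lt _)
      (hB8 23 C N a ha (by norm_num)))

theorem forced_prime (N p : ℕ) (hp : p ∈ forced N) : p.Prime := by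
  simp only [forced, List.mem_filter, List.mem_cons, List.not_mem_nil, or_false] at hp
  rcases hp.1 with rfl | rfl | rfl | rfl | rfl | rfl | rfl | rfl | rfl <;> norm_num

theorem forced_nodup (N : ℕ) : (forced N).Nodup := by
  apply List.Nodup.filter
  decide

theorem mem_bad (hA2 : S_A2) (hB1 : S_B1) (hB5 : S_B5) (hB6 : S_B6) (hB8 : S_B8)
    (c : ℚ) (N : ℕ) (X : ℕ → ℚ) (hX : Cyc c N X) (p : ℕ) (hp : p ∈ forced N) :
    p ∈ c.den.primeFactors :=
  Nat.mem_primeFactors.mpr ⟨forced_prime N p hp,
    forced_dvd hA2 hB1 hB5 hB6 hB8 c N X hX p hp, c.den_nz⟩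

/-- The number of bad primes is at least the number of forced ones. -/
theorem forced_card (hA2 : S_A2) (hB1 : S_B1) (hB5 : S_B5) (hB6 : S_B6) (hB8 : S_B8)
    (c : ℚ) (N : ℕ) (X : ℕ → ℚ) (hX : Cyc c N X) :
    (forced N).length ≤ c.den.primeFactors.card := by
  classical
  rw [← List.toFinset_card_of_nodup (forced_nodup N)]
  apply Finset.card_le_card
  intro p hp
  rw [List.mem_toFinset] at hp
  exact mem_bad hA2 hB1 hB5 hB6 hB8 c N X hX p hp

theorem filter_card_le (S E : Finset ℕ) (p m k : ℕ) (hE : ∀ t ∈ E, (t : ZMod p) ^ m = 1)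
    (hES : E ⊆ S) (hk : S.card ≤ k + E.card) :
    (S.filter fun t : ℕ => ((t : ZMod p) ^ m ≠ 1)).card ≤ k := by
  classical
  have h1 : (S.filter fun t : ℕ => ((t : ZMod p) ^ m ≠ 1)) ⊆ S \ E := by
    intro t ht
    rw [Finset.mem_filter] at ht
    rw [Finset.mem_sdiff]
    exact ⟨ht.1, fun h => ht.2 (hE t h)⟩
  have h2 := Finset.card_le_card h1
  rw [Finset.card_sdiff_of_subset hES] at h2
  omega

theorem main (hA1 : S_A1) (hA2 : S_A2) (hB1 : S_B1) (hB5 : S_B5) (hB6 : S_B6) (hB8 : S_B8)
    (hC2 : S_C2) (hD1 : S_D1) (hE1 : S_E1) (hE2 : S_E2)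
    (hE3 : S_E3) (hE4 : S_E4) (hE5 : S_E5) (hE6 : S_E6) (hF1 : S_F1) :
    ∀ c : ℚ, c.den.primeFactors.card ≤ 5 → ∀ x : ℚ, ∀ n : ℕ, 0 < n →
      Function.IsPeriodicPt (fun y : ℚ => y ^ 2 + c) n x →
      Function.minimalPeriod (fun y : ℚ => y ^ 2 + c) x ≤ 3 := by
  classical
  intro c hc x n hn hper
  by_contra hlt
  push Not at hlt
  obtain ⟨N, hN⟩ : ∃ N, N = Function.minimalPeriod (fun y : ℚ => y ^ 2 + c) x := ⟨_, rfl⟩
  rw [← hN] at hlt
  have hX := hA1 c x N (by omega) hN.symm
  have hcard := forced_card hA2 hB1 hB5 hB6 hB8 c N _ hX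
  have hbad := mem_bad hA2 hB1 hB5 hB6 hB8 c N _ hX
  rcases Nat.lt_or_ge N 7 with h7 | h7
  · have hcases : N = 4 ∨ N = 5 ∨ N = 6 := by omega
    rcases hcases with rfl | rfl | rfl
    · exact hF1 c x hN.symm
    · -- period 5
      have h2 : 2 ∈ c.den.primeFactors := hbad 2 (by decide)
      have h3 : 3 ∈ c.den.primeFactors := hbad 3 (by decide)
      have h5 : 5 ∈ c.den.primeFactors := hbad 5 (by decide)
      have h7 : 7 ∈ c.den.primeFactors := hbad 7 (by decide)
      by_cases hg : 13 ∣ c.den
      · by_cases hg' : 19 ∣ c.den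
        · have h13 : 13 ∈ c.den.primeFactors :=
            Nat.mem_primeFactors.mpr ⟨by norm_num, hg, c.den_nz⟩
          have h19 : 19 ∈ c.den.primeFactors :=
            Nat.mem_primeFactors.mpr ⟨by norm_num, hg', c.den_nz⟩
          have hsub : ({2, 3, 5, 7, 13, 19} : Finset ℕ) ⊆ c.den.primeFactors := by
            intro t ht
            simp only [Finset.mem_insert, Finset.mem_singleton] at ht
            rcases ht with rfl | rfl | rfl | rfl | rfl | rfl <;> assumption
          have := Finset.card_le_card hsub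
          have h6 : ({2, 3, 5, 7, 13, 19} : Finset ℕ).card = 6 := by decide
          omega
        · haveI : Fact (Nat.Prime 19) := ⟨by norm_num⟩
          refine type_contra hB1 hC2 hD1 hE1 hE2 hE3 hE4 hE5 hE6 5 19 3 6 4 (by norm_num)
            (by norm_num) (by decide) (by norm_num) cert5_19 chk5_19_a chk5_19_b chk5_19_c
            chk5_19_d c _ hX hg' ?_
          refine filter_card_le _ {7} 19 6 4 ?_ ?_ ?_
          · intro t ht
            rw [Finset.mem_singleton] at ht
            subst ht
            decide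
          · rw [Finset.singleton_subset_iff]; exact h7
          · rw [Finset.card_singleton]; exact hc
      · haveI : Fact (Nat.Prime 13) := ⟨by norm_num⟩
        refine type_contra hB1 hC2 hD1 hE1 hE2 hE3 hE4 hE5 hE6 5 13 3 4 4 (by norm_num)
          (by norm_num) (by decide) (by norm_num) cert5_13 chk5_13_a chk5_13_b chk5_13_c
          chk5_13_d c _ hX hg ?_
        refine filter_card_le _ {5} 13 4 4 ?_ ?_ ?_
        · intro t ht
          rw [Finset.mem_singleton] at ht
          subst ht
          decide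
        · rw [Finset.singleton_subset_iff]; exact h5
        · rw [Finset.card_singleton]; exact hc
    · -- period 6
      have h2 : 2 ∈ c.den.primeFactors := hbad 2 (by decide)
      have h3 : 3 ∈ c.den.primeFactors := hbad 3 (by decide)
      have h5 : 5 ∈ c.den.primeFactors := hbad 5 (by decide)
      by_cases hg : 41 ∣ c.den
      · by_cases hg' : 67 ∣ c.den
        · by_cases hg'' : 71 ∣ c.den
          · have h41 : 41 ∈ c.den.primeFactors :=
              Nat.mem_primeFactors.mpr ⟨by norm_num, hg, c.den_nz⟩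
            have h67 : 67 ∈ c.den.primeFactors :=
              Nat.mem_primeFactors.mpr ⟨by norm_num, hg', c.den_nz⟩
            have h71 : 71 ∈ c.den.primeFactors :=
              Nat.mem_primeFactors.mpr ⟨by norm_num, hg'', c.den_nz⟩
            have hsub : ({2, 3, 5, 41, 67, 71} : Finset ℕ) ⊆ c.den.primeFactors := by
              intro t ht
              simp only [Finset.mem_insert, Finset.mem_singleton] at ht
              rcases ht with rfl | rfl | rfl | rfl | rfl | rfl <;> assumption
            have := Finset.card_le_card hsub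
            have h6 : ({2, 3, 5, 41, 67, 71} : Finset ℕ).card = 6 := by decide
            omega
          · haveI : Fact (Nat.Prime 71) := ⟨by norm_num⟩
            refine type_contra hB1 hC2 hD1 hE1 hE2 hE3 hE4 hE5 hE6 6 71 7 10 4 (by norm_num)
              (by norm_num) (by decide) (by norm_num) cert6_71 chk6_71_a chk6_71_b chk6_71_c
              chk6_71_d c _ hX hg'' ?_
            refine filter_card_le _ {5} 71 10 4 ?_ ?_ ?_
            · intro t ht
              rw [Finset.mem_singleton] at ht
              subst ht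
              decide
            · rw [Finset.singleton_subset_iff]; exact h5
            · rw [Finset.card_singleton]; exact hc
        · haveI : Fact (Nat.Prime 67) := ⟨by norm_num⟩
          refine type_contra hB1 hC2 hD1 hE1 hE2 hE3 hE4 hE5 hE6 6 67 3 22 3 (by norm_num)
            (by norm_num) (by decide) (by norm_num) cert6_67 chk6_67_a chk6_67_b chk6_67_c
            chk6_67_d c _ hX hg' ?_
          refine filter_card_le _ {3, 5} 67 22 3 ?_ ?_ ?_
          · intro t ht
            simp only [Finset.mem_insert, Finset.mem_singleton] at ht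
            rcases ht with rfl | rfl <;> decide
          · intro t ht
            simp only [Finset.mem_insert, Finset.mem_singleton] at ht
            rcases ht with rfl | rfl <;> assumption
          · have : ({3, 5} : Finset ℕ).card = 2 := by decide
            omega
      · haveI : Fact (Nat.Prime 41) := ⟨by norm_num⟩
        refine type_contra hB1 hC2 hD1 hE1 hE2 hE3 hE4 hE5 hE6 6 41 5 8 4 (by norm_num)
          (by norm_num) (by decide) (by norm_num) cert6_41 chk6_41_a chk6_41_b chk6_41_c
          chk6_41_d c _ hX hg ?_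
        refine filter_card_le _ {3} 41 8 4 ?_ ?_ ?_
        · intro t ht
          rw [Finset.mem_singleton] at ht
          subst ht
          decide
        · rw [Finset.singleton_subset_iff]; exact h3
        · rw [Finset.card_singleton]; exact hc
  · have := forced_large N h7
    omega

end Poonen
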