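import Pool.Agent.Poonen.Local2
import Pool.Agent.Poonen.Main

/-!
# Comparison of the local constraints at several good primes (MP_7564fc_nt)
-/

namespace Poonen

open Finset

/-- Number of bits of `b` below `n`. -/
def pc (n b : ℕ) : ℕ := ((List.range n).filter fun i => hasB b i).length

/-- Some set of the list `L` is contained in the words read from a suitable point. -/
def RelC (N : ℕ) (c : ℚ) (L : List ℕ) : Prop := ∀ (X : ℕ → ℚ) (K : ℕ → ℤ) (W : ℕ → ℕ),
  Cyc c N X → Words c N X K W → ∃ s < N, ∃ b ∈ L, ∀ i, b.testBit i = true →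
    ∃ t ∈ c.den.primeFactors, rotN N (W t) s / 2 = i

/-- Some set of the list `L` is contained in the words. -/
def AbsC (N : ℕ) (c : ℚ) (L : List ℕ) : Prop := ∀ (X : ℕ → ℚ) (K : ℕ → ℤ) (W : ℕ → ℕ),
  Cyc c N X → Words c N X K W → ∃ b ∈ L, ∀ i, b.testBit i = true →
    ∃ t ∈ c.den.primeFactors, W t / 2 = i

/-- The set `b` of words, read from `N - s` places later. -/
def absMask (N s b : ℕ) : ℕ :=
  (wordsN N).foldl (fun acc V =>
    bif hasB b (V / 2) then Nat.lor acc (Nat.shiftLeft 1 (rotN N V (N - s) / 2)) else acc) 0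

theorem foldl_testBit (g : ℕ → Bool) (f : ℕ → ℕ) (i : ℕ) : ∀ (l : List ℕ) (acc : ℕ),
    (l.foldl (fun acc V => bif g V then Nat.lor acc (Nat.shiftLeft 1 (f V)) else acc) acc).testBit i
      = true → acc.testBit i = true ∨ ∃ V ∈ l, g V = true ∧ f V = i := by
  intro l
  induction l with
  | nil => intro acc h; exact Or.inl h
  | cons V l ih =>
    intro acc h
    rw [List.foldl_cons] at h
    rcases ih _ h with h1 | ⟨V', hV', h1, h2⟩
    · cases hg : g V with
      | true =>
        rw [hg, cond_true] at h1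
        have h1' : (acc ||| (1 <<< (f V))).testBit i = true := h1
        rw [testBit_or_shift, Bool.or_eq_true, decide_eq_true_eq] at h1'
        rcases h1' with h | h
        · exact Or.inl h
        · exact Or.inr ⟨V, List.mem_cons_self, hg, h.symm⟩
      | false =>
        rw [hg, cond_false] at h1
        exact Or.inl h1
    · exact Or.inr ⟨V', List.mem_cons_of_mem _ hV', h1, h2⟩

theorem absMask_sound {N : ℕ} (hrot : RotOK N) {s : ℕ} (hs : s < N) (b : ℕ) (F : Finset ℕ)
    (W : ℕ → ℕ) (hW : ∀ t ∈ F, W t ∈ wordsN N)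
    (h : ∀ i, b.testBit i = true → ∃ t ∈ F, rotN N (W t) s / 2 = i) :
    ∀ i, (absMask N s b).testBit i = true → ∃ t ∈ F, W t / 2 = i := by
  intro i hi
  unfold absMask at hi
  rcases foldl_testBit (fun V => hasB b (V / 2)) (fun V => rotN N V (N - s) / 2) i _ _ hi with
    h1 | ⟨V, hV, h1, h2⟩
  · simp at h1
  · rw [hasB_eq] at h1
    obtain ⟨t, ht, h3⟩ := h _ h1
    refine ⟨t, ht, ?_⟩
    obtain ⟨hm, hback, -⟩ := hrot (W t) (hW t ht) s hs
    have hVW : V = rotN N (W t) s := by
      have h4 := odd_of_mem hV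
      have h5 := odd_of_mem hm
      omega
    rw [← h2, hVW, hback]

theorem pc_le (n b : ℕ) (F : Finset ℕ) (f : ℕ → ℕ)
    (h : ∀ i, b.testBit i = true → ∃ t ∈ F, f t = i) : pc n b ≤ F.card := by
  classical
  unfold pc
  have hnd : ((List.range n).filter fun i => hasB b i).Nodup := List.Nodup.filter _ List.nodup_range
  rw [← List.toFinset_card_of_nodup hnd]
  refine le_trans (Finset.card_le_card ?_) (Finset.card_image_le (s := F) (f := f))
  intro i hi
  rw [List.mem_toFinset, List.mem_filter, hasB_eq] at hi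
  rw [Finset.mem_image]
  exact h i hi.2

/-- `L0` refines `L`: each member of `L` contains a member of `L0`. -/
def refines (L L0 : List ℕ) : Bool := L.all fun b => L0.any fun b0 => Nat.beq (Nat.land b0 b) b0

theorem refines_sound {L L0 : List ℕ} (h : refines L L0 = true) {b : ℕ} (hb : b ∈ L) :
    ∃ b0 ∈ L0, ∀ i, b0.testBit i = true → b.testBit i = true := by
  unfold refines at h
  rw [List.all_eq_true] at h
  have h1 := h b hb
  rw [List.any_eq_true] at h1
  obtain ⟨b0, hb0, h2⟩ := h1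
  rw [Nat.beq_eq] at h2
  exact ⟨b0, hb0, fun i hi => sub_of_and_eq h2 i hi⟩

/-- The local constraint at `p` (modulo `q`-th powers, `m = (p - 1) / q`), with the lists of
exceptional sets `LR` (relative) and `LA` (absolute), valid if at most `k` bad primes are not
`q`-th powers. -/
def LocalOK (N p m k : ℕ) (LR LA : List ℕ) : Prop := ∀ (c : ℚ), ¬ p ∣ c.den → ∀ k' ≤ k,
  (c.den.primeFactors.filter fun t : ℕ => ((t : ZMod p) ^ m ≠ 1)).card ≤ k' →
  RelC N c (LR.filter fun b => Nat.ble (pc (2 ^ (N - 1)) b) k') ∧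
  AbsC N c (LA.filter fun b => Nat.ble (pc (2 ^ (N - 1)) b) k')

theorem local_ok (N p q m k : ℕ) [hp : Fact p.Prime] (hp5 : 5 ≤ p) (hq : 0 < q) (hm : Even m)
    (hmq : m * q = p - 1) (tab : List (ℕ × List ℕ)) (htab : tab = wtable q N)
    (hrot : RotOK N)
    (cert : List (ℕ × ℕ × List ℕ))
    (hcert : ∀ e ∈ cert, ∃ ys els, chkTypeG N p q m k tab e.1 e.2.1 ys els e.2.2 = true)
    (htyp : chkTypes N p (cert.map fun e => (e.1, e.2.1)) = true)
    (LR LA : List ℕ) (hLR : (cert.all fun e => refines e.2.2 LR) = true)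
    (hLA : (cert.all fun e => (List.range N).all fun s =>
      refines (e.2.2.map (absMask N s)) LA) = true) :
    LocalOK N p m k LR LA := by
  classical
  intro c hgood k' hk' hF
  rw [List.all_eq_true] at hLR hLA
  constructor
  · intro X K W hX hW
    obtain ⟨s, hs, e, he, b, hb, h⟩ := local_sets N p q m k hp5 hq hm hmq tab htab hrot cert hcert
      htyp c X hX hgood K W hW (hF.trans hk')
    obtain ⟨b0, hb0, hsub⟩ := refines_sound (hLR e he) hb
    refine ⟨s, hs, b0, ?_, ?_⟩
    · rw [List.mem_filter]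
      refine ⟨hb0, ?_⟩
      rw [Nat.ble_eq]
      exact (pc_le _ _ _ (fun t => rotN N (W t) s / 2) (fun i hi => h i (hsub i hi))).trans hF
    · intro i hi
      obtain ⟨t, ht, h1⟩ := h i (hsub i hi)
      exact ⟨t, (Finset.mem_filter.mp ht).1, h1⟩
  · intro X K W hX hW
    obtain ⟨s, hs, e, he, b, hb, h⟩ := local_sets N p q m k hp5 hq hm hmq tab htab hrot cert hcert
      htyp c X hX hgood K W hW (hF.trans hk')
    have h1 := hLA e he
    rw [List.all_eq_true] at h1
    have h2 := h1 s (List.mem_range.mpr hs)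
    obtain ⟨b0, hb0, hsub⟩ := refines_sound h2 (List.mem_map.mpr ⟨b, hb, rfl⟩)
    have h3 := absMask_sound hrot hs b _ W (fun t ht => hW.mem t (Finset.mem_filter.mp ht).1) h
    refine ⟨b0, ?_, ?_⟩
    · rw [List.mem_filter]
      refine ⟨hb0, ?_⟩
      rw [Nat.ble_eq]
      exact (pc_le _ _ _ (fun t => W t / 2) (fun i hi => h3 i (hsub i hi))).trans hF
    · intro i hi
      obtain ⟨t, ht, h1⟩ := h3 i (hsub i hi)
      exact ⟨t, (Finset.mem_filter.mp ht).1, h1⟩

/-- All unions with at most `s` elements. -/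
def combAll (n s : ℕ) : List (List ℕ) → List ℕ → List ℕ
  | [], U => U
  | L :: Ls, U => combAll n s Ls
      (U.flatMap fun u => (L.map fun b => Nat.lor u b).filter fun v => Nat.ble (pc n v) s)

theorem combAll_ne_nil {N : ℕ} (c : ℚ) (s : ℕ) (hS : c.den.primeFactors.card ≤ s)
    (X : ℕ → ℚ) (K : ℕ → ℤ) (W : ℕ → ℕ) (hX : Cyc c N X) (hW : Words c N X K W) (n : ℕ) :
    ∀ (Ls : List (List ℕ)) (U : List ℕ), (∀ L ∈ Ls, AbsC N c L) →
      (∃ u ∈ U, ∀ i, u.testBit i = true → ∃ t ∈ c.den.primeFactors, W t / 2 = i) →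
      combAll n s Ls U ≠ [] := by
  intro Ls
  induction Ls with
  | nil =>
    rintro U - ⟨u, hu, -⟩
    rw [combAll]
    rintro rfl
    simp at hu
  | cons L Ls ih =>
    rintro U hL ⟨u, hu, hub⟩
    rw [combAll]
    refine ih _ (fun L' hL' => hL L' (List.mem_cons_of_mem _ hL')) ?_
    obtain ⟨b, hb, hbb⟩ := hL L List.mem_cons_self X K W hX hW
    have hv : ∀ i, (Nat.lor u b).testBit i = true →
        ∃ t ∈ c.den.primeFactors, W t / 2 = i := by
      intro i hi
      have hi' : (u ||| b).testBit i = true := hi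
      rw [Nat.testBit_or, Bool.or_eq_true] at hi'
      rcases hi' with h | h
      · exact hub i h
      · exact hbb i h
    refine ⟨Nat.lor u b, ?_, hv⟩
    rw [List.mem_flatMap]
    refine ⟨u, hu, ?_⟩
    rw [List.mem_filter, List.mem_map]
    refine ⟨⟨b, hb, rfl⟩, ?_⟩
    rw [Nat.ble_eq]
    exact (pc_le n _ _ (fun t => W t / 2) hv).trans hS

/-- The final contradiction from several good primes. -/
theorem leaf_contra {N : ℕ} (hrot : RotOK N) (c : ℚ) (s : ℕ) (hS : c.den.primeFactors.card ≤ s)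
    (X : ℕ → ℚ) (hX : Cyc c N X) (L1 : List ℕ) (Ls : List (List ℕ)) (h1 : RelC N c L1)
    (h2 : ∀ L ∈ Ls, AbsC N c L) (hchk : combAll (2 ^ (N - 1)) s Ls L1 = []) : False := by
  obtain ⟨K, W, hW⟩ := exists_words hX
  obtain ⟨sh, hsh, b, hb, hbb⟩ := h1 X K W hX hW
  exact combAll_ne_nil c s hS _ K _ (hX.shift sh) (hW.shift hX hrot hsh) (2 ^ (N - 1)) Ls L1 h2
    ⟨b, hb, hbb⟩ hchk

theorem filter_card_le' (c : ℚ) (s : ℕ) (hS : c.den.primeFactors.card ≤ s) (E : List ℕ)
    (p m k : ℕ) (hE : ∀ t ∈ E, (t : ZMod p) ^ m = 1) (hES : ∀ t ∈ E, t ∈ c.den.primeFactors)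
    (hnd : E.Nodup) (hk : s ≤ k + E.length) :
    (c.den.primeFactors.filter fun t : ℕ => ((t : ZMod p) ^ m ≠ 1)).card ≤ k := by
  classical
  refine filter_card_le _ E.toFinset p m k (fun t ht => hE t (List.mem_toFinset.mp ht)) ?_ ?_
  · intro t ht
    exact hES t (List.mem_toFinset.mp ht)
  · rw [List.toFinset_card_of_nodup hnd]
    omega

theorem rotOK_5 : RotOK 5 := by decide +kernel

end Poonen
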