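import Pool.Agent.Poonen.Tabs
import Pool.Agent.Poonen.Local3
import Pool.Agent.Poonen.Loc5_13_2_p0

/-!
# Local constraint for `N = 5`, `p = 13`, `q = 2` (MP_7564fc_nt)
-/

namespace Poonen

/-- Local types and exceptional sets. -/
def lcert5_13_2 : List (ℕ × ℕ × List ℕ) := [(3, 0, [16388, 688, 2216, 2400, 5126, 5377, 12432, 16643, 1547, 1732, 1804, 3091, 3348, 4210, 8786, 10314, 10373, 10626, 17520, 21001, 22545, 24617])]

theorem lcert5_13_2_ok : ∀ e ∈ lcert5_13_2, ∃ ys els,
    chkTypeG 5 13 2 6 5 tab_2_5 e.1 e.2.1 ys els e.2.2 = true := by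
  intro e he
  simp only [lcert5_13_2, List.mem_cons, List.not_mem_nil, or_false] at he
  subst he
  exact ⟨_, _, loc5_13_2_0⟩

theorem lcert5_13_2_types : chkTypes 5 13 (lcert5_13_2.map fun e => (e.1, e.2.1)) = true := by
  decide +kernel

/-- Exceptional sets, relative. -/
def LR5_13_2 : List ℕ := [16388, 688, 2216, 2400, 5126, 5377, 12432, 16643, 1547, 1732, 1804, 3091, 3348, 4210, 8786, 10314, 10373, 10626, 17520, 21001, 22545, 24617]

/-- Exceptional sets, absolute. -/
def LA5_13_2 : List ℕ := [65, 144, 2080, 9216, 16388, 142, 326, 344, 393, 568, 2696, 2880, 5126, 5377, 5664, 12312, 14848, 16643, 16930, 28674, 1067, 1069, 1077, 1250, 1252, 1322, 1324, 1330, 1547, 1612, 1667, 1732, 1804, 1924, 3091, 3156, 3348, 4149, 4210, 4402, 4684, 4690, 4692, 4739, 4996, 6218, 6220, 6228, 6275, 6277, 6530, 6532, 8300, 8306, 8308, 8355, 8612, 8725, 8786, 8978, 10253, 10314, 10373, 10434, 10506, 10626, 17520, 17712, 18000, 18049, 19528, 19585, 19840, 20521, 20704, 20776,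 20784, 21001, 21121, 22545, 24617, 24737, 25097, 25280, 25352, 25360, 26641, 26816, 26888, 26896]

theorem localOK_5_13_2 : LocalOK 5 13 6 5 LR5_13_2 LA5_13_2 := by
  have hp : Fact (Nat.Prime 13) := ⟨by norm_num⟩
  exact local_ok 5 13 2 6 5 (by norm_num) (by norm_num) (by decide) (by norm_num) _
    tab_2_5_eq rotOK_5 lcert5_13_2 lcert5_13_2_ok lcert5_13_2_types LR5_13_2 LA5_13_2 (by decide +kernel)
    (by decide +kernel)

end Poonen
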