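import Pool.Agent.Poonen.Tabs
import Pool.Agent.Poonen.LocalSets

/-!
# Local checks for `N = 5`, `p = 13`, `q = 3` (MP_7564fc_nt)
-/

namespace Poonen

def ys5_13_3_0 : List (List ℕ) := [[1, 0, 0, 1, 0, 0, 0, 1, 0, 0],
   [0, 1, 0, 0, 1, 0, 2, 1, 0, 0],
   [2, 0, 2, 2, 1, 1, 0, 1, 0, 0],
   [2, 2, 2, 2, 0, 1, 1, 0, 0, 0],
   [0, 0, 2, 0, 1, 2, 1, 1, 0, 0],
   [1, 2, 2, 1, 0, 2, 2, 1, 0, 0],
   [1, 0, 2, 1, 1, 0, 2, 1, 0, 0],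
   [1, 0, 2, 1, 1, 1, 0, 0, 0, 0],
   [1, 2, 2, 1, 1, 1, 0, 1, 0, 0],
   [0, 2, 2, 1, 0, 2, 1, 0, 0, 0],
   [1, 0, 0, 1, 2, 2, 1, 0, 0, 0],
   [0, 2, 2, 0, 2, 2, 2, 1, 0, 0],
   [2, 2, 0, 1, 2, 2, 2, 1, 0, 0],
   [0, 2, 1, 1, 0, 0, 1, 1, 0, 0],
   [2, 0, 1, 0, 2, 0, 1, 1, 0, 0],
   [1, 1, 0, 0, 2, 1, 0, 1, 0, 0]]

def els5_13_3_0 : List (ℕ × ℕ) := [(0, 15871), (1, 65506), (2, 65426), (3, 65305), (4, 65396), (5, 65464), (6, 65480), (7, 52735), (8, 65364), (9, 65326), (10, 65353), (11, 29695), (12, 65445), (13, 56063), (14, 42751)]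

theorem loc5_13_3_0 : chkTypeG 5 13 3 4 5 tab_3_5 3 0 ys5_13_3_0 els5_13_3_0
    [18570, 19588, 24587, 25605] = true :=
  chkTypeG_of (by decide +kernel) (by decide +kernel) (by decide +kernel) (by decide +kernel)

end Poonen
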