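import Pool.Agent.Poonen.Tabs
import Pool.Agent.Poonen.Local3
import Pool.Agent.Poonen.Loc5_13_3_p0

/-!
# Local constraint for `N = 5`, `p = 13`, `q = 3` (MP_7564fc_nt)
-/

namespace Poonen

/-- Local types and exceptional sets. -/
def lcert5_13_3 : List (ℕ × ℕ × List ℕ) := [(3, 0, [18570, 19588, 24587, 25605])]

theorem lcert5_13_3_ok : ∀ e ∈ lcert5_13_3, ∃ ys els,
    chkTypeG 5 13 3 4 5 tab_3_5 e.1 e.2.1 ys els e.2.2 = true := by
  intro e he
  simp only [lcert5_13_3, List.mem_cons, List.not_mem_nil, or_false] at he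
  subst he
  exact ⟨_, _, loc5_13_3_0⟩

theorem lcert5_13_3_types : chkTypes 5 13 (lcert5_13_3.map fun e => (e.1, e.2.1)) = true := by
  decide +kernel

/-- Exceptional sets, relative. -/
def LR5_13_3 : List ℕ := [18570, 19588, 24587, 25605]

/-- Exceptional sets, absolute. -/
def LA5_13_3 : List ℕ := [2257, 6281, 9377, 10309, 10416, 10882, 11009, 12673, 16581, 17281, 18481, 18570, 18947, 19588, 24587, 24784, 25605, 27680, 28808, 30976]

theorem localOK_5_13_3 : LocalOK 5 13 4 5 LR5_13_3 LA5_13_3 := by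
  have hp : Fact (Nat.Prime 13) := ⟨by norm_num⟩
  exact local_ok 5 13 3 4 5 (by norm_num) (by norm_num) (by decide) (by norm_num) _
    tab_3_5_eq rotOK_5 lcert5_13_3 lcert5_13_3_ok lcert5_13_3_types LR5_13_3 LA5_13_3 (by decide +kernel)
    (by decide +kernel)

end Poonen
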