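import Pool.Agent.Poonen.Tabs
import Pool.Agent.Poonen.LocalSets

/-!
# Local checks for `N = 5`, `p = 17`, `q = 2` (MP_7564fc_nt)
-/

namespace Poonen

def ys5_17_2_0 : List (List ℕ) := [[1, 0, 1, 0, 1, 1, 1, 0, 0, 0],
   [0, 1, 0, 1, 0, 0, 0, 1, 0, 0],
   [1, 1, 1, 0, 0, 0, 0, 0, 0, 0],
   [0, 1, 0, 1, 1, 0, 1, 1, 0, 0],
   [0, 1, 1, 1, 1, 0, 0, 1, 0, 0],
   [0, 1, 0, 1, 1, 1, 0, 0, 0, 0],
   [1, 1, 0, 0, 0, 0, 0, 1, 0, 0],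
   [1, 0, 1, 0, 1, 0, 0, 1, 0, 0],
   [1, 1, 0, 0, 1, 0, 1, 0, 0, 0],
   [0, 0, 0, 1, 0, 1, 1, 1, 0, 0],
   [1, 1, 1, 0, 0, 1, 0, 1, 0, 0],
   [1, 1, 0, 0, 1, 1, 1, 1, 0, 0],
   [0, 0, 1, 1, 1, 1, 0, 1, 0, 0],
   [0, 1, 1, 1, 0, 0, 0, 0, 0, 0]]

def els5_17_2_0 : List (ℕ × ℕ) := [(0, 11735), (1, 16043), (2, 14841), (3, 11050), (4, 13302), (5, 16334), (6, 5333), (7, 5498), (8, 10885), (9, 16231), (10, 7915), (11, 10171), (12, 16284), (13, 16181), (14, 8156)]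

theorem loc5_17_2_0 : chkTypeG 5 17 2 8 4 tab_2_5 6 10 ys5_17_2_0 els5_17_2_0
    [72, 384, 135, 2640, 9233] = true :=
  chkTypeG_of (by decide +kernel) (by decide +kernel) (by decide +kernel) (by decide +kernel)

end Poonen
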