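import Pool.Agent.Poonen.Tabs
import Pool.Agent.Poonen.Local3
import Pool.Agent.Poonen.Loc5_17_2_p0

/-!
# Local constraint for `N = 5`, `p = 17`, `q = 2` (MP_7564fc_nt)
-/

namespace Poonen

/-- Local types and exceptional sets. -/
def lcert5_17_2 : List (ℕ × ℕ × List ℕ) := [(6, 10, [72, 384, 135, 2640, 9233])]

theorem lcert5_17_2_ok : ∀ e ∈ lcert5_17_2, ∃ ys els,
    chkTypeG 5 17 2 8 4 tab_2_5 e.1 e.2.1 ys els e.2.2 = true := by
  intro e he
  simp only [lcert5_17_2, List.mem_cons, List.not_mem_nil, or_false] at he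
  subst he
  exact ⟨_, _, loc5_17_2_0⟩

theorem lcert5_17_2_types : chkTypes 5 17 (lcert5_17_2.map fun e => (e.1, e.2.1)) = true := by
  decide +kernel

/-- Exceptional sets, relative. -/
def LR5_17_2 : List ℕ := [72, 384, 135, 2640, 9233]

/-- Exceptional sets, absolute. -/
def LA5_17_2 : List ℕ := [3, 72, 260, 384, 528, 1026, 2056, 4128, 8704, 20480, 3137, 8340, 9233, 16548, 18528]

theorem localOK_5_17_2 : LocalOK 5 17 8 4 LR5_17_2 LA5_17_2 := by
  have hp : Fact (Nat.Prime 17) := ⟨by norm_num⟩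
  exact local_ok 5 17 2 8 4 (by norm_num) (by norm_num) (by decide) (by norm_num) _
    tab_2_5_eq rotOK_5 lcert5_17_2 lcert5_17_2_ok lcert5_17_2_types LR5_17_2 LA5_17_2 (by decide +kernel)
    (by decide +kernel)

end Poonen
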