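import Pool.Agent.Poonen.Tabs
import Pool.Agent.Poonen.LocalSets

/-!
# Local checks for `N = 5`, `p = 41`, `q = 5` (MP_7564fc_nt)
-/

namespace Poonen

def ys5_41_5_0 : List (List ℕ) := [[1, 4, 1, 1, 3, 2, 3, 1, 0, 0],
   [3, 0, 2, 2, 4, 4, 2, 1, 0, 0],
   [0, 2, 0, 1, 1, 1, 0, 1, 0, 0],
   [3, 4, 0, 2, 0, 3, 2, 1, 0, 0],
   [1, 4, 3, 3, 4, 0, 1, 1, 0, 0],
   [1, 3, 0, 4, 0, 2, 3, 1, 0, 0],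
   [1, 4, 3, 3, 1, 4, 3, 1, 0, 0],
   [4, 0, 0, 0, 4, 0, 4, 1, 0, 0],
   [4, 2, 2, 1, 3, 3, 2, 1, 0, 0],
   [3, 2, 1, 4, 4, 4, 1, 0, 0, 0],
   [0, 0, 3, 4, 2, 4, 1, 0, 0, 0],
   [0, 0, 1, 1, 4, 1, 0, 0, 0, 0],
   [4, 0, 3, 2, 4, 1, 0, 1, 0, 0],
   [3, 4, 0, 4, 1, 4, 1, 1, 0, 0],
   [0, 1, 3, 1, 0, 4, 4, 1, 0, 0],
   [3, 0, 2, 1, 2, 0, 2, 1, 0, 0],
   [1, 1, 4, 4, 4, 4, 1, 0, 0, 0],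
   [3, 0, 1, 0, 4, 0, 2, 1, 0, 0],
   [4, 2, 3, 2, 1, 3, 0, 1, 0, 0],
   [4, 3, 3, 0, 0, 4, 4, 1, 0, 0],
   [2, 2, 4, 0, 1, 4, 2, 1, 0, 0],
   [1, 3, 3, 4, 0, 1, 1, 0, 0, 0],
   [4, 0, 3, 1, 0, 0, 0, 0, 0, 0],
   [1, 3, 1, 3, 0, 4, 0, 1, 0, 0],
   [4, 3, 4, 3, 3, 3, 1, 1, 0, 0],
   [1, 2, 4, 3, 2, 0, 1, 0, 0, 0],
   [2, 0, 2, 1, 4, 0, 4, 1, 0, 0],
   [1, 1, 3, 1, 4, 3, 3, 1, 0, 0],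
   [1, 3, 4, 1, 1, 4, 4, 1, 0, 0],
   [1, 0, 4, 1, 4, 3, 1, 0, 0, 0],
   [2, 1, 1, 3, 3, 1, 0, 1, 0, 0],
   [0, 0, 0, 0, 2, 3, 1, 1, 0, 0],
   [4, 0, 4, 3, 3, 2, 0, 1, 0, 0],
   [4, 2, 1, 3, 2, 1, 1, 0, 0, 0],
   [0, 0, 2, 4, 2, 0, 1, 0, 0, 0],
   [2, 1, 0, 1, 1, 0, 1, 1, 0, 0],
   [2, 1, 2, 1, 2, 0, 1, 0, 0, 0],
   [2, 3, 4, 2, 0, 3, 0, 1, 0, 0],
   [3, 0, 0, 2, 0, 2, 0, 1, 0, 0],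
   [4, 3, 3, 4, 3, 0, 2, 1, 0, 0],
   [3, 2, 0, 0, 1, 1, 0, 1, 0, 0],
   [3, 0, 2, 0, 0, 1, 3, 1, 0, 0],
   [2, 2, 3, 1, 1, 1, 0, 1, 0, 0],
   [4, 4, 0, 1, 1, 4, 4, 1, 0, 0],
   [1, 2, 4, 3, 4, 3, 2, 1, 0, 0],
   [2, 0, 1, 4, 1, 0, 2, 1, 0, 0],
   [1, 3, 2, 0, 4, 3, 1, 1, 0, 0],
   [0, 0, 4, 0, 0, 3, 0, 1, 0, 0],
   [1, 0, 3, 1, 4, 1, 1, 1, 0, 0],
   [4, 1, 2, 3, 4, 2, 3, 1, 0, 0],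
   [0, 1, 0, 0, 3, 4, 1, 0, 0, 0],
   [4, 4, 0, 0, 4, 0, 0, 1, 0, 0],
   [2, 3, 1, 1, 2, 3, 1, 1, 0, 0],
   [4, 3, 3, 1, 2, 3, 3, 1, 0, 0],
   [0, 3, 1, 0, 2, 2, 3, 1, 0, 0],
   [4, 4, 1, 2, 0, 4, 4, 1, 0, 0],
   [1, 4, 4, 3, 2, 2, 3, 1, 0, 0],
   [1, 4, 3, 2, 0, 4, 4, 1, 0, 0],
   [2, 1, 1, 2, 4, 2, 3, 1, 0, 0],
   [2, 3, 2, 1, 3, 2, 2, 1, 0, 0],
   [0, 1, 0, 0, 2, 4, 0, 1, 0, 0],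
   [1, 4, 0, 2, 4, 3, 0, 1, 0, 0],
   [0, 3, 0, 0, 2, 1, 3, 1, 0, 0],
   [0, 1, 4, 2, 4, 0, 3, 1, 0, 0]]

def els5_41_5_0 : List (ℕ × ℕ) := [(0, 13505468000334838891), (1, 12636766695977303669), (2, 17489296756175727542), (3, 5725707820616498100), (4, 17778768724629248650), (5, 16786036134000147793), (6, 17073105447259440446), (7, 15794030841473779280), (8, 10912329882964448748), (9, 6331979394165923841), (10, 18369751509614461124), (11, 6749098430682708727), (12, 2869399656242040779), (13, 9050402759393805610), (14, 13393046883751392153)]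

theorem loc5_41_5_0 : chkTypeG 5 41 5 8 5 tab_5_5 2 0 ys5_41_5_0 els5_41_5_0
    [2828, 4300, 6308, 10277, 12361, 12421, 12688, 20641] = true :=
  chkTypeG_of (by decide +kernel) (by decide +kernel) (by decide +kernel) (by decide +kernel)

def ys5_41_5_1 : List (List ℕ) := [[4, 3, 3, 0, 0, 2, 0, 1, 0, 0],
   [3, 2, 1, 4, 4, 4, 1, 0, 0, 0],
   [4, 0, 0, 0, 4, 0, 4, 1, 0, 0],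
   [0, 3, 3, 2, 2, 2, 4, 1, 0, 0],
   [0, 3, 1, 3, 2, 2, 3, 1, 0, 0],
   [1, 4, 3, 4, 2, 4, 2, 1, 0, 0],
   [3, 4, 0, 4, 1, 4, 1, 1, 0, 0],
   [4, 4, 0, 3, 4, 4, 4, 1, 0, 0],
   [2, 4, 0, 2, 2, 3, 1, 1, 0, 0],
   [3, 4, 1, 2, 2, 4, 3, 1, 0, 0],
   [2, 4, 4, 2, 1, 0, 3, 1, 0, 0],
   [0, 1, 2, 1, 1, 4, 4, 1, 0, 0],
   [2, 2, 3, 0, 2, 1, 0, 0, 0, 0],
   [0, 0, 1, 4, 1, 1, 2, 1, 0, 0],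
   [0, 3, 4, 1, 4, 3, 1, 1, 0, 0],
   [3, 1, 4, 4, 2, 3, 1, 1, 0, 0],
   [2, 0, 0, 0, 2, 3, 4, 1, 0, 0],
   [2, 0, 2, 1, 3, 1, 1, 1, 0, 0],
   [0, 1, 1, 3, 0, 3, 2, 1, 0, 0],
   [1, 3, 3, 4, 0, 1, 1, 0, 0, 0],
   [2, 2, 4, 0, 1, 4, 2, 1, 0, 0],
   [4, 3, 3, 0, 0, 4, 4, 1, 0, 0],
   [4, 2, 3, 2, 1, 3, 0, 1, 0, 0],
   [3, 0, 1, 0, 4, 0, 2, 1, 0, 0],
   [1, 3, 1, 3, 0, 4, 0, 1, 0, 0],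
   [4, 0, 4, 3, 3, 2, 0, 1, 0, 0],
   [0, 0, 4, 0, 0, 3, 0, 1, 0, 0],
   [2, 1, 2, 1, 2, 0, 1, 0, 0, 0],
   [1, 1, 3, 1, 4, 3, 3, 1, 0, 0],
   [0, 0, 0, 0, 2, 3, 1, 1, 0, 0],
   [1, 0, 4, 1, 4, 3, 1, 0, 0, 0],
   [3, 4, 0, 4, 4, 1, 0, 1, 0, 0],
   [3, 0, 0, 2, 0, 2, 0, 1, 0, 0],
   [1, 3, 4, 1, 1, 4, 4, 1, 0, 0],
   [2, 1, 1, 3, 3, 1, 0, 1, 0, 0],
   [4, 3, 3, 4, 3, 0, 2, 1, 0, 0],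
   [1, 3, 2, 0, 4, 3, 1, 1, 0, 0],
   [3, 2, 0, 0, 1, 1, 0, 1, 0, 0],
   [2, 3, 4, 2, 0, 3, 0, 1, 0, 0],
   [4, 1, 2, 3, 4, 2, 3, 1, 0, 0],
   [0, 0, 2, 4, 2, 0, 1, 0, 0, 0],
   [4, 0, 4, 0, 4, 4, 1, 0, 0, 0],
   [0, 3, 3, 3, 0, 0, 4, 1, 0, 0],
   [3, 2, 3, 1, 4, 4, 2, 1, 0, 0],
   [1, 3, 0, 0, 0, 3, 0, 1, 0, 0],
   [2, 2, 3, 1, 1, 1, 0, 1, 0, 0],
   [3, 1, 1, 3, 1, 1, 1, 1, 0, 0],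
   [0, 1, 0, 0, 3, 4, 1, 0, 0, 0],
   [3, 4, 3, 3, 1, 1, 0, 0, 0, 0],
   [1, 4, 4, 3, 2, 2, 3, 1, 0, 0],
   [4, 3, 3, 1, 2, 3, 3, 1, 0, 0],
   [4, 4, 1, 2, 0, 4, 4, 1, 0, 0],
   [0, 3, 1, 0, 2, 2, 3, 1, 0, 0],
   [4, 4, 0, 0, 4, 0, 0, 1, 0, 0],
   [2, 3, 1, 1, 2, 3, 1, 1, 0, 0],
   [0, 2, 4, 1, 0, 0, 0, 1, 0, 0],
   [1, 4, 3, 2, 0, 4, 4, 1, 0, 0],
   [2, 1, 1, 2, 4, 2, 3, 1, 0, 0],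
   [0, 1, 4, 2, 4, 0, 3, 1, 0, 0],
   [0, 1, 0, 4, 0, 0, 1, 1, 0, 0],
   [0, 3, 0, 0, 2, 1, 3, 1, 0, 0],
   [2, 3, 2, 1, 3, 2, 2, 1, 0, 0],
   [0, 1, 0, 0, 2, 4, 0, 1, 0, 0]]

def els5_41_5_1 : List (ℕ × ℕ) := [(0, 7906059450404302184), (1, 2842561439923363579), (2, 6759251976136885334), (3, 3735367948962048478), (4, 6876215950596936463), (5, 4385676865027427521), (6, 3944531911227521832), (7, 9054440473748593331), (8, 5717050711019962036), (9, 6015318088947455424), (10, 8592299619822887989), (11, 8840141809099847774), (12, 854114579052946351), (13, 8857300866282776472), (14, 7852825728340857703)]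

theorem loc5_41_5_1 : chkTypeG 5 41 5 8 5 tab_5_5 7 11 ys5_41_5_1 els5_41_5_1
    [174, 2246, 4428, 6944, 8600, 20499, 21640, 25606] = true :=
  chkTypeG_of (by decide +kernel) (by decide +kernel) (by decide +kernel) (by decide +kernel)

def ys5_41_5_2 : List (List ℕ) := [[4, 1, 2, 1, 0, 4, 4, 1, 0, 0],
   [4, 4, 0, 4, 2, 1, 3, 1, 0, 0],
   [0, 4, 4, 3, 4, 0, 1, 1, 0, 0],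
   [4, 2, 3, 1, 2, 2, 4, 1, 0, 0],
   [0, 0, 4, 4, 2, 1, 1, 1, 0, 0],
   [4, 4, 1, 1, 3, 2, 1, 1, 0, 0],
   [2, 2, 0, 1, 3, 2, 1, 0, 0, 0],
   [0, 3, 2, 2, 1, 4, 4, 1, 0, 0],
   [3, 1, 4, 1, 2, 1, 0, 1, 0, 0],
   [1, 2, 1, 4, 0, 4, 4, 1, 0, 0],
   [4, 2, 3, 4, 0, 1, 1, 1, 0, 0],
   [0, 4, 2, 0, 3, 3, 1, 1, 0, 0],
   [4, 0, 4, 4, 0, 1, 3, 1, 0, 0],
   [4, 2, 0, 4, 2, 3, 1, 1, 0, 0],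
   [1, 3, 0, 4, 0, 2, 3, 1, 0, 0],
   [0, 4, 2, 3, 3, 3, 1, 1, 0, 0],
   [0, 1, 1, 0, 4, 1, 0, 1, 0, 0],
   [2, 2, 0, 0, 0, 2, 1, 0, 0, 0],
   [3, 1, 1, 1, 0, 0, 1, 1, 0, 0],
   [4, 2, 4, 1, 1, 0, 0, 1, 0, 0],
   [3, 1, 2, 1, 1, 3, 1, 1, 0, 0],
   [3, 4, 2, 0, 0, 2, 1, 1, 0, 0],
   [4, 0, 0, 2, 0, 2, 1, 0, 0, 0],
   [0, 1, 3, 0, 0, 2, 1, 0, 0, 0],
   [3, 4, 2, 1, 4, 1, 1, 1, 0, 0],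
   [2, 2, 1, 1, 2, 1, 4, 1, 0, 0],
   [4, 4, 3, 1, 0, 2, 4, 1, 0, 0],
   [3, 1, 3, 2, 3, 1, 0, 1, 0, 0],
   [0, 0, 3, 3, 4, 4, 4, 1, 0, 0],
   [3, 3, 0, 3, 4, 3, 1, 1, 0, 0],
   [2, 4, 4, 2, 1, 0, 3, 1, 0, 0],
   [2, 3, 0, 4, 1, 3, 3, 1, 0, 0],
   [2, 2, 3, 3, 0, 4, 4, 1, 0, 0],
   [4, 0, 4, 3, 3, 2, 0, 1, 0, 0],
   [1, 3, 1, 0, 0, 3, 1, 0, 0, 0],
   [2, 0, 1, 4, 1, 0, 2, 1, 0, 0],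
   [4, 0, 4, 0, 4, 4, 1, 0, 0, 0],
   [0, 0, 4, 0, 0, 3, 0, 1, 0, 0],
   [2, 1, 0, 1, 1, 0, 1, 1, 0, 0],
   [4, 4, 3, 1, 0, 3, 1, 0, 0, 0],
   [2, 1, 2, 1, 2, 0, 1, 0, 0, 0],
   [4, 0, 3, 1, 0, 0, 0, 0, 0, 0],
   [1, 3, 4, 0, 4, 1, 1, 0, 0, 0],
   [1, 2, 4, 3, 2, 0, 1, 0, 0, 0],
   [1, 3, 4, 1, 1, 4, 4, 1, 0, 0],
   [0, 0, 2, 4, 2, 0, 1, 0, 0, 0],
   [0, 3, 3, 3, 0, 0, 4, 1, 0, 0],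
   [2, 1, 1, 3, 3, 1, 0, 1, 0, 0],
   [1, 1, 4, 4, 4, 4, 1, 0, 0, 0],
   [3, 2, 0, 0, 1, 1, 0, 1, 0, 0],
   [4, 2, 3, 2, 1, 3, 0, 1, 0, 0],
   [4, 2, 1, 3, 2, 1, 1, 0, 0, 0],
   [2, 2, 4, 0, 1, 4, 2, 1, 0, 0],
   [4, 4, 0, 1, 1, 4, 4, 1, 0, 0],
   [3, 0, 1, 0, 4, 0, 2, 1, 0, 0],
   [1, 0, 4, 1, 4, 3, 1, 0, 0, 0],
   [2, 2, 3, 1, 1, 1, 0, 1, 0, 0],
   [2, 0, 2, 1, 4, 0, 4, 1, 0, 0],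
   [1, 0, 3, 1, 4, 1, 1, 1, 0, 0],
   [0, 2, 4, 2, 2, 4, 4, 1, 0, 0],
   [1, 1, 3, 1, 4, 3, 3, 1, 0, 0],
   [0, 0, 0, 4, 3, 1, 1, 0, 0, 0],
   [2, 0, 0, 0, 3, 2, 0, 1, 0, 0],
   [3, 0, 0, 2, 0, 2, 0, 1, 0, 0],
   [3, 1, 1, 3, 1, 1, 1, 1, 0, 0],
   [0, 4, 1, 3, 0, 0, 1, 0, 0, 0],
   [1, 3, 0, 0, 0, 3, 0, 1, 0, 0],
   [0, 1, 0, 3, 3, 1, 2, 1, 0, 0],
   [4, 4, 0, 0, 4, 0, 0, 1, 0, 0],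
   [2, 4, 0, 2, 4, 3, 1, 1, 0, 0],
   [0, 1, 0, 4, 0, 0, 1, 1, 0, 0],
   [0, 3, 1, 0, 2, 2, 3, 1, 0, 0],
   [1, 4, 3, 2, 0, 4, 4, 1, 0, 0],
   [2, 1, 1, 2, 4, 2, 3, 1, 0, 0],
   [2, 3, 1, 1, 2, 3, 1, 1, 0, 0],
   [2, 3, 2, 1, 3, 2, 2, 1, 0, 0],
   [0, 2, 4, 1, 0, 0, 0, 1, 0, 0],
   [0, 1, 0, 0, 2, 4, 0, 1, 0, 0]]

def els5_41_5_2 : List (ℕ × ℕ) := [(0, 273297682490128122336898), (1, 74110540869071634548979), (2, 252244909647251560951261), (3, 149577128156119931550806), (4, 185885764763766575411819), (5, 136410569997357224434354), (6, 126059207151190672959299), (7, 271534846507642474045740), (8, 188455439471498428800868), (9, 187497738054783595095959), (10, 205853814358554617355704), (11, 276257124019428847405517), (12, 112812452693559492391849),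 (13, 294557423260495569142836), (14, 287464759690536247573064)]

theorem loc5_41_5_2 : chkTypeG 5 41 5 8 5 tab_5_5 10 9 ys5_41_5_2 els5_41_5_2
    [116, 1076, 1108, 1124, 1136, 1441, 3212, 10820, 16435, 28752] = true :=
  chkTypeG_of (by decide +kernel) (by decide +kernel) (by decide +kernel) (by decide +kernel)

def ys5_41_5_3 : List (List ℕ) := [[3, 4, 1, 1, 1, 0, 3, 1, 0, 0],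
   [0, 2, 1, 3, 2, 4, 4, 1, 0, 0],
   [1, 4, 3, 3, 1, 4, 3, 1, 0, 0],
   [2, 1, 4, 1, 3, 2, 1, 0, 0, 0],
   [3, 2, 1, 4, 4, 4, 1, 0, 0, 0],
   [3, 2, 2, 3, 2, 1, 0, 1, 0, 0],
   [4, 2, 0, 4, 2, 2, 4, 1, 0, 0],
   [3, 1, 4, 3, 0, 4, 4, 1, 0, 0],
   [4, 2, 2, 4, 1, 1, 1, 0, 0, 0],
   [0, 0, 3, 3, 4, 4, 4, 1, 0, 0],
   [2, 3, 0, 0, 3, 0, 2, 1, 0, 0],
   [1, 4, 1, 1, 0, 1, 0, 0, 0, 0],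
   [0, 1, 0, 0, 2, 3, 1, 1, 0, 0],
   [3, 1, 4, 0, 4, 2, 3, 1, 0, 0],
   [4, 4, 0, 2, 3, 3, 3, 1, 0, 0],
   [1, 3, 3, 2, 4, 2, 1, 1, 0, 0],
   [1, 1, 3, 1, 4, 3, 3, 1, 0, 0],
   [1, 0, 4, 1, 4, 3, 1, 0, 0, 0],
   [2, 0, 2, 1, 4, 0, 4, 1, 0, 0],
   [4, 0, 4, 3, 3, 2, 0, 1, 0, 0],
   [4, 0, 4, 0, 4, 4, 1, 0, 0, 0],
   [0, 0, 0, 0, 2, 3, 1, 1, 0, 0],
   [0, 0, 2, 4, 2, 0, 1, 0, 0, 0],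
   [1, 3, 3, 4, 0, 1, 1, 0, 0, 0],
   [4, 4, 3, 1, 0, 3, 1, 0, 0, 0],
   [3, 4, 0, 4, 4, 1, 0, 1, 0, 0],
   [3, 0, 1, 0, 4, 0, 2, 1, 0, 0],
   [4, 3, 3, 0, 0, 4, 4, 1, 0, 0],
   [4, 3, 4, 3, 3, 3, 1, 1, 0, 0],
   [2, 2, 4, 0, 1, 4, 2, 1, 0, 0],
   [4, 1, 2, 3, 4, 2, 3, 1, 0, 0],
   [1, 3, 2, 0, 4, 3, 1, 1, 0, 0],
   [4, 2, 3, 2, 1, 3, 0, 1, 0, 0],
   [2, 3, 4, 2, 0, 3, 0, 1, 0, 0],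
   [1, 0, 3, 1, 4, 1, 1, 1, 0, 0],
   [1, 1, 4, 4, 4, 4, 1, 0, 0, 0],
   [2, 0, 1, 4, 1, 0, 2, 1, 0, 0],
   [2, 2, 3, 1, 1, 1, 0, 1, 0, 0],
   [3, 4, 3, 0, 0, 4, 1, 0, 0, 0],
   [3, 2, 3, 1, 4, 4, 2, 1, 0, 0],
   [1, 3, 0, 0, 0, 3, 0, 1, 0, 0],
   [1, 3, 4, 0, 4, 1, 1, 0, 0, 0],
   [0, 1, 4, 3, 1, 0, 1, 1, 0, 0],
   [3, 2, 0, 0, 1, 1, 0, 1, 0, 0],
   [2, 2, 1, 4, 3, 4, 3, 1, 0, 0],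
   [3, 0, 2, 0, 0, 1, 3, 1, 0, 0],
   [2, 1, 0, 1, 1, 0, 1, 1, 0, 0],
   [0, 3, 3, 3, 0, 0, 4, 1, 0, 0],
   [1, 4, 0, 2, 4, 3, 0, 1, 0, 0],
   [2, 4, 0, 2, 4, 3, 1, 1, 0, 0],
   [0, 1, 0, 0, 2, 4, 0, 1, 0, 0],
   [2, 3, 2, 1, 3, 2, 2, 1, 0, 0],
   [2, 1, 1, 2, 4, 2, 3, 1, 0, 0],
   [2, 3, 1, 1, 2, 3, 1, 1, 0, 0],
   [4, 3, 3, 1, 2, 3, 3, 1, 0, 0],
   [1, 4, 3, 2, 0, 4, 4, 1, 0, 0],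
   [1, 4, 4, 3, 2, 2, 3, 1, 0, 0],
   [4, 4, 1, 2, 0, 4, 4, 1, 0, 0],
   [0, 2, 4, 1, 0, 0, 0, 1, 0, 0],
   [0, 1, 4, 2, 4, 0, 3, 1, 0, 0],
   [4, 4, 0, 0, 4, 0, 0, 1, 0, 0],
   [0, 1, 0, 4, 0, 0, 1, 1, 0, 0],
   [0, 3, 0, 0, 2, 1, 3, 1, 0, 0]]

def els5_41_5_3 : List (ℕ × ℕ) := [(0, 4453421650001357037), (1, 1854292008957131476), (2, 7991620994503641392), (3, 5042416604391874546), (4, 8860055921371150032), (5, 7956724604130232391), (6, 6799083930568293289), (7, 9065459199708153436), (8, 3023664238029935501), (9, 6032041145372687787), (10, 6547527919172822607), (11, 8601470312216413494), (12, 2860886070879679742), (13, 8592251488865734409), (14, 4552522805401874738)]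

theorem loc5_41_5_3 : chkTypeG 5 41 5 8 5 tab_5_5 20 0 ys5_41_5_3 els5_41_5_3
    [4641, 1609, 4188, 5224, 7360, 8517, 10254, 17930] = true :=
  chkTypeG_of (by decide +kernel) (by decide +kernel) (by decide +kernel) (by decide +kernel)

def ys5_41_5_4 : List (List ℕ) := [[0, 1, 4, 0, 0, 0, 2, 1, 0, 0],
   [3, 3, 1, 1, 1, 1, 1, 0, 0, 0],
   [0, 2, 4, 3, 4, 3, 1, 1, 0, 0],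
   [4, 4, 1, 3, 2, 3, 3, 1, 0, 0],
   [1, 0, 0, 3, 2, 4, 1, 1, 0, 0],
   [0, 4, 4, 1, 0, 4, 1, 0, 0, 0],
   [0, 3, 2, 2, 1, 4, 4, 1, 0, 0],
   [4, 2, 0, 4, 2, 3, 1, 1, 0, 0],
   [4, 2, 0, 4, 2, 2, 4, 1, 0, 0],
   [3, 2, 2, 3, 2, 1, 0, 1, 0, 0],
   [4, 2, 3, 4, 0, 1, 1, 1, 0, 0],
   [0, 4, 2, 0, 3, 3, 1, 1, 0, 0],
   [3, 1, 4, 1, 2, 1, 0, 1, 0, 0],
   [3, 1, 4, 4, 2, 3, 1, 1, 0, 0],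
   [3, 2, 2, 0, 3, 0, 1, 0, 0, 0],
   [3, 4, 2, 0, 0, 2, 1, 1, 0, 0],
   [1, 4, 1, 1, 0, 0, 0, 1, 0, 0],
   [2, 0, 3, 0, 0, 2, 3, 1, 0, 0],
   [3, 0, 0, 0, 4, 1, 1, 0, 0, 0],
   [0, 1, 2, 4, 4, 4, 1, 1, 0, 0],
   [3, 0, 1, 0, 2, 2, 1, 0, 0, 0],
   [1, 1, 3, 2, 1, 2, 1, 1, 0, 0],
   [2, 0, 1, 0, 0, 4, 4, 1, 0, 0],
   [0, 2, 2, 0, 2, 2, 1, 0, 0, 0],
   [3, 1, 2, 1, 1, 3, 1, 1, 0, 0],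
   [1, 2, 4, 3, 4, 4, 2, 1, 0, 0],
   [3, 0, 3, 0, 2, 3, 1, 1, 0, 0],
   [4, 4, 3, 1, 0, 2, 4, 1, 0, 0],
   [4, 2, 2, 1, 3, 3, 2, 1, 0, 0],
   [1, 3, 1, 3, 2, 0, 2, 1, 0, 0],
   [4, 2, 1, 4, 4, 4, 1, 1, 0, 0],
   [1, 3, 4, 2, 2, 3, 1, 1, 0, 0],
   [0, 0, 1, 1, 4, 1, 0, 0, 0, 0],
   [4, 0, 0, 2, 0, 2, 1, 0, 0, 0],
   [3, 3, 0, 3, 4, 3, 1, 1, 0, 0],
   [4, 0, 4, 0, 4, 4, 1, 0, 0, 0],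
   [2, 0, 1, 4, 1, 0, 2, 1, 0, 0],
   [1, 3, 1, 0, 0, 3, 1, 0, 0, 0],
   [4, 0, 4, 3, 3, 2, 0, 1, 0, 0],
   [0, 0, 4, 0, 0, 3, 0, 1, 0, 0],
   [4, 2, 3, 2, 1, 3, 0, 1, 0, 0],
   [1, 1, 4, 4, 4, 4, 1, 0, 0, 0],
   [2, 1, 2, 1, 2, 0, 1, 0, 0, 0],
   [2, 1, 0, 1, 1, 0, 1, 1, 0, 0],
   [4, 0, 3, 1, 0, 0, 0, 0, 0, 0],
   [2, 0, 2, 1, 4, 0, 4, 1, 0, 0],
   [2, 1, 1, 3, 3, 1, 0, 1, 0, 0],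
   [0, 0, 0, 0, 2, 3, 1, 1, 0, 0],
   [2, 2, 4, 0, 1, 4, 2, 1, 0, 0],
   [1, 3, 1, 3, 0, 4, 0, 1, 0, 0],
   [0, 1, 0, 3, 3, 1, 2, 1, 0, 0],
   [1, 0, 3, 1, 4, 1, 1, 1, 0, 0],
   [4, 2, 1, 3, 2, 1, 1, 0, 0, 0],
   [1, 2, 4, 3, 2, 0, 1, 0, 0, 0],
   [0, 3, 3, 3, 0, 0, 4, 1, 0, 0],
   [3, 2, 0, 0, 1, 1, 0, 1, 0, 0],
   [1, 0, 4, 1, 4, 3, 1, 0, 0, 0],
   [4, 4, 3, 1, 0, 3, 1, 0, 0, 0],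
   [4, 3, 4, 3, 3, 3, 1, 1, 0, 0],
   [3, 0, 1, 0, 4, 0, 2, 1, 0, 0],
   [1, 1, 3, 1, 4, 3, 3, 1, 0, 0],
   [0, 0, 0, 4, 3, 1, 1, 0, 0, 0],
   [4, 4, 0, 1, 1, 4, 4, 1, 0, 0],
   [2, 0, 0, 0, 3, 2, 0, 1, 0, 0],
   [0, 2, 4, 2, 2, 4, 4, 1, 0, 0],
   [0, 0, 1, 2, 0, 0, 2, 1, 0, 0],
   [4, 3, 3, 0, 0, 4, 4, 1, 0, 0],
   [0, 2, 4, 1, 0, 0, 0, 1, 0, 0],
   [2, 1, 1, 2, 4, 2, 3, 1, 0, 0],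
   [0, 1, 0, 0, 2, 4, 0, 1, 0, 0],
   [0, 3, 1, 0, 2, 2, 3, 1, 0, 0],
   [2, 3, 1, 1, 2, 3, 1, 1, 0, 0],
   [2, 4, 0, 2, 4, 3, 1, 1, 0, 0],
   [1, 4, 3, 2, 0, 4, 4, 1, 0, 0],
   [2, 3, 2, 1, 3, 2, 2, 1, 0, 0],
   [4, 4, 0, 0, 4, 0, 0, 1, 0, 0],
   [0, 1, 0, 4, 0, 0, 1, 1, 0, 0]]

def els5_41_5_4 : List (ℕ × ℕ) := [(0, 143736371581486610720580), (1, 74691907558526833846639), (2, 92957495497682524331742), (3, 37047199991624182878085), (4, 126118562378959186354601), (5, 102911884381941049436503), (6, 63114029071063885018796), (7, 147277498551212001006000), (8, 94229938464916139514935), (9, 56493850047406705456864), (10, 68208255613178692902259), (11, 138127201892321169078874), (12, 93822068738694099137488), (13, 135694032912869806752778),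 (14, 136579403883779545795209)]

theorem loc5_41_5_4 : chkTypeG 5 41 5 8 5 tab_5_5 21 5 ys5_41_5_4 els5_41_5_4
    [116, 1076, 1108, 1124, 1136, 1441, 3212, 10820, 16435, 28752] = true :=
  chkTypeG_of (by decide +kernel) (by decide +kernel) (by decide +kernel) (by decide +kernel)

def ys5_41_5_5 : List (List ℕ) := [[3, 4, 1, 1, 0, 0, 4, 1, 0, 0],
   [0, 3, 4, 3, 1, 1, 0, 1, 0, 0],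
   [2, 2, 0, 1, 3, 2, 1, 0, 0, 0],
   [4, 4, 1, 1, 3, 2, 1, 1, 0, 0],
   [3, 1, 4, 4, 2, 3, 1, 1, 0, 0],
   [0, 4, 2, 0, 3, 3, 1, 1, 0, 0],
   [4, 2, 3, 4, 0, 1, 1, 1, 0, 0],
   [4, 2, 0, 4, 2, 3, 1, 1, 0, 0],
   [4, 0, 4, 4, 0, 1, 3, 1, 0, 0],
   [3, 4, 2, 0, 0, 2, 1, 1, 0, 0],
   [1, 1, 3, 2, 1, 2, 1, 1, 0, 0],
   [3, 1, 4, 1, 2, 1, 0, 1, 0, 0],
   [3, 4, 2, 1, 2, 2, 4, 1, 0, 0],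
   [4, 4, 1, 1, 3, 2, 1, 0, 0, 0],
   [1, 1, 0, 3, 2, 1, 0, 1, 0, 0],
   [0, 1, 1, 0, 4, 1, 0, 1, 0, 0],
   [3, 0, 1, 0, 2, 2, 1, 0, 0, 0],
   [2, 0, 1, 0, 0, 4, 4, 1, 0, 0],
   [0, 1, 2, 1, 1, 4, 4, 1, 0, 0],
   [3, 2, 2, 0, 3, 0, 1, 0, 0, 0],
   [2, 0, 3, 2, 1, 0, 0, 0, 0, 0],
   [4, 4, 3, 1, 0, 2, 4, 1, 0, 0],
   [0, 3, 2, 2, 1, 4, 4, 1, 0, 0],
   [2, 1, 4, 2, 0, 0, 1, 1, 0, 0],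
   [1, 2, 3, 2, 2, 3, 1, 0, 0, 0],
   [3, 0, 3, 0, 2, 3, 1, 1, 0, 0],
   [2, 2, 1, 1, 2, 1, 4, 1, 0, 0],
   [1, 3, 0, 1, 1, 0, 4, 1, 0, 0],
   [4, 3, 1, 1, 2, 2, 1, 0, 0, 0],
   [3, 1, 3, 0, 0, 2, 2, 1, 0, 0],
   [2, 3, 1, 2, 2, 1, 0, 0, 0, 0],
   [3, 4, 2, 1, 4, 1, 1, 1, 0, 0],
   [4, 0, 4, 3, 3, 2, 0, 1, 0, 0],
   [1, 3, 1, 0, 0, 3, 1, 0, 0, 0],
   [4, 2, 3, 2, 1, 3, 0, 1, 0, 0],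
   [2, 0, 1, 4, 1, 0, 2, 1, 0, 0],
   [1, 1, 4, 4, 4, 4, 1, 0, 0, 0],
   [2, 1, 2, 1, 2, 0, 1, 0, 0, 0],
   [2, 2, 4, 0, 1, 4, 2, 1, 0, 0],
   [2, 1, 0, 1, 1, 0, 1, 1, 0, 0],
   [4, 0, 4, 0, 4, 4, 1, 0, 0, 0],
   [0, 0, 4, 0, 0, 3, 0, 1, 0, 0],
   [3, 2, 0, 0, 1, 1, 0, 1, 0, 0],
   [1, 3, 1, 3, 0, 4, 0, 1, 0, 0],
   [2, 1, 1, 3, 3, 1, 0, 1, 0, 0],
   [1, 2, 4, 3, 2, 0, 1, 0, 0, 0],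
   [3, 4, 0, 4, 4, 1, 0, 1, 0, 0],
   [0, 3, 3, 3, 0, 0, 4, 1, 0, 0],
   [4, 0, 3, 1, 0, 0, 0, 0, 0, 0],
   [1, 0, 3, 1, 4, 1, 1, 1, 0, 0],
   [0, 1, 0, 3, 3, 1, 2, 1, 0, 0],
   [2, 0, 2, 1, 4, 0, 4, 1, 0, 0],
   [4, 2, 1, 3, 2, 1, 1, 0, 0, 0],
   [3, 0, 1, 0, 4, 0, 2, 1, 0, 0],
   [1, 0, 4, 1, 4, 3, 1, 0, 0, 0],
   [2, 2, 3, 1, 1, 1, 0, 1, 0, 0],
   [4, 3, 4, 3, 3, 3, 1, 1, 0, 0],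
   [4, 3, 3, 0, 0, 4, 4, 1, 0, 0],
   [0, 2, 4, 2, 2, 4, 4, 1, 0, 0],
   [2, 0, 0, 0, 3, 2, 0, 1, 0, 0],
   [0, 4, 1, 3, 0, 0, 1, 0, 0, 0],
   [4, 4, 0, 1, 1, 4, 4, 1, 0, 0],
   [0, 0, 1, 2, 0, 0, 2, 1, 0, 0],
   [1, 3, 0, 0, 0, 3, 0, 1, 0, 0],
   [3, 1, 1, 3, 1, 1, 1, 1, 0, 0],
   [0, 0, 0, 4, 3, 1, 1, 0, 0, 0],
   [1, 1, 3, 1, 4, 3, 3, 1, 0, 0],
   [0, 1, 0, 4, 0, 0, 1, 1, 0, 0],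
   [2, 1, 1, 2, 4, 2, 3, 1, 0, 0],
   [2, 3, 2, 1, 3, 2, 2, 1, 0, 0],
   [1, 4, 3, 2, 0, 4, 4, 1, 0, 0],
   [2, 4, 0, 2, 4, 3, 1, 1, 0, 0],
   [0, 3, 1, 0, 2, 2, 3, 1, 0, 0],
   [2, 3, 1, 1, 2, 3, 1, 1, 0, 0],
   [4, 4, 0, 0, 4, 0, 0, 1, 0, 0],
   [0, 2, 4, 1, 0, 0, 0, 1, 0, 0],
   [0, 1, 0, 0, 2, 4, 0, 1, 0, 0]]

def els5_41_5_5 : List (ℕ × ℕ) := [(0, 139014636271044605158736), (1, 37502607002995328546364), (2, 126587873202011194887398), (3, 56458696239237306508774), (4, 105564631238963548033951), (5, 55127618297404585162554), (6, 64695504095311118994133), (7, 136579656687205443017867), (8, 93820380555423400852333), (9, 112465971463074980523730), (10, 101339267382080656395625), (11, 135694166000923026683956), (12, 56028718216040818637210),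 (13, 142851421721758065689161), (14, 147278552192218417910693)]

theorem loc5_41_5_5 : chkTypeG 5 41 5 8 5 tab_5_5 26 8 ys5_41_5_5 els5_41_5_5
    [116, 1076, 1108, 1124, 1136, 1441, 3212, 10820, 16435, 28752] = true :=
  chkTypeG_of (by decide +kernel) (by decide +kernel) (by decide +kernel) (by decide +kernel)

def ys5_41_5_6 : List (List ℕ) := [[3, 1, 4, 4, 2, 3, 1, 1, 0, 0],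
   [1, 4, 3, 3, 1, 4, 3, 1, 0, 0],
   [2, 0, 2, 1, 3, 1, 1, 1, 0, 0],
   [1, 0, 2, 3, 2, 4, 4, 1, 0, 0],
   [2, 4, 0, 2, 2, 3, 1, 1, 0, 0],
   [2, 0, 0, 2, 1, 1, 2, 1, 0, 0],
   [2, 0, 1, 2, 4, 2, 3, 1, 0, 0],
   [1, 3, 4, 1, 3, 4, 4, 1, 0, 0],
   [2, 0, 3, 0, 0, 2, 3, 1, 0, 0],
   [1, 1, 3, 2, 1, 2, 1, 1, 0, 0],
   [3, 3, 3, 1, 4, 0, 4, 1, 0, 0],
   [4, 3, 2, 3, 2, 2, 3, 1, 0, 0],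
   [0, 4, 4, 0, 2, 4, 4, 1, 0, 0],
   [2, 0, 0, 0, 2, 3, 4, 1, 0, 0],
   [3, 1, 1, 1, 0, 0, 1, 1, 0, 0],
   [3, 4, 0, 4, 3, 1, 1, 1, 0, 0],
   [4, 2, 1, 4, 4, 4, 1, 1, 0, 0],
   [3, 2, 1, 4, 4, 4, 1, 0, 0, 0],
   [4, 2, 0, 4, 2, 2, 4, 1, 0, 0],
   [4, 2, 4, 1, 1, 0, 0, 1, 0, 0],
   [2, 1, 4, 1, 3, 2, 1, 0, 0, 0],
   [1, 1, 4, 3, 4, 4, 3, 1, 0, 0],
   [2, 1, 1, 4, 2, 2, 0, 1, 0, 0],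
   [3, 4, 4, 4, 2, 3, 1, 1, 0, 0],
   [1, 3, 3, 4, 0, 1, 1, 0, 0, 0],
   [2, 0, 1, 4, 1, 0, 2, 1, 0, 0],
   [2, 2, 4, 0, 1, 4, 2, 1, 0, 0],
   [2, 3, 4, 2, 0, 3, 0, 1, 0, 0],
   [2, 0, 2, 1, 4, 0, 4, 1, 0, 0],
   [2, 1, 2, 1, 2, 0, 1, 0, 0, 0],
   [1, 1, 3, 1, 4, 3, 3, 1, 0, 0],
   [1, 2, 4, 3, 2, 0, 1, 0, 0, 0],
   [0, 1, 4, 3, 1, 0, 1, 1, 0, 0],
   [3, 0, 1, 0, 4, 0, 2, 1, 0, 0],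
   [2, 1, 1, 3, 3, 1, 0, 1, 0, 0],
   [1, 1, 4, 4, 4, 4, 1, 0, 0, 0],
   [4, 0, 4, 3, 3, 2, 0, 1, 0, 0],
   [4, 2, 3, 2, 1, 3, 0, 1, 0, 0],
   [1, 3, 1, 0, 0, 3, 1, 0, 0, 0],
   [2, 1, 0, 1, 1, 0, 1, 1, 0, 0],
   [0, 0, 2, 4, 2, 0, 1, 0, 0, 0],
   [1, 3, 1, 3, 0, 4, 0, 1, 0, 0],
   [1, 0, 4, 1, 4, 3, 1, 0, 0, 0],
   [2, 2, 3, 1, 1, 1, 0, 1, 0, 0],
   [0, 0, 0, 0, 2, 3, 1, 1, 0, 0],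
   [4, 1, 2, 3, 4, 2, 3, 1, 0, 0],
   [3, 4, 0, 4, 4, 1, 0, 1, 0, 0],
   [4, 4, 3, 1, 0, 3, 1, 0, 0, 0],
   [0, 1, 0, 0, 3, 4, 1, 0, 0, 0],
   [3, 0, 0, 2, 0, 2, 0, 1, 0, 0],
   [4, 0, 3, 1, 0, 0, 0, 0, 0, 0],
   [2, 0, 4, 3, 0, 1, 0, 0, 0, 0],
   [3, 4, 3, 3, 1, 1, 0, 0, 0, 0],
   [4, 3, 3, 0, 0, 4, 4, 1, 0, 0],
   [1, 0, 3, 1, 4, 1, 1, 1, 0, 0],
   [4, 2, 1, 3, 2, 1, 1, 0, 0, 0],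
   [0, 0, 4, 0, 0, 3, 0, 1, 0, 0],
   [0, 0, 1, 2, 0, 0, 2, 1, 0, 0],
   [3, 4, 3, 0, 0, 4, 1, 0, 0, 0],
   [2, 1, 1, 2, 4, 2, 3, 1, 0, 0],
   [0, 1, 4, 2, 4, 0, 3, 1, 0, 0],
   [0, 2, 4, 1, 0, 0, 0, 1, 0, 0],
   [1, 4, 4, 3, 2, 2, 3, 1, 0, 0],
   [0, 3, 0, 0, 2, 1, 3, 1, 0, 0],
   [1, 4, 3, 2, 0, 4, 4, 1, 0, 0],
   [4, 4, 0, 0, 4, 0, 0, 1, 0, 0],
   [0, 1, 0, 4, 0, 0, 1, 1, 0, 0],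
   [4, 4, 1, 2, 0, 4, 4, 1, 0, 0],
   [2, 3, 2, 1, 3, 2, 2, 1, 0, 0],
   [4, 3, 3, 1, 2, 3, 3, 1, 0, 0]]

def els5_41_5_6 : List (ℕ × ℕ) := [(0, 1023142903021797991287), (1, 357228883322413700079), (2, 843234073169524600492), (3, 920701077576063860380), (4, 878327739340672156753), (5, 1120017686344508466759), (6, 1083600945128557613457), (7, 1032151630966039682626), (8, 688921483633801949354), (9, 217858602921230941145), (10, 1099643356629952138018), (11, 1160698832183250544683), (12, 247456679508126916095), (13, 570324134744452359604), (14, 562031717931399912796)]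

theorem loc5_41_5_6 : chkTypeG 5 41 5 8 5 tab_5_5 31 8 ys5_41_5_6 els5_41_5_6
    [298, 4648, 2630, 4898, 5217, 8246, 18177, 19716, 28690] = true :=
  chkTypeG_of (by decide +kernel) (by decide +kernel) (by decide +kernel) (by decide +kernel)

def ys5_41_5_7 : List (List ℕ) := [[4, 1, 2, 1, 0, 4, 4, 1, 0, 0],
   [0, 0, 2, 1, 1, 0, 2, 1, 0, 0],
   [0, 2, 4, 3, 4, 3, 1, 1, 0, 0],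
   [1, 2, 0, 2, 2, 1, 1, 0, 0, 0],
   [3, 0, 1, 1, 0, 4, 4, 1, 0, 0],
   [3, 4, 0, 4, 3, 1, 1, 1, 0, 0],
   [2, 2, 0, 1, 3, 2, 1, 0, 0, 0],
   [4, 4, 1, 1, 3, 2, 1, 1, 0, 0],
   [1, 3, 0, 4, 0, 2, 3, 1, 0, 0],
   [0, 4, 2, 0, 3, 3, 1, 1, 0, 0],
   [4, 2, 3, 4, 0, 1, 1, 1, 0, 0],
   [4, 2, 0, 4, 2, 3, 1, 1, 0, 0],
   [3, 1, 4, 4, 2, 3, 1, 1, 0, 0],
   [3, 4, 2, 0, 0, 2, 1, 1, 0, 0],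
   [1, 1, 3, 2, 1, 2, 1, 1, 0, 0],
   [4, 0, 4, 4, 0, 1, 3, 1, 0, 0],
   [3, 0, 0, 0, 4, 1, 1, 0, 0, 0],
   [0, 0, 1, 4, 0, 3, 1, 0, 0, 0],
   [0, 2, 2, 0, 2, 2, 1, 0, 0, 0],
   [2, 2, 1, 2, 0, 2, 3, 1, 0, 0],
   [3, 1, 1, 1, 0, 0, 1, 1, 0, 0],
   [3, 1, 4, 1, 2, 1, 0, 1, 0, 0],
   [0, 3, 0, 4, 0, 4, 4, 1, 0, 0],
   [3, 0, 1, 0, 2, 2, 1, 0, 0, 0],
   [0, 1, 3, 0, 0, 2, 1, 0, 0, 0],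
   [0, 3, 2, 1, 4, 0, 2, 1, 0, 0],
   [2, 1, 2, 0, 4, 1, 3, 1, 0, 0],
   [2, 2, 1, 1, 2, 1, 4, 1, 0, 0],
   [4, 2, 1, 4, 4, 4, 1, 1, 0, 0],
   [4, 4, 3, 1, 0, 2, 4, 1, 0, 0],
   [2, 4, 4, 1, 2, 0, 2, 1, 0, 0],
   [1, 2, 1, 0, 3, 2, 3, 1, 0, 0],
   [4, 4, 4, 4, 0, 0, 1, 0, 0, 0],
   [2, 2, 4, 2, 0, 2, 0, 1, 0, 0],
   [4, 0, 0, 0, 4, 0, 4, 1, 0, 0],
   [2, 3, 0, 4, 1, 3, 3, 1, 0, 0],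
   [4, 2, 3, 2, 1, 3, 0, 1, 0, 0],
   [1, 3, 1, 0, 0, 3, 1, 0, 0, 0],
   [2, 0, 1, 4, 1, 0, 2, 1, 0, 0],
   [0, 0, 4, 0, 0, 3, 0, 1, 0, 0],
   [4, 0, 4, 3, 3, 2, 0, 1, 0, 0],
   [4, 0, 4, 0, 4, 4, 1, 0, 0, 0],
   [2, 1, 0, 1, 1, 0, 1, 1, 0, 0],
   [2, 1, 2, 1, 2, 0, 1, 0, 0, 0],
   [4, 0, 3, 1, 0, 0, 0, 0, 0, 0],
   [1, 3, 4, 0, 4, 1, 1, 0, 0, 0],
   [2, 0, 2, 1, 4, 0, 4, 1, 0, 0],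
   [2, 2, 4, 0, 1, 4, 2, 1, 0, 0],
   [1, 2, 4, 3, 2, 0, 1, 0, 0, 0],
   [1, 1, 4, 4, 4, 4, 1, 0, 0, 0],
   [1, 3, 4, 1, 1, 4, 4, 1, 0, 0],
   [2, 1, 1, 3, 3, 1, 0, 1, 0, 0],
   [0, 3, 3, 3, 0, 0, 4, 1, 0, 0],
   [3, 2, 0, 0, 1, 1, 0, 1, 0, 0],
   [4, 2, 1, 3, 2, 1, 1, 0, 0, 0],
   [4, 4, 0, 1, 1, 4, 4, 1, 0, 0],
   [1, 0, 3, 1, 4, 1, 1, 1, 0, 0],
   [1, 0, 4, 1, 4, 3, 1, 0, 0, 0],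
   [4, 4, 3, 1, 0, 3, 1, 0, 0, 0],
   [3, 0, 1, 0, 4, 0, 2, 1, 0, 0],
   [2, 2, 3, 1, 1, 1, 0, 1, 0, 0],
   [0, 0, 2, 4, 2, 0, 1, 0, 0, 0],
   [0, 4, 1, 3, 0, 0, 1, 0, 0, 0],
   [2, 0, 0, 0, 3, 2, 0, 1, 0, 0],
   [0, 2, 4, 2, 2, 4, 4, 1, 0, 0],
   [0, 0, 0, 4, 3, 1, 1, 0, 0, 0],
   [3, 1, 1, 3, 1, 1, 1, 1, 0, 0],
   [3, 0, 0, 2, 0, 2, 0, 1, 0, 0],
   [0, 1, 0, 0, 2, 4, 0, 1, 0, 0],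
   [0, 3, 1, 0, 2, 2, 3, 1, 0, 0],
   [0, 2, 4, 1, 0, 0, 0, 1, 0, 0],
   [2, 1, 1, 2, 4, 2, 3, 1, 0, 0],
   [2, 3, 1, 1, 2, 3, 1, 1, 0, 0],
   [2, 4, 0, 2, 4, 3, 1, 1, 0, 0],
   [1, 4, 3, 2, 0, 4, 4, 1, 0, 0],
   [4, 4, 0, 0, 4, 0, 0, 1, 0, 0],
   [0, 1, 0, 4, 0, 0, 1, 1, 0, 0],
   [2, 3, 2, 1, 3, 2, 2, 1, 0, 0]]

def els5_41_5_7 : List (ℕ × ℕ) := [(0, 285554876835383093679364), (1, 225143399138451743208421), (2, 110154162968951167536997), (3, 188455650505309806776140), (4, 139802443077260768688345), (5, 242776130217540444811926), (6, 202749303079202424110463), (7, 294556165662820757096632), (8, 111900708773829090977774), (9, 74095611807761374477331), (10, 211138434773729128335018), (11, 278026442039411774919489), (12, 112974507550369094736059),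 (13, 273304220104672390489506), (14, 271387344596631804619344)]

theorem loc5_41_5_7 : chkTypeG 5 41 5 8 5 tab_5_5 35 39 ys5_41_5_7 els5_41_5_7
    [116, 1076, 1108, 1124, 1136, 1441, 3212, 10820, 16435, 28752] = true :=
  chkTypeG_of (by decide +kernel) (by decide +kernel) (by decide +kernel) (by decide +kernel)

def ys5_41_5_8 : List (List ℕ) := [[2, 1, 4, 3, 4, 2, 2, 1, 0, 0],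
   [4, 3, 1, 0, 1, 1, 1, 0, 0, 0],
   [3, 2, 1, 4, 4, 4, 1, 0, 0, 0],
   [0, 3, 1, 3, 2, 2, 3, 1, 0, 0],
   [4, 2, 2, 4, 1, 1, 1, 0, 0, 0],
   [4, 0, 0, 0, 4, 0, 4, 1, 0, 0],
   [0, 3, 2, 2, 1, 4, 4, 1, 0, 0],
   [1, 3, 0, 4, 0, 2, 3, 1, 0, 0],
   [1, 4, 3, 4, 2, 4, 2, 1, 0, 0],
   [4, 1, 1, 3, 2, 3, 1, 1, 0, 0],
   [1, 3, 4, 2, 2, 3, 1, 1, 0, 0],
   [1, 4, 3, 3, 1, 4, 3, 1, 0, 0],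
   [0, 3, 3, 2, 2, 2, 4, 1, 0, 0],
   [2, 2, 3, 1, 4, 4, 1, 1, 0, 0],
   [2, 2, 3, 0, 2, 1, 0, 0, 0, 0],
   [4, 4, 1, 0, 2, 2, 2, 1, 0, 0],
   [4, 2, 4, 1, 2, 0, 4, 1, 0, 0],
   [3, 1, 3, 2, 3, 1, 0, 1, 0, 0],
   [2, 1, 1, 4, 2, 2, 0, 1, 0, 0],
   [2, 2, 0, 0, 0, 2, 1, 0, 0, 0],
   [1, 3, 1, 3, 0, 4, 0, 1, 0, 0],
   [2, 2, 4, 0, 1, 4, 2, 1, 0, 0],
   [1, 3, 1, 0, 0, 3, 1, 0, 0, 0],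
   [3, 0, 1, 0, 4, 0, 2, 1, 0, 0],
   [1, 3, 3, 4, 0, 1, 1, 0, 0, 0],
   [1, 3, 4, 1, 1, 4, 4, 1, 0, 0],
   [1, 1, 4, 4, 4, 4, 1, 0, 0, 0],
   [4, 3, 3, 2, 4, 2, 1, 1, 0, 0],
   [4, 0, 4, 0, 4, 4, 1, 0, 0, 0],
   [2, 2, 3, 1, 1, 1, 0, 1, 0, 0],
   [2, 1, 0, 1, 1, 0, 1, 1, 0, 0],
   [1, 0, 4, 1, 4, 3, 1, 0, 0, 0],
   [2, 1, 2, 1, 2, 0, 1, 0, 0, 0],
   [4, 3, 3, 4, 3, 0, 2, 1, 0, 0],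
   [0, 1, 4, 3, 1, 0, 1, 1, 0, 0],
   [0, 1, 0, 3, 3, 1, 2, 1, 0, 0],
   [2, 1, 1, 3, 3, 1, 0, 1, 0, 0],
   [3, 0, 0, 2, 0, 2, 0, 1, 0, 0],
   [3, 2, 0, 0, 1, 1, 0, 1, 0, 0],
   [3, 4, 4, 2, 3, 2, 1, 1, 0, 0],
   [4, 1, 2, 3, 4, 2, 3, 1, 0, 0],
   [4, 0, 4, 3, 3, 2, 0, 1, 0, 0],
   [0, 0, 4, 0, 0, 3, 0, 1, 0, 0],
   [4, 3, 3, 0, 0, 4, 4, 1, 0, 0],
   [3, 4, 0, 4, 4, 1, 0, 1, 0, 0],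
   [0, 1, 0, 0, 3, 4, 1, 0, 0, 0],
   [4, 3, 4, 3, 3, 3, 1, 1, 0, 0],
   [2, 0, 4, 3, 0, 1, 0, 0, 0, 0],
   [3, 3, 1, 2, 2, 0, 3, 1, 0, 0],
   [1, 0, 3, 1, 4, 1, 1, 1, 0, 0],
   [1, 3, 4, 0, 4, 1, 1, 0, 0, 0],
   [4, 4, 0, 0, 4, 0, 0, 1, 0, 0],
   [2, 3, 1, 1, 2, 3, 1, 1, 0, 0],
   [4, 3, 3, 1, 2, 3, 3, 1, 0, 0],
   [0, 3, 1, 0, 2, 2, 3, 1, 0, 0],
   [0, 1, 0, 4, 0, 0, 1, 1, 0, 0],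
   [4, 4, 1, 2, 0, 4, 4, 1, 0, 0],
   [1, 4, 3, 2, 0, 4, 4, 1, 0, 0],
   [1, 4, 4, 3, 2, 2, 3, 1, 0, 0],
   [2, 1, 1, 2, 4, 2, 3, 1, 0, 0],
   [2, 3, 2, 1, 3, 2, 2, 1, 0, 0],
   [0, 1, 4, 2, 4, 0, 3, 1, 0, 0],
   [0, 3, 0, 0, 2, 1, 3, 1, 0, 0],
   [1, 4, 0, 2, 4, 3, 0, 1, 0, 0],
   [0, 1, 0, 0, 2, 4, 0, 1, 0, 0]]

def els5_41_5_8 : List (ℕ × ℕ) := [(0, 31628351765309758403), (1, 13715984404946876877), (2, 34853895845171732733), (3, 6807180026041742015), (4, 35432597761648776740), (5, 17435624070371487298), (6, 17973793217037038992), (7, 26999059329674693900), (8, 21830170727612403128), (9, 24164678804316243539), (10, 36562952716964694378), (11, 25197515037743045373), (12, 10362793679308701540), (13, 34416036650633868443),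 (14, 31551995637595235126)]

theorem loc5_41_5_8 : chkTypeG 5 41 5 8 5 tab_5_5 37 0 ys5_41_5_8 els5_41_5_8
    [458, 2346, 6220, 6944, 9505, 9734, 10262, 17944, 20493, 22593] = true :=
  chkTypeG_of (by decide +kernel) (by decide +kernel) (by decide +kernel) (by decide +kernel)

def ys5_41_5_9 : List (List ℕ) := [[4, 2, 0, 1, 4, 1, 0, 1, 0, 0],
   [1, 3, 2, 4, 2, 3, 1, 1, 0, 0],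
   [3, 4, 2, 3, 3, 4, 1, 1, 0, 0],
   [3, 1, 4, 2, 3, 0, 2, 1, 0, 0],
   [0, 3, 4, 1, 4, 3, 1, 1, 0, 0],
   [2, 0, 1, 2, 4, 2, 3, 1, 0, 0],
   [4, 2, 1, 4, 4, 4, 1, 1, 0, 0],
   [0, 3, 1, 3, 2, 2, 3, 1, 0, 0],
   [4, 2, 4, 4, 3, 3, 1, 0, 0, 0],
   [0, 0, 1, 2, 2, 3, 4, 1, 0, 0],
   [2, 4, 4, 2, 1, 0, 3, 1, 0, 0],
   [4, 1, 1, 3, 2, 3, 1, 1, 0, 0],
   [3, 4, 0, 0, 4, 1, 0, 1, 0, 0],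
   [0, 1, 3, 1, 0, 4, 4, 1, 0, 0],
   [3, 1, 1, 1, 0, 0, 1, 1, 0, 0],
   [0, 4, 3, 0, 3, 3, 4, 1, 0, 0],
   [3, 3, 4, 2, 1, 1, 4, 1, 0, 0],
   [4, 3, 2, 0, 1, 2, 1, 0, 0, 0],
   [3, 4, 2, 0, 0, 2, 1, 1, 0, 0],
   [2, 0, 2, 1, 4, 0, 4, 1, 0, 0],
   [0, 0, 0, 0, 2, 3, 1, 1, 0, 0],
   [2, 2, 3, 1, 1, 1, 0, 1, 0, 0],
   [2, 1, 2, 1, 2, 0, 1, 0, 0, 0],
   [1, 3, 3, 4, 0, 1, 1, 0, 0, 0],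
   [0, 1, 0, 0, 3, 4, 1, 0, 0, 0],
   [2, 0, 1, 4, 1, 0, 2, 1, 0, 0],
   [2, 2, 4, 0, 1, 4, 2, 1, 0, 0],
   [4, 3, 4, 3, 3, 3, 1, 1, 0, 0],
   [3, 0, 2, 0, 0, 1, 3, 1, 0, 0],
   [0, 0, 4, 0, 0, 3, 0, 1, 0, 0],
   [2, 1, 0, 1, 1, 0, 1, 1, 0, 0],
   [4, 0, 3, 1, 0, 0, 0, 0, 0, 0],
   [4, 4, 3, 1, 0, 3, 1, 0, 0, 0],
   [1, 2, 4, 3, 2, 0, 1, 0, 0, 0],
   [1, 3, 4, 1, 1, 4, 4, 1, 0, 0],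
   [2, 1, 1, 3, 3, 1, 0, 1, 0, 0],
   [1, 1, 4, 4, 4, 4, 1, 0, 0, 0],
   [3, 2, 3, 1, 4, 4, 2, 1, 0, 0],
   [3, 4, 0, 4, 4, 1, 0, 1, 0, 0],
   [1, 3, 1, 3, 0, 4, 0, 1, 0, 0],
   [0, 2, 4, 2, 2, 4, 4, 1, 0, 0],
   [4, 3, 3, 4, 3, 0, 2, 1, 0, 0],
   [1, 1, 3, 1, 4, 3, 3, 1, 0, 0],
   [1, 0, 4, 1, 4, 3, 1, 0, 0, 0],
   [2, 3, 4, 2, 0, 3, 0, 1, 0, 0],
   [0, 1, 0, 3, 3, 1, 2, 1, 0, 0],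
   [1, 3, 1, 0, 0, 3, 1, 0, 0, 0],
   [4, 3, 3, 1, 2, 3, 3, 1, 0, 0],
   [2, 3, 1, 1, 2, 3, 1, 1, 0, 0],
   [4, 4, 0, 0, 4, 0, 0, 1, 0, 0],
   [0, 2, 4, 1, 0, 0, 0, 1, 0, 0],
   [0, 3, 1, 0, 2, 2, 3, 1, 0, 0],
   [2, 1, 1, 2, 4, 2, 3, 1, 0, 0],
   [2, 4, 0, 2, 4, 3, 1, 1, 0, 0],
   [4, 4, 1, 2, 0, 4, 4, 1, 0, 0],
   [0, 1, 0, 0, 2, 4, 0, 1, 0, 0],
   [1, 4, 4, 3, 2, 2, 3, 1, 0, 0],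
   [0, 1, 4, 2, 4, 0, 3, 1, 0, 0],
   [2, 3, 2, 1, 3, 2, 2, 1, 0, 0],
   [0, 1, 0, 4, 0, 0, 1, 1, 0, 0],
   [0, 3, 0, 0, 2, 1, 3, 1, 0, 0]]

def els5_41_5_9 : List (ℕ × ℕ) := [(0, 1121087677801262974), (1, 521011708448135096), (2, 1938226976023160196), (3, 1530659645216758210), (4, 1933155243969669482), (5, 2192583128160558704), (6, 1620974796408652621), (7, 2280767085310718139), (8, 844984554149541573), (9, 1295657968040591227), (10, 1646804431787463828), (11, 2159099677577923456), (12, 683780499528448063), (13, 2150299268755605213), (14, 1139196693469571107)]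

theorem loc5_41_5_9 : chkTypeG 5 41 5 8 5 tab_5_5 40 3 ys5_41_5_9 els5_41_5_9
    [4103, 781, 920, 3618, 4498, 9266] = true :=
  chkTypeG_of (by decide +kernel) (by decide +kernel) (by decide +kernel) (by decide +kernel)

end Poonen
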