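import Pool.Agent.Poonen.Tabs
import Pool.Agent.Poonen.Local3
import Pool.Agent.Poonen.Loc5_41_5_p0

/-!
# Local constraint for `N = 5`, `p = 41`, `q = 5` (MP_7564fc_nt)
-/

namespace Poonen

/-- Local types and exceptional sets. -/
def lcert5_41_5 : List (ℕ × ℕ × List ℕ) := [(2, 0, [2828, 4300, 6308, 10277, 12361, 12421, 12688, 20641]),
  (7, 11, [174, 2246, 4428, 6944, 8600, 20499, 21640, 25606]),
  (10, 9, [116, 1076, 1108, 1124, 1136, 1441, 3212, 10820, 16435, 28752]),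
  (20, 0, [4641, 1609, 4188, 5224, 7360, 8517, 10254, 17930]),
  (21, 5, [116, 1076, 1108, 1124, 1136, 1441, 3212, 10820, 16435, 28752]),
  (26, 8, [116, 1076, 1108, 1124, 1136, 1441, 3212, 10820, 16435, 28752]),
  (31, 8, [298, 4648, 2630, 4898, 5217, 8246, 18177, 19716, 28690]),
  (35, 39, [116, 1076, 1108, 1124, 1136, 1441, 3212, 10820, 16435, 28752]),
  (37, 0, [458, 2346, 6220, 6944, 9505, 9734, 10262, 17944, 20493, 22593]),
  (40, 3, [4103, 781, 920, 3618, 4498, 9266])]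

theorem lcert5_41_5_ok : ∀ e ∈ lcert5_41_5, ∃ ys els,
    chkTypeG 5 41 5 8 5 tab_5_5 e.1 e.2.1 ys els e.2.2 = true := by
  intro e he
  simp only [lcert5_41_5, List.mem_cons, List.not_mem_nil, or_false] at he
  rcases he with rfl | rfl | rfl | rfl | rfl | rfl | rfl | rfl | rfl | rfl
  · exact ⟨_, _, loc5_41_5_0⟩
  · exact ⟨_, _, loc5_41_5_1⟩
  · exact ⟨_, _, loc5_41_5_2⟩
  · exact ⟨_, _, loc5_41_5_3⟩
  · exact ⟨_, _, loc5_41_5_4⟩
  · exact ⟨_, _, loc5_41_5_5⟩
  · exact ⟨_, _, loc5_41_5_6⟩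
  · exact ⟨_, _, loc5_41_5_7⟩
  · exact ⟨_, _, loc5_41_5_8⟩
  · exact ⟨_, _, loc5_41_5_9⟩

theorem lcert5_41_5_types : chkTypes 5 41 (lcert5_41_5.map fun e => (e.1, e.2.1)) = true := by
  decide +kernel

/-- Exceptional sets, relative. -/
def LR5_41_5 : List ℕ := [116, 298, 1076, 1108, 1124, 1136, 4103, 4641, 4648, 174, 458, 781, 920, 1441, 1609, 2246, 2630, 2828, 3212, 3618, 4188, 4300, 4428, 4498, 4898, 5217, 5224, 6220, 6308, 6944, 7360, 8246, 8517, 8600, 9266, 9505, 9734, 10254, 10262, 10277, 10820, 12361, 12421, 12688, 16435, 17930, 17944, 18177, 19716, 20493, 20499, 20641, 21640, 22593, 25606, 28690, 28752]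

/-- Exceptional sets, absolute. -/
def LA5_41_5 : List ℕ := [116, 298, 330, 450, 792, 1076, 1108, 1124, 1136, 1800, 2310, 2328, 4103, 4358, 4370, 4620, 4641, 4648, 4674, 5250, 5634, 8520, 8744, 16920, 22016, 91, 174, 217, 419, 602, 626, 666, 675, 677, 707, 724, 740, 781, 782, 820, 849, 944, 1053, 1067, 1070, 1101, 1114, 1174, 1417, 1418, 1441, 1558, 1609, 1681, 1797, 1798, 1825, 1860, 1924, 2246, 2371, 2404, 2567, 2609, 2627, 2629, 2630, 2642, 2700, 2736, 2754, 2828, 2834, 3203, 3212, 3464, 3618, 3904, 4188, 4237, 4280, 4298, 4300, 4387, 4425, 4428, 4452, 4634, 4756, 4808, 4869, 4898, 4912, 4936, 5162, 5217, 5224, 5253, 5260, 5386, 5393, 5424, 6193, 6220, 6242, 6256, 6308, 6433, 6544, 6674, 6944, 7208, 7248, 7360, 7552, 8246, 8269, 8339, 8417, 8517, 8600, 8786, 8993, 9266, 9304, 9354, 9378, 9490, 9505, 9734, 9985, 10254, 10262, 10277, 10282, 10513, 10576, 10628, 10764, 10820, 11273, 11330, 12316, 12361, 12421, 12496, 12578, 12584,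 12592, 12624, 12688, 12736, 12872, 13322, 13472, 13572, 13825, 14608, 14912, 15392, 16435, 16442, 16462, 16489, 16600, 16675, 16684, 16709, 16948, 16994, 17042, 17104, 17158, 17433, 17450, 17548, 17674, 17700, 17760, 17930, 17953, 18177, 18453, 18458, 18474, 18482, 18626, 18848, 18984, 19204, 19462, 19600, 19716, 19969, 20493, 20499, 20505, 20614, 20620, 20641, 20784, 20804, 21010, 21640, 22593, 24618, 24632, 24744, 24852, 24928, 25105, 25220, 25408, 25606, 25792, 26368, 26696, 28690, 28752, 29248]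

theorem localOK_5_41_5 : LocalOK 5 41 8 5 LR5_41_5 LA5_41_5 := by
  have hp : Fact (Nat.Prime 41) := ⟨by norm_num⟩
  exact local_ok 5 41 5 8 5 (by norm_num) (by norm_num) (by decide) (by norm_num) _
    tab_5_5_eq rotOK_5 lcert5_41_5 lcert5_41_5_ok lcert5_41_5_types LR5_41_5 LA5_41_5 (by decide +kernel)
    (by decide +kernel)

end Poonen
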