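import Pool.Agent.Poonen.Tabs
import Pool.Agent.Poonen.Local3
import Pool.Agent.Poonen.Loc5_47_23_p0
import Pool.Agent.Poonen.Loc5_47_23_p1
import Pool.Agent.Poonen.Loc5_47_23_p2

/-!
# Local constraint for `N = 5`, `p = 47`, `q = 23` (MP_7564fc_nt)
-/

namespace Poonen

/-- Local types and exceptional sets. -/
def lcert5_47_23 : List (ℕ × ℕ × List ℕ) := [(6, 1, [159, 235, 4326, 5209, 5270, 5297, 5317, 5322, 10507, 11440, 12819, 13024, 14610, 17933, 29856, 30272]),
  (11, 14, [4465, 8347, 14658, 16563, 16997, 17701, 17969, 18051, 18244, 19206, 21672, 21777]),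
  (13, 17, [694, 2390, 3536, 3748, 3936, 17752]),
  (17, 4, [12592, 3976, 4713, 8350, 8643, 18478]),
  (19, 35, [8247, 9890, 11523, 19974, 22145]),
  (29, 37, [1385, 3864, 9666, 11440, 15489, 19017, 19268, 22704, 23681, 29825, 31745, 31872])]

theorem lcert5_47_23_ok : ∀ e ∈ lcert5_47_23, ∃ ys els,
    chkTypeG 5 47 23 2 6 tab_23_5 e.1 e.2.1 ys els e.2.2 = true := by
  intro e he
  simp only [lcert5_47_23, List.mem_cons, List.not_mem_nil, or_false] at he
  rcases he with rfl | rfl | rfl | rfl | rfl | rfl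
  · exact ⟨_, _, loc5_47_23_0⟩
  · exact ⟨_, _, loc5_47_23_1⟩
  · exact ⟨_, _, loc5_47_23_2⟩
  · exact ⟨_, _, loc5_47_23_3⟩
  · exact ⟨_, _, loc5_47_23_4⟩
  · exact ⟨_, _, loc5_47_23_5⟩

theorem lcert5_47_23_types : chkTypes 5 47 (lcert5_47_23.map fun e => (e.1, e.2.1)) = true := by
  decide +kernel

/-- Exceptional sets, relative. -/
def LR5_47_23 : List ℕ := [12592, 159, 235, 694, 1385, 2390, 3536, 3748, 3864, 3936, 3976, 4326, 4465, 4713, 5209, 5270, 5297, 5317, 5322, 8247, 8347, 8350, 8643, 9666, 9890, 10507, 11440, 11523, 12819, 13024, 14610, 14658, 15489, 16563, 16997, 17701, 17752, 17933, 17969, 18051, 18244, 18478, 19017, 19206, 19268, 19974, 21672, 21777, 22145, 22704, 23681, 29825, 29856, 30272, 31745, 31872]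

/-- Exceptional sets, absolute. -/
def LA5_47_23 : List ℕ := [1797, 2642, 4300, 12592, 17450, 159, 175, 190, 231, 235, 427, 483, 490, 573, 694, 754, 1209, 1210, 1229, 1385, 1692, 2230, 2262, 2289, 2390, 2406, 2589, 2659, 2772, 2838, 2865, 3040, 3101, 3238, 3270, 3339, 3410, 3480, 3489, 3536, 3591, 3748, 3864, 3876, 3936, 3976, 3984, 4032, 4189, 4326, 4375, 4465, 4713, 4749, 4805, 4901, 5209, 5270, 5285, 5297, 5317, 5318, 5322, 5329, 5457, 5653, 5669, 5729, 5769, 5778, 5856, 6183, 6201, 6279, 6354, 6438, 6533, 6756, 6790, 6850, 6945, 7190, 7457, 7472, 7489, 7520, 8247, 8271, 8347, 8350, 8487, 8508, 8550, 8568, 8643, 8645, 8809, 8913, 8932, 9009, 9100, 9246, 9262, 9358, 9546, 9560, 9666, 9890, 10049, 10300, 10375, 10393, 10442, 10507, 10546, 10580, 10608, 10689, 10690, 10793, 10796, 10801, 10913, 11299, 11404, 11440, 11523, 11588, 11616, 12377, 12613, 12617, 12648, 12740, 12819, 12844, 12931, 12945, 13024, 13337, 13340, 13388, 13394, 13450, 13480, 13712, 14364, 14380,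 14448, 14610, 14658, 14860, 15369, 15384, 15428, 15489, 16563, 16597, 16602, 16694, 16753, 16956, 16982, 16997, 16998, 17009, 17050, 17062, 17074, 17180, 17193, 17252, 17360, 17701, 17752, 17864, 17888, 17933, 17946, 17957, 17969, 17976, 18024, 18051, 18185, 18244, 18478, 18509, 18522, 18567, 18585, 18648, 18716, 18840, 18881, 19017, 19105, 19206, 19268, 19296, 19360, 19463, 19974, 20503, 20636, 20755, 20757, 20898, 21525, 21672, 21777, 21825, 22082, 22145, 22160, 22535, 22690, 22704, 22849, 22914, 23049, 23112, 23570, 23632, 23681, 23812, 24662, 24668, 24696, 24711, 24729, 24858, 24874, 24972, 25025, 25126, 25129, 25186, 25222, 25249, 25480, 25628, 25650, 25656, 25669, 25896, 25988, 26178, 26208, 26631, 26649, 26758, 26776, 26904, 26945, 27072, 27169, 27204, 27296, 27408, 27684, 28713, 28753, 29250, 29825, 29856, 30272, 30336, 31745, 31872]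

theorem localOK_5_47_23 : LocalOK 5 47 2 6 LR5_47_23 LA5_47_23 := by
  have hp : Fact (Nat.Prime 47) := ⟨by norm_num⟩
  exact local_ok 5 47 23 2 6 (by norm_num) (by norm_num) (by decide) (by norm_num) _
    tab_23_5_eq rotOK_5 lcert5_47_23 lcert5_47_23_ok lcert5_47_23_types LR5_47_23 LA5_47_23 (by decide +kernel)
    (by decide +kernel)

end Poonen
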