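import Pool.Agent.Poonen.Tabs
import Pool.Agent.Poonen.Local3
import Pool.Agent.Poonen.Loc5_59_29_p0
import Pool.Agent.Poonen.Loc5_59_29_p1
import Pool.Agent.Poonen.Loc5_59_29_p2

/-!
# Local constraint for `N = 5`, `p = 59`, `q = 29` (MP_7564fc_nt)
-/

namespace Poonen

/-- Local types and exceptional sets. -/
def lcert5_59_29 : List (ℕ × ℕ × List ℕ) := [(2, 19, [4505, 6482, 19730, 25649]),
  (23, 51, [7760, 12429, 13356, 20510, 21080]),
  (26, 18, [2261, 5921, 8673]),
  (34, 0, [1806, 3370, 5390, 5646, 5894, 5900, 6190, 6600, 7460, 8782, 10311, 16754, 17300, 22662]),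
  (47, 0, [5329])]

theorem lcert5_59_29_ok : ∀ e ∈ lcert5_59_29, ∃ ys els,
    chkTypeG 5 59 29 2 6 tab_29_5 e.1 e.2.1 ys els e.2.2 = true := by
  intro e he
  simp only [lcert5_59_29, List.mem_cons, List.not_mem_nil, or_false] at he
  rcases he with rfl | rfl | rfl | rfl | rfl
  · exact ⟨_, _, loc5_59_29_0⟩
  · exact ⟨_, _, loc5_59_29_1⟩
  · exact ⟨_, _, loc5_59_29_2⟩
  · exact ⟨_, _, loc5_59_29_3⟩
  · exact ⟨_, _, loc5_59_29_4⟩

theorem lcert5_59_29_types : chkTypes 5 59 (lcert5_59_29.map fun e => (e.1, e.2.1)) = true := by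
  decide +kernel

/-- Exceptional sets, relative. -/
def LR5_59_29 : List ℕ := [1806, 2261, 3370, 4505, 5329, 5390, 5646, 5894, 5900, 5921, 6190, 6482, 6600, 7460, 7760, 8673, 8782, 10311, 12429, 13356, 16754, 17300, 19730, 20510, 21080, 22662, 25649]

/-- Exceptional sets, absolute. -/
def LA5_59_29 : List ℕ := [250, 619, 748, 826, 846, 858, 867, 903, 1309, 1337, 1708, 1714, 1806, 1834, 1954, 2230, 2261, 2606, 2730, 2886, 3269, 3342, 3370, 3888, 4155, 4217, 4410, 4430, 4437, 4442, 4505, 4530, 4659, 4666, 4686, 4691, 4698, 4806, 4914, 4920, 4934, 4940, 4946, 4952, 5262, 5329, 5390, 5418, 5528, 5538, 5645, 5646, 5674, 5894, 5900, 5921, 5922, 5928, 6032, 6190, 6249, 6482, 6600, 6677, 7436, 7460, 7748, 7760, 8493, 8506, 8673, 8782, 9036, 9291, 9294, 9874, 9889, 9996, 10050, 10311, 10452, 10480, 10563, 10778, 10789, 11616, 12342, 12374, 12429, 12514, 12632, 13356, 13953, 14144, 14609, 16128, 16754, 16954, 16997, 17219, 17236, 17300, 17573, 17605, 17762,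 17990, 18120, 18216, 18455, 18489, 18985, 19138, 19608, 19730, 20225, 20510, 20764, 21068, 21080, 21328, 21515, 22662, 22820, 23684, 24746, 24984, 25040, 25628, 25637, 25649, 26736, 27696, 28686, 29472, 29888]

theorem localOK_5_59_29 : LocalOK 5 59 2 6 LR5_59_29 LA5_59_29 := by
  have hp : Fact (Nat.Prime 59) := ⟨by norm_num⟩
  exact local_ok 5 59 29 2 6 (by norm_num) (by norm_num) (by decide) (by norm_num) _
    tab_29_5_eq rotOK_5 lcert5_59_29 lcert5_59_29_ok lcert5_59_29_types LR5_59_29 LA5_59_29 (by decide +kernel)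
    (by decide +kernel)

end Poonen
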