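import Pool.Agent.Poonen.Loc5_19_3
import Pool.Agent.Poonen.Loc5_13_3
import Pool.Agent.Poonen.Loc5_13_2
import Pool.Agent.Poonen.Loc5_17_2
import Pool.Agent.Poonen.Loc5_41_5
import Pool.Agent.Poonen.Loc5_47_23
import Pool.Agent.Poonen.Loc5_59_29

/-!
# Comparison of the exceptional sets, `N = 5`, at most six bad primes (MP_7564fc_nt)
-/

namespace Poonen

/-- The list of exceptional sets with at most `k` elements. -/
def flt (N k : ℕ) (L : List ℕ) : List ℕ := L.filter fun b => Nat.ble (pc (2 ^ (N - 1)) b) k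

theorem leaf5_1 : combAll (2 ^ (5 - 1)) 6 [flt 5 5 LA5_13_3, flt 5 5 LA5_13_2]
    (flt 5 5 LR5_19_3) = [] := by
  decide +kernel

theorem leaf5_2 : combAll (2 ^ (5 - 1)) 6 [flt 5 6 LA5_59_29] (flt 5 5 LR5_19_3) = [] := by
  decide +kernel

theorem leaf5_3 : combAll (2 ^ (5 - 1)) 6 [flt 5 6 LA5_47_23, flt 5 5 LA5_41_5]
    (flt 5 5 LR5_19_3) = [] := by
  decide +kernel

theorem leaf5_4 : combAll (2 ^ (5 - 1)) 6 [flt 5 6 LA5_47_23, flt 5 4 LA5_17_2]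
    (flt 5 5 LR5_13_3) = [] := by
  decide +kernel

theorem leaf5_5 : combAll (2 ^ (5 - 1)) 6 [flt 5 3 LA5_17_2] (flt 5 4 LR5_13_3) = [] := by
  decide +kernel

theorem leaf5_6 : combAll (2 ^ (5 - 1)) 6 [flt 5 6 LA5_59_29, flt 5 6 LA5_47_23]
    (flt 5 5 LR5_13_3) = [] := by
  decide +kernel

theorem leaf5_7 : combAll (2 ^ (5 - 1)) 6 [flt 5 6 LA5_47_23, flt 5 3 LA5_17_2]
    (flt 5 6 LR5_59_29) = [] := by
  decide +kernel

end Poonen
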