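import Pool.Agent.Poonen.Tabs
import Pool.Agent.Poonen.LocalSets

/-!
# Local checks for `N = 5`, `p = 19`, `q = 3` (MP_7564fc_nt)
-/

namespace Poonen

def ys5_19_3_0 : List (List ℕ) := [[2, 1, 1, 2, 0, 2, 2, 1, 0, 0],
   [0, 1, 2, 0, 2, 0, 1, 1, 0, 0],
   [1, 0, 2, 1, 1, 1, 0, 0, 0, 0],
   [2, 2, 2, 2, 0, 1, 1, 0, 0, 0],
   [0, 0, 2, 0, 1, 2, 1, 1, 0, 0],
   [1, 2, 0, 1, 2, 2, 0, 1, 0, 0],
   [1, 0, 2, 1, 1, 0, 2, 1, 0, 0],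
   [0, 2, 0, 0, 2, 1, 2, 1, 0, 0],
   [2, 2, 0, 1, 2, 2, 2, 1, 0, 0],
   [0, 1, 0, 2, 0, 2, 2, 1, 0, 0],
   [1, 2, 1, 2, 2, 2, 2, 1, 0, 0],
   [1, 1, 0, 0, 2, 1, 0, 1, 0, 0],
   [1, 0, 0, 1, 2, 2, 1, 0, 0, 0],
   [1, 2, 2, 1, 1, 1, 0, 1, 0, 0],
   [2, 0, 1, 0, 2, 0, 1, 1, 0, 0],
   [0, 2, 1, 1, 0, 0, 1, 1, 0, 0]]

def els5_19_3_0 : List (ℕ × ℕ) := [(0, 46591), (1, 65477), (2, 65333), (3, 65339), (4, 65362), (5, 65436), (6, 65390), (7, 31487), (8, 65521), (9, 65322), (10, 65481), (11, 58367), (12, 65414), (13, 19967), (14, 40703)]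

theorem loc5_19_3_0 : chkTypeG 5 19 3 6 5 tab_3_5 13 0 ys5_19_3_0 els5_19_3_0
    [8835, 27138] = true :=
  chkTypeG_of (by decide +kernel) (by decide +kernel) (by decide +kernel) (by decide +kernel)

end Poonen
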