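import Pool.Agent.Poonen.Tabs
import Pool.Agent.Poonen.Local3
import Pool.Agent.Poonen.Loc5_19_3_p0

/-!
# Local constraint for `N = 5`, `p = 19`, `q = 3` (MP_7564fc_nt)
-/

namespace Poonen

/-- Local types and exceptional sets. -/
def lcert5_19_3 : List (ℕ × ℕ × List ℕ) := [(13, 0, [8835, 27138])]

theorem lcert5_19_3_ok : ∀ e ∈ lcert5_19_3, ∃ ys els,
    chkTypeG 5 19 3 6 5 tab_3_5 e.1 e.2.1 ys els e.2.2 = true := by
  intro e he
  simp only [lcert5_19_3, List.mem_cons, List.not_mem_nil, or_false] at he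
  subst he
  exact ⟨_, _, loc5_19_3_0⟩

theorem lcert5_19_3_types : chkTypes 5 19 (lcert5_19_3.map fun e => (e.1, e.2.1)) = true := by
  decide +kernel

/-- Exceptional sets, relative. -/
def LR5_19_3 : List ℕ := [8835, 27138]

/-- Exceptional sets, absolute. -/
def LA5_19_3 : List ℕ := [2945, 8835, 10251, 14472, 16523, 22537, 22912, 25472, 27138, 28929]

theorem localOK_5_19_3 : LocalOK 5 19 6 5 LR5_19_3 LA5_19_3 := by
  have hp : Fact (Nat.Prime 19) := ⟨by norm_num⟩
  exact local_ok 5 19 3 6 5 (by norm_num) (by norm_num) (by decide) (by norm_num) _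
    tab_3_5_eq rotOK_5 lcert5_19_3 lcert5_19_3_ok lcert5_19_3_types LR5_19_3 LA5_19_3 (by decide +kernel)
    (by decide +kernel)

end Poonen
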