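import Pool.Agent.Poonen.Defs

/-!
# Tables of exponent vectors (MP_7564fc_nt)
-/

namespace Poonen

/-- Exponent vectors modulo 2 of the words of length 5. -/
def tab_2_5 : List (ℕ × List ℕ) := [(0, [3, 2, 1, 1, 1, 1, 0, 1, 1, 1]), (1, [1, 0, 2, 0, 1, 1, 1, 0, 1, 1]), (2, [0, 1, 0, 3, 1, 1, 0, 1, 0, 1]), (3, [1, 1, 1, 0, 0, 1, 2, 1, 0, 1]), (4, [1, 0, 1, 1, 3, 0, 0, 1, 1, 0]), (5, [1, 3, 0, 1, 1, 0, 1, 0, 1, 0]), (6, [0, 1, 1, 1, 0, 1, 0, 1, 3, 0]), (7, [1, 1, 1, 1, 1, 1, 3, 2, 1, 0]), (8, [2, 1, 1, 0, 1, 1, 1, 0, 0, 1]), (9, [1, 0, 1, 1, 0, 1, 1, 1, 0, 2]), (10, [0, 1, 0, 0, 1, 0, 1, 3, 1, 1]), (11, [1, 1, 1, 2, 1, 0, 1, 1, 1, 3]), (12, [1, 0, 1, 1, 0, 2, 1, 0, 1, 1]), (13, [1, 1, 0, 1, 1, 3, 1, 1, 2, 1]), (14, [0, 1, 3, 1, 2, 1, 1, 1, 1, 1])]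

theorem tab_2_5_eq : tab_2_5 = wtable 2 5 := by decide +kernel

/-- Exponent vectors modulo 3 of the words of length 5. -/
def tab_3_5 : List (ℕ × List ℕ) := [(0, [3, 2, 2, 1, 2, 2, 0, 2, 2, 2]), (1, [2, 0, 2, 0, 1, 2, 1, 0, 2, 2]), (2, [0, 2, 0, 3, 2, 1, 0, 2, 0, 2]), (3, [2, 2, 2, 0, 0, 1, 2, 1, 0, 2]), (4, [1, 0, 2, 2, 3, 0, 0, 2, 2, 0]), (5, [2, 3, 0, 2, 2, 0, 1, 0, 2, 0]), (6, [0, 2, 1, 2, 0, 2, 0, 2, 3, 0]), (7, [2, 2, 2, 2, 2, 2, 3, 2, 1, 0]), (8, [2, 1, 2, 0, 2, 2, 2, 0, 0, 1]), (9, [2, 0, 1, 1, 0, 2, 2, 2, 0, 2]), (10, [0, 2, 0, 0, 2, 0, 2, 3, 2, 1]), (11, [2, 2, 2, 2, 1, 0, 2, 2, 2, 3]), (12, [1, 0, 2, 2, 0, 2, 2, 0, 1, 2]), (13, [2, 1, 0, 2, 2, 3, 2, 2, 2, 2]), (14, [0, 2, 3, 2, 2, 2, 2, 1, 2, 2])]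

theorem tab_3_5_eq : tab_3_5 = wtable 3 5 := by decide +kernel

/-- Exponent vectors modulo 5 of the words of length 5. -/
def tab_5_5 : List (ℕ × List ℕ) := [(0, [3, 2, 4, 1, 4, 4, 0, 4, 4, 4]), (1, [4, 0, 2, 0, 1, 4, 1, 0, 4, 4]), (2, [0, 4, 0, 3, 4, 1, 0, 4, 0, 4]), (3, [4, 4, 4, 0, 0, 1, 2, 1, 0, 4]), (4, [1, 0, 4, 4, 3, 0, 0, 4, 4, 0]), (5, [4, 3, 0, 4, 4, 0, 1, 0, 4, 0]), (6, [0, 4, 1, 4, 0, 4, 0, 4, 3, 0]), (7, [4, 4, 4, 4, 4, 4, 3, 2, 1, 0]), (8, [2, 1, 4, 0, 4, 4, 4, 0, 0, 1]), (9, [4, 0, 1, 1, 0, 4, 4, 4, 0, 2]), (10, [0, 4, 0, 0, 4, 0, 4, 3, 4, 1]), (11, [4, 4, 4, 2, 1, 0, 4, 4, 4, 3]), (12, [1, 0, 4, 4, 0, 2, 4, 0, 1, 4]), (13, [4, 1, 0, 4, 4, 3, 4, 4, 2, 4]), (14, [0, 4, 3, 4, 2, 4, 4, 1, 4, 4])]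

theorem tab_5_5_eq : tab_5_5 = wtable 5 5 := by decide +kernel

/-- Exponent vectors modulo 23 of the words of length 5. -/
def tab_23_5 : List (ℕ × List ℕ) := [(0, [3, 2, 22, 1, 22, 22, 0, 22, 22, 22]), (1, [22, 0, 2, 0, 1, 22, 1, 0, 22, 22]), (2, [0, 22, 0, 3, 22, 1, 0, 22, 0, 22]), (3, [22, 22, 22, 0, 0, 1, 2, 1, 0, 22]), (4, [1, 0, 22, 22, 3, 0, 0, 22, 22, 0]), (5, [22, 3, 0, 22, 22, 0, 1, 0, 22, 0]), (6, [0, 22, 1, 22, 0, 22, 0, 22, 3, 0]), (7, [22, 22, 22, 22, 22, 22, 3, 2, 1, 0]), (8, [2, 1, 22, 0, 22, 22, 22, 0, 0, 1]), (9, [22, 0, 1, 1, 0, 22, 22, 22, 0, 2]), (10, [0, 22, 0, 0, 22, 0, 22, 3, 22, 1]), (11, [22, 22, 22, 2, 1, 0, 22, 22, 22, 3]), (12, [1, 0, 22, 22, 0, 2, 22, 0, 1, 22]), (13, [22, 1, 0, 22, 22, 3, 22, 22, 2, 22]), (14, [0,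 22, 3, 22, 2, 22, 22, 1, 22, 22])]

theorem tab_23_5_eq : tab_23_5 = wtable 23 5 := by decide +kernel

/-- Exponent vectors modulo 29 of the words of length 5. -/
def tab_29_5 : List (ℕ × List ℕ) := [(0, [3, 2, 28, 1, 28, 28, 0, 28, 28, 28]), (1, [28, 0, 2, 0, 1, 28, 1, 0, 28, 28]), (2, [0, 28, 0, 3, 28, 1, 0, 28, 0, 28]), (3, [28, 28, 28, 0, 0, 1, 2, 1, 0, 28]), (4, [1, 0, 28, 28, 3, 0, 0, 28, 28, 0]), (5, [28, 3, 0, 28, 28, 0, 1, 0, 28, 0]), (6, [0, 28, 1, 28, 0, 28, 0, 28, 3, 0]), (7, [28, 28, 28, 28, 28, 28, 3, 2, 1, 0]), (8, [2, 1, 28, 0, 28, 28, 28, 0, 0, 1]), (9, [28, 0, 1, 1, 0, 28, 28, 28, 0, 2]), (10, [0, 28, 0, 0, 28, 0, 28, 3, 28, 1]), (11, [28, 28, 28, 2, 1, 0, 28, 28, 28, 3]), (12, [1, 0, 28, 28, 0, 2, 28, 0, 1, 28]), (13, [28, 1, 0,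 28, 28, 3, 28, 28, 2, 28]), (14, [0, 28, 3, 28, 2, 28, 28, 1, 28, 28])]

theorem tab_29_5_eq : tab_29_5 = wtable 29 5 := by decide +kernel

end Poonen
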