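import Pool.Agent.Poonen.Defs

/-!
# Table of exponent vectors modulo 2 of the words of length 8 (MP_7564fc_nt)
-/

namespace Poonen

/-- Exponent vectors modulo 2 of the words of length 8. -/
def tab_2_8 : List (ℕ × List ℕ) := [(0, [6, 5, 1, 4, 1, 1, 3, 1, 1, 1, 2, 1, 1, 1, 1, 1, 1, 1, 1, 1, 1, 0, 1, 1, 1, 1, 1, 1]),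
  (1, [1, 0, 5, 0, 4, 1, 0, 3, 1, 1, 0, 2, 1, 1, 1, 0, 1, 1, 1, 1, 1, 1, 0, 1, 1, 1, 1, 1]),
  (2, [0, 1, 0, 1, 1, 4, 1, 1, 3, 1, 1, 1, 2, 1, 1, 3, 1, 1, 1, 1, 1, 0, 1, 0, 1, 1, 1, 1]),
  (3, [1, 1, 1, 0, 0, 4, 0, 0, 3, 1, 0, 0, 2, 1, 1, 0, 0, 1, 1, 1, 1, 2, 1, 0, 1, 1, 1, 1]),
  (4, [1, 0, 1, 1, 1, 0, 2, 1, 1, 3, 5, 1, 1, 2, 1, 1, 1, 1, 1, 1, 1, 0, 1, 1, 0, 1, 1, 1]),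
  (5, [1, 2, 0, 1, 1, 0, 0, 1, 1, 3, 0, 1, 1, 2, 1, 0, 2, 1, 1, 1, 1, 1, 0, 1, 0, 1, 1, 1]),
  (6, [0, 1, 1, 1, 0, 1, 1, 1, 0, 3, 1, 1, 0, 2, 1, 2, 1, 0, 1, 1, 1, 0, 1, 2, 0, 1, 1, 1]),
  (7, [1, 1, 1, 1, 1, 1, 0, 0, 0, 3, 0, 0, 0, 2, 1, 0, 0, 0, 1, 1, 1, 3, 2, 1, 0, 1, 1, 1]),
  (9, [1, 0, 1, 3, 0, 1, 1, 1, 1, 0, 0, 3, 1, 1, 2, 0, 1, 1, 1, 1, 1, 1, 0, 1, 1, 0, 1, 1]),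
  (10, [0, 1, 0, 0, 1, 0, 1, 0, 1, 0, 1, 1, 1, 1, 2, 5, 1, 3, 1, 1, 1, 0, 1, 0, 1, 0, 1, 1]),
  (11, [1, 1, 1, 1, 2, 0, 1, 1, 1, 0, 0, 0, 1, 1, 2, 0, 0, 2, 1, 1, 1, 2, 1, 0, 1, 0, 1, 1]),
  (12, [1, 0, 1, 1, 0, 1, 1, 1, 0, 1, 3, 1, 1, 0, 2, 1, 1, 1, 0, 1, 1, 0, 1, 1, 3, 0, 1, 1]),
  (13, [1, 1, 0, 1, 1, 1, 1, 1, 0, 1, 0, 1, 1, 0, 2, 0, 4, 1, 0, 1, 1, 1, 0, 1, 1, 0, 1, 1]),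
  (14, [0, 1, 2, 1, 1, 1, 1, 0, 1, 1, 1, 1, 0, 0, 2, 2, 1, 0, 0, 1, 1, 0, 1, 1, 2, 0, 1, 1]),
  (15, [1, 1, 1, 1, 1, 1, 1, 1, 1, 1, 0, 0, 0, 0, 2, 0, 0, 0, 0, 1, 1, 4, 3, 2, 1, 0, 1, 1]),
  (16, [3, 2, 1, 1, 1, 1, 0, 1, 1, 1, 1, 2, 5, 1, 0, 1, 1, 1, 1, 1, 1, 0, 1, 1, 1, 1, 0, 1]),
  (17, [1, 0, 2, 0, 1, 1, 3, 0, 1, 1, 1, 1, 3, 1, 0, 0, 1, 1, 1, 1, 1, 1, 0, 1, 1, 1, 0, 1]),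
  (18, [0, 1, 0, 6, 1, 1, 0, 1, 0, 1, 1, 0, 1, 1, 0, 3, 1, 1, 1, 1, 1, 0, 1, 0, 1, 1, 0, 1]),
  (19, [1, 1, 1, 0, 0, 1, 1, 4, 0, 1, 1, 1, 1, 1, 0, 0, 0, 1, 1, 1, 1, 2, 1, 0, 1, 1, 0, 1]),
  (20, [1, 0, 1, 1, 3, 0, 0, 1, 1, 0, 1, 1, 0, 1, 0, 1, 1, 1, 6, 1, 1, 0, 1, 1, 0, 1, 0, 1]),
  (21, [1, 4, 0, 1, 1, 0, 2, 0, 1, 0, 1, 1, 0, 1, 0, 0, 2, 1, 2, 1, 1, 1, 0, 1, 0, 1, 0, 1]),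
  (22, [0, 1, 1, 1, 0, 1, 0, 1, 2, 0, 1, 0, 1, 1, 0, 2, 1, 0, 3, 1, 1, 0, 1, 3, 0, 1, 0, 1]),
  (23, [1, 1, 1, 1, 1, 1, 1, 1, 2, 0, 1, 1, 1, 1, 0, 0, 0, 0, 2, 1, 1, 3, 2, 1, 0, 1, 0, 1]),
  (24, [2, 1, 1, 0, 1, 1, 1, 0, 0, 1, 1, 3, 1, 0, 1, 1, 1, 1, 1, 0, 1, 0, 1, 1, 1, 3, 0, 1]),
  (26, [0, 1, 0, 0, 1, 0, 1, 2, 1, 1, 1, 0, 1, 0, 1, 4, 1, 2, 1, 0, 1, 0, 1, 0, 1, 2, 0, 1]),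
  (27, [1, 1, 1, 3, 1, 0, 1, 1, 1, 1, 1, 1, 1, 0, 1, 0, 0, 3, 1, 0, 1, 2, 1, 0, 1, 1, 0, 1]),
  (28, [1, 0, 1, 1, 0, 2, 1, 0, 1, 1, 1, 1, 0, 1, 1, 1, 1, 1, 0, 0, 1, 0, 1, 1, 1, 4, 0, 1]),
  (29, [1, 1, 0, 1, 1, 2, 1, 1, 1, 1, 1, 1, 0, 1, 1, 0, 3, 1, 0, 0, 1, 1, 0, 1, 3, 1, 0, 1]),
  (30, [0, 1, 3, 1, 2, 1, 1, 1, 1, 1, 1, 0, 1, 1, 1, 2, 1, 0, 0, 0, 1, 0, 1, 1, 1, 2, 0, 1]),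
  (31, [1, 1, 1, 1, 1, 1, 1, 1, 1, 1, 1, 1, 1, 1, 1, 0, 0, 0, 0, 0, 1, 5, 4, 3, 2, 1, 0, 1]),
  (32, [4, 3, 1, 2, 1, 1, 1, 1, 1, 1, 0, 1, 1, 1, 1, 1, 1, 1, 1, 3, 0, 0, 1, 1, 1, 1, 1, 0]),
  (33, [1, 0, 3, 0, 2, 1, 0, 1, 1, 1, 2, 0, 1, 1, 1, 1, 1, 1, 1, 2, 0, 1, 0, 1, 1, 1, 1, 0]),
  (34, [0, 1, 0, 1, 1, 2, 3, 1, 1, 1, 0, 1, 0, 1, 1, 1, 0, 1, 1, 5, 0, 0, 1, 0, 1, 1, 1, 0]),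
  (35, [1, 1, 1, 0, 0, 2, 0, 0, 1, 1, 1, 2, 0, 1, 1, 1, 1, 1, 1, 2, 0, 2, 1, 0, 1, 1, 1, 0]),
  (36, [1, 0, 1, 1, 1, 0, 1, 1, 1, 1, 0, 1, 1, 0, 1, 1, 6, 0, 1, 3, 0, 0, 1, 1, 0, 1, 1, 0]),
  (37, [1, 2, 0, 1, 1, 0, 0, 3, 1, 1, 3, 0, 1, 0, 1, 1, 1, 0, 1, 2, 0, 1, 0, 1, 0, 1, 1, 0]),
  (38, [0, 1, 1, 1, 0, 1, 2, 1, 0, 1, 0, 1, 2, 0, 1, 1, 0, 1, 1, 4, 0, 0, 1, 2, 0, 1, 1, 0]),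
  (39, [1, 1, 1, 1, 1, 1, 0, 0, 0, 1, 1, 1, 2, 0, 1, 1, 1, 1, 1, 2, 0, 3, 2, 1, 0, 1, 1, 0]),
  (40, [2, 1, 1, 0, 1, 1, 1, 1, 5, 0, 0, 1, 1, 1, 0, 1, 1, 3, 0, 1, 0, 0, 1, 1, 1, 0, 1, 0]),
  (41, [1, 0, 1, 2, 0, 1, 1, 1, 4, 0, 2, 0, 1, 1, 0, 1, 1, 2, 0, 1, 0, 1, 0, 1, 1, 0, 1, 0]),
  (43, [1, 1, 1, 1, 5, 0, 1, 1, 1, 0, 1, 3, 0, 1, 0, 1, 1, 1, 0, 1, 0, 2, 1, 0, 1, 0, 1, 0]),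
  (44, [1, 0, 1, 1, 0, 1, 1, 2, 0, 1, 0, 1, 1, 4, 0, 1, 2, 0, 1, 1, 0, 0, 1, 1, 2, 0, 1, 0]),
  (45, [1, 1, 0, 1, 1, 1, 1, 1, 0, 1, 6, 0, 1, 3, 0, 1, 1, 0, 1, 1, 0, 1, 0, 1, 1, 0, 1, 0]),
  (46, [0, 1, 2, 1, 1, 1, 1, 0, 1, 1, 0, 1, 1, 5, 0, 1, 0, 1, 1, 1, 0, 0, 1, 1, 3, 0, 1, 0]),
  (47, [1, 1, 1, 1, 1, 1, 1, 1, 1, 1, 1, 1, 1, 3, 0, 1, 1, 1, 1, 1, 0, 4, 3, 2, 1, 0, 1, 0]),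
  (48, [3, 2, 1, 1, 1, 1, 0, 1, 1, 1, 1, 0, 0, 0, 1, 1, 1, 1, 2, 0, 1, 0, 1, 1, 1, 1, 2, 0]),
  (49, [1, 0, 2, 0, 1, 1, 1, 0, 1, 1, 1, 1, 0, 0, 1, 1, 1, 1, 4, 0, 1, 1, 0, 1, 1, 1, 1, 0]),
  (50, [0, 1, 0, 2, 1, 1, 0, 1, 0, 1, 1, 2, 1, 0, 1, 1, 0, 1, 2, 0, 1, 0, 1, 0, 1, 1, 4, 0]),
  (51, [1, 1, 1, 0, 0, 1, 3, 1, 0, 1, 1, 1, 1, 0, 1, 1, 1, 1, 3, 0, 1, 2, 1, 0, 1, 1, 1, 0]),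
  (52, [1, 0, 1, 1, 2, 0, 0, 1, 1, 0, 1, 0, 3, 1, 1, 1, 3, 0, 1, 0, 1, 0, 1, 1, 0, 1, 2, 0]),
  (53, [1, 3, 0, 1, 1, 0, 1, 0, 1, 0, 1, 1, 6, 1, 1, 1, 1, 0, 1, 0, 1, 1, 0, 1, 0, 1, 1, 0]),
  (54, [0, 1, 1, 1, 0, 1, 0, 1, 1, 0, 1, 1, 1, 1, 1, 1, 0, 1, 1, 0, 1, 0, 1, 6, 0, 1, 3, 0]),
  (55, [1, 1, 1, 1, 1, 1, 2, 5, 1, 0, 1, 1, 1, 1, 1, 1, 1, 1, 1, 0, 1, 3, 2, 1, 0, 1, 1, 0]),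
  (56, [2, 1, 1, 0, 1, 1, 1, 0, 0, 2, 1, 0, 0, 1, 1, 1, 1, 2, 0, 1, 1, 0, 1, 1, 1, 1, 2, 0]),
  (57, [1, 0, 1, 1, 0, 1, 1, 1, 0, 2, 1, 1, 0, 1, 1, 1, 1, 3, 0, 1, 1, 1, 0, 1, 1, 3, 1, 0]),
  (58, [0, 1, 0, 0, 1, 0, 1, 1, 1, 2, 1, 3, 1, 1, 1, 1, 0, 1, 0, 1, 1, 0, 1, 0, 1, 1, 5, 0]),
  (60, [1, 0, 1, 1, 0, 3, 1, 0, 2, 1, 1, 0, 1, 1, 1, 1, 2, 0, 1, 1, 1, 0, 1, 1, 1, 1, 2, 0]),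
  (61, [1, 1, 0, 1, 1, 3, 1, 1, 2, 1, 1, 1, 1, 1, 1, 1, 1, 0, 1, 1, 1, 1, 0, 1, 2, 5, 1, 0]),
  (62, [0, 1, 4, 1, 3, 1, 1, 2, 1, 1, 1, 1, 1, 1, 1, 1, 0, 1, 1, 1, 1, 0, 1, 1, 1, 1, 3, 0]),
  (63, [1, 1, 1, 1, 1, 1, 1, 1, 1, 1, 1, 1, 1, 1, 1, 1, 1, 1, 1, 1, 1, 6, 5, 4, 3, 2, 1, 0]),
  (64, [5, 4, 1, 3, 1, 1, 2, 1, 1, 1, 1, 1, 1, 1, 1, 0, 1, 1, 1, 1, 1, 1, 0, 0, 0, 0, 0, 1]),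
  (65, [1, 0, 4, 0, 3, 1, 0, 2, 1, 1, 0, 1, 1, 1, 1, 1, 0, 1, 1, 1, 1, 1, 1, 0, 0, 0, 0, 2]),
  (66, [0, 1, 0, 1, 1, 3, 1, 1, 2, 1, 2, 1, 1, 1, 1, 0, 1, 0, 1, 1, 1, 1, 2, 1, 0, 0, 0, 1]),
  (67, [1, 1, 1, 0, 0, 3, 0, 0, 2, 1, 0, 0, 1, 1, 1, 2, 1, 0, 1, 1, 1, 1, 1, 1, 0, 0, 0, 3]),
  (68, [1, 0, 1, 1, 1, 0, 3, 1, 1, 2, 1, 1, 1, 1, 1, 0, 1, 1, 0, 1, 1, 1, 0, 3, 1, 0, 0, 1]),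
  (69, [1, 2, 0, 1, 1, 0, 0, 1, 1, 2, 0, 2, 1, 1, 1, 1, 0, 1, 0, 1, 1, 1, 1, 1, 1, 0, 0, 2]),
  (70, [0, 1, 1, 1, 0, 1, 1, 1, 0, 2, 4, 1, 0, 1, 1, 0, 1, 1, 0, 1, 1, 1, 1, 1, 1, 0, 0, 1]),
  (71, [1, 1, 1, 1, 1, 1, 0, 0, 0, 2, 0, 0, 0, 1, 1, 3, 2, 1, 0, 1, 1, 1, 1, 1, 1, 0, 0, 4]),
  (72, [2, 1, 1, 0, 1, 1, 1, 3, 1, 0, 1, 1, 1, 1, 1, 0, 1, 1, 1, 0, 1, 1, 0, 0, 3, 1, 0, 1]),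
  (73, [1, 0, 1, 4, 0, 1, 1, 1, 1, 0, 0, 1, 1, 1, 1, 1, 0, 1, 1, 0, 1, 1, 1, 0, 1, 1, 0, 2]),
  (74, [0, 1, 0, 0, 1, 0, 1, 0, 1, 0, 2, 1, 2, 1, 1, 0, 1, 0, 1, 0, 1, 1, 4, 1, 2, 1, 0, 1]),
  (75, [1, 1, 1, 1, 2, 0, 1, 1, 1, 0, 0, 0, 2, 1, 1, 2, 1, 0, 1, 0, 1, 1, 1, 1, 1, 1, 0, 3]),
  (77, [1, 1, 0, 1, 1, 1, 1, 1, 0, 1, 0, 3, 1, 0, 1, 1, 0, 1, 1, 0, 1, 1, 1, 3, 1, 1, 0, 2]),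
  (78, [0, 1, 2, 1, 1, 1, 1, 0, 1, 1, 3, 1, 0, 0, 1, 0, 1, 3, 1, 0, 1, 1, 1, 1, 1, 1, 0, 1]),
  (79, [1, 1, 1, 1, 1, 1, 1, 1, 1, 1, 0, 0, 0, 0, 1, 4, 3, 2, 1, 0, 1, 1, 1, 1, 1, 1, 0, 5]),
  (80, [3, 2, 1, 1, 1, 1, 0, 1, 1, 1, 1, 1, 1, 2, 0, 0, 1, 1, 1, 1, 0, 1, 0, 0, 0, 2, 1, 1]),
  (81, [1, 0, 2, 0, 1, 1, 2, 0, 1, 1, 1, 1, 1, 2, 0, 1, 0, 1, 1, 1, 0, 1, 1, 0, 0, 1, 1, 2]),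
  (82, [0, 1, 0, 3, 1, 1, 0, 1, 0, 1, 1, 0, 1, 2, 0, 0, 1, 0, 1, 1, 0, 1, 2, 1, 0, 3, 1, 1]),
  (83, [1, 1, 1, 0, 0, 1, 1, 2, 0, 1, 1, 1, 1, 2, 0, 2, 1, 0, 1, 1, 0, 1, 1, 1, 0, 1, 1, 3]),
  (84, [1, 0, 1, 1, 4, 0, 0, 1, 1, 0, 1, 2, 0, 1, 0, 0, 1, 1, 0, 1, 0, 1, 0, 2, 1, 2, 1, 1]),
  (85, [1, 5, 0, 1, 1, 0, 3, 0, 1, 0, 1, 1, 0, 1, 0, 1, 0, 1, 0, 1, 0, 1, 1, 1, 1, 1, 1, 2]),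
  (86, [0, 1, 1, 1, 0, 1, 0, 1, 3, 0, 1, 0, 1, 1, 0, 0, 1, 1, 0, 1, 0, 1, 1, 1, 1, 6, 1, 1]),
  (87, [1, 1, 1, 1, 1, 1, 1, 1, 3, 0, 1, 1, 1, 1, 0, 3, 2, 1, 0, 1, 0, 1, 1, 1, 1, 1, 1, 4]),
  (88, [2, 1, 1, 0, 1, 1, 1, 0, 0, 1, 1, 1, 4, 0, 1, 0, 1, 1, 1, 1, 0, 1, 0, 0, 1, 1, 1, 1]),
  (89, [1, 0, 1, 1, 0, 1, 1, 1, 0, 1, 1, 1, 3, 0, 1, 1, 0, 1, 1, 1, 0, 1, 1, 0, 3, 1, 1, 2]),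
  (90, [0, 1, 0, 0, 1, 0, 1, 6, 1, 1, 1, 0, 1, 0, 1, 0, 1, 0, 1, 1, 0, 1, 3, 1, 1, 1, 1, 1]),
  (91, [1, 1, 1, 5, 1, 0, 1, 1, 1, 1, 1, 1, 1, 0, 1, 2, 1, 0, 1, 1, 0, 1, 1, 1, 2, 1, 1, 3]),
  (92, [1, 0, 1, 1, 0, 2, 1, 0, 1, 1, 1, 3, 0, 1, 1, 0, 1, 1, 3, 1, 0, 1, 0, 1, 1, 1, 1, 1]),
  (94, [0, 1, 3, 1, 2, 1, 1, 1, 1, 1, 1, 0, 1, 1, 1, 0, 1, 2, 5, 1, 0, 1, 1, 1, 1, 1, 1, 1]),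
  (95, [1, 1, 1, 1, 1, 1, 1, 1, 1, 1, 1, 1, 1, 1, 1, 5, 4, 3, 2, 1, 0, 1, 1, 1, 1, 1, 1, 6]),
  (96, [4, 3, 1, 2, 1, 1, 1, 1, 1, 1, 0, 1, 1, 1, 1, 1, 0, 0, 0, 0, 2, 1, 0, 0, 0, 0, 1, 1]),
  (97, [1, 0, 3, 0, 2, 1, 0, 1, 1, 1, 1, 0, 1, 1, 1, 1, 1, 0, 0, 0, 3, 1, 1, 0, 0, 0, 2, 1]),
  (98, [0, 1, 0, 1, 1, 2, 2, 1, 1, 1, 0, 1, 0, 1, 1, 1, 1, 1, 0, 0, 2, 1, 2, 1, 0, 0, 1, 1]),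
  (99, [1, 1, 1, 0, 0, 2, 0, 0, 1, 1, 2, 1, 0, 1, 1, 1, 1, 1, 0, 0, 4, 1, 1, 1, 0, 0, 3, 1]),
  (100, [1, 0, 1, 1, 1, 0, 1, 1, 1, 1, 0, 1, 1, 0, 1, 1, 0, 1, 1, 0, 2, 1, 0, 4, 1, 0, 1, 1]),
  (101, [1, 2, 0, 1, 1, 0, 0, 2, 1, 1, 1, 0, 1, 0, 1, 1, 1, 1, 1, 0, 3, 1, 1, 1, 1, 0, 2, 1]),
  (102, [0, 1, 1, 1, 0, 1, 3, 1, 0, 1, 0, 1, 1, 0, 1, 1, 3, 1, 1, 0, 2, 1, 1, 1, 1, 0, 1, 1]),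
  (103, [1, 1, 1, 1, 1, 1, 0, 0, 0, 1, 3, 2, 1, 0, 1, 1, 1, 1, 1, 0, 5, 1, 1, 1, 1, 0, 4, 1]),
  (104, [2, 1, 1, 0, 1, 1, 1, 1, 2, 0, 0, 1, 1, 1, 0, 1, 0, 0, 1, 1, 2, 1, 0, 0, 2, 1, 1, 1]),
  (105, [1, 0, 1, 2, 0, 1, 1, 1, 2, 0, 1, 0, 1, 1, 0, 1, 1, 0, 1, 1, 3, 1, 1, 0, 1, 1, 2, 1]),
  (106, [0, 1, 0, 0, 1, 0, 1, 0, 1, 0, 0, 1, 0, 1, 0, 1, 1, 1, 1, 1, 2, 1, 5, 1, 3, 1, 1, 1]),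
  (107, [1, 1, 1, 1, 3, 0, 1, 1, 1, 0, 2, 1, 0, 1, 0, 1, 1, 1, 1, 1, 4, 1, 1, 1, 1, 1, 3, 1]),
  (108, [1, 0, 1, 1, 0, 1, 1, 3, 0, 1, 0, 1, 1, 1, 0, 1, 0, 3, 1, 1, 2, 1, 0, 1, 1, 1, 1, 1]),
  (109, [1, 1, 0, 1, 1, 1, 1, 1, 0, 1, 1, 0, 1, 1, 0, 1, 1, 2, 1, 1, 3, 1, 1, 5, 1, 1, 2, 1]),
  (111, [1, 1, 1, 1, 1, 1, 1, 1, 1, 1, 4, 3, 2, 1, 0, 1, 1, 1, 1, 1, 6, 1, 1, 1, 1, 1, 5, 1]),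
  (112, [3, 2, 1, 1, 1, 1, 0, 1, 1, 1, 1, 0, 0, 0, 3, 1, 0, 0, 0, 2, 1, 1, 0, 0, 0, 1, 1, 1]),
  (113, [1, 0, 2, 0, 1, 1, 1, 0, 1, 1, 1, 1, 0, 0, 4, 1, 1, 0, 0, 3, 1, 1, 1, 0, 0, 2, 1, 1]),
  (114, [0, 1, 0, 2, 1, 1, 0, 1, 0, 1, 1, 1, 1, 0, 3, 1, 1, 1, 0, 2, 1, 1, 2, 1, 0, 1, 1, 1]),
  (115, [1, 1, 1, 0, 0, 1, 2, 1, 0, 1, 1, 1, 1, 0, 5, 1, 1, 1, 0, 4, 1, 1, 1, 1, 0, 3, 1, 1]),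
  (116, [1, 0, 1, 1, 2, 0, 0, 1, 1, 0, 1, 0, 1, 1, 3, 1, 0, 1, 1, 2, 1, 1, 0, 2, 1, 1, 1, 1]),
  (117, [1, 3, 0, 1, 1, 0, 1, 0, 1, 0, 1, 1, 1, 1, 4, 1, 1, 1, 1, 3, 1, 1, 1, 1, 1, 2, 1, 1]),
  (118, [0, 1, 1, 1, 0, 1, 0, 1, 1, 0, 1, 2, 1, 1, 3, 1, 5, 1, 1, 2, 1, 1, 1, 1, 1, 1, 1, 1]),
  (119, [1, 1, 1, 1, 1, 1, 3, 2, 1, 0, 1, 1, 1, 1, 6, 1, 1, 1, 1, 5, 1, 1, 1, 1, 1, 4, 1, 1]),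
  (120, [2, 1, 1, 0, 1, 1, 1, 0, 0, 4, 1, 0, 0, 3, 1, 1, 0, 0, 2, 1, 1, 1, 0, 0, 1, 1, 1, 1]),
  (121, [1, 0, 1, 1, 0, 1, 1, 1, 0, 5, 1, 1, 0, 4, 1, 1, 1, 0, 3, 1, 1, 1, 1, 0, 2, 1, 1, 1]),
  (122, [0, 1, 0, 0, 1, 0, 1, 1, 1, 4, 1, 1, 1, 3, 1, 1, 1, 1, 2, 1, 1, 1, 3, 1, 1, 1, 1, 1]),
  (123, [1, 1, 1, 2, 1, 0, 1, 1, 1, 6, 1, 1, 1, 5, 1, 1, 1, 1, 4, 1, 1, 1, 1, 1, 3, 1, 1, 1]),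
  (124, [1, 0, 1, 1, 0, 5, 1, 0, 4, 1, 1, 0, 3, 1, 1, 1, 0, 2, 1, 1, 1, 1, 0, 1, 1, 1, 1, 1]),
  (125, [1, 1, 0, 1, 1, 6, 1, 1, 5, 1, 1, 1, 4, 1, 1, 1, 1, 3, 1, 1, 1, 1, 1, 2, 1, 1, 1, 1]),
  (126, [0, 1, 6, 1, 5, 1, 1, 4, 1, 1, 1, 3, 1, 1, 1, 1, 2, 1, 1, 1, 1, 1, 1, 1, 1, 1, 1, 1])]

theorem tab_2_8_eq : tab_2_8 = wtable 2 8 := by decide +kernel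

end Poonen
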